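import Pool.Agent.MQ3.WtN3
import Pool.Agent.H36.BPL.Defs

/-!
# MQL WtK: the weight along a curve in the open part `K`, from `IsForm` on `K`

As `MQ3/WtN3`: `F = cf ρ (p)` with `cf` analytic; `wt = cf ^ (-j) Wf (ρ; ∂₁ρ, ∂₂ρ) (p)`.
-/

set_option autoImplicit false

open Topology Filter Metric MvPolynomial

noncomputable section

namespace Pool.Agent.MQL

open Pool.Agent.H36.BP (EN)
open Pool.Agent.H36.BPL (OpenPart)
open Pool.Agent.H17BP (Surface IsForm)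
open Pool.Agent.H17EF (projVar coneE)
open Pool.Agent.MQ3

variable {M : ℕ} {P : Ideal (MvPolynomial (Fin (M + 1)) ℂ)} {RD : MvPolynomial (Fin (M + 1)) ℂ} {X : NCModel P RD} {K : Set (EN M)}
  {F : ℂ → EN M} {Wf : EN M → EN M → EN M → ℂ} {mK jH : ℕ}

/-- the points of the box in the open part -/
theorem rho_memK (hK : OpenPart (coneE P) K) {i : X.ι} {p : ℂ × ℂ} (hp : p ∈ X.B i) (hpK : X.ρ i p ∈ K) : ∀ᶠ q in 𝓝 p, X.ρ i q ∈ K := by
  have h1 := (wtn_rho_an hp).continuousAt.tendsto.eventually (hK.rel _ hpK)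
  filter_upwards [h1, wtn_rho_mem hp] with q h2 h3
  exact h2 h3

theorem rho_K (hK : OpenPart (coneE P) K) (Y : NCLift X F) {i : X.ι} {z : ℂ} (hz : z ∈ Y.U i) (hFz : F z ∈ K) : X.ρ i (Y.p i z) ∈ K := by
  obtain ⟨hc, he⟩ := cf_spec Y hz
  have h1 := hK.smul _ hFz _ (inv_ne_zero hc)
  rwa [he, smul_smul, inv_mul_cancel₀ hc, one_smul] at h1

/-- the tangent vectors of the box, for a multiple of the parametrization -/
theorem tan_boxK (hK : OpenPart (coneE P) K) {i : X.ι} {p : ℂ × ℂ} (hp : p ∈ X.B i) (hpK : X.ρ i p ∈ K) {c : ℂ} (hc : c ≠ 0) (v : ℂ × ℂ) :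
    c • fderiv ℂ (X.ρ i) p v ∈ Pool.Agent.H17BP.Tan K (c • X.ρ i p) := by
  have h0 : p + (0 : ℂ) • v = p := by simp
  have hl : AnalyticAt ℂ (fun t : ℂ => p + t • v) 0 := by fun_prop
  have hρ : AnalyticAt ℂ (X.ρ i) (p + (0 : ℂ) • v) := by
    rw [h0]
    exact wtn_rho_an hp
  have ha : AnalyticAt ℂ (fun t : ℂ => X.ρ i (p + t • v)) 0 := AnalyticAt.comp (g := X.ρ i) (f := fun t : ℂ => p + t • v) hρ hl
  have ht : Tendsto (fun t : ℂ => p + t • v) (𝓝 0) (𝓝 p) := by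
    have := hl.continuousAt.tendsto
    rwa [h0] at this
  refine ⟨fun t => c • X.ρ i (p + t • v), (analyticAt_const (v := c)).fun_smul ha, ?_, ?_, ?_⟩
  · filter_upwards [ht.eventually (rho_memK hK hp hpK)] with t h1
    exact hK.smul _ h1 c hc
  · show c • X.ρ i (p + (0 : ℂ) • v) = _
    rw [h0]
  · have h1 : HasFDerivAt (X.ρ i) (fderiv ℂ (X.ρ i) p) (p + (0 : ℂ) • v) := by
      rw [h0]
      exact (wtn_rho_an hp).differentiableAt.hasFDerivAt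
    have h2 : HasDerivAt (fun t : ℂ => p + t • v) v 0 := by
      have h3 : HasDerivAt (fun t : ℂ => t • v) ((1 : ℂ) • v) 0 := (hasDerivAt_id (0 : ℂ)).smul_const v
      rw [one_smul] at h3
      exact h3.const_add p
    exact ((h1.comp_hasDerivAt (0 : ℂ) h2).const_smul c).deriv

/-- the value of the form in the box -/
theorem wt_eqK (hK : OpenPart (coneE P) K) (hW : IsForm K mK jH Wf) (Y : NCLift X F) {i : X.ι} {z : ℂ} (hz : z ∈ Y.U i) (hFz : F z ∈ K) :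
    wt Wf Y i z = (cf Y i z ^ jH)⁻¹ * Wf (X.ρ i (Y.p i z)) (fderiv ℂ (X.ρ i) (Y.p i z) (1, 0)) (fderiv ℂ (X.ρ i) (Y.p i z) (0, 1)) := by
  have hm := Y.mem i z hz
  have hρK := rho_K hK Y hz hFz
  obtain ⟨hc, he⟩ := cf_spec Y hz
  have h1 := tan_boxK hK hm hρK one_ne_zero (1, 0)
  have h2 := tan_boxK hK hm hρK one_ne_zero (0, 1)
  rw [one_smul, one_smul] at h1 h2
  have h3 := hW.scale _ hρK _ h1 _ h2 (cf Y i z) hc
  rw [← he] at h3
  unfold wt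
  rw [← h3, ← mul_assoc, inv_mul_cancel₀ (pow_ne_zero _ hc), one_mul]

theorem wt_anK (hX : Surface (coneE P)) (hK : OpenPart (coneE P) K) (hW : IsForm K mK jH Wf) (hF : Differentiable ℂ F)
    (hFK : ∀ z, F z ∈ K) (Y : NCLift X F) (i : X.ι) : ∀ z ∈ Y.U i, AnalyticAt ℂ (wt Wf Y i) z := by
  intro z hz
  have hp := Y.mem i z hz
  have h1 := cf_an hX hF Y hz
  have h2 : AnalyticAt ℂ (fun w => (cf Y i w ^ jH)⁻¹) z := (h1.fun_pow jH).fun_inv (pow_ne_zero _ (cf_spec Y hz).1)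
  have h3 := hW.analytic (X.ρ i) (Y.p i z) (wtn_rho_an hp) (rho_memK hK hp (rho_K hK Y hz (hFK z)))
  have h4 : AnalyticAt ℂ (fun w => Wf (X.ρ i (Y.p i w)) (fderiv ℂ (X.ρ i) (Y.p i w) (1, 0)) (fderiv ℂ (X.ρ i) (Y.p i w) (0, 1))) z :=
    AnalyticAt.comp (g := fun y => Wf (X.ρ i y) (fderiv ℂ (X.ρ i) y (1, 0)) (fderiv ℂ (X.ρ i) y (0, 1))) (f := Y.p i) h3 (Y.an i z hz)
  refine (h2.fun_mul h4).congr ?_
  filter_upwards [(Y.isOpen i).mem_nhds hz] with w hw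
  exact (wt_eqK hK hW Y hw (hFK w)).symm

/-- the transformation rule -/
theorem wt_chgK (hX : Surface (coneE P)) (hK : OpenPart (coneE P) K) (hW : IsForm K mK jH Wf) (hFK : ∀ z, F z ∈ K) (Y : NCLift X F)
    {i j : X.ι} {z : ℂ} (hi : z ∈ Y.U i) {Φ : ℂ × ℂ → ℂ × ℂ} (hΦ : Chg X i j Φ (Y.p i z)) :
    ∀ᶠ w in 𝓝 z, Y.p j w = Φ (Y.p i w) ∧ wt Wf Y i w = jc Φ (Y.p i w) ^ mK * wt Wf Y j w := by
  have hpt : Tendsto (Y.p i) (𝓝 z) (𝓝 (Y.p i z)) := (Y.an i z hi).continuousAt.tendsto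
  have hB : ∀ᶠ x in 𝓝 (Y.p i z), Φ x ∈ X.B j := hΦ.an.continuousAt.eventually ((X.isOpen j).mem_nhds hΦ.mem')
  filter_upwards [(Y.isOpen i).mem_nhds hi, hpt.eventually hB, hpt.eventually hΦ.rel, hpt.eventually hΦ.eq.eventually_nhds,
    hpt.eventually hΦ.an.eventually_analyticAt] with w hwi h1 h2 h3 h4
  obtain ⟨hwj, h5⟩ := Y.full i j w hwi _ h1 h2
  refine ⟨h5, ?_⟩
  set x := Y.p i w with hx
  have hxB : x ∈ X.B i := Y.mem i w hwi
  obtain ⟨k, hk⟩ : ∃ k, X.ρ j (Φ x) k ≠ 0 := by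
    by_contra hcon
    push Not at hcon
    exact wtn_rho_ne hX h1 (by ext k; exact hcon k)
  have hρj : AnalyticAt ℂ (X.ρ j) (Φ x) := wtn_rho_an h1
  have hρi : AnalyticAt ℂ (X.ρ i) x := wtn_rho_an hxB
  have hρΦ : AnalyticAt ℂ (fun y => X.ρ j (Φ y)) x := AnalyticAt.comp (g := X.ρ j) (f := Φ) hρj h4
  have hco : ∀ {f : ℂ × ℂ → EN M} {y : ℂ × ℂ}, AnalyticAt ℂ f y → AnalyticAt ℂ (fun y => f y k) y := fun hf =>
    AnalyticAt.comp (g := fun v : EN M => (EuclideanSpace.proj k : EN M →L[ℂ] ℂ) v) ((EuclideanSpace.proj k : EN M →L[ℂ] ℂ).analyticAt _) hf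
  -- the factor
  set a : ℂ × ℂ → ℂ := fun y => X.ρ i y k / X.ρ j (Φ y) k with ha
  have haan : AnalyticAt ℂ a x := (hco hρi).fun_div (hco hρΦ) hk
  have heq : X.ρ i =ᶠ[𝓝 x] fun y => a y • X.ρ j (Φ y) := by
    filter_upwards [h3, (hco hρΦ).continuousAt.eventually_ne hk] with y h6 h7
    obtain ⟨c, hc, h8⟩ := h6
    have h9 : X.ρ i y k = c * X.ρ j (Φ y) k := by
      rw [h8]
      rfl
    have h10 : a y = c := by
      show X.ρ i y k / X.ρ j (Φ y) k = c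
      rw [h9, mul_div_cancel_right₀ _ h7]
    rw [h10]
    exact h8
  have hder : HasFDerivAt (X.ρ i) (a x • ((fderiv ℂ (X.ρ j) (Φ x)).comp (fderiv ℂ Φ x)) + (fderiv ℂ a x).smulRight (X.ρ j (Φ x))) x :=
    (haan.differentiableAt.hasFDerivAt.smul (hρj.differentiableAt.hasFDerivAt.comp x h4.differentiableAt.hasFDerivAt)).congr_of_eventuallyEq heq
  obtain ⟨hci, hei⟩ := cf_spec Y hwi
  obtain ⟨hcj, hej⟩ := cf_spec Y hwj
  have hcc : cf Y j w = cf Y i w * a x := by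
    have h6 : F w = (cf Y i w * a x) • X.ρ j (Y.p j w) := by
      have h8 : X.ρ i x = a x • X.ρ j (Φ x) := heq.self_of_nhds
      rw [h5, mul_smul, ← h8]
      exact hei
    have h7 : (cf Y j w - cf Y i w * a x) • X.ρ j (Y.p j w) = 0 := by
      rw [sub_smul, ← h6, ← hej, sub_self]
    exact sub_eq_zero.1 ((smul_eq_zero.1 h7).resolve_right (wtn_rho_ne hX (Y.mem j w hwj)))
  set c := cf Y j w with hc
  have hFx : F w ∈ K := hFK w
  have hFj : F w = c • X.ρ j (Φ x) := by rw [← h5]; exact hej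
  have hρjK : X.ρ j (Φ x) ∈ K := by
    have := rho_K hK Y hwj hFx
    rwa [h5] at this
  -- the derivatives
  have hvec : ∀ v : ℂ × ℂ, cf Y i w • fderiv ℂ (X.ρ i) x v =
      c • fderiv ℂ (X.ρ j) (Φ x) (fderiv ℂ Φ x v) + (cf Y i w * fderiv ℂ a x v / c) • F w := by
    intro v
    rw [hder.fderiv]
    have h6 : (a x • ((fderiv ℂ (X.ρ j) (Φ x)).comp (fderiv ℂ Φ x)) + (fderiv ℂ a x).smulRight (X.ρ j (Φ x))) v =
        a x • fderiv ℂ (X.ρ j) (Φ x) (fderiv ℂ Φ x v) + fderiv ℂ a x v • X.ρ j (Φ x) := rfl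
    rw [h6, smul_add, smul_smul, ← hcc, smul_smul, hFj, smul_smul, div_mul_cancel₀ _ hcj]
  have hT : ∀ v : ℂ × ℂ, c • fderiv ℂ (X.ρ j) (Φ x) v ∈ Pool.Agent.H17BP.Tan K (F w) := fun v => by
    rw [hFj]
    exact tan_boxK hK h1 hρjK hcj v
  have hsplit : ∀ v : ℂ × ℂ, c • fderiv ℂ (X.ρ j) (Φ x) v =
      v.1 • (c • fderiv ℂ (X.ρ j) (Φ x) (1, 0)) + v.2 • (c • fderiv ℂ (X.ρ j) (Φ x) (0, 1)) := by
    intro v
    have h6 : v = v.1 • ((1 : ℂ), (0 : ℂ)) + v.2 • ((0 : ℂ), (1 : ℂ)) := by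
      ext <;> simp
    conv_lhs => rw [h6, map_add, map_smul, map_smul]
    rw [smul_add, smul_comm c v.1, smul_comm c v.2]
  unfold wt
  rw [← hx, hvec, hvec, hW.add_smul _ hFx _ (hT _) _ (hT _), hsplit (fderiv ℂ Φ x (1, 0)), hsplit (fderiv ℂ Φ x (0, 1)),
    hW.det _ hFx _ (hT _) _ (hT _), h5]
  unfold jc
  congr 2
  ring

end Pool.Agent.MQL
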