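import Pool.Agent.MQ3.ThN
import Pool.Agent.MQL.WtK

/-!
# MQL ThNK: the function `Θ`, for a form on the open part `K` of the surface
-/

set_option autoImplicit false

open Topology Filter Metric MvPolynomial

noncomputable section

namespace Pool.Agent.MQL

open Pool.Agent.H36.BP (EN)
open Pool.Agent.H17BP (Surface IsForm)
open Pool.Agent.H17EF (projVar coneE)
open Pool.Agent.H36.BPL (OpenPart)
open Pool.Agent.MQ (dvg ztv)
open Pool.Agent.MQ3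

/-! ## tangent vectors of the open part -/

theorem tan_openPart {V : Type} [NormedAddCommGroup V] [NormedSpace ℂ V] {X K : Set V} (hK : OpenPart X K) {x u : V} (hx : x ∈ K)
    (hu : u ∈ Pool.Agent.H17BP.Tan X x) : u ∈ Pool.Agent.H17BP.Tan K x := by
  obtain ⟨γ, h1, h2, h3, h4⟩ := hu
  refine ⟨γ, h1, ?_, h3, h4⟩
  have h5 : Tendsto γ (𝓝 0) (𝓝 x) := by
    have := h1.continuousAt.tendsto
    rwa [h3] at this
  filter_upwards [h2, h5.eventually (hK.rel x hx)] with z e1 e2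
  exact e2 e1

section

variable {M : ℕ} {P : Ideal (MvPolynomial (Fin (M + 1)) ℂ)} {RD : MvPolynomial (Fin (M + 1)) ℂ} {m : ℕ} {X : NCModel P RD} {θ : WDiff (coneE P) m}
  {l : LF M} {S : Web X θ l} {F : ℂ → EN M} {K : Set (EN M)} {Wf : EN M → EN M → EN M → ℂ} {mK jH : ℕ}

/-- the weight in the chart and the weight in the box -/
theorem oc_eqK (hX : Surface (coneE P)) (hK : OpenPart (coneE P) K) (hW : IsForm K mK jH Wf) (Y : NCLift X F) {k : S.ι} {w : ℂ} (hM : F w ∈ K)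
    (hU : w ∈ Y.U k.1) (hD : S.lf Y k w ∈ S.D k) (hκ : S.κ k (S.lf Y k w) = Y.p k.1 w) :
    oc S Wf Y k w = jc (S.κ k) (S.lf Y k w) ^ mK * wt Wf Y k.1 w := by
  have hv : ∀ e, cf Y k.1 w • fderiv ℂ (S.σ k) (S.lf Y k w) e = (fderiv ℂ (S.κ k) (S.lf Y k w) e).1 • (cf Y k.1 w • fderiv ℂ (X.ρ k.1) (Y.p k.1 w) (1, 0)) +
      (fderiv ℂ (S.κ k) (S.lf Y k w) e).2 • (cf Y k.1 w • fderiv ℂ (X.ρ k.1) (Y.p k.1 w) (0, 1)) := by
    intro e
    rw [sig_fderiv k hD, hκ, split_E (fderiv ℂ (X.ρ k.1) (Y.p k.1 w))]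
    rw [smul_add, smul_comm (cf Y k.1 w), smul_comm (cf Y k.1 w)]
  rw [oc, hv, hv, hW.det _ hM _ (tan_openPart hK hM (cf_tan hX Y hU _)) _ (tan_openPart hK hM (cf_tan hX Y hU _)), jc, wt,
    mul_comm (fderiv ℂ (S.κ k) (S.lf Y k w) (1, 0)).2]

/-- the weights in two charts -/
theorem oc_chgK (hX : Surface (coneE P)) (hK : OpenPart (coneE P) K) (hW : IsForm K mK jH Wf) (Y : NCLift X F) {k k' : S.ι} {w : ℂ} (hM : F w ∈ K)
    (hU : w ∈ Y.U k.1) (hκ : S.κ k (S.lf Y k w) = Y.p k.1 w)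
    (hU' : w ∈ Y.U k'.1) (hD' : S.lf Y k' w ∈ S.D k') (hκ' : S.κ k' (S.lf Y k' w) = Y.p k'.1 w)
    {Ψ : ℂ × ℂ → ℂ × ℂ} {b : ℂ × ℂ → ℂ} (hΨ : AnalyticAt ℂ Ψ (S.lf Y k w)) (hb : AnalyticAt ℂ b (S.lf Y k w))
    (he : ∀ᶠ x in 𝓝 (S.lf Y k w), S.σ k x = b x • S.σ k' (Ψ x)) (h0 : Ψ (S.lf Y k w) = S.lf Y k' w) :
    oc S Wf Y k w = jc Ψ (S.lf Y k w) ^ mK * oc S Wf Y k' w := by
  set q := S.lf Y k w with hq
  set q' := S.lf Y k' w with hq'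
  obtain ⟨c1, c2⟩ := cf_spec Y hU
  obtain ⟨c1', c2'⟩ := cf_spec Y hU'
  have hσ' : AnalyticAt ℂ (S.σ k') (Ψ q) := by rw [h0]; exact sig_an k' hD'
  have hσΨ : AnalyticAt ℂ (fun x => S.σ k' (Ψ x)) q := AnalyticAt.fun_comp (g := S.σ k') (f := Ψ) hσ' hΨ
  have hFk : F w = cf Y k.1 w • S.σ k q := by rw [Web.σ, hκ]; exact c2
  have hFk' : F w = cf Y k'.1 w • S.σ k' q' := by rw [Web.σ, hκ']; exact c2'
  have hne : S.σ k' q' ≠ 0 := by rw [Web.σ]; exact wtn_rho_ne hX hD'.2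
  have hcc : cf Y k'.1 w = cf Y k.1 w * b q := by
    have h1 := he.self_of_nhds
    rw [h1, h0, smul_smul, hFk'] at hFk
    exact smul_left_injective ℂ hne hFk
  have hv : ∀ e, cf Y k.1 w • fderiv ℂ (S.σ k) q e = ((fderiv ℂ Ψ q e).1 • (cf Y k'.1 w • fderiv ℂ (S.σ k') q' (1, 0)) +
      (fderiv ℂ Ψ q e).2 • (cf Y k'.1 w • fderiv ℂ (S.σ k') q' (0, 1))) + (cf Y k.1 w * fderiv ℂ b q e / cf Y k'.1 w) • F w := by
    intro e
    have h1 : HasFDerivAt (fun x => b x • S.σ k' (Ψ x)) _ q := hb.differentiableAt.hasFDerivAt.smul hσΨ.differentiableAt.hasFDerivAt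
    have h2 : fderiv ℂ (S.σ k) q = fderiv ℂ (fun x => b x • S.σ k' (Ψ x)) q := Filter.EventuallyEq.fderiv_eq he
    have h3 : HasFDerivAt (fun x => S.σ k' (Ψ x)) ((fderiv ℂ (S.σ k') (Ψ q)).comp (fderiv ℂ Ψ q)) q :=
      hσ'.differentiableAt.hasFDerivAt.comp q hΨ.differentiableAt.hasFDerivAt
    rw [h2, h1.fderiv]
    simp only [add_apply, smul_apply, ContinuousLinearMap.smulRight_apply, h3.fderiv, ContinuousLinearMap.comp_apply]
    rw [h0, split_E (fderiv ℂ (S.σ k') q') (fderiv ℂ Ψ q e), smul_add, smul_smul, ← hcc, smul_smul, smul_add, smul_smul, smul_smul, smul_smul, smul_smul, hFk',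
      smul_smul, div_mul_cancel₀ _ c1', mul_comm _ (cf Y k'.1 w), mul_comm _ (cf Y k'.1 w)]
  have hs : ∀ a b : ℂ, a • (cf Y k'.1 w • fderiv ℂ (S.σ k') q' (1, 0)) + b • (cf Y k'.1 w • fderiv ℂ (S.σ k') q' (0, 1)) ∈
      Pool.Agent.H17BP.Tan K (F w) := by
    intro a b
    have h1 := cf_tan' hX Y hU' hD' hκ' (a, b)
    rw [← hq', split_E (fderiv ℂ (S.σ k') q') (a, b), smul_add, smul_comm _ a, smul_comm _ b] at h1
    exact tan_openPart hK hM h1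
  rw [oc, oc, ← hq, ← hq', hv, hv, form_comb hW hM (tan_openPart hK hM (cf_tan' hX Y hU' hD' hκ' _)) (tan_openPart hK hM (cf_tan' hX Y hU' hD' hκ' _)) hs, jc,
    mul_comm (fderiv ℂ Ψ q (1, 0)).2]

/-- the function `Θ` does not depend on the chart -/
theorem thc_eqK (hX : Surface (coneE P)) (hm : 1 ≤ mK) (hK : OpenPart (coneE P) K) (hW : IsForm K mK jH Wf) (hF : Differentiable ℂ F)
    (hM : ∀ z, F z ∈ K) (Y : NCLift X F) (hc : ∀ i, BCrv θ l (X.ρ i) F (Y.U i) (Y.p i)) {k k' : S.ι} {w : ℂ} (g : Gd S Wf Y k w) (g' : Gd S Wf Y k' w) :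
    ThC S Wf mK Y k w = ThC S Wf mK Y k' w := by
  obtain ⟨hU, hD, hκ⟩ := thn_mem Y (hc k.1) g.mem
  obtain ⟨hU', hD', hκ'⟩ := thn_mem Y (hc k'.1) g'.mem
  have hO : IsOpen (S.Om Y k) := om_open (hc k.1) (S.c k)
  have hO' : IsOpen (S.Om Y k') := om_open (hc k'.1) (S.c k')
  have hlf : AnalyticAt ℂ (S.lf Y k) w := lf_an (hc k.1) (S.c k) w g.mem
  have hlf' : AnalyticAt ℂ (S.lf Y k') w := lf_an (hc k'.1) (S.c k') w g'.mem
  have hσ : ∀ u ∈ S.Om Y k, u ∈ S.Om Y k' → ∃ a : ℂ, a ≠ 0 ∧ S.σ k (S.lf Y k u) = a • S.σ k' (S.lf Y k' u) := by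
    intro u hu hu'
    obtain ⟨e1, -, e3⟩ := thn_mem Y (hc k.1) hu
    obtain ⟨e1', -, e3'⟩ := thn_mem Y (hc k'.1) hu'
    obtain ⟨c1, c2⟩ := cf_spec Y e1
    obtain ⟨c1', c2'⟩ := cf_spec Y e1'
    refine ⟨(cf Y k.1 u)⁻¹ * cf Y k'.1 u, mul_ne_zero (inv_ne_zero c1) c1', ?_⟩
    rw [Web.σ, Web.σ, e3, e3', mul_smul, ← c2']
    conv_rhs => rw [c2]
    rw [inv_smul_smul₀ c1]
  obtain ⟨a, ha, hae⟩ := hσ w g.mem g'.mem
  obtain ⟨Ψ, b, hΨ, hΨ0, hb, hb0, he, hJ, hinj, huniq⟩ := exists_trans hX (sig_imm k hD g.off) (sig_imm k' hD' g'.off) ha hae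
  have hs1 := lf_slope (hc k.1) (S.c k) w g.mem _ (pexp_log g.off)
  have hs2 := lf_slope (hc k'.1) (S.c k') w g'.mem _ (pexp_log g'.off)
  obtain ⟨h, hh, hh0, hrel⟩ := fol_trans (S.c k) (S.c k') hD.1 hD'.1 g.off g'.off hΨ hΨ0 hinj hb hb0 he (pexp_log g.off) (pexp_log g'.off) (hs1.symm.trans hs2)
  have hp₁ : ∀ᶠ u in 𝓝 w, S.lf Y k' u = Ψ (S.lf Y k u) := by
    have h1 : Tendsto (fun u => (S.lf Y k u, S.lf Y k' u)) (𝓝 w) (𝓝 (S.lf Y k w, S.lf Y k' w)) :=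
      hlf.continuousAt.prodMk hlf'.continuousAt
    filter_upwards [h1.eventually huniq, hO.mem_nhds g.mem, hO'.mem_nhds g'.mem] with u e1 e2 e3
    exact e1 (hσ u e2 e3)
  have ho : ∀ᶠ u in 𝓝 w, oc S Wf Y k u = jc Ψ (S.lf Y k u) ^ mK * oc S Wf Y k' u := by
    filter_upwards [hp₁, hlf.continuousAt.eventually he.eventually_nhds, hlf.continuousAt.eventually hΨ.eventually_analyticAt,
      hlf.continuousAt.eventually hb.eventually_analyticAt, hO.mem_nhds g.mem, hO'.mem_nhds g'.mem] with u e1 e2 e3 e4 e5 e6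
    obtain ⟨f1, -, f3⟩ := thn_mem Y (hc k.1) e5
    obtain ⟨f1', f2', f3'⟩ := thn_mem Y (hc k'.1) e6
    exact oc_chgK hX hK hW Y (hM u) f1 f3 f1' f2' f3' e3 e4 e2 e1.symm
  have hoc : ∀ {j : S.ι}, Gd S Wf Y j w → (oc S Wf Y j =ᶠ[𝓝 w] fun u => jc (S.κ j) (S.lf Y j u) ^ mK * wt Wf Y j.1 u) ∧
      AnalyticAt ℂ (fun u => jc (S.κ j) (S.lf Y j u)) w ∧ AnalyticAt ℂ (wt Wf Y j.1) w := by
    intro j gj
    obtain ⟨f1, -, -⟩ := thn_mem Y (hc j.1) gj.mem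
    refine ⟨?_, ?_, wt_anK hX hK hW hF hM Y j.1 w f1⟩
    · filter_upwards [(om_open (hc j.1) (S.c j)).mem_nhds gj.mem] with u e1
      obtain ⟨f1, f2, f3⟩ := thn_mem Y (hc j.1) e1
      exact oc_eqK hX hK hW Y (hM u) f1 f2 f3
    · exact AnalyticAt.fun_comp (g := jc (S.κ j)) (f := S.lf Y j) (jc_an (kap_an j _)) (lf_an (hc j.1) (S.c j) w gj.mem)
  have hfin : ∀ {j : S.ι}, Gd S Wf Y j w → ThC S Wf mK Y j w = deriv (ztv (S.v j) (S.lf Y j)) w / ztv (S.v j) (S.lf Y j) w +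
      dvg (S.v j) (S.lf Y j w) * ztv (S.v j) (S.lf Y j) w + 1 / mK * (deriv (oc S Wf Y j) w / oc S Wf Y j w) := by
    intro j gj
    obtain ⟨f1, f2, f3⟩ := hoc gj
    have h1 := logder_pow (m := mK) (by omega) f2.differentiableAt f3.differentiableAt (kap_jc j gj.off) gj.wt_ne
    rw [f1.deriv_eq, f1.self_of_nhds, ← h1, ThC]
    ring
  rw [hfin g, hfin g']
  have hoan : AnalyticAt ℂ (oc S Wf Y k') w := by
    obtain ⟨f1, f2, f3⟩ := hoc g'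
    exact ((f2.fun_pow mK).fun_mul f3).congr f1.symm
  have hone : oc S Wf Y k' w ≠ 0 := by
    rw [(hoc g').1.self_of_nhds]
    exact mul_ne_zero (pow_ne_zero _ (kap_jc k' g'.off)) g'.wt_ne
  refine Th_core (Ψ := Ψ) (h := h) (by omega) hΨ ((S.c k).v_an _ hD.1) ?_ hh hrel ho hoan hlf hp₁ ?_ g.v_ne g.der hJ hone hh0 ?_
  · rw [hΨ0]
    exact (S.c k').v_an _ hD'.1
  · filter_upwards [hO.mem_nhds g.mem] with u e1
    exact sub_eq_zero.2 (lf_tan (hc k.1) (S.c k) u e1)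
  · rw [hΨ0]
    exact g'.v_ne

/-- **The function `Θ`.** -/
theorem exists_thetaK (hX : Surface (coneE P)) (hm : 1 ≤ mK) (hK : OpenPart (coneE P) K) (hW : IsForm K mK jH Wf) (hF : WCrv θ RD F)
    (hFK : ∀ z, F z ∈ K) (Y : NCLift X F) (hne : WNe Wf Y) : ∃ Θ : ℂ → ℂ, IsTh S Wf mK Y Θ := by
  classical
  refine ⟨fun w => if h : ∃ k : S.ι, Gd S Wf Y k w then ThC S Wf mK Y h.choose w else 0, fun k z hz => ?_⟩
  filter_upwards [gd_ev Y (bcrv hF Y k.1) hne hz] with w hw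
  have h : ∃ k : S.ι, Gd S Wf Y k w := ⟨k, hw⟩
  simp only [dif_pos h]
  exact thc_eqK hX hm hK hW hF.diff hFK Y (fun i => bcrv hF Y i) h.choose_spec hw

end

end Pool.Agent.MQL
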