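import Pool.Agent.MQ2.Hart
import Pool.Agent.MQ3.Mono
import Pool.Agent.H36.BPL.Defs
import Mathlib

/-!
# MQL Ax: the zeros of a function which is not zero off the axes; the bound from `PoleLE`
-/

set_option autoImplicit false

open Topology Filter Metric

noncomputable section

namespace Pool.Agent.MQL

open Pool.Agent.H36.BPL (PoleLE)
open Pool.Agent.MQ3 (DD)

/-- an analytic function of two variables has no isolated zeros -/
theorem frequently_zero_at {g : ℂ × ℂ → ℂ} {p : ℂ × ℂ} (hg : AnalyticAt ℂ g p) (h0 : g p = 0) : ∃ᶠ q in 𝓝 p, q ≠ p ∧ g q = 0 := by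
  intro hcon
  have hadd : Tendsto (fun x : ℂ × ℂ => p + x) (𝓝 0) (𝓝 p) := by
    have h1 : ContinuousAt (fun x : ℂ × ℂ => p + x) 0 := by fun_prop
    have h2 := h1.tendsto
    rwa [add_zero] at h2
  have h1 : ∀ᶠ x in 𝓝 (0 : ℂ × ℂ), x ≠ 0 → AnalyticAt ℂ (fun w => (g (p + w))⁻¹) x := by
    filter_upwards [hadd.eventually hcon, hadd.eventually hg.eventually_analyticAt] with x h2 h3 h4
    have h5 : AnalyticAt ℂ (fun w : ℂ × ℂ => g (p + w)) x := AnalyticAt.comp (g := g) (f := fun w : ℂ × ℂ => p + w) h3 (by fun_prop)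
    exact h5.fun_inv fun h6 => h2 ⟨fun h7 => h4 (by simpa using h7), h6⟩
  obtain ⟨F, hF, hFe⟩ := Pool.Agent.MQ2.hartogs h1
  have h2 : (fun x => F x * g (p + x)) =ᶠ[𝓝[≠] (0 : ℂ × ℂ)] fun _ => 1 := by
    filter_upwards [hFe.filter_mono nhdsWithin_le_nhds, (hadd.eventually hcon).filter_mono nhdsWithin_le_nhds, self_mem_nhdsWithin] with x h3 h4 h5
    rw [h3 h5]
    exact inv_mul_cancel₀ fun h6 => h4 ⟨fun h7 => h5 (by simpa using h7), h6⟩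
  have hc : ContinuousAt (fun x : ℂ × ℂ => g (p + x)) 0 := by
    have h3 : ContinuousAt g (p + 0) := by
      rw [add_zero]
      exact hg.continuousAt
    exact ContinuousAt.comp (g := g) (f := fun x : ℂ × ℂ => p + x) h3 (by fun_prop)
  have h3 : Tendsto (fun x => F x * g (p + x)) (𝓝[≠] (0 : ℂ × ℂ)) (𝓝 (F 0 * g (p + 0))) :=
    ((hF.continuousAt.mul hc).tendsto).mono_left nhdsWithin_le_nhds
  have h4 : F 0 * g (p + 0) = 1 := tendsto_nhds_unique (h3.congr' h2) tendsto_const_nhds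
  rw [add_zero, h0, mul_zero] at h4
  exact zero_ne_one h4

/-- the zeros of `f` near `p` lie on the axes: `f` vanishes on one of the axes through `p` -/
theorem ax_local {f : ℂ × ℂ → ℂ} {p : ℂ × ℂ} (hf : AnalyticAt ℂ f p) (h0 : f p = 0) (hz : ∀ᶠ q in 𝓝 p, f q = 0 → q.1 * q.2 = 0) :
    (p.1 = 0 ∧ ∀ᶠ t in 𝓝 p.2, f (0, t) = 0) ∨ (p.2 = 0 ∧ ∀ᶠ t in 𝓝 p.1, f (t, 0) = 0) := by
  by_contra hcon
  rw [not_or, not_and_or, not_and_or] at hcon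
  obtain ⟨hc1, hc2⟩ := hcon
  -- the first axis
  have k1 : ∀ᶠ q in 𝓝 p, q.1 = 0 → q ≠ p → f q ≠ 0 := by
    by_cases h1 : p.1 = 0
    · have h2 : ¬ ∀ᶠ t in 𝓝 p.2, f (0, t) = 0 := hc1.resolve_left (not_not.2 h1)
      have hp : ((0 : ℂ), p.2) = p := by rw [← h1]
      have h3 : AnalyticAt ℂ (fun t : ℂ => f (0, t)) p.2 :=
        AnalyticAt.comp (g := f) (f := fun t : ℂ => ((0 : ℂ), t)) (by rw [hp]; exact hf) (by fun_prop)
      have h4 := (h3.eventually_eq_zero_or_eventually_ne_zero).resolve_left h2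
      rw [eventually_nhdsWithin_iff] at h4
      filter_upwards [(continuous_snd.tendsto p).eventually h4] with q h5 h6 h7 h8
      have h9 : q = (0, q.2) := Prod.ext h6 rfl
      refine h5 (fun h10 => h7 ?_) ?_
      · rw [h9, show q.2 = p.2 from h10, hp]
      · rw [← h9]
        exact h8
    · filter_upwards [(continuous_fst.continuousAt (x := p)).eventually_ne h1] with q h2 h3
      exact absurd h3 h2
  have k2 : ∀ᶠ q in 𝓝 p, q.2 = 0 → q ≠ p → f q ≠ 0 := by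
    by_cases h1 : p.2 = 0
    · have h2 : ¬ ∀ᶠ t in 𝓝 p.1, f (t, 0) = 0 := hc2.resolve_left (not_not.2 h1)
      have hp : (p.1, (0 : ℂ)) = p := by rw [← h1]
      have h3 : AnalyticAt ℂ (fun t : ℂ => f (t, 0)) p.1 :=
        AnalyticAt.comp (g := f) (f := fun t : ℂ => (t, (0 : ℂ))) (by rw [hp]; exact hf) (by fun_prop)
      have h4 := (h3.eventually_eq_zero_or_eventually_ne_zero).resolve_left h2
      rw [eventually_nhdsWithin_iff] at h4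
      filter_upwards [(continuous_fst.tendsto p).eventually h4] with q h5 h6 h7 h8
      have h9 : q = (q.1, 0) := Prod.ext rfl h6
      refine h5 (fun h10 => h7 ?_) ?_
      · rw [h9, show q.1 = p.1 from h10, hp]
      · rw [← h9]
        exact h8
    · filter_upwards [(continuous_snd.continuousAt (x := p)).eventually_ne h1] with q h2 h3
      exact absurd h3 h2
  refine frequently_zero_at hf h0 ?_
  filter_upwards [hz, k1, k2] with q h1 h2 h3 h4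
  rcases mul_eq_zero.1 (h1 h4.2) with h5 | h5
  · exact h2 h5 h4.1 h4.2
  · exact h3 h5 h4.1 h4.2

/-- on the whole axis, by the identity theorem -/
theorem ax_global {f : ℂ × ℂ → ℂ} (hf : ∀ p ∈ DD, AnalyticAt ℂ f p) {p : ℂ × ℂ} (hp : p ∈ DD) (h0 : f p = 0)
    (hz : ∀ᶠ q in 𝓝 p, f q = 0 → q.1 * q.2 = 0) :
    (p.1 = 0 ∧ ∀ t : ℂ, ‖t‖ < 1 → f (0, t) = 0) ∨ (p.2 = 0 ∧ ∀ t : ℂ, ‖t‖ < 1 → f (t, 0) = 0) := by
  have hconv : IsPreconnected (ball (0 : ℂ) 1) := (convex_ball _ _).isPreconnected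
  rcases ax_local (hf p hp) h0 hz with ⟨h1, h2⟩ | ⟨h1, h2⟩
  · refine Or.inl ⟨h1, fun t ht => ?_⟩
    have h3 : AnalyticOnNhd ℂ (fun t : ℂ => f (0, t)) (ball 0 1) := fun t ht => by
      rw [mem_ball_zero_iff] at ht
      exact AnalyticAt.comp (g := f) (f := fun t : ℂ => ((0 : ℂ), t)) (hf _ ⟨by simp, ht⟩) (by fun_prop)
    have h4 := h3.eqOn_zero_of_preconnected_of_eventuallyEq_zero hconv (z₀ := p.2) (mem_ball_zero_iff.2 hp.2) h2
    exact h4 (mem_ball_zero_iff.2 ht)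
  · refine Or.inr ⟨h1, fun t ht => ?_⟩
    have h3 : AnalyticOnNhd ℂ (fun t : ℂ => f (t, 0)) (ball 0 1) := fun t ht => by
      rw [mem_ball_zero_iff] at ht
      exact AnalyticAt.comp (g := f) (f := fun t : ℂ => (t, (0 : ℂ))) (hf _ ⟨ht, by simp⟩) (by fun_prop)
    have h4 := h3.eqOn_zero_of_preconnected_of_eventuallyEq_zero hconv (z₀ := p.1) (mem_ball_zero_iff.2 hp.1) h2
    exact h4 (mem_ball_zero_iff.2 ht)

/-- the bound of a form with poles near a point -/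
theorem pole_local {V : Type} [NormedAddCommGroup V] [NormedSpace ℂ V] {X K : Set V} {e : ℕ} {Ω : V → V → V → ℂ} (h : PoleLE X K e Ω)
    {φ : ℂ × ℂ → V} {p : ℂ × ℂ} (hφ : AnalyticAt ℂ φ p) (hX : ∀ᶠ y in 𝓝 p, φ y ∈ X) {g : ℂ × ℂ → ℂ} (hg : AnalyticAt ℂ g p)
    (hg0 : ∀ᶠ y in 𝓝 p, φ y ∉ K → g y = 0) :
    ∃ C : ℝ, ∀ᶠ y in 𝓝 p, φ y ∈ K → ‖g y‖ ^ e * ‖Ω (φ y) (fderiv ℂ φ y (1, 0)) (fderiv ℂ φ y (0, 1))‖ ≤ C := by
  obtain ⟨b, hb, hbe⟩ := h.pow hφ hX hg hg0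
  refine ⟨‖b p‖ + 1, ?_⟩
  filter_upwards [hbe, hb.continuousAt.norm.eventually_lt continuousAt_const (lt_add_one _)] with y h1 h2 h3
  rw [← norm_pow, ← norm_mul, ← h1 h3]
  exact h2.le

/-- the bound of a form with poles on a compact set -/
theorem pole_compact {V : Type} [NormedAddCommGroup V] [NormedSpace ℂ V] {X K : Set V} {e : ℕ} {Ω : V → V → V → ℂ} (h : PoleLE X K e Ω)
    {φ : ℂ × ℂ → V} {L : Set (ℂ × ℂ)} (hL : IsCompact L) (hφ : ∀ p ∈ L, AnalyticAt ℂ φ p) (hX : ∀ p ∈ L, ∀ᶠ y in 𝓝 p, φ y ∈ X)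
    {g : ℂ × ℂ → ℂ} (hg : ∀ p ∈ L, AnalyticAt ℂ g p) (hg0 : ∀ p ∈ L, ∀ᶠ y in 𝓝 p, φ y ∉ K → g y = 0) :
    ∃ C : ℝ, 0 < C ∧ ∀ y ∈ L, φ y ∈ K → ‖g y‖ ^ e * ‖Ω (φ y) (fderiv ℂ φ y (1, 0)) (fderiv ℂ φ y (0, 1))‖ ≤ C := by
  have h1 : ∀ p ∈ L, ∃ C : ℝ, ∀ᶠ y in 𝓝 p, φ y ∈ K → ‖g y‖ ^ e * ‖Ω (φ y) (fderiv ℂ φ y (1, 0)) (fderiv ℂ φ y (0, 1))‖ ≤ C := fun p hp =>
    pole_local h (hφ p hp) (hX p hp) (hg p hp) (hg0 p hp)
  refine hL.induction_on (p := fun s => ∃ C : ℝ, 0 < C ∧ ∀ y ∈ s, φ y ∈ K →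
    ‖g y‖ ^ e * ‖Ω (φ y) (fderiv ℂ φ y (1, 0)) (fderiv ℂ φ y (0, 1))‖ ≤ C) ⟨1, one_pos, fun y hy => absurd hy (Set.notMem_empty y)⟩ ?_ ?_ ?_
  · rintro s t hst ⟨C, hC, h2⟩
    exact ⟨C, hC, fun y hy => h2 y (hst hy)⟩
  · rintro s t ⟨C, hC, h2⟩ ⟨C', hC', h3⟩
    refine ⟨max C C', lt_max_of_lt_left hC, fun y hy hyK => ?_⟩
    rcases hy with hy | hy
    · exact (h2 y hy hyK).trans (le_max_left _ _)
    · exact (h3 y hy hyK).trans (le_max_right _ _)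
  · intro p hp
    obtain ⟨C, hC⟩ := h1 p hp
    refine ⟨{y | φ y ∈ K → ‖g y‖ ^ e * ‖Ω (φ y) (fderiv ℂ φ y (1, 0)) (fderiv ℂ φ y (0, 1))‖ ≤ C}, mem_nhdsWithin_of_mem_nhds hC,
      max C 1, lt_max_of_lt_right one_pos, fun y hy hyK => (hy hyK).trans (le_max_left _ _)⟩

end Pool.Agent.MQL
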