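import Pool.Agent.MQL.WtK
import Pool.Agent.MQL.Ax
import Pool.Agent.MQ3.LfN
import Pool.Agent.MQ3.SatN
import Pool.Agent.MQ3.DivR
import Pool.Agent.H14.PP.Poly

/-!
# MQL WtLeK: the upper bound for a form with poles along `D`

`D` is the zero set of the form `Sf`, `K` its complement in the cone of the surface.  In a box `D` is a union of axes (`ax_global`).
-/

set_option autoImplicit false

open Topology Filter Metric MvPolynomial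

noncomputable section

namespace Pool.Agent.MQL

open Pool.Agent.H36.BP (EN)
open Pool.Agent.H36.BPL (OpenPart PoleLE)
open Pool.Agent.H17BP (Surface IsForm)
open Pool.Agent.H17EF (projVar coneE)
open Pool.Agent.MQ3

variable {M : ℕ} {P : Ideal (MvPolynomial (Fin (M + 1)) ℂ)} {RD : MvPolynomial (Fin (M + 1)) ℂ} {m : ℕ}

/-- the axis `{x = 0}` of the box `i` belongs to `D` -/
def DX (X : NCModel P RD) (K : Set (EN M)) (i : X.ι) : Prop := ∀ t : ℂ, ‖t‖ < 1 → X.ρ i (0, t) ∉ K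

/-- the axis `{y = 0}` of the box `i` belongs to `D` -/
def DY (X : NCModel P RD) (K : Set (EN M)) (i : X.ι) : Prop := ∀ t : ℂ, ‖t‖ < 1 → X.ρ i (t, 0) ∉ K

open Classical in
/-- the exponent: `1 / m - 1` for an axis in `D` -/
def al (mK : ℕ) (b : Prop) : ℝ := if b then 1 / mK - 1 else 0

/-- `K` is the complement of the curve `{Sf = 0}`, which lies in `{RD = 0}` -/
structure DCompl (P : Ideal (MvPolynomial (Fin (M + 1)) ℂ)) (RD Sf : MvPolynomial (Fin (M + 1)) ℂ) (K : Set (EN M)) : Prop where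
  mem : ∀ x ∈ coneE P, (x ∈ K ↔ eval x.ofLp Sf ≠ 0)
  div : ∀ x ∈ coneE P, eval x.ofLp Sf = 0 → eval x.ofLp RD = 0

variable {Sf : MvPolynomial (Fin (M + 1)) ℂ} {X : NCModel P RD} {K : Set (EN M)} {θ : WDiff (coneE P) m} {l : LF M} {S : Web X θ l}

/-- in a box `D` is a union of axes -/
theorem box_D (hS : DCompl P RD Sf K) {i : X.ι} {p : ℂ × ℂ} (hp : p ∈ X.B i) (hpK : X.ρ i p ∉ K) :
    (p.1 = 0 ∧ DX X K i) ∨ (p.2 = 0 ∧ DY X K i) := by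
  have hcone : ∀ q ∈ DD, X.ρ i q ∈ coneE P := fun q hq => ((X.box i).mem q hq.1.le hq.2.le).self_of_nhds
  have han : ∀ q ∈ DD, AnalyticAt ℂ (fun q => eval (X.ρ i q).ofLp Sf) q := fun q hq =>
    AnalyticAt.comp (g := fun x : EN M => eval x.ofLp Sf) (f := X.ρ i) (Pool.Agent.H14.PP.analyticAt_evalEN Sf (X.ρ i q)) ((X.box i).an q hq.1.le hq.2.le)
  have hnot : ∀ q ∈ DD, (X.ρ i q ∉ K ↔ eval (X.ρ i q).ofLp Sf = 0) := fun q hq => by
    rw [hS.mem _ (hcone q hq), not_not]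
  have hpD : p ∈ DD := X.sub i hp
  rcases ax_global han hpD ((hnot p hpD).1 hpK) (by
    filter_upwards [(X.isOpen i).mem_nhds hp] with q hq h0
    exact (X.div i q hq).1 (hS.div _ (hcone q (X.sub i hq)) h0)) with ⟨h1, h2⟩ | ⟨h1, h2⟩
  · exact Or.inl ⟨h1, fun t ht => (hnot _ ⟨by simp, ht⟩).2 (h2 t ht)⟩
  · exact Or.inr ⟨h1, fun t ht => (hnot _ ⟨ht, by simp⟩).2 (h2 t ht)⟩

open Classical in
/-- the product of the coordinates which are equations of `D` -/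
def eqD (a b : Prop) (p : ℂ × ℂ) : ℂ := (if a then p.1 else 1) * (if b then p.2 else 1)

theorem eqD_an (a b : Prop) (p : ℂ × ℂ) : AnalyticAt ℂ (eqD a b) p := by
  have h1 : AnalyticAt ℂ (fun p : ℂ × ℂ => p.1) p := analyticAt_fst
  have h2 : AnalyticAt ℂ (fun p : ℂ × ℂ => p.2) p := analyticAt_snd
  have h3 : AnalyticAt ℂ (fun _ : ℂ × ℂ => (1 : ℂ)) p := analyticAt_const
  unfold eqD
  by_cases ha : a <;> by_cases hb : b <;> simp only [ha, hb, if_true, if_false]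
  · exact h1.fun_mul h2
  · exact h1.fun_mul h3
  · exact h3.fun_mul h2
  · exact h3.fun_mul h3

theorem eqD_zero {a b : Prop} {p : ℂ × ℂ} (h : (p.1 = 0 ∧ a) ∨ (p.2 = 0 ∧ b)) : eqD a b p = 0 := by
  unfold eqD
  rcases h with ⟨h1, h2⟩ | ⟨h1, h2⟩
  · rw [if_pos h2, h1, zero_mul]
  · rw [if_pos h2, h1, mul_zero]

theorem eqD_ne {a b : Prop} {p : ℂ × ℂ} (h1 : a → p.1 ≠ 0) (h2 : b → p.2 ≠ 0) : eqD a b p ≠ 0 := by
  unfold eqD
  refine mul_ne_zero ?_ ?_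
  · split_ifs with h
    · exact h1 h
    · exact one_ne_zero
  · split_ifs with h
    · exact h2 h
    · exact one_ne_zero

/-- the logarithm of the bound -/
theorem log_pole {mK : ℕ} (hm : 1 ≤ mK) {a b : Prop} {p : ℂ × ℂ} (h1 : a → p.1 ≠ 0) (h2 : b → p.2 ≠ 0) {w C : ℝ} (hw : 0 < w) (hC : 0 < C)
    (h : ‖eqD a b p‖ ^ (mK - 1) * w ≤ C) :
    1 / mK * Real.log w ≤ 1 / mK * Real.log C + al mK a * Real.log ‖p.1‖ + al mK b * Real.log ‖p.2‖ := by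
  have hmK : 0 < (mK : ℝ) := by exact_mod_cast hm
  have hg : 0 < ‖eqD a b p‖ := norm_pos_iff.2 (eqD_ne h1 h2)
  have h3 : ((mK - 1 : ℕ) : ℝ) = mK - 1 := by rw [Nat.cast_sub hm, Nat.cast_one]
  have h4 : (mK - 1 : ℝ) * Real.log ‖eqD a b p‖ + Real.log w ≤ Real.log C := by
    have h5 := Real.log_le_log (mul_pos (pow_pos hg _) hw) h
    rwa [Real.log_mul (pow_ne_zero _ hg.ne') hw.ne', Real.log_pow, h3] at h5
  have h5 : (mK - 1 : ℝ) * Real.log ‖eqD a b p‖ = -(mK : ℝ) * (al mK a * Real.log ‖p.1‖ + al mK b * Real.log ‖p.2‖) := by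
    unfold eqD al
    by_cases ha : a <;> by_cases hb : b <;> simp only [ha, hb, if_true, if_false, mul_one, one_mul, norm_one, Real.log_one, zero_mul, add_zero, zero_add, mul_zero,
      norm_mul]
    · rw [Real.log_mul (norm_ne_zero_iff.2 (h1 ha)) (norm_ne_zero_iff.2 (h2 hb))]
      field_simp
      ring
    · field_simp
      ring
    · field_simp
      ring
  rw [h5] at h4
  have h6 : 1 / (mK : ℝ) * Real.log w ≤ 1 / mK * (Real.log C + mK * (al mK a * Real.log ‖p.1‖ + al mK b * Real.log ‖p.2‖)) :=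
    mul_le_mul_of_nonneg_left (by linarith) (by positivity)
  refine h6.trans (le_of_eq ?_)
  field_simp
  ring

/-- a point of `K` is not on an axis which belongs to `D` -/
theorem ne_of_K {i : X.ι} {p : ℂ × ℂ} (hp : p ∈ DD) (hpK : X.ρ i p ∈ K) : (DX X K i → p.1 ≠ 0) ∧ (DY X K i → p.2 ≠ 0) := by
  refine ⟨fun h h0 => ?_, fun h h0 => ?_⟩
  · apply h p.2 hp.2
    rwa [← h0]
  · apply h p.1 hp.1
    rwa [← h0]

/-- the logarithms of the weight and of the lift -/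
theorem wt_logK (hX : Surface (coneE P)) (hK : OpenPart (coneE P) K) {Wf : EN M → EN M → EN M → ℂ} {mK jH : ℕ}
    (hm : 1 ≤ mK) (hW : IsForm K mK jH Wf) {F : ℂ → EN M} (Y : NCLift X F) {i : X.ι} {z : ℂ} (hz : z ∈ Y.U i) (hFz : F z ∈ K) (h0 : wt Wf Y i z ≠ 0) :
    Wf (X.ρ i (Y.p i z)) (fderiv ℂ (X.ρ i) (Y.p i z) (1, 0)) (fderiv ℂ (X.ρ i) (Y.p i z) (0, 1)) ≠ 0 ∧
    1 / mK * Real.log ‖wt Wf Y i z‖ + jH / mK * Real.log ‖F z‖ =
      1 / mK * Real.log ‖Wf (X.ρ i (Y.p i z)) (fderiv ℂ (X.ρ i) (Y.p i z) (1, 0)) (fderiv ℂ (X.ρ i) (Y.p i z) (0, 1))‖ +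
        jH / mK * Real.log ‖X.ρ i (Y.p i z)‖ := by
  have hmK : 0 < (mK : ℝ) := by exact_mod_cast hm
  obtain ⟨hc, he⟩ := cf_spec Y hz
  have h2 := wt_eqK hK hW Y hz hFz
  set w0 := Wf (X.ρ i (Y.p i z)) (fderiv ℂ (X.ρ i) (Y.p i z) (1, 0)) (fderiv ℂ (X.ρ i) (Y.p i z) (0, 1)) with hw0
  have hw : w0 ≠ 0 := by
    intro h3
    exact h0 (by rw [h2, h3, mul_zero])
  have hρ : X.ρ i (Y.p i z) ≠ 0 := wtn_rho_ne hX (Y.mem i z hz)
  have hcn : ‖cf Y i z‖ ≠ 0 := norm_ne_zero_iff.2 hc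
  have h3 : Real.log ‖wt Wf Y i z‖ = -(jH * Real.log ‖cf Y i z‖) + Real.log ‖w0‖ := by
    rw [h2, norm_mul, norm_inv, norm_pow, Real.log_mul (inv_ne_zero (pow_ne_zero _ hcn)) (norm_ne_zero_iff.2 hw), Real.log_inv, Real.log_pow]
  have h4 : Real.log ‖F z‖ = Real.log ‖cf Y i z‖ + Real.log ‖X.ρ i (Y.p i z)‖ := by
    rw [he, norm_smul, Real.log_mul hcn (norm_ne_zero_iff.2 hρ)]
  refine ⟨hw, ?_⟩
  rw [h3, h4]
  field_simp
  ring

/-- the upper bound in a box -/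
theorem wt_leK (hX : Surface (coneE P)) (hK : OpenPart (coneE P) K) (hS : DCompl P RD Sf K) {Wf : EN M → EN M → EN M → ℂ} {mK jH : ℕ} (hm : 1 ≤ mK)
    (hW : IsForm K mK jH Wf) (hpo : PoleLE (coneE P) K (mK - 1) Wf) (i : X.ι) {L : Set (ℂ × ℂ)} (hL : IsCompact L) (hLB : L ⊆ X.B i) :
    ∃ C : ℝ, ∀ F : ℂ → EN M, (∀ z, F z ∈ K) → ∀ Y : NCLift X F, ∀ z ∈ Y.U i, Y.p i z ∈ L → wt Wf Y i z ≠ 0 →
      1 / mK * Real.log ‖wt Wf Y i z‖ + jH / mK * Real.log ‖F z‖ ≤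
        C + al mK (DX X K i) * Real.log ‖(Y.p i z).1‖ + al mK (DY X K i) * Real.log ‖(Y.p i z).2‖ := by
  have hmK : 0 < (mK : ℝ) := by exact_mod_cast hm
  obtain ⟨C₁, hC₁0, hC₁⟩ := pole_compact hpo hL (φ := X.ρ i) (fun p hp => wtn_rho_an (hLB hp)) (fun p hp => wtn_rho_mem (hLB hp))
    (g := eqD (DX X K i) (DY X K i)) (fun p _ => eqD_an _ _ p) (fun p hp => by
      filter_upwards [(X.isOpen i).mem_nhds (hLB hp)] with q hq hqK
      exact eqD_zero (box_D hS hq hqK))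
  have hρc : ContinuousOn (X.ρ i) L := fun p hp => (wtn_rho_an (hLB hp)).continuousAt.continuousWithinAt
  obtain ⟨C₂, hC₂⟩ := hL.exists_bound_of_continuousOn hρc
  refine ⟨1 / mK * Real.log C₁ + jH / mK * Real.log (|C₂| + 1), fun F hFK Y z hz hpL h0 => ?_⟩
  obtain ⟨hw, h1⟩ := wt_logK hX hK hm hW Y hz (hFK z) h0
  have hρK := rho_K hK Y hz (hFK z)
  have hpD : Y.p i z ∈ DD := X.sub i (Y.mem i z hz)
  obtain ⟨n1, n2⟩ := ne_of_K hpD hρK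
  have h2 := log_pole hm n1 n2 (norm_pos_iff.2 hw) hC₁0 (hC₁ _ hpL hρK)
  have h3 : Real.log ‖X.ρ i (Y.p i z)‖ ≤ Real.log (|C₂| + 1) :=
    Real.log_le_log (norm_pos_iff.2 (wtn_rho_ne hX (Y.mem i z hz))) (((hC₂ _ hpL).trans (le_abs_self _)).trans (by linarith))
  have h4 : (jH : ℝ) / mK * Real.log ‖X.ρ i (Y.p i z)‖ ≤ jH / mK * Real.log (|C₂| + 1) := mul_le_mul_of_nonneg_left h3 (by positivity)
  rw [h1]
  linarith

/-! ## charts -/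

/-- the axis `{s = 0}` of the chart `k` belongs to `D` -/
def CX (S : Web X θ l) (K : Set (EN M)) (k : S.ι) : Prop := ∀ t : ℂ, ((0 : ℂ), t) ∈ S.D k → S.σ k (0, t) ∉ K

/-- the axis `{t = 0}` of the chart `k` belongs to `D` -/
def CY (S : Web X θ l) (K : Set (EN M)) (k : S.ι) : Prop := ∀ t : ℂ, (t, (0 : ℂ)) ∈ S.D k → S.σ k (t, 0) ∉ K

theorem chart_D (hS : DCompl P RD Sf K) {k : S.ι} {q : ℂ × ℂ} (hq : q ∈ S.D k) (hqK : S.σ k q ∉ K) :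
    (q.1 = 0 ∧ CX S K k) ∨ (q.2 = 0 ∧ CY S K k) := by
  have hκ : ∀ q, S.κ k q = (q.1 ^ (S.c k).w.1 * q.2 ^ (S.c k).w'.1, q.1 ^ (S.c k).w.2 * q.2 ^ (S.c k).w'.2) := fun q => rfl
  have hσ : ∀ q, S.σ k q = X.ρ k.1 (S.κ k q) := fun q => rfl
  -- a point of the chart over an axis in `D`
  have hx : DX X K k.1 → ∀ q ∈ S.D k, (S.κ k q).1 = 0 → S.σ k q ∉ K := by
    intro h q hq h1
    have h2 := h (S.κ k q).2 (X.sub _ hq.2).2
    rw [hσ]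
    have h3 : S.κ k q = (0, (S.κ k q).2) := Prod.ext h1 rfl
    rwa [← h3] at h2
  have hy : DY X K k.1 → ∀ q ∈ S.D k, (S.κ k q).2 = 0 → S.σ k q ∉ K := by
    intro h q hq h1
    have h2 := h (S.κ k q).1 (X.sub _ hq.2).1
    rw [hσ]
    have h3 : S.κ k q = ((S.κ k q).1, 0) := Prod.ext rfl h1
    rwa [← h3] at h2
  rcases box_D hS hq.2 hqK with ⟨h1, h2⟩ | ⟨h1, h2⟩
  · rw [hκ] at h1
    rcases mul_eq_zero.1 h1 with h3 | h3
    · have h4 : (S.c k).w.1 ≠ 0 := fun h5 => by rw [h5, pow_zero] at h3; exact one_ne_zero h3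
      refine Or.inl ⟨pow_eq_zero_iff h4 |>.1 h3, fun t ht => hx h2 _ ht ?_⟩
      rw [hκ]
      show (0 : ℂ) ^ (S.c k).w.1 * _ = 0
      rw [zero_pow h4, zero_mul]
    · have h4 : (S.c k).w'.1 ≠ 0 := fun h5 => by rw [h5, pow_zero] at h3; exact one_ne_zero h3
      refine Or.inr ⟨pow_eq_zero_iff h4 |>.1 h3, fun t ht => hx h2 _ ht ?_⟩
      rw [hκ]
      show _ * (0 : ℂ) ^ (S.c k).w'.1 = 0
      rw [zero_pow h4, mul_zero]
  · rw [hκ] at h1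
    rcases mul_eq_zero.1 h1 with h3 | h3
    · have h4 : (S.c k).w.2 ≠ 0 := fun h5 => by rw [h5, pow_zero] at h3; exact one_ne_zero h3
      refine Or.inl ⟨pow_eq_zero_iff h4 |>.1 h3, fun t ht => hy h2 _ ht ?_⟩
      rw [hκ]
      show (0 : ℂ) ^ (S.c k).w.2 * _ = 0
      rw [zero_pow h4, zero_mul]
    · have h4 : (S.c k).w'.2 ≠ 0 := fun h5 => by rw [h5, pow_zero] at h3; exact one_ne_zero h3
      refine Or.inr ⟨pow_eq_zero_iff h4 |>.1 h3, fun t ht => hy h2 _ ht ?_⟩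
      rw [hκ]
      show _ * (0 : ℂ) ^ (S.c k).w'.2 = 0
      rw [zero_pow h4, mul_zero]

theorem ne_of_KC {k : S.ι} {q : ℂ × ℂ} (hq : q ∈ S.D k) (hqK : S.σ k q ∈ K) : (CX S K k → q.1 ≠ 0) ∧ (CY S K k → q.2 ≠ 0) := by
  refine ⟨fun h h0 => ?_, fun h h0 => ?_⟩
  · have h1 : q = (0, q.2) := Prod.ext h0 rfl
    apply h q.2 (by rwa [← h1])
    rwa [← h1]
  · have h1 : q = (q.1, 0) := Prod.ext rfl h0
    apply h q.1 (by rwa [← h1])
    rwa [← h1]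

/-- the form in a chart -/
theorem form_chartK (hK : OpenPart (coneE P) K) {Wf : EN M → EN M → EN M → ℂ} {mK jH : ℕ} (hW : IsForm K mK jH Wf) {k : S.ι} {q : ℂ × ℂ} (hq : q ∈ S.D k)
    (hqK : S.σ k q ∈ K) : Wf (S.σ k q) (fderiv ℂ (S.σ k) q (1, 0)) (fderiv ℂ (S.σ k) q (0, 1)) =
      jc (S.κ k) q ^ mK * Wf (X.ρ k.1 (S.κ k q)) (fderiv ℂ (X.ρ k.1) (S.κ k q) (1, 0)) (fderiv ℂ (X.ρ k.1) (S.κ k q) (0, 1)) := by
  have hB : S.κ k q ∈ X.B k.1 := hq.2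
  have hρ := wtn_rho_an hB
  have hκ : AnalyticAt ℂ (S.κ k) q := analyticAt_mono q
  have hd : ∀ v, fderiv ℂ (S.σ k) q v = fderiv ℂ (X.ρ k.1) (S.κ k q) (fderiv ℂ (S.κ k) q v) := fun v => by
    have h1 : HasFDerivAt (S.σ k) ((fderiv ℂ (X.ρ k.1) (S.κ k q)).comp (fderiv ℂ (S.κ k) q)) q :=
      HasFDerivAt.comp (g := X.ρ k.1) (f := S.κ k) q hρ.differentiableAt.hasFDerivAt hκ.differentiableAt.hasFDerivAt
    rw [h1.fderiv]
    rfl
  have hT : ∀ v : ℂ × ℂ, fderiv ℂ (X.ρ k.1) (S.κ k q) v ∈ Pool.Agent.H17BP.Tan K (X.ρ k.1 (S.κ k q)) := fun v => by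
    have h1 := tan_boxK hK hB hqK one_ne_zero v
    rwa [one_smul, one_smul] at h1
  have hs : ∀ v : ℂ × ℂ, fderiv ℂ (X.ρ k.1) (S.κ k q) v =
      v.1 • fderiv ℂ (X.ρ k.1) (S.κ k q) (1, 0) + v.2 • fderiv ℂ (X.ρ k.1) (S.κ k q) (0, 1) := fun v => by
    have h6 : v = v.1 • ((1 : ℂ), (0 : ℂ)) + v.2 • ((0 : ℂ), (1 : ℂ)) := by
      ext <;> simp
    conv_lhs => rw [h6, map_add, map_smul, map_smul]
  rw [hd, hd, hs (fderiv ℂ (S.κ k) q (1, 0)), hs (fderiv ℂ (S.κ k) q (0, 1))]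
  have h1 := hW.det _ hqK _ (hT (1, 0)) _ (hT (0, 1)) (fderiv ℂ (S.κ k) q (1, 0)).1 (fderiv ℂ (S.κ k) q (1, 0)).2 (fderiv ℂ (S.κ k) q (0, 1)).1
    (fderiv ℂ (S.κ k) q (0, 1)).2
  refine h1.trans ?_
  congr 2
  unfold jc
  ring

/-- the upper bound in a chart -/
theorem wt_le_chartK (hX : Surface (coneE P)) (hK : OpenPart (coneE P) K) (hS : DCompl P RD Sf K) {Wf : EN M → EN M → EN M → ℂ} {mK jH : ℕ} (hm : 1 ≤ mK)
    (hW : IsForm K mK jH Wf) (hpo : PoleLE (coneE P) K (mK - 1) Wf) (k : S.ι) {L : Set (ℂ × ℂ)} (hL : IsCompact L) (hLD : L ⊆ S.D k) :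
    ∃ C : ℝ, ∀ F : ℂ → EN M, WCrv θ RD F → (∀ z, F z ∈ K) → ∀ Y : NCLift X F, ∀ z ∈ S.Om Y k, S.lf Y k z ∈ L → wt Wf Y k.1 z ≠ 0 →
      jc (S.κ k) (S.lf Y k z) ≠ 0 → Real.log ‖jc (S.κ k) (S.lf Y k z)‖ + (1 / mK * Real.log ‖wt Wf Y k.1 z‖ + jH / mK * Real.log ‖F z‖) ≤
        C + al mK (CX S K k) * Real.log ‖(S.lf Y k z).1‖ + al mK (CY S K k) * Real.log ‖(S.lf Y k z).2‖ := by
  have hmK : 0 < (mK : ℝ) := by exact_mod_cast hm
  obtain ⟨C₁, hC₁0, hC₁⟩ := pole_compact hpo hL (φ := S.σ k) (fun p hp => (σ_an k p (hLD hp)).1)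
    (fun p hp => by
      filter_upwards [(D_open k).mem_nhds (hLD hp)] with q hq
      exact (σ_an k q hq).2)
    (g := eqD (CX S K k) (CY S K k)) (fun p _ => eqD_an _ _ p) (fun p hp => by
      filter_upwards [(D_open k).mem_nhds (hLD hp)] with q hq hqK
      exact eqD_zero (chart_D hS hq hqK))
  have hρc : ContinuousOn (S.σ k) L := fun p hp => (σ_an k p (hLD hp)).1.continuousAt.continuousWithinAt
  obtain ⟨C₂, hC₂⟩ := hL.exists_bound_of_continuousOn hρc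
  refine ⟨1 / mK * Real.log C₁ + jH / mK * Real.log (|C₂| + 1), fun F hF hFK Y z hz hpL h0 hj => ?_⟩
  have hzU := Om_sub hF Y k hz
  obtain ⟨hq, hκ⟩ := lfN_mem hF Y k z hz
  set q := S.lf Y k z with hqdef
  obtain ⟨hw, h1⟩ := wt_logK hX hK hm hW Y hzU (hFK z) h0
  have hρK : S.σ k q ∈ K := by
    have h2 := rho_K hK Y hzU (hFK z)
    rwa [← hκ] at h2
  obtain ⟨n1, n2⟩ := ne_of_KC hq hρK
  have h5 := form_chartK hK hW hq hρK
  rw [hκ] at h5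
  set w0 := Wf (X.ρ k.1 (Y.p k.1 z)) (fderiv ℂ (X.ρ k.1) (Y.p k.1 z) (1, 0)) (fderiv ℂ (X.ρ k.1) (Y.p k.1 z) (0, 1)) with hw0
  have hpos : 0 < ‖Wf (S.σ k q) (fderiv ℂ (S.σ k) q (1, 0)) (fderiv ℂ (S.σ k) q (0, 1))‖ := by
    rw [h5]
    exact norm_pos_iff.2 (mul_ne_zero (pow_ne_zero _ hj) hw)
  have h2 := log_pole hm n1 n2 hpos hC₁0 (hC₁ _ hpL hρK)
  have h6 : 1 / (mK : ℝ) * Real.log ‖Wf (S.σ k q) (fderiv ℂ (S.σ k) q (1, 0)) (fderiv ℂ (S.σ k) q (0, 1))‖ =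
      Real.log ‖jc (S.κ k) q‖ + 1 / mK * Real.log ‖w0‖ := by
    rw [h5, norm_mul, norm_pow, Real.log_mul (pow_ne_zero _ (norm_ne_zero_iff.2 hj)) (norm_ne_zero_iff.2 hw), Real.log_pow]
    field_simp
  have h3 : Real.log ‖X.ρ k.1 (Y.p k.1 z)‖ ≤ Real.log (|C₂| + 1) := by
    refine Real.log_le_log (norm_pos_iff.2 (wtn_rho_ne hX (Y.mem k.1 z hzU))) ?_
    have h7 : X.ρ k.1 (Y.p k.1 z) = S.σ k q := by
      rw [← hκ]
      rfl
    rw [h7]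
    exact ((hC₂ _ hpL).trans (le_abs_self _)).trans (by linarith)
  have h4 : (jH : ℝ) / mK * Real.log ‖X.ρ k.1 (Y.p k.1 z)‖ ≤ jH / mK * Real.log (|C₂| + 1) := mul_le_mul_of_nonneg_left h3 (by positivity)
  rw [h1]
  linarith

end Pool.Agent.MQL
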