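import Pool.Agent.MQL.RootE

/-!
# MQL RootT: the root energy of both coordinates, for all exponents
-/

set_option autoImplicit false

open Topology Filter Metric MeasureTheory Asymptotics Laplacian

noncomputable section

namespace Pool.Agent.MQL

open Pool.Agent.H36.BP (EN)
open Pool.Agent.H30M (tau LogSing)
open Pool.Agent.MQ Pool.Agent.MQ2

theorem root_fst {al r s B : ℝ} (hal : -1 < al) (hs : 0 < s) (hsr : s < r) (hB : 0 ≤ B) : ∃ A : ℝ, 0 ≤ A ∧ ∀ (Om : Set ℂ) (p : ℂ → ℂ × ℂ) (lm : ℂ → ℝ),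
    IsOpen Om → (∀ z ∈ Om, AnalyticAt ℂ p z) → (∀ z ∈ Om, p z ∈ ball (0 : ℂ × ℂ) r) → (∀ t < r, IsClosed {z | z ∈ Om ∧ p z ∈ closedBall (0 : ℂ × ℂ) t}) →
    (al < 0 → ∀ z ∈ Om, (p z).1 ≠ 0) → Continuous lm → (∀ z, 0 ≤ lm z) → (∀ z ∈ Om, ‖deriv p z‖ ≤ B * lm z) →
    ∃ (l₁ : ℂ → ℝ) (K : ℝ), Continuous l₁ ∧ (∀ z, lm z ≤ l₁ z) ∧ (∀ R, 1 ≤ R → ∫ z, tau R z * l₁ z ^ 2 ≤ A * (∫ z, tau R z * lm z ^ 2) + K) ∧
      ∀ z ∈ Om, p z ∈ closedBall (0 : ℂ × ℂ) s → ‖(deriv p z).1‖ * ‖(p z).1‖ ^ al ≤ l₁ z := by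
  by_cases h0 : al < 0
  · obtain ⟨A, hA, h⟩ := root_energy hal hs hsr hB
    exact ⟨A, hA, fun Om p lm h1 h2 h3 h4 h5 => h Om p lm h1 h2 h3 h4 (h5 h0)⟩
  · push Not at h0
    refine ⟨(1 + B * s ^ al) ^ 2, sq_nonneg _, fun Om p lm _ _ _ _ _ hlc hl0 hp => ⟨fun z => (1 + B * s ^ al) * lm z, 0, by fun_prop, fun z => ?_, fun R _ => ?_,
      fun z hz hpz => ?_⟩⟩
    · have h1 : 0 ≤ B * s ^ al := by positivity
      nlinarith [hl0 z]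
    · refine le_of_eq ?_
      rw [add_zero, ← integral_const_mul]
      congr 1
      funext z
      ring
    · have h1 : ‖(p z).1‖ ≤ s := (norm_fst_le _).trans (by simpa using hpz)
      have h2 : ‖(p z).1‖ ^ al ≤ s ^ al := Real.rpow_le_rpow (norm_nonneg _) h1 h0
      have h3 : ‖(deriv p z).1‖ ≤ B * lm z := (norm_fst_le _).trans (hp z hz)
      calc ‖(deriv p z).1‖ * ‖(p z).1‖ ^ al ≤ B * lm z * s ^ al := mul_le_mul h3 h2 (by positivity) (mul_nonneg hB (hl0 z))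
        _ = B * s ^ al * lm z := by ring
        _ ≤ (1 + B * s ^ al) * lm z := mul_le_mul_of_nonneg_right (by linarith) (hl0 z)

theorem root_snd {be r s B : ℝ} (hbe : -1 < be) (hs : 0 < s) (hsr : s < r) (hB : 0 ≤ B) : ∃ A : ℝ, 0 ≤ A ∧ ∀ (Om : Set ℂ) (p : ℂ → ℂ × ℂ) (lm : ℂ → ℝ),
    IsOpen Om → (∀ z ∈ Om, AnalyticAt ℂ p z) → (∀ z ∈ Om, p z ∈ ball (0 : ℂ × ℂ) r) → (∀ t < r, IsClosed {z | z ∈ Om ∧ p z ∈ closedBall (0 : ℂ × ℂ) t}) →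
    (be < 0 → ∀ z ∈ Om, (p z).2 ≠ 0) → Continuous lm → (∀ z, 0 ≤ lm z) → (∀ z ∈ Om, ‖deriv p z‖ ≤ B * lm z) →
    ∃ (l₁ : ℂ → ℝ) (K : ℝ), Continuous l₁ ∧ (∀ z, lm z ≤ l₁ z) ∧ (∀ R, 1 ≤ R → ∫ z, tau R z * l₁ z ^ 2 ≤ A * (∫ z, tau R z * lm z ^ 2) + K) ∧
      ∀ z ∈ Om, p z ∈ closedBall (0 : ℂ × ℂ) s → ‖(deriv p z).2‖ * ‖(p z).2‖ ^ be ≤ l₁ z := by
  obtain ⟨A, hA, h⟩ := root_fst hbe hs hsr hB
  refine ⟨A, hA, fun Om p lm h1 h2 h3 h4 h5 h6 h7 h8 => ?_⟩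
  have hn : ∀ q : ℂ × ℂ, ‖q.swap‖ = ‖q‖ := fun q => by simp [Prod.norm_def, max_comm]
  have hb : ∀ (q : ℂ × ℂ) (t : ℝ), q.swap ∈ ball (0 : ℂ × ℂ) t ↔ q ∈ ball (0 : ℂ × ℂ) t := fun q t => by
    rw [mem_ball_zero_iff, mem_ball_zero_iff, hn]
  have hcb : ∀ (q : ℂ × ℂ) (t : ℝ), q.swap ∈ closedBall (0 : ℂ × ℂ) t ↔ q ∈ closedBall (0 : ℂ × ℂ) t := fun q t => by
    rw [mem_closedBall_zero_iff, mem_closedBall_zero_iff, hn]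
  have hd : ∀ z ∈ Om, deriv (fun w => (p w).swap) z = (deriv p z).swap := fun z hz => by
    have h9 := (h2 z hz).differentiableAt.hasDerivAt
    have h10 := ((ContinuousLinearEquiv.prodComm ℂ ℂ ℂ).toContinuousLinearMap.hasFDerivAt (x := p z)).comp_hasDerivAt z h9
    exact h10.deriv
  obtain ⟨l₁, K, e1, e2, e3, e4⟩ := h Om (fun w => (p w).swap) lm h1
    (fun z hz => ((ContinuousLinearEquiv.prodComm ℂ ℂ ℂ).toContinuousLinearMap.analyticAt _).comp (h2 z hz))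
    (fun z hz => (hb _ _).2 (h3 z hz)) (fun t ht => by simpa only [hcb] using h4 t ht) (fun h0 z hz => h5 h0 z hz) h6 h7
    (fun z hz => by rw [hd z hz, hn]; exact h8 z hz)
  refine ⟨l₁, K, e1, e2, e3, fun z hz hpz => ?_⟩
  have h9 := e4 z hz ((hcb _ _).2 hpz)
  rw [hd z hz] at h9
  exact h9

end Pool.Agent.MQL
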