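import Pool.Agent.MQL.Defs
import Pool.Agent.MQ3.NDefs
import Pool.Agent.H36.BPL.Defs

/-!
# MQL SDefs: the open surface, weights with poles, curves which avoid the boundary, exponents

`H₀` is a form, `D = {H₀ = 0}` the boundary; it is contained in the divisor `{RD = 0}` of the model.

* `okE P H₀`: the cone over the open surface.
* `LW`: `Wf` is a section of `mK (K + D) - jH H` with poles of order at most `mK - 1` along `D`.
* `LCrv`: the curves of the theorem, they avoid `D`.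
* `exX H₀ mK φ q`, `exY H₀ mK φ q`: the exponents of the two lines through `q` in the parametrization `φ`: `1 / mK - 1` if the line lies in `D`, otherwise `0`.
* `GoodC c al be v`: the package `GoodD GT al be v` with the formal curves `c`.
* `Reg0 S k q`: the vector field is regular at `q`, `q` is not the crossing, and the axis through `q` is invariant or transversal.
-/

set_option autoImplicit false

open Topology Filter Metric MvPolynomial MeasureTheory Laplacian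

noncomputable section

namespace Pool.Agent.MQL

open Pool.Agent.H36.BP (EN)
open Pool.Agent.H17BP (Surface IsForm)
open Pool.Agent.H36.BPL (PoleLE)
open Pool.Agent.H17EF (coneE)
open Pool.Agent.H30M (tau LogSing)
open Pool.Agent.MQ (lam En)
open Pool.Agent.MQ2 (Iso Wt Sep FZero HasOrd LocX Dat)
open Pool.Agent.MQ3

variable {M : ℕ}

/-- the cone over the open surface -/
def okE (P : Ideal (MvPolynomial (Fin (M + 1)) ℂ)) (H₀ : MvPolynomial (Fin (M + 1)) ℂ) : Set (EN M) := {x | x ∈ coneE P ∧ eval x.ofLp H₀ ≠ 0}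

/-- the boundary is contained in `{RD = 0}` -/
structure DivB (P : Ideal (MvPolynomial (Fin (M + 1)) ℂ)) (RD H₀ : MvPolynomial (Fin (M + 1)) ℂ) : Prop where
  hom : ∃ e, H₀.IsHomogeneous e
  le : ∀ x ∈ coneE P, eval x.ofLp H₀ = 0 → eval x.ofLp RD = 0

/-- a section of `mK (K + D) - jH H` with poles of order at most `mK - 1` -/
structure LW (P : Ideal (MvPolynomial (Fin (M + 1)) ℂ)) (H₀ : MvPolynomial (Fin (M + 1)) ℂ) (mK jH : ℕ) (Wf : EN M → EN M → EN M → ℂ) : Prop where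
  one_m : 1 ≤ mK
  hom : ∃ e, H₀.IsHomogeneous e
  form : IsForm (okE P H₀) mK jH Wf
  pole : PoleLE (coneE P) (okE P H₀) (mK - 1) Wf

variable {P : Ideal (MvPolynomial (Fin (M + 1)) ℂ)} {m : ℕ}

/-- the curves of the theorem avoid the boundary -/
structure LCrv (θ : WDiff (coneE P) m) (RD H₀ Ra : MvPolynomial (Fin (M + 1)) ℂ) (F : ℂ → EN M) : Prop extends RCrv θ RD Ra F where
  avoid : ∀ z, eval (F z).ofLp H₀ ≠ 0

open Classical in
/-- the exponent of the line `x = q.1` -/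
def exX (H₀ : MvPolynomial (Fin (M + 1)) ℂ) (mK : ℕ) (φ : ℂ × ℂ → EN M) (q : ℂ × ℂ) : ℝ :=
  if ∀ᶠ t in 𝓝 (0 : ℂ), eval (φ (q.1, q.2 + t)).ofLp H₀ = 0 then (mK : ℝ)⁻¹ - 1 else 0

open Classical in
/-- the exponent of the line `y = q.2` -/
def exY (H₀ : MvPolynomial (Fin (M + 1)) ℂ) (mK : ℕ) (φ : ℂ × ℂ → EN M) (q : ℂ × ℂ) : ℝ :=
  if ∀ᶠ t in 𝓝 (0 : ℂ), eval (φ (q.1 + t, q.2)).ofLp H₀ = 0 then (mK : ℝ)⁻¹ - 1 else 0

/-- the package with the formal curves `c` -/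
def GoodC {n₀ : ℕ} (c : Fin n₀ → ℕ → ℂ → ℂ × ℂ) (al be : ℝ) (v : ℂ × ℂ → ℂ × ℂ) : Prop :=
  ∀ g : ℂ × ℂ → ℂ, Wt v g → AxW al be v g → ∀ᶠ r in 𝓝[>] (0 : ℝ), ∀ s s', 0 < s → s < s' → s' < r → ∀ B, 0 ≤ B → ∃ A C₀ : ℝ, 0 ≤ A ∧ 0 ≤ C₀ ∧
    ∀ (d n : ℕ) (q : ℂ × ℂ → ℂ) (ψ : ℂ × ℂ → ℝ), 1 ≤ d → 1 ≤ n → AnalyticAt ℂ q 0 → ContDiffAt ℝ 1 ψ 0 →
      (∀ i, FZero (c i) g ∨ HasOrd (c i) q n) →
      ∀ (M : ℕ) (F : ℂ → EN M) (Q : ℂ → ℂ) (lm : ℂ → ℝ) (Om : Set ℂ) (p : ℂ → ℂ × ℂ), Dat v g r B d q ψ F Q lm Om p → Avoid al be Om p →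
        LocX v g (JD al be) {z | z ∈ Om ∧ p z ∈ ball (0 : ℂ × ℂ) s'} p lm s A (C₀ * d / n)

variable {RD H₀ Ra : MvPolynomial (Fin (M + 1)) ℂ} {X : NCModel P RD} {θ : WDiff (coneE P) m} {l : LF M}

/-- regular chart points: the axis through the point is invariant or transversal -/
structure Reg0 (S : Web X θ l) (k : S.ι) (q : ℂ × ℂ) : Prop where
  v_ne : S.v k q ≠ 0
  ne : q ≠ 0
  ax₁ : q.1 = 0 → (S.v k q).1 ≠ 0 ∨ ∀ᶠ x in 𝓝 q, x.1 = 0 → (S.v k x).1 = 0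
  ax₂ : q.2 = 0 → (S.v k q).2 ≠ 0 ∨ ∀ᶠ x in 𝓝 q, x.2 = 0 → (S.v k x).2 = 0

/-- `lm` is a density for the cover, it bounds the potentials of the boxes; `A`, `B` do not depend on the curve -/
structure DensL {S : Web X θ l} (C : Cov S Ra) {F : ℂ → EN M} (Y : NCLift X F) (Wf : EN M → EN M → EN M → ℂ) (mK jH : ℕ) (A B : ℝ) (lm : ℂ → ℝ) : Prop
    extends Dens C Y A lm where
  up : ∀ k, ∀ z ∈ Y.U (C.b k), Y.p (C.b k) z ∈ ball (C.y k) (C.t k) → ContDiffAt ℝ 2 (eN (C.H k) Wf mK jH Y (C.b k)) z →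
    eN (C.H k) Wf mK jH Y (C.b k) z ≤ B + Real.log (1 + lm z)

end Pool.Agent.MQL
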