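import Pool.Agent.MQL.RegD0
import Pool.Agent.MQL.SDefs

/-!
# MQL RegC: the package without formal curves, at the points of `Reg0` (from `goodD_reg0`)
-/

set_option autoImplicit false

open Topology Filter Metric

noncomputable section

namespace Pool.Agent.MQL

theorem goodC_reg0 {al be : ℝ} (hal : -1 < al) (hbe : -1 < be) (hn : 0 ≤ al ∨ 0 ≤ be) {v : ℂ × ℂ → ℂ × ℂ} (hv : AnalyticAt ℂ v 0) (h0 : v 0 ≠ 0)
    (h1 : al < 0 → (v 0).1 ≠ 0 ∨ ∀ᶠ t in 𝓝 (0 : ℂ), (v (0, t)).1 = 0) (h2 : be < 0 → (v 0).2 ≠ 0 ∨ ∀ᶠ t in 𝓝 (0 : ℂ), (v (t, 0)).2 = 0)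
    (c : Fin 0 → ℕ → ℂ → ℂ × ℂ) : GoodC c al be v := by
  intro g hg hA
  have h := goodD_reg0 hal hbe hv h0 h1 h2 (fun ha hb => absurd hn (by rw [not_or, not_le, not_le]; exact ⟨ha, hb⟩)) g trivial hg hA
  filter_upwards [h] with r hr
  intro s s' hs hss hsr B hB
  obtain ⟨A, C₀, hA, hC, hmain⟩ := hr s s' hs hss hsr B hB
  exact ⟨A, C₀, hA, hC, fun d n q ψ hd hn hq hψ _ => hmain d n q ψ hd hn hq hψ⟩

end Pool.Agent.MQL
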