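import Pool.Agent.MQL.RegDC

/-!
# MQL RegD: the logarithmic package at a regular point

By exchange of the coordinates `v 0` has a second component `≠ 0`.  If `al ≥ 0`, or the axis `{x = 0}` is a leaf (then `x` divides the weight), or the weight
vanishes at the origin, then the pointwise bound holds with `Φ = 0`.  Otherwise the leaf through the origin is not algebraic and `Φ` is `k log |Y|` near the leaf,
cut off in a shell where the form of high contact with the leaf controls `|Y' / Y|²`.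
-/

set_option autoImplicit false

open Topology Filter Metric MeasureTheory Asymptotics Laplacian Set

noncomputable section

namespace Pool.Agent.MQL

open Pool.Agent.H36.BP (EN)
open Pool.Agent.H30M (tau LogSing)
open Pool.Agent.MQ Pool.Agent.MQ2
open Pool.Agent.MQ.AxisA (ct ct_nonneg ct_le_one ct_of_le ct_of_ge shell st_deriv_bdd integrable_charge)

/-- the conclusion for one weight -/
def RegC (al be : ℝ) (v : ℂ × ℂ → ℂ × ℂ) (g : ℂ × ℂ → ℂ) (γ : ℂ → ℂ × ℂ) : Prop :=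
  ∀ᶠ r in 𝓝[>] (0 : ℝ), ∀ s s', 0 < s → s < s' → s' < r → ∀ B, 0 ≤ B → ∃ A C₀ : ℝ, 0 ≤ A ∧ 0 ≤ C₀ ∧
    ∀ (d n : ℕ) (q : ℂ × ℂ → ℂ) (ψ : ℂ × ℂ → ℝ), 1 ≤ d → 1 ≤ n → AnalyticAt ℂ q 0 → ContDiffAt ℝ 1 ψ 0 →
      (FZero (fun _ => γ) g ∨ HasOrd (fun _ => γ) q n) →
      ∀ (M : ℕ) (F : ℂ → EN M) (Q : ℂ → ℂ) (lm : ℂ → ℝ) (Om : Set ℂ) (p : ℂ → ℂ × ℂ), Dat v g r B d q ψ F Q lm Om p → Avoid al be Om p →
        LocX v g (JD al be) {z | z ∈ Om ∧ p z ∈ ball (0 : ℂ × ℂ) s'} p lm s A (C₀ * d / n)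

/-- a lower bound of the second component and an upper bound of the weight -/
theorem reg_const {v : ℂ × ℂ → ℂ × ℂ} (hv : AnalyticAt ℂ v 0) (h2 : (v 0).2 ≠ 0) {g : ℂ × ℂ → ℂ} (hg : AnalyticAt ℂ g 0) :
    ∃ m G : ℝ, 0 < m ∧ 0 < G ∧ ∀ᶠ p in 𝓝 (0 : ℂ × ℂ), m ≤ ‖(v p).2‖ ∧ ‖g p‖ ≤ G := by
  have h0 : 0 < ‖(v 0).2‖ := norm_pos_iff.2 h2
  have h3 : ContinuousAt (fun p => ‖(v p).2‖) 0 := (continuous_snd.continuousAt.comp hv.continuousAt).norm
  refine ⟨‖(v 0).2‖ / 2, ‖g 0‖ + 1, by positivity, by positivity, ?_⟩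
  filter_upwards [h3.eventually_const_lt (show ‖(v 0).2‖ / 2 < ‖(v 0).2‖ by linarith), hg.continuousAt.norm.eventually_lt_const (lt_add_one ‖g 0‖)] with p e1 e2
  exact ⟨e1.le, e2.le⟩

/-- **No potential.** -/
theorem reg_case0 {al be : ℝ} (hal : -1 < al) (hbe : -1 < be) {v : ℂ × ℂ → ℂ × ℂ} (hv : AnalyticAt ℂ v 0) (h2 : (v 0).2 ≠ 0) {g : ℂ × ℂ → ℂ} (hg : Wt v g)
    (h : 0 ≤ al ∨ ∃ C' : ℝ, 0 < C' ∧ ∀ᶠ p in 𝓝 (0 : ℂ × ℂ), ‖g p‖ ≤ C' * rg v p) (γ : ℂ → ℂ × ℂ) : RegC al be v g γ := by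
  have h0 : v 0 ≠ 0 := fun h => h2 (by rw [h]; rfl)
  obtain ⟨m, G, hm, hG, hmG⟩ := reg_const hv h2 hg.an
  obtain ⟨C₁, hC₁, hloc⟩ : ∃ C₁ : ℝ, 0 ≤ C₁ ∧ ∀ᶠ r in 𝓝[>] (0 : ℝ), ∀ (Om : Set ℂ) (p : ℂ → ℂ × ℂ), Crv1 v r Om p → ∀ z ∈ Om, ∀ L : ℝ,
      ‖(deriv p z).1‖ * ‖(p z).1‖ ^ al ≤ L → ‖(deriv p z).2‖ * ‖(p z).2‖ ^ be ≤ L → ‖ztv v p z‖ * ‖g (p z)‖ * ‖JD al be (p z)‖ ≤ C₁ * L := by
    rcases h with h | ⟨C', hC', h⟩
    · refine ⟨G * (1 / m), by positivity, ?_⟩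
      filter_upwards [eventually_cball hmG, Ioo_mem_nhdsGT one_pos] with r hr hr1
      intro Om p hp z hz L h3 h4
      obtain ⟨e1, e2⟩ := hr _ (ball_subset_closedBall (hp.mem z hz))
      have e3 := (reg_bound hp hr1.2.le hal hbe hm hz e1 h3 h4).2
      have hpr : ‖p z‖ ≤ 1 := by
        have := hp.mem z hz
        rw [mem_ball_zero_iff] at this
        linarith [hr1.2]
      have e4 : ‖(p z).1‖ ^ al ≤ 1 := Real.rpow_le_one (norm_nonneg _) ((norm_fst_le _).trans hpr) h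
      rw [JD_norm]
      have e5 : ‖ztv v p z‖ * ‖g (p z)‖ * (‖(p z).1‖ ^ al * ‖(p z).2‖ ^ be) = (‖g (p z)‖ * ‖(p z).1‖ ^ al) * (‖ztv v p z‖ * ‖(p z).2‖ ^ be) := by ring
      have e6 : ‖g (p z)‖ * ‖(p z).1‖ ^ al ≤ G * 1 := mul_le_mul e2 e4 (by positivity) hG.le
      rw [e5]
      calc (‖g (p z)‖ * ‖(p z).1‖ ^ al) * (‖ztv v p z‖ * ‖(p z).2‖ ^ be) ≤ (G * 1) * (1 / m * L) := mul_le_mul e6 e3 (by positivity) (by positivity)
        _ = G * (1 / m) * L := by ring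
    · refine ⟨C' * (1 + 1 / m), by positivity, ?_⟩
      filter_upwards [eventually_cball hmG, eventually_cball h, Ioo_mem_nhdsGT one_pos] with r hr hr' hr1
      intro Om p hp z hz L h3 h4
      have hb := ball_subset_closedBall (hp.mem z hz)
      have e3 := (reg_bound hp hr1.2.le hal hbe hm hz (hr _ hb).1 h3 h4).1
      calc ‖ztv v p z‖ * ‖g (p z)‖ * ‖JD al be (p z)‖ ≤ ‖ztv v p z‖ * (C' * rg v (p z)) * ‖JD al be (p z)‖ := by
            gcongr
            exact hr' _ hb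
        _ = C' * (‖ztv v p z‖ * rg v (p z) * ‖JD al be (p z)‖) := by ring
        _ ≤ C' * ((1 + 1 / m) * L) := mul_le_mul_of_nonneg_left e3 hC'.le
        _ = _ := by ring
  filter_upwards [hloc, RegD0.locX_reg (J := JD al be) hv h0 hg] with r hr hloc
  intro s s' hs hss hsr B hB
  obtain ⟨A, hA, hd⟩ := dens2 hal hbe (hs.trans hss) hsr hB
  refine ⟨A, 0, hA, le_rfl, ?_⟩
  intro d n q ψ _ _ _ _ _ M F Q lm Om p hD hAv
  rw [zero_mul, zero_div]
  obtain ⟨l, K, c1, c2, c3, c4⟩ := hd Om p lm hD.crv.isOpen hD.crv.an hD.crv.mem hD.crv.closed hAv hD.lm_cont hD.lm_nonneg hD.lm_ge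
  refine hloc Om p lm l s s' A K B C₁ hD.crv hD.g_ne hB hD.lm_nonneg hD.lm_ge c1 c2 c3 hC₁ fun z hz hz' => ?_
  obtain ⟨e1, e2⟩ := c4 z hz (ball_subset_closedBall hz')
  exact hr Om p hD.crv z hz (l z) e1 e2

theorem log_le_one {t E l : ℝ} (ht : 0 < t) (hE : 0 ≤ E) (hl : 0 ≤ l) (h : t ≤ E * l) : Real.log t ≤ Real.log (1 + E) + Real.log (1 + l) := by
  rw [← Real.log_mul (by positivity) (by positivity)]
  exact Real.log_le_log ht (by nlinarith)

/-- **The leaf is not algebraic.** -/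
theorem reg_case1 {al be : ℝ} (hal : -1 < al) (hbe : -1 < be) {v : ℂ × ℂ → ℂ × ℂ} (hv : AnalyticAt ℂ v 0) (h2 : (v 0).2 ≠ 0)
    (hx : ¬ ∀ᶠ t in 𝓝 (0 : ℂ), (v (0, t)).1 = 0) {Φ Ψ : ℂ × ℂ → ℂ × ℂ} (hbox : FBox v Φ Ψ) {g : ℂ × ℂ → ℂ} (hg : Wt v g) (hg0 : g 0 ≠ 0) :
    RegC al be v g (leaf Φ) := by
  have h0 : v 0 ≠ 0 := fun h => h2 (by rw [h]; rfl)
  have hiso : ∀ᶠ p in 𝓝 (0 : ℂ × ℂ), p ≠ 0 → v p ≠ 0 := (hv.continuousAt.eventually_ne h0).mono fun p hp _ => hp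
  obtain ⟨m, G, hm, hG, hmG⟩ := reg_const hv h2 hg.an
  obtain ⟨k, Ck, hk, hCk, hkb, -⟩ := reg_axis hv h2 hx
  obtain ⟨C₃, hC₃, hsb⟩ := snd_bound hbox.an' hbox.zero' hk hCk hkb
  obtain ⟨Ms, hMs, hst⟩ := st_deriv_bdd
  have hlg := log2_pos
  filter_upwards [eventually_cball (hmG.and (hkb.and hsb)), hbox.fb hv h0, DD_cof hv hiso hg, DD_bound hv hiso hg, Ioo_mem_nhdsGT one_pos] with r hr hfb hcof hbd hr1
  intro s s' hs hss hsr B hB
  obtain ⟨hh, hhan, hcof⟩ := hcof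
  obtain ⟨CD, hCD, hbd⟩ := hbd 0 (Or.inr h0)
  obtain ⟨A, hA, hd⟩ := dens2 hal hbe (hs.trans hss) hsr hB
  refine ⟨A, 48 * k * Ms / Real.log 2, hA, by positivity, ?_⟩
  intro d n q ψ hd1 hn hqa hψa hord M F Q lm Om p hD hAv
  -- the order
  obtain ⟨n', hn', hord'⟩ : HasOrd (fun _ => leaf Φ) q n := by
    rcases hord with h | h
    · exfalso
      have h4 : Tendsto (fun t : ℂ => g (leaf Φ t)) (𝓝 0) (𝓝 (g 0)) := by
        have h5 : Tendsto (leaf Φ) (𝓝 0) (𝓝 0) := by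
          have := hbox.leaf_an.continuousAt.tendsto
          have h6 : leaf Φ 0 = 0 := hbox.zero
          rwa [h6] at this
        exact hg.an.continuousAt.tendsto.comp h5
      have h5 : Tendsto (fun t : ℂ => g (leaf Φ t)) (𝓝 0) (𝓝 0) := by
        refine (h 0).trans_tendsto ?_
        have : Continuous fun t : ℂ => t ^ (0 + 1) := by fun_prop
        exact this.tendsto' _ _ (by simp)
      exact hg0 (tendsto_nhds_unique h4 h5)
    · exact h
  have hn0 : (0 : ℝ) < n := by exact_mod_cast hn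
  have hn'0 : (0 : ℝ) < n' := by exact_mod_cast (hn.trans hn')
  -- the shell
  obtain ⟨s₀, hs₀, hs₀'⟩ : ∃ s₀ : ℝ, 0 < s₀ ∧ ∀ x ∈ ball (0 : ℂ × ℂ) s₀, Φ x ∈ ball (0 : ℂ × ℂ) s := by
    have h3 : ∀ᶠ x in 𝓝 (0 : ℂ × ℂ), Φ x ∈ ball (0 : ℂ × ℂ) s := by
      have h4 := hbox.an.continuousAt.tendsto
      rw [hbox.zero] at h4
      exact h4.eventually (ball_mem_nhds _ hs)
    exact Metric.eventually_nhds_iff_ball.1 h3
  have hq' : AnalyticAt ℂ (fun x => q (Φ x)) 0 := by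
    have : AnalyticAt ℂ q (Φ 0) := by rw [hbox.zero]; exact hqa
    exact this.comp hbox.an
  have hψ' : ContDiffAt ℝ 1 (fun x => ψ (Φ x)) 0 := by
    have h3 : ContDiffAt ℝ 1 ψ (Φ 0) := by rw [hbox.zero]; exact hψa
    exact h3.comp 0 ((hbox.an.contDiffAt (n := 1)).restrict_scalars ℝ)
  obtain ⟨ρ, ε, k1, k2, k3, k4⟩ := shell hq' (hn.trans hn') (hord' n' le_rfl) hψ' d (le_refl (0 : ℝ)) hs₀
  have hρ : 0 < ρ := by linarith
  obtain ⟨cQ, hcQ, hcc⟩ := hD.Q_eq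
  obtain ⟨b₀, k5⟩ := k4 cQ hcQ
  have hcrv := hD.crv
  have hmem : ∀ z ∈ Om, p z ∈ closedBall (0 : ℂ × ℂ) r := fun z hz => ball_subset_closedBall (hcrv.mem z hz)
  have hshell := k5 hD.F_diff hD.F_ne (hfb.axis hcrv) (g := Q) (fun z hz => by
    have e1 : Φ ((Ψ (p z)).1, (Ψ (p z)).2) = p z := hfb.right _ (hmem z hz.1)
    rw [e1]
    exact hcc z hz.1)
  obtain ⟨Cc, hCc⟩ := charge hD.F_diff hD.F_ne hD.Q_diff hD.Q_le (hn.trans hn') b₀
  obtain ⟨δ, hδ, hδ'⟩ : ∃ δ : ℝ, 0 < δ ∧ ∀ x ∈ ball (0 : ℂ × ℂ) δ, Ψ x ∈ ball (0 : ℂ × ℂ) (ε / 2) := by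
    have h3 : ∀ᶠ x in 𝓝 (0 : ℂ × ℂ), Ψ x ∈ ball (0 : ℂ × ℂ) (ε / 2) := by
      have h4 := hbox.an'.continuousAt.tendsto
      rw [hbox.zero'] at h4
      exact h4.eventually (ball_mem_nhds _ (by positivity))
    exact Metric.eventually_nhds_iff_ball.1 h3
  obtain ⟨l, K, c1, c2, c3, c4⟩ := hd Om p lm hcrv.isOpen hcrv.an hcrv.mem hcrv.closed hAv hD.lm_cont hD.lm_nonneg hD.lm_ge
  have hl0 : ∀ z, 0 ≤ l z := fun z => (hD.lm_nonneg z).trans (c2 z)
  -- the coordinates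
  set X : ℂ → ℂ := fun z => (Ψ (p z)).1 with hX
  set Y : ℂ → ℂ := fun z => (Ψ (p z)).2 with hY
  have hYan : ∀ z ∈ Om, AnalyticAt ℂ Y z := fun z hz => hfb.an_Y hcrv hz
  set a : ℂ → ℝ := fun z => k * Real.log 2 * ct ε ‖X z‖ with ha
  have ha0 : ∀ z, 0 ≤ a z := fun z => mul_nonneg (by positivity) (ct_nonneg _ _)
  have ha1 : ∀ z, a z ≤ k * Real.log 2 := fun z => mul_le_of_le_one_right (by positivity) (ct_le_one _ _)
  have haev : ∀ z ∈ Om, ∀ᶠ w in 𝓝 z, a w = a z := fun z hz => (hfb.X_const hcrv hz).mono fun w hw => by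
    show k * Real.log 2 * ct ε ‖(Ψ (p w)).1‖ = k * Real.log 2 * ct ε ‖(Ψ (p z)).1‖
    rw [hw]
  set P : ℂ → ℝ := fun z => a z * pot ρ Y z with hP
  set er : ℂ → ℝ := fun z => a z * perr ρ Y z with her
  have hPev : ∀ z ∈ Om, P =ᶠ[𝓝 z] fun w => a z * pot ρ Y w := fun z hz => (haev z hz).mono fun w hw => by
    show a w * pot ρ Y w = _
    rw [hw]
  -- the field
  have hvz : ∀ z ∈ Om, v (p z) ≠ 0 := fun z hz => hfb.ne _ (hmem z hz)
  have hDa : ∀ z ∈ Om, AnalyticAt ℂ (DDv v g p) z := by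
    intro z hz
    obtain ⟨-, h3, h4⟩ := hcof Om p hcrv hD.g_ne z hz (hvz z hz)
    have h5 : AnalyticAt ℂ (fun w => hh (p w)) z := AnalyticAt.comp (g := hh) (f := p) (hhan _ (hmem z hz)) (hcrv.an z hz)
    exact (h5.mul h3).congr (h4.mono fun w hw => hw.symm)
  have hDle : ∀ z ∈ Om, ‖DDv v g p z‖ ≤ CD * B * l z := fun z hz => by
    have h3 := (hbd Om p hcrv hD.g_ne z hz (by rw [ball_zero]; exact Set.notMem_empty _)).2
    calc ‖DDv v g p z‖ ≤ CD * ‖deriv p z‖ := h3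
      _ ≤ CD * (B * l z) := by
        gcongr
        exact (hD.lm_ge z hz).trans (by gcongr; exact c2 z)
      _ = _ := by ring
  -- the bound of the error
  set c₁ : ℝ := k * Real.log 2 * (Ms / Real.log 2 ^ 2) * (4 / (n' : ℝ) ^ 2) with hc₁
  have hc₁0 : 0 ≤ c₁ := by positivity
  set E : Set ℂ := {z | Q z ≠ 0 ∧ b₀ ≤ lu F Q d z ∧ lu F Q d z ≤ b₀ + 2 * n'} with hE
  have herr0 : ∀ z, 0 ≤ er z := fun z => mul_nonneg (ha0 z) perr_nonneg
  have herr : ∀ z ∈ Om, er z ≤ c₁ * E.indicator (fun z => ‖gr (lu F Q d) z‖ ^ 2) z := by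
    intro z hz
    have hind : 0 ≤ E.indicator (fun z => ‖gr (lu F Q d) z‖ ^ 2) z := Set.indicator_nonneg (fun _ _ => by positivity) z
    by_cases hxz : ‖X z‖ ≤ ε
    · by_cases hyz : ρ / 2 ≤ ‖Y z‖ ∧ ‖Y z‖ ≤ ρ
      · have hY0 : Y z ≠ 0 := norm_pos_iff.1 (by linarith [hyz.1])
        obtain ⟨g1, g2, g3, g4⟩ := hshell z ⟨hz, hY0⟩ hxz hyz.1 hyz.2
        rw [Set.indicator_of_mem (show z ∈ E from ⟨g1, g2, g3⟩)]
        have g5 : ((n' : ℝ) / 2 * ‖deriv Y z / Y z‖) ^ 2 ≤ ‖gr (lu F Q d) z‖ ^ 2 := pow_le_pow_left₀ (by positivity) g4 2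
        have g6 : ‖deriv Y z / Y z‖ ^ 2 ≤ 4 / (n' : ℝ) ^ 2 * ‖gr (lu F Q d) z‖ ^ 2 := by
          have g7 : ‖deriv Y z / Y z‖ ^ 2 = 4 / (n' : ℝ) ^ 2 * ((n' : ℝ) / 2 * ‖deriv Y z / Y z‖) ^ 2 := by
            field_simp
            ring
          rw [g7]
          exact mul_le_mul_of_nonneg_left g5 (by positivity)
        calc a z * perr ρ Y z ≤ (k * Real.log 2) * (Ms / Real.log 2 ^ 2 * ‖deriv Y z / Y z‖ ^ 2) :=
              mul_le_mul (ha1 z) (perr_le hst) perr_nonneg (by positivity)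
          _ ≤ (k * Real.log 2) * (Ms / Real.log 2 ^ 2 * (4 / (n' : ℝ) ^ 2 * ‖gr (lu F Q d) z‖ ^ 2)) := by gcongr
          _ = c₁ * ‖gr (lu F Q d) z‖ ^ 2 := by rw [hc₁]; ring
      · have h3 : perr ρ Y z = 0 := perr_eq_zero hρ (by
          rcases le_or_gt (ρ / 2) ‖Y z‖ with h | h
          · right
            by_contra h4
            exact hyz ⟨h, (not_le.1 h4).le⟩
          · exact Or.inl h.le)
        show a z * perr ρ Y z ≤ _
        rw [h3, mul_zero]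
        exact mul_nonneg hc₁0 hind
    · have h3 : a z = 0 := by
        show k * Real.log 2 * ct ε ‖X z‖ = 0
        rw [ct_of_ge k1 (not_le.1 hxz).le, mul_zero]
      show a z * perr ρ Y z ≤ _
      rw [h3, zero_mul]
      exact mul_nonneg hc₁0 hind
  have hercont : ∀ z ∈ Om, ContinuousAt er z := fun z hz => by
    have h3 : er =ᶠ[𝓝 z] fun w => a z * perr ρ Y w := (haev z hz).mono fun w hw => by
      show a w * perr ρ Y w = _
      rw [hw]
    exact (continuousAt_const.mul (continuousAt_perr hρ (hYan z hz))).congr h3.symm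
  -- the constants
  set cδ : ℝ := min δ (δ ^ k / Ck) with hcδ
  have hcδ0 : 0 < cδ := lt_min hδ (by positivity)
  set E₁ : ℝ := G / cδ * (1 + 1 / m) with hE₁
  set E₂ : ℝ := G * C₃ * (1 + 1 / m) with hE₂
  have hE₁0 : 0 ≤ E₁ := by positivity
  have hE₂0 : 0 ≤ E₂ := by positivity
  have hlE₁ : 0 ≤ Real.log (1 + E₁) := Real.log_nonneg (by linarith)
  have hlE₂ : 0 ≤ Real.log (1 + E₂) := Real.log_nonneg (by linarith)
  set C : ℝ := |K| + CD * B + Real.log (1 + E₁) + Real.log (1 + E₂) + |k * Real.log ρ| + |k * Real.log 2 * rc| + |c₁ * Cc| with hC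
  have hp1 := abs_nonneg K
  have hp2 : 0 ≤ CD * B := by positivity
  have hp3 := abs_nonneg (k * Real.log ρ)
  have hp4 := abs_nonneg (k * Real.log 2 * rc)
  have hp5 := abs_nonneg (c₁ * Cc)
  have hC0 : 0 ≤ C := by rw [hC]; positivity
  have hJb : ∀ z ∈ Om, p z ∈ ball (0 : ℂ × ℂ) s' → ‖ztv v p z‖ * rg v (p z) * ‖JD al be (p z)‖ ≤ (1 + 1 / m) * l z := fun z hz hz' => by
    obtain ⟨e1, e2⟩ := c4 z hz (ball_subset_closedBall hz')
    exact (reg_bound hcrv hr1.2.le hal hbe hm hz (hr _ (hmem z hz)).1.1 e1 e2).1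
  refine ⟨C, l, fun z => (starRingEnd ℂ) (DDv v g p z), P, er, hC0, c1, c2, fun R hR => (c3 R hR).trans ?_,
    fun z hz => (contDiffAt_conj_holo (hDa z hz.1)).contDiffWithinAt, fun z hz => (hercont z hz.1).continuousWithinAt, fun z hz => ?_, fun z hz hzs => ?_,
    fun z hz _ => ?_, fun z hz hCz => ?_, fun z hz hCz hzt hgz hJz => ?_, fun R hR => ?_⟩
  · have := le_abs_self K
    linarith
  · obtain ⟨c, s1, hs1, he⟩ := (pot_facts hρ (hYan z hz.1) (a z)).1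
    refine ⟨c, s1, hs1, ?_⟩
    filter_upwards [he, (hPev z hz.1).filter_mono nhdsWithin_le_nhds] with w e1 e2
    rw [e2, e1]
  · -- outside the small polydisc
    have h3 : a z = 0 ∨ ρ ≤ ‖Y z‖ := by
      by_contra hcon
      push Not at hcon
      have h4 : ‖X z‖ < ε := by
        by_contra h4
        refine hcon.1 ?_
        show k * Real.log 2 * ct ε ‖X z‖ = 0
        rw [ct_of_ge k1 (not_lt.1 h4), mul_zero]
      have h5 : Ψ (p z) ∈ ball (0 : ℂ × ℂ) s₀ := by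
        rw [mem_ball_zero_iff, Prod.norm_def]
        exact max_lt (by linarith) (by linarith [hcon.2])
      have h6 := hs₀' _ h5
      rw [hfb.right _ (hmem z hz.1)] at h6
      exact hzs h6
    refine ⟨rfl, ?_, ?_⟩
    · show a z * perr ρ Y z = 0
      rcases h3 with h3 | h3
      · rw [h3, zero_mul]
      · rw [perr_eq_zero hρ (Or.inr h3), mul_zero]
    · show a z * pot ρ Y z = 0
      rcases h3 with h3 | h3
      · rw [h3, zero_mul]
      · rw [pot_of_ge hρ h3, mul_zero]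
  · rw [RCLike.norm_conj]
    refine (hDle z hz.1).trans (mul_le_mul_of_nonneg_right ?_ (hl0 z))
    linarith
  · have h3 := (pot_facts hρ (hYan z hz.1) (a z)).2 (hCz.congr_of_eventuallyEq (hPev z hz.1).symm)
    rw [dv_conj (hDa z hz.1).differentiableAt, Pool.Agent.H30M.lap_congr (hPev z hz.1), zero_add]
    exact h3.ge
  · -- the pointwise bound
    have hz1 : 0 < ‖ztv v p z‖ := norm_pos_iff.2 hzt
    have hz2 : 0 < ‖g (p z)‖ := norm_pos_iff.2 hgz
    have hz3 : 0 < ‖JD al be (p z)‖ := norm_pos_iff.2 hJz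
    obtain ⟨⟨m1, m2⟩, m3, m4⟩ := hr _ (hmem z hz.1)
    have hJz' := hJb z hz.1 hz.2
    by_cases hpz : p z ∈ ball (0 : ℂ × ℂ) δ
    · -- near the origin
      have h3 := hδ' _ hpz
      rw [mem_ball_zero_iff] at h3
      have hX1 : ‖X z‖ ≤ ε / 2 := (norm_fst_le _).trans h3.le
      have hY1 : ‖Y z‖ ≤ ρ / 2 := (norm_snd_le _).trans (by linarith)
      have haz : a z = k * Real.log 2 := by
        show k * Real.log 2 * ct ε ‖X z‖ = _
        rw [ct_of_le k1 hX1, mul_one]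
      have haz0 : 0 < a z := by
        rw [haz]
        have : (0 : ℝ) < k := by exact_mod_cast hk
        positivity
      have hYz : Y z ≠ 0 := by
        intro hYz
        by_cases hne : ∃ᶠ w in 𝓝 z, Y w ≠ 0
        · exact pot_not_contDiffAt hρ (hYan z hz.1) hYz hne haz0 (hCz.congr_of_eventuallyEq (hPev z hz.1).symm)
        · rw [not_frequently] at hne
          exact hzt (hfb.zt_zero hcrv hz.1 (hne.mono fun w hw => not_not.1 hw))
      have hYp : 0 < ‖Y z‖ := norm_pos_iff.2 hYz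
      have h4 : P z = k * Real.log ‖Y z‖ - k * Real.log ρ + k * Real.log 2 * rc := by
        show a z * pot ρ Y z = _
        rw [haz, pot_of_le hρ hYz hY1]
        field_simp
      have h5 : ‖ztv v p z‖ * ‖g (p z)‖ * ‖JD al be (p z)‖ * ‖Y z‖ ^ k ≤ E₂ * l z := by
        calc ‖ztv v p z‖ * ‖g (p z)‖ * ‖JD al be (p z)‖ * ‖Y z‖ ^ k ≤ ‖ztv v p z‖ * G * ‖JD al be (p z)‖ * (C₃ * rg v (p z)) := by
              gcongr
          _ = G * C₃ * (‖ztv v p z‖ * rg v (p z) * ‖JD al be (p z)‖) := by ring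
          _ ≤ G * C₃ * ((1 + 1 / m) * l z) := mul_le_mul_of_nonneg_left hJz' (by positivity)
          _ = _ := by rw [hE₂]; ring
      have h6 := log_le_one (mul_pos (mul_pos (mul_pos hz1 hz2) hz3) (pow_pos hYp k)) hE₂0 (hl0 z) h5
      rw [Real.log_mul (mul_pos (mul_pos hz1 hz2) hz3).ne' (pow_pos hYp k).ne', Real.log_mul (mul_pos hz1 hz2).ne' hz3.ne', Real.log_mul hz1.ne' hz2.ne',
        Real.log_pow] at h6
      rw [h4]
      have h7 := neg_abs_le (k * Real.log ρ)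
      have h8 := le_abs_self (k * Real.log 2 * rc)
      linarith
    · -- far from the origin
      have h3 : cδ ≤ rg v (p z) := by
        rw [mem_ball_zero_iff, not_lt, Prod.norm_def, le_max_iff] at hpz
        rcases hpz with h | h
        · refine (min_le_left _ _).trans (h.trans ?_)
          unfold rg
          have : 0 ≤ ‖(p z).2‖ * ‖(v (p z)).1‖ := by positivity
          linarith
        · refine (min_le_right _ _).trans ?_
          rw [div_le_iff₀ hCk]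
          calc δ ^ k ≤ ‖(p z).2‖ ^ k := pow_le_pow_left₀ hδ.le h k
            _ ≤ Ck * rg v (p z) := m3
            _ = rg v (p z) * Ck := mul_comm _ _
      have h4 : P z ≤ 0 := mul_nonpos_of_nonneg_of_nonpos (ha0 z) pot_nonpos
      have h5 : ‖ztv v p z‖ * ‖g (p z)‖ * ‖JD al be (p z)‖ ≤ E₁ * l z := by
        have h6 : 1 ≤ rg v (p z) / cδ := (one_le_div hcδ0).2 h3
        calc ‖ztv v p z‖ * ‖g (p z)‖ * ‖JD al be (p z)‖ ≤ ‖ztv v p z‖ * G * ‖JD al be (p z)‖ := by gcongr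
          _ = ‖ztv v p z‖ * G * ‖JD al be (p z)‖ * 1 := (mul_one _).symm
          _ ≤ ‖ztv v p z‖ * G * ‖JD al be (p z)‖ * (rg v (p z) / cδ) := mul_le_mul_of_nonneg_left h6 (by positivity)
          _ = G / cδ * (‖ztv v p z‖ * rg v (p z) * ‖JD al be (p z)‖) := by ring
          _ ≤ G / cδ * ((1 + 1 / m) * l z) := mul_le_mul_of_nonneg_left hJz' (by positivity)
          _ = _ := by rw [hE₁]; ring
      have h6 := log_le_one (mul_pos (mul_pos hz1 hz2) hz3) hE₁0 (hl0 z) h5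
      rw [Real.log_mul (mul_pos hz1 hz2).ne' hz3.ne', Real.log_mul hz1.ne' hz2.ne'] at h6
      linarith
  · -- the integral of the error
    have hOm : IsOpen {z | z ∈ Om ∧ p z ∈ ball (0 : ℂ × ℂ) s'} := by
      rw [isOpen_iff_mem_nhds]
      rintro z ⟨hz, hz'⟩
      filter_upwards [hcrv.isOpen.mem_nhds hz, (hcrv.an z hz).continuousAt.eventually (isOpen_ball.mem_nhds hz')] with w e1 e2
      exact ⟨e1, e2⟩
    have hint := integrable_charge hD.F_diff hD.F_ne hD.Q_diff d n' b₀ hR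
    have hint2 := hint.const_mul c₁
    have ht := fun z => Pool.Agent.H30M.tau_nonneg hR z
    have hind : ∀ z, 0 ≤ E.indicator (fun z => ‖gr (lu F Q d) z‖ ^ 2) z := fun z => Set.indicator_nonneg (fun _ _ => by positivity) z
    have h3 : ∫ z in {z | z ∈ Om ∧ p z ∈ ball (0 : ℂ × ℂ) s'}, tau R z * er z ≤
        ∫ z in {z | z ∈ Om ∧ p z ∈ ball (0 : ℂ × ℂ) s'}, c₁ * (tau R z * E.indicator (fun z => ‖gr (lu F Q d) z‖ ^ 2) z) := by
      refine integral_mono_of_nonneg (Eventually.of_forall fun z => mul_nonneg (ht z) (herr0 z)) hint2.restrict ?_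
      refine (ae_restrict_iff' hOm.measurableSet).2 (Eventually.of_forall fun z hz => ?_)
      show tau R z * er z ≤ c₁ * (tau R z * E.indicator (fun z => ‖gr (lu F Q d) z‖ ^ 2) z)
      calc tau R z * er z ≤ tau R z * (c₁ * E.indicator (fun z => ‖gr (lu F Q d) z‖ ^ 2) z) := mul_le_mul_of_nonneg_left (herr z hz.1) (ht z)
        _ = _ := by ring
    have h4 : ∫ z in {z | z ∈ Om ∧ p z ∈ ball (0 : ℂ × ℂ) s'}, c₁ * (tau R z * E.indicator (fun z => ‖gr (lu F Q d) z‖ ^ 2) z) ≤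
        ∫ z, c₁ * (tau R z * E.indicator (fun z => ‖gr (lu F Q d) z‖ ^ 2) z) :=
      setIntegral_le_integral hint2 (Eventually.of_forall fun z => mul_nonneg hc₁0 (mul_nonneg (ht z) (hind z)))
    have h4' : ∫ z, c₁ * (tau R z * E.indicator (fun z => ‖gr (lu F Q d) z‖ ^ 2) z) =
        c₁ * ∫ z, tau R z * E.indicator (fun z => ‖gr (lu F Q d) z‖ ^ 2) z := integral_const_mul _ _
    rw [h4'] at h4
    have h5 := mul_le_mul_of_nonneg_left (hCc R hR) hc₁0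
    have h6 : En F R ≤ ∫ z, tau R z * lm z ^ 2 := En_le_lm hD.F_diff hD.F_ne hD.lm_cont hD.lam_le hR
    have h7 : c₁ * (12 * n' * (d * En F R) + Cc) = 48 * k * Ms / Real.log 2 * (d / n') * En F R + c₁ * Cc := by
      rw [hc₁]
      field_simp
      ring
    have h8 : 48 * k * Ms / Real.log 2 * (d / n') * En F R ≤ 48 * k * Ms / Real.log 2 * d / n * ∫ z, tau R z * lm z ^ 2 := by
      have h9 : (d : ℝ) / n' ≤ d / n := div_le_div_of_nonneg_left (by positivity) hn0 (by exact_mod_cast hn')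
      have h10 : 48 * k * Ms / Real.log 2 * (d / n') ≤ 48 * k * Ms / Real.log 2 * d / n := by
        calc 48 * k * Ms / Real.log 2 * (d / n') ≤ 48 * k * Ms / Real.log 2 * (d / n) := mul_le_mul_of_nonneg_left h9 (by positivity)
          _ = _ := by ring
      exact mul_le_mul h10 h6 (En_nonneg F hR) (by positivity)
    have h9 : 0 ≤ C * ∫ z, ‖gr (tau R) z‖ * l z := mul_nonneg hC0 (integral_nonneg fun z => mul_nonneg (norm_nonneg _) (hl0 z))
    have h10 := le_abs_self (c₁ * Cc)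
    have h11 : |c₁ * Cc| ≤ C := by linarith
    linarith

/-- **The package at a regular point.** -/
theorem goodD_reg {al be : ℝ} (hal : -1 < al) (hbe : -1 < be) {v : ℂ × ℂ → ℂ × ℂ} (hv : AnalyticAt ℂ v 0) (h0 : v 0 ≠ 0) : GoodD GT al be v := by
  have main : ∀ {al be : ℝ}, -1 < al → -1 < be → ∀ {v : ℂ × ℂ → ℂ × ℂ}, AnalyticAt ℂ v 0 → (v 0).2 ≠ 0 → GoodD GT al be v := by
    intro al be hal hbe v hv h2
    have h0 : v 0 ≠ 0 := fun h => h2 (by rw [h]; rfl)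
    obtain ⟨Φ, Ψ, hbox⟩ := exists_fbox hv h0
    refine ⟨1, fun _ _ => leaf Φ, fun _ => hbox.sep, fun g _ hg hA => ?_⟩
    have key : RegC al be v g (leaf Φ) := by
      by_cases ha : 0 ≤ al
      · exact reg_case0 hal hbe hv h2 hg (Or.inl ha) _
      · by_cases hx : ∀ᶠ t in 𝓝 (0 : ℂ), (v (0, t)).1 = 0
        · obtain ⟨g₀, hg₀, hgg⟩ := hA.fst (not_le.1 ha) hx
          refine reg_case0 hal hbe hv h2 hg (Or.inr ⟨‖g₀ 0‖ + 1, by positivity, ?_⟩) _
          filter_upwards [hgg, hg₀.continuousAt.norm.eventually_lt_const (lt_add_one ‖g₀ 0‖)] with p e1 e2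
          rw [e1, norm_mul, mul_comm]
          have e3 : ‖p.1‖ ≤ rg v p := by
            unfold rg
            have : 0 ≤ ‖p.2‖ * ‖(v p).1‖ := by positivity
            linarith
          exact mul_le_mul e2.le e3 (norm_nonneg _) (by positivity)
        · by_cases hg0 : g 0 = 0
          · obtain ⟨k, C, -, -, -, hw⟩ := reg_axis hv h2 hx
            exact reg_case0 hal hbe hv h2 hg (Or.inr (hw g hg hg0)) _
          · exact reg_case1 hal hbe hv h2 hx hbox hg hg0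
    filter_upwards [key] with r hr
    intro s s' hs hss hsr B hB
    obtain ⟨A, C₀, hA', hC₀, hm⟩ := hr s s' hs hss hsr B hB
    exact ⟨A, C₀, hA', hC₀, fun d n q ψ hd hn hq hψ hord M F Q lm Om p hD hAv => hm d n q ψ hd hn hq hψ (hord 0) M F Q lm Om p hD hAv⟩
  by_cases h2 : (v 0).2 = 0
  · have h1 : (v 0).1 ≠ 0 := fun h1 => h0 (Prod.ext h1 h2)
    refine GoodD.swap (GoodD.mono (P' := GT) (fun _ _ _ _ => trivial) (main hbe hal ?_ h1))
    have h4 : AnalyticAt ℂ (fun q : ℂ × ℂ => v q.swap) 0 := AnalyticAt.comp (f := fun q : ℂ × ℂ => q.swap) (g := v) (x := 0) hv (an_swap 0)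
    exact AnalyticAt.comp (f := fun q : ℂ × ℂ => v q.swap) (g := fun q : ℂ × ℂ => q.swap) (x := 0) (an_swap _) h4
  · exact main hal hbe hv h2

end Pool.Agent.MQL
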