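import Pool.Agent.MQL.ElemD
import Pool.Agent.MQ2.Uni

/-!
# MQL TreeD: the logarithmic package at every isolated singular point

Induction over the tree of blow-ups, for all exponents at once: the exponents of the children are `1 + al + be`, `al`, `be`, `0`, all greater than `-1`.
-/

set_option autoImplicit false

open Topology Filter Metric MeasureTheory Asymptotics Laplacian

noncomputable section

namespace Pool.Agent.MQL

open Pool.Agent.H36.BP (EN)
open Pool.Agent.H30M (tau LogSing)
open Pool.Agent.MQ Pool.Agent.MQ2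

theorem goodD_of_tree {v : ℂ × ℂ → ℂ × ℂ} (ht : Tree v) : AnalyticAt ℂ v 0 → (∀ᶠ p in 𝓝 (0 : ℂ × ℂ), p ≠ 0 → v p ≠ 0) →
    ∀ al be : ℝ, -1 < al → -1 < be → GoodD GT al be v := by
  induction ht with
  | reg v h0 =>
    intro hv _ al be hal hbe
    exact goodD_reg hal hbe hv h0
  | elem v he =>
    intro hv hi al be hal hbe
    exact goodD_elem hal hbe ⟨hv, he.1, hi⟩ he
  | blow v e ι w wi hw hwi _ _ ih ihi =>
    intro hv hi al be hal hbe
    by_cases h0 : v 0 = 0
    · have h1 : -1 < 1 + al + be := by linarith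
      refine goodD_step hal hbe ⟨hv, h0, hi⟩ hw hwi ?_ (fun t _ => ?_) ?_
      · exact (ih 0 (hw 0).an (hw 0).iso _ _ h1 hbe).mono fun _ _ _ _ => trivial
      · exact (ih t (hw t).an (hw t).iso _ _ h1 neg_one_lt_zero).mono fun _ _ _ _ => trivial
      · exact (ihi hwi.an hwi.iso _ _ h1 hal).mono fun _ _ _ _ => trivial
    · exact goodD_reg hal hbe hv h0

/-- module TreeD: the logarithmic package at every isolated singular point -/
theorem goodD_of_iso {al be : ℝ} (hal : -1 < al) (hbe : -1 < be) {v : ℂ × ℂ → ℂ × ℂ} (hv : Iso v) : GoodD GT al be v :=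
  goodD_of_tree (tree_of_iso hv) hv.1 hv.2.2 al be hal hbe

end Pool.Agent.MQL
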