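import Pool.Agent.MQ3.AlgR3

/-!
# MQL AlgT: the form `Ra` for the formal separatrices at finitely many chart points

As `MQ3.exists_Ra`, for a finite set `T k` of points of every chart `k` (singular points or not), with a family of formal separatrices for every pair `(k, q)`;
a given form `R₀` divides `Ra`.
-/

set_option autoImplicit false

open Topology Filter Metric MvPolynomial MeasureTheory Asymptotics

noncomputable section

namespace Pool.Agent.MQL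

open Pool.Agent.H36.BP (EN fs)
open Pool.Agent.H17EF (projVar coneE)
open Pool.Agent.MQ2 (Iso Sep FZero)
open Pool.Agent.MQ3

variable {M : ℕ} {P : Ideal (MvPolynomial (Fin (M + 1)) ℂ)} {RD : MvPolynomial (Fin (M + 1)) ℂ} {m : ℕ} {X : NCModel P RD} {θ : WDiff (coneE P) m}
  {l : LF M}

/-- a product with a function which is continuous at the origin -/
theorem fzero_mul {c : ℕ → ℂ → ℂ × ℂ} {g h : ℂ × ℂ → ℂ} (hg : FZero c g) (hc : ∀ N, ContinuousAt (c N) 0 ∧ c N 0 = 0) (hh : ContinuousAt h 0) :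
    FZero c fun x => g x * h x := by
  intro N
  have h1 : ContinuousAt (fun t => h (c N t)) 0 := by
    have h2 : ContinuousAt h (c N 0) := by rw [(hc N).2]; exact hh
    exact h2.comp (hc N).1
  have h2 : (fun t => h (c N t)) =O[𝓝 0] fun _ : ℂ => (1 : ℂ) := h1.isBigO_one ℂ
  have h3 := (hg N).mul h2
  simpa using h3

theorem exists_RaT [P.IsPrime] (S : Web X θ l) {R₀ : MvPolynomial (Fin (M + 1)) ℂ} {d₀ : ℕ} (hR₀ : R₀.IsHomogeneous d₀) (hR₀P : R₀ ∉ P)
    (T : S.ι → Set (ℂ × ℂ)) (hT : ∀ k, (T k).Finite) (hTD : ∀ k, T k ⊆ S.D k) (n : S.ι → ℂ × ℂ → ℕ)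
    (fam : ∀ (k : S.ι) (q : ℂ × ℂ), Fin (n k q) → ℕ → ℂ → ℂ × ℂ) (hfam : ∀ k, ∀ q ∈ T k, ∀ i, Sep (fun x => S.v k (q + x)) (fam k q i)) :
    ∃ (Ra : MvPolynomial (Fin (M + 1)) ℂ) (d : ℕ), Ra.IsHomogeneous d ∧ Ra ∉ P ∧ R₀ ∣ Ra ∧ ∀ k : S.ι, ∀ q ∈ T k, ∀ i,
      FZero (fam k q i) (fun x => eval (S.σ k (q + x)).ofLp Ra) ∨
        ∀ (R' : MvPolynomial (Fin (M + 1)) ℂ) (d' : ℕ), R'.IsHomogeneous d' → R' ∉ P →
          ¬ FZero (fam k q i) fun x => eval (S.σ k (q + x)).ofLp R' := by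
  classical
  have hfin : ∀ k : S.ι, Finite {q : ℂ × ℂ // q ∈ T k} := fun k => (hT k).to_subtype
  have hF := fun k => Fintype.ofFinite {q : ℂ × ℂ // q ∈ T k}
  obtain ⟨R, d, hR, hRP, h⟩ := Pool.Agent.MQ2.exists_alg2 (P := P)
    (ι := Σ k : S.ι, Σ q : {q : ℂ × ℂ // q ∈ T k}, Fin (n k q.1))
    (fun i x => S.σ i.1 (i.2.1.1 + x)) fun i => fam i.1 i.2.1.1 i.2.2
  have hP : P.IsPrime := inferInstance
  refine ⟨R₀ * R, d₀ + d, hR₀.mul hR, fun h1 => (hP.mem_or_mem h1).elim hR₀P hRP, Dvd.intro R rfl, fun k q hq i => ?_⟩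
  rcases h ⟨k, ⟨q, hq⟩, i⟩ with h1 | ⟨R', d', -, -, ⟨Q, hQ⟩, h2⟩
  · exact Or.inr h1
  · left
    have hs := hfam k q hq i
    have hc : ∀ N, ContinuousAt (fam k q i N) 0 ∧ fam k q i N 0 = 0 := fun N => ⟨(hs.an N).continuousAt, hs.zero N⟩
    have hσ : ContinuousAt (S.σ k) (q + 0) := by
      rw [add_zero]
      have h3 : S.κ k q ∈ DD := X.sub _ (hTD k hq).2
      have h4 : ContinuousAt (X.ρ k.1) (S.κ k q) := ((X.box k.1).an _ h3.1.le h3.2.le).continuousAt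
      exact ContinuousAt.comp (f := S.κ k) (g := X.ρ k.1) h4 (continuous_mono' _ _).continuousAt
    have h3 : ContinuousAt (fun x => eval (S.σ k (q + x)).ofLp (R₀ * Q)) 0 := by
      have h4 : ContinuousAt (fun x : ℂ × ℂ => S.σ k (q + x)) 0 :=
        ContinuousAt.comp (f := fun x : ℂ × ℂ => q + x) (g := S.σ k) hσ (by fun_prop)
      exact ((MvPolynomial.continuous_eval (R₀ * Q)).comp (PiLp.continuous_ofLp 2 _)).continuousAt.comp h4
    have h4 := fzero_mul h2 hc h3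
    refine fun N => ((h4 N).congr_left fun t => ?_)
    simp only [hQ, map_mul]
    ring

end Pool.Agent.MQL
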