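import Pool.Agent.MQL.SDefs
import Pool.Agent.MQL.AlgT

/-!
# MQL AlgRL: the form `Ra` for the families of formal curves at the chart points outside `Reg0`

The points of the compact part of a chart outside `Reg0` are isolated: the zeros of the vector field, the crossing, and the tangencies with a noninvariant axis.
-/

set_option autoImplicit false

open Topology Filter Metric MvPolynomial MeasureTheory

noncomputable section

namespace Pool.Agent.MQL

open Pool.Agent.H36.BP (EN)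
open Pool.Agent.H17BP (Surface)
open Pool.Agent.H17EF (coneE)
open Pool.Agent.H17LG.Variety (FunField)
open Pool.Agent.MQ2 (Sep FZero)
open Pool.Agent.MQ3

variable {M : ℕ} {P : Ideal (MvPolynomial (Fin (M + 1)) ℂ)} {RD : MvPolynomial (Fin (M + 1)) ℂ} {m : ℕ} {X : NCModel P RD} {θ : WDiff (coneE P) m}
  {l : LF M}

/-- the zeros of a function on a line `{s = 0}` are isolated, or the function is zero near them -/
theorem line_iso {E : Type} [TopologicalSpace E] {a b : E → ℂ} {f : E → ℂ} {q : E} {h : ℂ → ℂ} (ha : ContinuousAt a q) (hb : ContinuousAt b q)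
    (hinj : ∀ x, a x = 0 → a q = 0 → b x = b q → x = q) (hf : ∀ x, a x = 0 → f x = h (b x)) (hh : AnalyticAt ℂ h (b q)) :
    ∀ᶠ x in 𝓝 q, x ≠ q → a x = 0 → f x ≠ 0 ∨ ∀ᶠ y in 𝓝 x, a y = 0 → f y = 0 := by
  by_cases hq : a q = 0
  · rcases hh.eventually_eq_zero_or_eventually_ne_zero with h1 | h1
    · have h2 : ∀ᶠ x in 𝓝 q, a x = 0 → f x = 0 := by
        filter_upwards [hb.eventually h1] with x hx hax
        rw [hf x hax]
        exact hx
      filter_upwards [eventually_eventually_nhds.2 h2] with x hx _ _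
      exact Or.inr hx
    · rw [eventually_nhdsWithin_iff] at h1
      filter_upwards [hb.eventually h1] with x hx hxq hax
      left
      rw [hf x hax]
      exact hx fun h3 => hxq (hinj x hax hq h3)
  · filter_upwards [ha.eventually_ne hq] with x hx _ hax
    exact absurd hax hx

theorem reg0_iso (S : Web X θ l) (k : S.ι) {q : ℂ × ℂ} (hq : q ∈ S.D k) : ∀ᶠ x in 𝓝 q, x ≠ q → Reg0 S k x := by
  have hv : AnalyticAt ℂ (S.v k) q := (S.c k).v_an q hq.1
  have hv1 := (S.c k).v_iso q hq.1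
  have h0 : ∀ᶠ x in 𝓝 q, x ≠ q → x ≠ 0 := by
    by_cases h : q = 0
    · exact Eventually.of_forall fun x hx => h ▸ hx
    · filter_upwards [continuousAt_id.eventually_ne h] with x hx _
      exact hx
  have e1 : ∀ᶠ x in 𝓝 q, x ≠ q → x.1 = 0 → (S.v k x).1 ≠ 0 ∨ ∀ᶠ y in 𝓝 x, y.1 = 0 → (S.v k y).1 = 0 := by
    by_cases h : q.1 = 0
    · refine line_iso (a := fun x : ℂ × ℂ => x.1) (b := fun x => x.2) (f := fun x => (S.v k x).1) (h := fun t => (S.v k (0, t)).1)
        continuousAt_fst continuousAt_snd ?_ ?_ ?_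
      · intro x h1 h2 h3
        exact Prod.ext (h1.trans h2.symm) h3
      · intro x h1
        have : x = (0, x.2) := Prod.ext h1 rfl
        rw [← this]
      · have h1 : AnalyticAt ℂ (fun t : ℂ => ((0 : ℂ), t)) q.2 := analyticAt_const.prod analyticAt_id
        have h2 : AnalyticAt ℂ (S.v k) ((0 : ℂ), q.2) := by
          have : ((0 : ℂ), q.2) = q := Prod.ext h.symm rfl
          rw [this]
          exact hv
        have h3 : AnalyticAt ℂ (fun t : ℂ => S.v k ((0 : ℂ), t)) q.2 := h2.comp (f := fun t : ℂ => ((0 : ℂ), t)) h1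
        exact analyticAt_fst.comp h3
    · filter_upwards [continuousAt_fst.eventually_ne h] with x hx _ hax
      exact absurd hax hx
  have e2 : ∀ᶠ x in 𝓝 q, x ≠ q → x.2 = 0 → (S.v k x).2 ≠ 0 ∨ ∀ᶠ y in 𝓝 x, y.2 = 0 → (S.v k y).2 = 0 := by
    by_cases h : q.2 = 0
    · refine line_iso (a := fun x : ℂ × ℂ => x.2) (b := fun x => x.1) (f := fun x => (S.v k x).2) (h := fun t => (S.v k (t, 0)).2)
        continuousAt_snd continuousAt_fst ?_ ?_ ?_
      · intro x h1 h2 h3
        exact Prod.ext h3 (h1.trans h2.symm)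
      · intro x h1
        have : x = (x.1, 0) := Prod.ext rfl h1
        rw [← this]
      · have h1 : AnalyticAt ℂ (fun t : ℂ => (t, (0 : ℂ))) q.1 := analyticAt_id.prod analyticAt_const
        have h2 : AnalyticAt ℂ (S.v k) (q.1, (0 : ℂ)) := by
          have : (q.1, (0 : ℂ)) = q := Prod.ext rfl h.symm
          rw [this]
          exact hv
        have h3 : AnalyticAt ℂ (fun t : ℂ => S.v k (t, (0 : ℂ))) q.1 := h2.comp (f := fun t : ℂ => (t, (0 : ℂ))) h1
        exact analyticAt_snd.comp h3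
    · filter_upwards [continuousAt_snd.eventually_ne h] with x hx _ hax
      exact absurd hax hx
  filter_upwards [hv1, h0, e1, e2] with x x1 x2 x3 x4 hx
  exact ⟨x1 hx, x2 hx, x3 hx, x4 hx⟩

theorem reg0_finite (hX : Surface (coneE P)) (S : Web X θ l) (k : S.ι) : {q | q ∈ S.cp k ∧ ¬ Reg0 S k q}.Finite := by
  have _ := hX
  refine finite_of_iso (S.isCompact_cp k) (Z := {q | ¬ Reg0 S k q}) fun q hq => ?_
  filter_upwards [reg0_iso S k ⟨S.cp_sub_D k hq, X.C_sub _ hq.2.2⟩] with x hx h1 h2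
  exact h2 (hx h1)

theorem exists_RaL [P.IsPrime] {z : Fin 2 → FunField P} (hz : IsTranscendenceBasis ℂ z) (hX : Surface (coneE P)) (S : Web X θ l) (n : S.ι → ℂ × ℂ → ℕ)
    (fam : ∀ (k : S.ι) (q : ℂ × ℂ), Fin (n k q) → ℕ → ℂ → ℂ × ℂ) (hfam : ∀ k, ∀ q ∈ S.cp k, ∀ i, Sep (fun x => S.v k (q + x)) (fam k q i))
    (h0 : ∀ k, ∀ q ∈ S.cp k, Reg0 S k q → n k q = 0) :
    ∃ (Ra : MvPolynomial (Fin (M + 1)) ℂ) (d : ℕ), Ra.IsHomogeneous d ∧ Ra ∉ P ∧ ∀ k : S.ι, ∀ q ∈ S.cp k, ∀ i,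
      FZero (fam k q i) (fun x => eval (S.σ k (q + x)).ofLp Ra) ∨
        ∀ (R' : MvPolynomial (Fin (M + 1)) ℂ) (d' : ℕ), R'.IsHomogeneous d' → R' ∉ P →
          ¬ FZero (fam k q i) fun x => eval (S.σ k (q + x)).ofLp R' := by
  have _ := hz
  have h1P : (1 : MvPolynomial (Fin (M + 1)) ℂ) ∉ P := fun h1 => (Ideal.IsPrime.ne_top ‹_›) ((Ideal.eq_top_iff_one _).2 h1)
  obtain ⟨Ra, d, hd, hRa, -, h⟩ := exists_RaT S (isHomogeneous_one _ _) h1P (fun k => {q | q ∈ S.cp k ∧ ¬ Reg0 S k q}) (fun k => reg0_finite hX S k)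
    (fun k q hq => ⟨S.cp_sub_D k hq.1, X.C_sub _ hq.1.2.2⟩) n fam fun k q hq i => hfam k q hq.1 i
  refine ⟨Ra, d, hd, hRa, fun k q hq i => ?_⟩
  by_cases hr : Reg0 S k q
  · have h2 := h0 k q hq hr
    exact absurd i.2 (by omega)
  · exact h k q ⟨hq, hr⟩ i

end Pool.Agent.MQL
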