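import Pool.Agent.SR2.T.Defs

/-!
# MQL PBDefs: algebraic differential equations of order at most one for entire curves in a projective variety

`P` is the ideal of a closed surface `X ⊆ ℙ^N`, `U` an open subset of `X`.
-/

set_option autoImplicit false

open Topology Filter Metric MvPolynomial

noncomputable section

namespace Pool.Agent.MQL.PB.T

open Pool.Agent.H17 (PN VanishesAt ZariskiClosedIn)
open Pool.Agent.SR2.T (Pt Homog HasDim Loc LogGT OrderTwo KobayashiModulo)

variable {N s : ℕ}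

/-- An algebraic differential equation of order at most one: a polynomial `G (x, p)`, the variables `p i j` stand for `x i * v j - x j * v i`. -/
abbrev Eqn (N : ℕ) : Type := MvPolynomial (Fin (N + 1) ⊕ Fin (N + 1) × Fin (N + 1)) ℂ

/-- the value `G (x, x ∧ v)` -/
def value (G : Eqn N) (x v : Fin (N + 1) → ℂ) : ℂ := eval (Sum.elim x fun s => x s.1 * v s.2 - x s.2 * v s.1) G

/-- The equation is not an identity on the variety of `P`: its value is not `0` for some tangent vector `v` of the affine cone. -/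
def Nontrivial (P : Ideal (MvPolynomial (Fin (N + 1)) ℂ)) (G : Eqn N) : Prop :=
  ∃ x v : Fin (N + 1) → ℂ, x ≠ 0 ∧ (∀ Q ∈ P, eval x Q = 0 ∧ ∑ l, v l * eval x (pderiv l Q) = 0) ∧ value G x v ≠ 0

/-- All lifts `F` of the entire curve `f` satisfy `G (F, F ∧ F') = 0`. -/
def Satisfies (G : Eqn N) (f : ℂ → PN N) : Prop :=
  ∀ F : ℂ → Fin (N + 1) → ℂ, Differentiable ℂ F → (∀ z, Pt (F z) (f z)) → ∀ z, value G (F z) (deriv F z) = 0

/-- `f` is a nonconstant entire curve in `U` with `T_f (r) = O (r²)`. -/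
structure IsCurve (U : Set (PN N)) (f : ℂ → PN N) : Prop where
  orderTwo : OrderTwo f
  mem : ∀ z, f z ∈ U
  nonconstant : ∃ z w, f z ≠ f w

/-- `Ξ` is a proper Zariski closed subset of `U`. -/
def IsProperClosed (U Ξ : Set (PN N)) : Prop := ZariskiClosedIn U Ξ ∧ Ξ ≠ U

/-- `U` is Kobayashi hyperbolic modulo a proper Zariski closed subset. -/
def PseudoKobayashi (U : Set (PN N)) : Prop :=
  ∃ (Q : MvPolynomial (Fin (N + 1)) ℂ) (D : ℕ), Q.IsHomogeneous D ∧ (∃ x ∈ U, ¬ VanishesAt Q x) ∧ KobayashiModulo U Q D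

/-- Every closed subvariety of positive dimension of `Loc P G` which is not contained in `Ξ` is of log general type. -/
def StronglyModulo (P : Ideal (MvPolynomial (Fin (N + 1)) ℂ)) (G : Fin s → MvPolynomial (Fin (N + 1)) ℂ) (Ξ : Set (PN N)) : Prop :=
  ∀ (Q : Ideal (MvPolynomial (Fin (N + 1)) ℂ)) [Q.IsPrime], Homog Q → P ≤ Q → ¬ Loc Q G ⊆ Ξ → ∀ n, 1 ≤ n → HasDim Q n → LogGT Q G n

/-- `U = Loc P G` is strongly of log general type. -/
def StronglyLogGT (P : Ideal (MvPolynomial (Fin (N + 1)) ℂ)) (G : Fin s → MvPolynomial (Fin (N + 1)) ℂ) : Prop :=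
  ∃ Ξ : Set (PN N), IsProperClosed (Loc P G) Ξ ∧ StronglyModulo P G Ξ

/-- The Zariski closure in `U` of the union of the nonconstant entire curves `f` in `U` with `T_f (r) = O (r²)`. -/
def Exc (U : Set (PN N)) : Set (PN N) :=
  {x | x ∈ U ∧ ∀ R ∈ {R : MvPolynomial (Fin (N + 1)) ℂ | (∃ d, R.IsHomogeneous d) ∧ ∀ f, IsCurve U f → ∀ z, VanishesAt R (f z)}, VanishesAt R x}

end Pool.Agent.MQL.PB.T
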