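import Pool.Agent.MQL.PBc
import Pool.Agent.MQL.PBDefs
import Pool.Agent.SR2.T.CvG
import Pool.Agent.SDA.E4
import Pool.Agent.SDA.E5
import Pool.Agent.H36.LB.KobL
import Pool.Agent.H36.LB.Final
import Pool.Agent.H36.BPL.Main

/-!
# MQL PBd: pseudo Brody hyperbolic surfaces

The equivalences for `U = X` or `U = X - {H = 0}`, and the case of the complement of an arbitrary curve.
-/

set_option autoImplicit false

open Topology Filter Metric MvPolynomial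

noncomputable section

namespace Pool.Agent.MQL.PB

open Pool.Agent.H17 (PN VanishesAt HolomorphicInto ZariskiClosedIn puncturedDisc PseudoBrodyHyperbolic PseudoPicardHyperbolic)
open Pool.Agent.H62.SA (locVar OnBd)
open Pool.Agent.H17LG.Variety (FunField IsLogGeneralType)
open Pool.Agent.H13.SM (conTan)
open Pool.Agent.H7.Bir (GGLOpen)
open Pool.Agent.H14.KB (KobayashiHyperbolicModulo)
open Pool.Agent.SR2.T (Pt Homog HasDim Var Loc Smooth LogGT OrderTwo KobayashiModulo GGL Hyperbolic)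
open Pool.Agent.MQL.PB.T

variable {N s : ℕ} {P : Ideal (MvPolynomial (Fin (N + 1)) ℂ)}

/-- Every nonconstant entire curve in `U` lies in `Ξ`. -/
def BrodyModulo (U Ξ : Set (PN N)) : Prop :=
  ∀ f : ℂ → PN N, HolomorphicInto f Set.univ → (∀ z, f z ∈ U) → (∃ z w, f z ≠ f w) → ∀ z, f z ∈ Ξ

/-- Every holomorphic map from the punctured disc to `U` which is not a map into `Ξ` extends to the disc. -/
def PicardModulo (U Ξ : Set (PN N)) : Prop :=
  ∀ f : ℂ → PN N, HolomorphicInto f puncturedDisc → (∀ z ∈ puncturedDisc, f z ∈ U) → (∃ z ∈ puncturedDisc, f z ∉ Ξ) →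
    ∃ g : ℂ → PN N, HolomorphicInto g (ball 0 1) ∧ ∀ z ∈ puncturedDisc, g z = f z

/-- The entire curve `f` in the variety of `P` is algebraically degenerate. -/
def Degenerate (P : Ideal (MvPolynomial (Fin (N + 1)) ℂ)) (f : ℂ → PN N) : Prop :=
  ∃ (R : MvPolynomial (Fin (N + 1)) ℂ) (d : ℕ), R.IsHomogeneous d ∧ R ∉ P ∧ ∀ z, VanishesAt R (f z)

/-- `U = Loc P G` is proper over an affine variety: the quotients `F m j / G m` are regular functions on `U` (they do not depend on `m`), and they define a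
proper map from `U` to an affine space, since at every point of the boundary, where all `G m` are `0`, one of the `F m j` is not `0`. -/
def ProperOverAffine (P : Ideal (MvPolynomial (Fin (N + 1)) ℂ)) (G : Fin s → MvPolynomial (Fin (N + 1)) ℂ) : Prop :=
  ∃ (M : ℕ) (F : Fin s → Fin (M + 1) → MvPolynomial (Fin (N + 1)) ℂ) (e : Fin s → ℕ), (∀ m j, (F m j).IsHomogeneous (e m)) ∧ (∀ m, F m 0 = G m) ∧
    (∀ m n j, F m j * G n - F n j * G m ∈ P) ∧ ∀ x ∈ Var P, ∃ m j, ¬ VanishesAt (F m j) x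

/-- The complement of `Loc P G` in the variety of `P` is locally the zero set of one form `R`. -/
def CurveComplement (P : Ideal (MvPolynomial (Fin (N + 1)) ℂ)) (G : Fin s → MvPolynomial (Fin (N + 1)) ℂ) : Prop :=
  ∀ x ∈ Var P, ∃ (A R : MvPolynomial (Fin (N + 1)) ℂ) (a r : ℕ), A.IsHomogeneous a ∧ R.IsHomogeneous r ∧ ¬ VanishesAt A x ∧
    ∀ y ∈ Var P, ¬ VanishesAt A y → (y ∈ Loc P G ↔ ¬ VanishesAt R y)

/-- a curve of order two is holomorphic -/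
theorem hol_of_orderTwo {f : ℂ → PN N} (hf : OrderTwo f) : HolomorphicInto f Set.univ := by
  obtain ⟨F, A, hF, hFf, hA⟩ := hf
  exact fun z _ => ⟨F, hF.analyticAt z, Eventually.of_forall hFf⟩

/-- the dilations of a curve in `U` -/
theorem isCurve_mul {U : Set (PN N)} {f : ℂ → PN N} (hf : IsCurve U f) {c : ℂ} (hc : c ≠ 0) : IsCurve U fun z => f (c * z) where
  orderTwo := orderTwo_mul hf.orderTwo hc
  mem z := hf.mem (c * z)
  nonconstant := by
    obtain ⟨a, b, hab⟩ := hf.nonconstant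
    refine ⟨a / c, b / c, ?_⟩
    rw [mul_div_cancel₀ _ hc, mul_div_cancel₀ _ hc]
    exact hab

theorem finrank_le (hs : Smooth P 2) (y : Fin (N + 1) → ℂ) (h0 : y ≠ 0) (h1 : ∀ Q ∈ P, eval y Q = 0) : Module.finrank ℂ (conTan P y) ≤ 3 :=
  Pool.Agent.SR2.T.isSmooth_of hs y h0 h1

/-- from the limits of discs to the properties of the conjecture -/
theorem ggl_of_lim [P.IsPrime] (hP : Homog P) (hdim : HasDim P 2) (hs : Smooth P 2) {G : Fin s → MvPolynomial (Fin (N + 1)) ℂ}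
    (hG : ∀ i, ∃ n, (G i).IsHomogeneous n) (hc : CurveComplement P G) (hgt : LogGT P G 2) {Ξ : Set (PN N)} (hΞ : IsProperClosed (Loc P G) Ξ)
    (hlim : Pool.Agent.H36.LB.LimModPN (Loc P G) Ξ) : GGLOpen P G Ξ ∧
      ∃ (Q : MvPolynomial (Fin (N + 1)) ℂ) (D : ℕ), Q.IsHomogeneous D ∧ (∃ x ∈ Loc P G, ¬ VanishesAt Q x) ∧ KobayashiHyperbolicModulo (Loc P G) Q D := by
  obtain ⟨z, hz⟩ := id hdim
  choose e he using hG
  have hO := Pool.Agent.H36.LB.openPart_of_curveComplement (P := P) hP he hc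
  obtain ⟨hB, hPic, Q', D', hQ', hx', -, hK⟩ := Pool.Agent.H36.LB.lim_main hP hz (finrank_le hs) he hO hgt hΞ.1 hΞ.2 hlim
  refine ⟨⟨hΞ.1, hΞ.2, ?_, hPic, hB, ?_⟩, Q', D', hQ', hx', hK⟩
  · intro w _ hw
    obtain rfl := Pool.Agent.H17EF.two_of_basis ⟨z, hz⟩ hw
    exact hgt
  · intro R _ hR hPR hRΞ w hw hz'
    exact Pool.Agent.H13.CV.strongly_of_brodyL P hP ⟨z, hz⟩ (fun m => ⟨_, he m⟩) hΞ.1 hgt hB R hR hPR hRΞ w hw hz'

/-- **Complements of arbitrary curves.** -/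
theorem hyperbolic_of_kobayashi [P.IsPrime] (hP : Homog P) (hdim : HasDim P 2) (hs : Smooth P 2) {G : Fin s → MvPolynomial (Fin (N + 1)) ℂ}
    (hG : ∀ i, ∃ n, (G i).IsHomogeneous n) (hc : CurveComplement P G) (hgt : LogGT P G 2) (hk : PseudoKobayashi (Loc P G)) : Hyperbolic P G := by
  obtain ⟨Q, D, hQ, ⟨x, hx, hxQ⟩, hk⟩ := hk
  obtain ⟨Ξ, hΞdef⟩ : ∃ Ξ : Set (PN N), Ξ = {x | x ∈ Loc P G ∧ ∀ P' ∈ ({Q} : Set (MvPolynomial (Fin (N + 1)) ℂ)), VanishesAt P' x} := ⟨_, rfl⟩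
  have hΞ : IsProperClosed (Loc P G) Ξ := by
    refine ⟨⟨{Q}, fun P' hP' => ⟨D, by rw [Set.mem_singleton_iff.1 hP']; exact hQ⟩, hΞdef⟩, ?_⟩
    intro h1
    rw [← h1, hΞdef] at hx
    exact hxQ (hx.2 Q rfl)
  have hr : Pool.Agent.H36.LB.RoydenModulo (Loc P G) Ξ := by
    intro x hxU hxn
    refine Pool.Agent.H36.LB.royden_of_kobayashi (Q := Q) (D := D) hk fun h1 => hxn ?_
    rw [hΞdef]
    refine ⟨hxU, fun P' hP' => ?_⟩
    rw [Set.mem_singleton_iff.1 hP']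
    exact h1
  obtain ⟨h1, h2⟩ := ggl_of_lim hP hdim hs hG hc hgt hΞ fun l F f hf _ hne z hz => Pool.Agent.H36.LB.limit_of_royden hΞ.1 hr hf hne hz
  exact Pool.Agent.SR2.T.hyperbolic_of (Pool.Agent.SDA.hyperbolicOpen_of hP hdim hG ⟨Ξ, h1⟩ h2)

/-- a surface which is proper over an affine variety: from the curves of order two to the properties of the conjecture -/
theorem ggl_of_curves [P.IsPrime] (hP : Homog P) (hdim : HasDim P 2) (hs : Smooth P 2) {G : Fin s → MvPolynomial (Fin (N + 1)) ℂ}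
    (hpr : ProperOverAffine P G) (hgt : LogGT P G 2) {Ξ : Set (PN N)} (hΞ : IsProperClosed (Loc P G) Ξ)
    (h : ∀ f, IsCurve (Loc P G) f → ∀ z, f z ∈ Ξ) :
    GGLOpen P G Ξ ∧
      ∃ (Q : MvPolynomial (Fin (N + 1)) ℂ) (D : ℕ), Q.IsHomogeneous D ∧ (∃ x ∈ Loc P G, ¬ VanishesAt Q x) ∧ KobayashiHyperbolicModulo (Loc P G) Q D := by
  obtain ⟨M, F, e, h1, h2, h3, h4⟩ := hpr
  have hprop : Pool.Agent.H62.SA.IsProperMap P G F e := ⟨h1, h2, h3, h4⟩
  exact ggl_of_lim hP hdim hs (fun i => ⟨e i, by rw [← h2 i]; exact h1 i 0⟩) (Pool.Agent.H36.LB.curveComplement_of_proper hprop) hgt hΞ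
    (Pool.Agent.H36.LB.limModPN_of_proper hP hprop fun f _ hfo hfU hfn => h f ⟨hfo, hfU, hfn⟩)

theorem forms_of_proper {G : Fin s → MvPolynomial (Fin (N + 1)) ℂ} (hpr : ProperOverAffine P G) : ∀ i, ∃ n, (G i).IsHomogeneous n := by
  obtain ⟨M, F, e, h1, h2, h3, h4⟩ := hpr
  exact fun i => ⟨e i, by rw [← h2 i]; exact h1 i 0⟩

/-- an algebraically degenerate entire curve lies in `Ξ`, if the curves which are not contained in `Ξ` are of log general type -/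
theorem mem_of_degenerate [P.IsPrime] (hP : Homog P) (hdim : HasDim P 2) {G : Fin s → MvPolynomial (Fin (N + 1)) ℂ} (hG : ∀ m, ∃ n, (G m).IsHomogeneous n)
    {Ξ : Set (PN N)} (hst : StronglyModulo P G Ξ)
    {f : ℂ → PN N} (hf : HolomorphicInto f Set.univ) (hfU : ∀ z, f z ∈ Loc P G) (hne : ∃ z w, f z ≠ f w) {Q : MvPolynomial (Fin (N + 1)) ℂ} {D : ℕ}
    (hQ : Q.IsHomogeneous D) (hQP : Q ∉ P) (hfQ : ∀ z, VanishesAt Q (f z)) : ∀ z, f z ∈ Ξ := by
  classical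
  obtain ⟨I, hI⟩ : ∃ I, I = Pool.Agent.H17BP.mapIdeal f Set.univ := ⟨_, rfl⟩
  have hIp : I.IsPrime := by
    rw [hI]
    exact Pool.Agent.H17BP.mapIdeal_isPrime isOpen_univ isPreconnected_univ Set.univ_nonempty hf
  have hIh : Homog I := by
    rw [hI]
    exact Pool.Agent.H17BP.mapIdeal_homog
  have hPI : P ≤ I := by
    rw [hI]
    exact Pool.Agent.H17BP.le_mapIdeal hP fun z _ => ⟨(hfU z).1, fun m => m.elim0⟩
  have hIX : ∃ i, (X i : MvPolynomial (Fin (N + 1)) ℂ) ∉ I := by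
    rw [hI]
    exact Pool.Agent.H17BP.exists_X_notMem Set.univ_nonempty
  have hfI : ∀ z, f z ∈ Loc I G := by
    intro z
    refine ⟨fun R hR n hn => ?_, (hfU z).2⟩
    rw [hI] at hR
    exact (Pool.Agent.H17BP.mem_mapIdeal_form hn).1 hR z (Set.mem_univ z)
  have hQI : Q ∈ I := by
    rw [hI]
    exact (Pool.Agent.H17BP.mem_mapIdeal_form hQ).2 fun z _ => hfQ z
  obtain ⟨w, hw⟩ := Pool.Agent.H62.FC.exists_fin_basis (P := I) hIX
  have hw2 : w < 2 := Pool.Agent.H17BP.trdeg_lt hP hIh hPI (fun h => hQP (h hQI)) hIX hdim hw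
  have hw0 : w ≠ 0 := by
    rintro rfl
    obtain ⟨a, b, hab⟩ := hne
    exact hab (Pool.Agent.H17BP.eq_of_trdeg_zero hIh hIX hw _ ⟨(hfI a).1, fun m => m.elim0⟩ _
      ⟨(hfI b).1, fun m => m.elim0⟩)
  have hw1 : w = 1 := by omega
  subst hw1
  by_cases hsub : Loc I G ⊆ Ξ
  · exact fun z => hsub (hfI z)
  · exfalso
    obtain ⟨a, b, hab⟩ := hne
    exact hab (Pool.Agent.H62.LGC.const_of_logGeneralType hIh hw hG (hst I hIh hPI hsub 1 le_rfl hw) hf hfI a b)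

/-- a form as an equation of degree zero in the derivatives -/
theorem exists_eqn [P.IsPrime] (hP : Homog P) (hdim : HasDim P 2) {R : MvPolynomial (Fin (N + 1)) ℂ} {d : ℕ} (hR : R.IsHomogeneous d) (hRP : R ∉ P) :
    ∃ G : Eqn N, Nontrivial P G ∧ ∀ f : ℂ → PN N, (∀ z, VanishesAt R (f z)) → Satisfies G f := by
  obtain ⟨z, hz⟩ := id hdim
  have hXi : ∃ i, (X i : MvPolynomial (Fin (N + 1)) ℂ) ∉ P := Pool.Agent.H62.FC.exists_X_notMem (r := 2) (by norm_num) ⟨z, hz⟩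
  have hv : ∀ x v : Fin (N + 1) → ℂ, value (rename Sum.inl R) x v = eval x R := by
    intro x v
    rw [value, eval_rename]
    rfl
  refine ⟨rename Sum.inl R, ?_, fun f hf F _ hFf z => ?_⟩
  · obtain ⟨x, hx, hxR⟩ := Pool.Agent.H17EF.exists_point hP hXi hRP hR
    refine ⟨x.rep, 0, x.rep_nonzero, fun Q hQ => ⟨?_, by simp⟩, ?_⟩
    · have h1 := (Pool.Agent.H17BP.rep_mem_cone hP).2 ⟨hx, fun m => m.elim0⟩
      exact h1.2 Q hQ
    · rw [hv]
      exact hxR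
  · rw [hv]
    obtain ⟨h0, h1⟩ := hFf z
    have h2 := hf z
    rw [h1, Pool.Agent.H17BP.vanishesAt_mk hR h0] at h2
    exact h2

/-- a curve in a proper closed subset is degenerate -/
theorem degenerate_of_mem {G : Fin s → MvPolynomial (Fin (N + 1)) ℂ} {Ξ : Set (PN N)} (hΞ : IsProperClosed (Loc P G) Ξ) :
    ∃ (R : MvPolynomial (Fin (N + 1)) ℂ) (d : ℕ), R.IsHomogeneous d ∧ R ∉ P ∧ ∀ x ∈ Ξ, VanishesAt R x := by
  obtain ⟨⟨S, hS, rfl⟩, hne⟩ := hΞ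
  obtain ⟨x, hx, R, hR, hRx⟩ : ∃ x ∈ Loc P G, ∃ R ∈ S, ¬ VanishesAt R x := by
    by_contra hcon
    push Not at hcon
    exact hne (Set.Subset.antisymm (fun x hx => hx.1) fun x hx => ⟨hx, hcon x hx⟩)
  obtain ⟨n, hn⟩ := hS R hR
  exact ⟨R, n, hn, fun h => hRx (hx.1 R h n hn), fun y hy => hy.2 R hR⟩

/-- **The equivalences, with the exceptional set.** -/
theorem tfae_modulo [P.IsPrime] (hP : Homog P) (hdim : HasDim P 2) (hs : Smooth P 2) {G : Fin s → MvPolynomial (Fin (N + 1)) ℂ}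
    (hpr : ProperOverAffine P G) (hgt : LogGT P G 2) (Ξ : Set (PN N)) (hΞ : IsProperClosed (Loc P G) Ξ) :
    List.TFAE [GGL P G Ξ, ∀ f, IsCurve (Loc P G) f → ∀ z, f z ∈ Ξ, BrodyModulo (Loc P G) Ξ, PicardModulo (Loc P G) Ξ,
      StronglyModulo P G Ξ ∧ ∀ f, IsCurve (Loc P G) f → Degenerate P f] := by
  tfae_have 1 → 3 := fun h => h.brody
  tfae_have 3 → 2 := fun h f hf => h f (hol_of_orderTwo hf.orderTwo) hf.mem hf.nonconstant
  tfae_have 2 → 1 := fun h => Pool.Agent.SR2.T.ggl_of (ggl_of_curves hP hdim hs hpr hgt hΞ h).1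
  tfae_have 1 → 4 := fun h => h.picard
  tfae_have 4 → 3 := fun h f hf hfU hfn z => Pool.Agent.H17R.brody_of_picard hΞ.1 h hf hfU hfn z
  tfae_have 1 → 5 := by
    intro h
    obtain ⟨R, d, hR, hRP, hRΞ⟩ := degenerate_of_mem hΞ
    exact ⟨fun Q _ hQ hPQ hne n hn hd => h.strongly Q hQ hPQ hne n hn hd, fun f hf =>
      ⟨R, d, hR, hRP, fun z => hRΞ _ (h.brody f (hol_of_orderTwo hf.orderTwo) hf.mem hf.nonconstant z)⟩⟩
  tfae_have 5 → 2 := by
    rintro ⟨hst, h⟩ f hf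
    obtain ⟨R, d, hR, hRP, hRf⟩ := h f hf
    exact mem_of_degenerate hP hdim (forms_of_proper hpr) hst (hol_of_orderTwo hf.orderTwo) hf.mem hf.nonconstant hR hRP hRf
  tfae_finish

/-- **Pseudo Brody hyperbolic surfaces which are proper over an affine variety.** -/
theorem hyperbolic_of_brody [P.IsPrime] (hP : Homog P) (hdim : HasDim P 2) (hs : Smooth P 2) {G : Fin s → MvPolynomial (Fin (N + 1)) ℂ}
    (hpr : ProperOverAffine P G) (hgt : LogGT P G 2) (hb : PseudoBrodyHyperbolic (Loc P G)) : Hyperbolic P G := by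
  obtain ⟨Ξ, h1, h2, h⟩ := hb
  obtain ⟨h3, h4⟩ := ggl_of_curves hP hdim hs hpr hgt ⟨h1, h2⟩ fun f hf => h f (hol_of_orderTwo hf.orderTwo) hf.mem hf.nonconstant
  exact Pool.Agent.SR2.T.hyperbolic_of (Pool.Agent.SDA.hyperbolicOpen_of hP hdim (forms_of_proper hpr) ⟨Ξ, h3⟩ h4)

theorem proper_section {H : MvPolynomial (Fin (N + 1)) ℂ} {e : ℕ} (hH : H.IsHomogeneous e) : ProperOverAffine P (fun _ : Fin 1 => H) := by
  have h := Pool.Agent.SDA.isProperMap_section (P := P) hH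
  exact ⟨_, _, _, h.hom, h.zero, h.rel, h.noZero⟩

/-- the zero set of a form which is not `0` on the surface -/
theorem isProperClosed_form [hPp : P.IsPrime] (hP : Homog P) (hdim : HasDim P 2) {G : Fin s → MvPolynomial (Fin (N + 1)) ℂ}
    (hG : ∀ i, ∃ n, (G i).IsHomogeneous n) (hGP : ∃ i, G i ∉ P) {R : MvPolynomial (Fin (N + 1)) ℂ} {d : ℕ} (hR : R.IsHomogeneous d) (hRP : R ∉ P) :
    IsProperClosed (Loc P G) {x | x ∈ Loc P G ∧ ∀ A ∈ ({R} : Set (MvPolynomial (Fin (N + 1)) ℂ)), VanishesAt A x} := by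
  obtain ⟨z, hz⟩ := id hdim
  obtain ⟨i, hi⟩ := hGP
  obtain ⟨e, he⟩ := hG i
  have hXi : ∃ i, (X i : MvPolynomial (Fin (N + 1)) ℂ) ∉ P := Pool.Agent.H62.FC.exists_X_notMem (r := 2) (by norm_num) ⟨z, hz⟩
  refine ⟨⟨{R}, fun A hA => ⟨d, by rw [Set.mem_singleton_iff.1 hA]; exact hR⟩, rfl⟩, fun heq => ?_⟩
  obtain ⟨x, hx, hxQ⟩ := Pool.Agent.H17EF.exists_point hP hXi (Q := G i * R) (fun h => (hPp.mem_or_mem h).elim hi hRP) (he.mul hR)
  have hx1 : eval x.rep (G i * R) ≠ 0 := hxQ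
  rw [map_mul] at hx1
  have hxU : x ∈ Loc P G := ⟨fun Q hQ n hn => hx Q hQ n hn, i, fun h => hx1 (by
    have h2 : eval x.rep (G i) = 0 := h
    rw [h2, zero_mul])⟩
  rw [← heq] at hxU
  have h3 : eval x.rep R = 0 := hxU.2 R rfl
  exact hx1 (by rw [h3, mul_zero])

/-- **The equivalences.** -/
theorem tfae_gen [P.IsPrime] (hP : Homog P) (hdim : HasDim P 2) (hs : Smooth P 2) {G : Fin s → MvPolynomial (Fin (N + 1)) ℂ} (hGP : ∃ i, G i ∉ P)
    (hpr : ProperOverAffine P G) (hgt : LogGT P G 2) (hcur : HasR P G) :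
    List.TFAE [
      ∃ E : Eqn N, Nontrivial P E ∧ ∀ f, IsCurve (Loc P G) f → Satisfies E f,
      ∃ (R : MvPolynomial (Fin (N + 1)) ℂ) (d : ℕ), R.IsHomogeneous d ∧ R ∉ P ∧ ∀ f, IsCurve (Loc P G) f → ∀ z, VanishesAt R (f z),
      StronglyLogGT P G ∧ ∀ f, IsCurve (Loc P G) f → ∃ E : Eqn N, Nontrivial P E ∧ ∀ c : ℂ, c ≠ 0 → Satisfies E fun z => f (c * z),
      PseudoBrodyHyperbolic (Loc P G),
      PseudoPicardHyperbolic (Loc P G),
      PseudoKobayashi (Loc P G),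
      GGL P G (Exc (Loc P G)),
      Hyperbolic P G] := by
  have hG := forms_of_proper hpr
  have ode : ∀ E : Eqn N, Nontrivial P E → ∃ (R : MvPolynomial (Fin (N + 1)) ℂ) (d : ℕ), R.IsHomogeneous d ∧ R ∉ P ∧
      ∀ f, IsCurve (Loc P G) f → (∀ c : ℂ, c ≠ 0 → Satisfies E fun z => f (c * z)) → ∀ z, VanishesAt R (f z) := by
    rintro E ⟨x, v, h0, hx, hne⟩
    obtain ⟨R, d, hR, hRP, h⟩ := exists_R_ode hP hdim (Pool.Agent.SR2.T.isSmooth_of hs) hG hcur h0 (fun Q hQ => (hx Q hQ).1) (v₀ := v)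
      (fun Q hQ => (hx Q hQ).2) hne
    exact ⟨R, d, hR, hRP, fun f hf hG => h f hf.orderTwo hf.mem hf.nonconstant hG⟩
  tfae_have 8 → 4 := by
    intro h
    obtain ⟨Ξ, h⟩ := h.four
    exact ⟨Ξ, h.closed, h.proper, h.brody⟩
  tfae_have 4 → 7 := by
    rintro ⟨Ξ, h1, h2, h⟩
    refine Pool.Agent.SR2.T.ggl_of (ggl_of_curves hP hdim hs hpr hgt ⟨⟨_, fun R hR => hR.1, rfl⟩, fun heq => h2 ?_⟩ fun f hf z => ⟨hf.mem z, fun R hR => hR.2 f hf z⟩).1
    obtain ⟨S, hS, rfl⟩ := h1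
    refine Set.Subset.antisymm (fun x hx => hx.1) fun x hx => ⟨hx, fun R hR => ?_⟩
    rw [← heq] at hx
    exact hx.2 R ⟨hS R hR, fun f hf z => (h f (hol_of_orderTwo hf.orderTwo) hf.mem hf.nonconstant z).2 R hR⟩
  tfae_have 7 → 5 := fun h => ⟨_, h.closed, h.proper, h.picard⟩
  tfae_have 5 → 4 := Pool.Agent.H36.BPL.brody_of_picard
  tfae_have 6 → 4 := fun h => Pool.Agent.H14.KB.pseudoBrody_of_kobayashi h
  tfae_have 4 → 8 := hyperbolic_of_brody hP hdim hs hpr hgt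
  tfae_have 8 → 6 := fun h => h.kobayashi
  tfae_have 1 → 2 := by
    rintro ⟨E, hE, h⟩
    obtain ⟨R, d, hR, hRP, hRf⟩ := ode E hE
    exact ⟨R, d, hR, hRP, fun f hf => hRf f hf fun c hc => h _ (isCurve_mul hf hc)⟩
  tfae_have 2 → 4 := by
    rintro ⟨R, d, hR, hRP, hRf⟩
    have hΞ := isProperClosed_form hP hdim hG hGP hR hRP
    have h1 := (ggl_of_curves hP hdim hs hpr hgt hΞ fun f hf z => ⟨hf.mem z, fun A hA => by
      rw [Set.mem_singleton_iff.1 hA]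
      exact hRf f hf z⟩).1
    exact ⟨_, h1.closed, h1.proper, h1.brody⟩
  tfae_have 7 → 2 := by
    intro h
    obtain ⟨R, d, hR, hRP, hRΞ⟩ := degenerate_of_mem ⟨h.closed, h.proper⟩
    exact ⟨R, d, hR, hRP, fun f hf z => hRΞ _ (h.brody f (hol_of_orderTwo hf.orderTwo) hf.mem hf.nonconstant z)⟩
  tfae_have 2 → 1 := by
    rintro ⟨R, d, hR, hRP, hRf⟩
    obtain ⟨E, hE, hE'⟩ := exists_eqn hP hdim hR hRP
    exact ⟨E, hE, fun f hf => hE' f (hRf f hf)⟩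
  tfae_have 7 → 3 := by
    intro h
    obtain ⟨R, d, hR, hRP, hRΞ⟩ := degenerate_of_mem ⟨h.closed, h.proper⟩
    obtain ⟨E, hE, hE'⟩ := exists_eqn hP hdim hR hRP
    refine ⟨⟨_, ⟨h.closed, h.proper⟩, fun Q _ hQ hPQ hne n hn hd => h.strongly Q hQ hPQ hne n hn hd⟩, fun f hf => ⟨E, hE, fun c _ => hE' _ fun z => ?_⟩⟩
    exact hRΞ _ (h.brody f (hol_of_orderTwo hf.orderTwo) hf.mem hf.nonconstant (c * z))
  tfae_have 3 → 4 := by
    rintro ⟨⟨Ξ, hΞ, hst⟩, h⟩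
    have h1 := (ggl_of_curves hP hdim hs hpr hgt hΞ fun f hf => by
      obtain ⟨E, hE, hE'⟩ := h f hf
      obtain ⟨R, d, hR, hRP, hRf⟩ := ode E hE
      exact mem_of_degenerate hP hdim hG hst (hol_of_orderTwo hf.orderTwo) hf.mem hf.nonconstant hR hRP (hRf f hf hE')).1
    exact ⟨_, h1.closed, h1.proper, h1.brody⟩
  tfae_finish

/-- **The equivalences** for `U = X` or `U = X - {H = 0}`. -/
theorem tfae_main [P.IsPrime] (hP : Homog P) (hdim : HasDim P 2) (hs : Smooth P 2) {H : MvPolynomial (Fin (N + 1)) ℂ} {e : ℕ} (hH : H.IsHomogeneous e)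
    (hHP : H ∉ P) (hgt : LogGT P (fun _ : Fin 1 => H) 2) :
    List.TFAE [
      ∃ G : Eqn N, Nontrivial P G ∧ ∀ f, IsCurve (Loc P fun _ : Fin 1 => H) f → Satisfies G f,
      ∃ (R : MvPolynomial (Fin (N + 1)) ℂ) (d : ℕ), R.IsHomogeneous d ∧ R ∉ P ∧ ∀ f, IsCurve (Loc P fun _ : Fin 1 => H) f → ∀ z, VanishesAt R (f z),
      StronglyLogGT P (fun _ : Fin 1 => H) ∧
        ∀ f, IsCurve (Loc P fun _ : Fin 1 => H) f → ∃ G : Eqn N, Nontrivial P G ∧ ∀ c : ℂ, c ≠ 0 → Satisfies G fun z => f (c * z),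
      PseudoBrodyHyperbolic (Loc P fun _ : Fin 1 => H),
      PseudoPicardHyperbolic (Loc P fun _ : Fin 1 => H),
      PseudoKobayashi (Loc P fun _ : Fin 1 => H),
      GGL P (fun _ : Fin 1 => H) (Exc (Loc P fun _ : Fin 1 => H)),
      Hyperbolic P (fun _ : Fin 1 => H)] :=
  tfae_gen hP hdim hs ⟨0, hHP⟩ (proper_section hH) hgt (hasR_section hP hdim (Pool.Agent.SR2.T.isSmooth_of hs) hH hHP hgt)

end Pool.Agent.MQL.PB
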