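import Pool.Agent.MQL.ThNK
import Pool.Agent.MQL.SDefs
import Pool.Agent.MQL.OkE

/-!
# MQL ThL: the function `Θ` for a weight with poles
-/

set_option autoImplicit false

open Topology Filter Metric MvPolynomial

noncomputable section

namespace Pool.Agent.MQL

open Pool.Agent.H36.BP (EN)
open Pool.Agent.H17BP (Surface IsForm)
open Pool.Agent.H17EF (projVar coneE)
open Pool.Agent.H36.BPL (OpenPart)
open Pool.Agent.MQ3

variable {M : ℕ} {P : Ideal (MvPolynomial (Fin (M + 1)) ℂ)} {RD H₀ Ra : MvPolynomial (Fin (M + 1)) ℂ} {m : ℕ} {X : NCModel P RD} {θ : WDiff (coneE P) m}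
  {l : LF M} {S : Web X θ l} {Wf : EN M → EN M → EN M → ℂ} {mK jH : ℕ}

theorem exists_theta {F : ℂ → EN M} (hX : Surface (coneE P)) (hW : LW P H₀ mK jH Wf) (hF : LCrv θ RD H₀ Ra F) (Y : NCLift X F) (hne : WNe Wf Y) :
    ∃ Θ : ℂ → ℂ, IsTh S Wf mK Y Θ :=
  exists_thetaK hX hW.one_m (okE_open hX hW.hom) hW.form hF.toWCrv (fun z => ⟨hF.mem z, hF.avoid z⟩) Y hne

end Pool.Agent.MQL
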