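import Pool.Agent.MQL.AxLa
import Pool.Agent.MQL.AxLb

/-!
# MQL AxL: the axes in `D` (`avoidL` in AxLa, `axW_of` in AxLb)
-/
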