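import Pool.Agent.MQL.Defs
import Pool.Agent.MQ2.StepW
import Pool.Agent.MQ2.SepC
import Pool.Agent.MQ2.Cong

/-!
# MQL BasicD: monotonicity, congruence, exchange of the coordinates, the black box for nonnegative exponents
-/

set_option autoImplicit false

open Topology Filter Metric MeasureTheory Asymptotics Laplacian Set

noncomputable section

namespace Pool.Agent.MQL

open Pool.Agent.H36.BP (EN)
open Pool.Agent.H30M (tau LogSing)
open Pool.Agent.MQ Pool.Agent.MQ2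

/-- a smaller Jacobian factor -/
theorem locX_jac {v : ℂ × ℂ → ℂ × ℂ} {g J J' : ℂ × ℂ → ℂ} {Om : Set ℂ} {p : ℂ → ℂ × ℂ} {lm : ℂ → ℝ} {s A δ : ℝ}
    (h : ∀ z ∈ Om, J' (p z) ≠ 0 → J (p z) ≠ 0 ∧ ‖J' (p z)‖ ≤ ‖J (p z)‖) (hX : LocX v g J Om p lm s A δ) : LocX v g J' Om p lm s A δ := by
  obtain ⟨C, l, η, Φ, err, h1, h2, h3, h4, h5, h6, h7, h8, h9, h10, h11, h12⟩ := hX
  refine ⟨C, l, η, Φ, err, h1, h2, h3, h4, h5, h6, h7, h8, h9, h10, ?_, h12⟩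
  intro z hz hΦ hzt hg hJ
  obtain ⟨hJ1, hJ2⟩ := h z hz hJ
  have h13 := h11 z hz hΦ hzt hg hJ1
  have h14 : Real.log ‖J' (p z)‖ ≤ Real.log ‖J (p z)‖ := Real.log_le_log (norm_pos_iff.2 hJ) hJ2
  linarith

/-- a smaller box -/
theorem locX_sub {v : ℂ × ℂ → ℂ × ℂ} {g J : ℂ × ℂ → ℂ} {Om : Set ℂ} {p : ℂ → ℂ × ℂ} {lm : ℂ → ℝ} {s s' A δ : ℝ} (hO : IsOpen Om) (hs : s ≤ s')
    (hX : LocX v g J Om p lm s A δ) : LocX v g J {z | z ∈ Om ∧ p z ∈ ball (0 : ℂ × ℂ) s'} p lm s A δ := by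
  obtain ⟨C, l, η, Φ, err, h1, h2, h3, h4, h5, h6, h7, h8, h9, h10, h11, h12⟩ := hX
  have hsub : {z | z ∈ Om ∧ p z ∈ ball (0 : ℂ × ℂ) s'} ⊆ Om := fun z hz => hz.1
  refine ⟨C, l, η, Φ, err, h1, h2, h3, h4, h5.mono hsub, h6.mono hsub, fun z hz => h7 z hz.1, fun z hz => h8 z hz.1, fun z hz => h9 z hz.1,
    fun z hz => h10 z hz.1, fun z hz => h11 z hz.1, fun R hR => ?_⟩
  refine le_trans (le_of_eq ?_) (h12 R hR)
  refine (setIntegral_eq_of_subset_of_forall_sdiff_eq_zero hO.measurableSet hsub fun z hz => ?_).symm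
  have h13 : p z ∉ ball (0 : ℂ × ℂ) s := fun h => hz.2 ⟨hz.1, ball_subset_ball hs h⟩
  rw [(h8 z hz.1 h13).2.1, mul_zero]

theorem JD_norm (al be : ℝ) (p : ℂ × ℂ) : ‖JD al be p‖ = ‖p.1‖ ^ al * ‖p.2‖ ^ be := by
  unfold JD
  rw [Complex.norm_real, Real.norm_eq_abs, abs_of_nonneg (by positivity)]

theorem JD_swap (al be : ℝ) (p : ℂ × ℂ) : JD be al p.swap = JD al be p := by
  unfold JD
  rw [Prod.fst_swap, Prod.snd_swap, mul_comm]

theorem GoodD.mono {P P' : (ℂ × ℂ → ℂ) → Prop} {al be : ℝ} {v : ℂ × ℂ → ℂ × ℂ} (h : ∀ g, P g → Wt v g → AxW al be v g → P' g) (hv : GoodD P' al be v) :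
    GoodD P al be v := by
  obtain ⟨m, c, hc, hg⟩ := hv
  exact ⟨m, c, hc, fun g hP hW hA => hg g (h g hP hW hA) hW hA⟩

theorem axW_congr {al be : ℝ} {v v' : ℂ × ℂ → ℂ × ℂ} (h : v =ᶠ[𝓝 0] v') {g : ℂ × ℂ → ℂ} (hg : AxW al be v' g) : AxW al be v g := by
  have h1 : Tendsto (fun t : ℂ => ((0 : ℂ), t)) (𝓝 0) (𝓝 0) := by
    have : Continuous fun t : ℂ => ((0 : ℂ), t) := by fun_prop
    exact this.tendsto 0
  have h2 : Tendsto (fun t : ℂ => (t, (0 : ℂ))) (𝓝 0) (𝓝 0) := by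
    have : Continuous fun t : ℂ => (t, (0 : ℂ)) := by fun_prop
    exact this.tendsto 0
  refine ⟨fun ha hv => hg.fst ha ?_, fun hb hv => hg.snd hb ?_⟩
  · filter_upwards [hv, h1.eventually h] with t ht ht2
    rw [← ht2, ht]
  · filter_upwards [hv, h2.eventually h] with t ht ht2
    rw [← ht2, ht]

theorem GoodD.congr {P : (ℂ × ℂ → ℂ) → Prop} {al be : ℝ} {v v' : ℂ × ℂ → ℂ × ℂ} (h : v =ᶠ[𝓝 0] v') (hv : GoodD P al be v) : GoodD P al be v' := by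
  obtain ⟨m, c, hc, hg⟩ := hv
  obtain ⟨ε, hε, hball⟩ := Metric.eventually_nhds_iff_ball.1 h
  refine ⟨m, c, fun i => Cong.sep h (hc i), fun g hP hw hA => ?_⟩
  filter_upwards [hg g hP (Cong.wt h hw) (axW_congr h hA), Ioo_mem_nhdsGT hε] with r hr hrε
  intro s s' hs hss hsr B hB
  obtain ⟨A, C₀, hA, hC₀, hmain⟩ := hr s s' hs hss hsr B hB
  refine ⟨A, C₀, hA, hC₀, ?_⟩
  intro d n q ψ hd hn hq hψ hord M F Q lm Om p hD hAv
  have hpε : ∀ z ∈ Om, p z ∈ ball (0 : ℂ × ℂ) ε := fun z hz => ball_subset_ball hrε.2.le (hD.crv.mem z hz)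
  have hvp : ∀ z ∈ Om, v (p z) = v' (p z) := fun z hz => hball _ (hpε z hz)
  have hvn : ∀ z ∈ Om, v =ᶠ[𝓝 (p z)] v' := by
    intro z hz
    filter_upwards [isOpen_ball.mem_nhds (hpε z hz)] with w hw
    exact hball w hw
  have hcrv : Crv1 v r Om p := by
    refine ⟨hD.crv.isOpen, hD.crv.an, hD.crv.mem, hD.crv.closed, ?_⟩
    intro z hz
    rw [hvp z hz]
    exact hD.crv.ode z hz
  have hD' : Dat v g r B d q ψ F Q lm Om p :=
    ⟨hcrv, hD.p_ne, hD.g_ne, hD.lm_cont, hD.lm_nonneg, hD.lm_ge, hD.F_diff, hD.F_ne, hD.lam_le, hD.Q_diff, hD.Q_ne, hD.Q_le, hD.Q_eq⟩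
  have hz : ∀ z ∈ Om, ztv v p z = ztv v' p z := by
    intro z hz
    unfold ztv
    rw [hvp z hz]
  have hDD : ∀ z ∈ Om, DDv v g p z = DDv v' g p z := by
    intro z hz'
    unfold DDv
    rw [hz z hz']
    have : dvg v (p z) = dvg v' (p z) := by
      unfold dvg
      rw [(hvn z hz').fderiv_eq]
    rw [this]
  obtain ⟨C, l, η, Φ, err, h1, h2, h3, h4, h5, h6, h7, h8, h9, h10, h11, h12⟩ := hmain d n q ψ hd hn hq hψ hord M F Q lm Om p hD' hAv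
  refine ⟨C, l, η, Φ, err, h1, h2, h3, h4, h5, h6, h7, ?_, h9, h10, ?_, h12⟩
  · intro z hz' hs'
    rw [← hDD z hz'.1]
    exact h8 z hz' hs'
  · intro z hz' hΦ hzt
    rw [← hz z hz'.1] at hzt ⊢
    exact h11 z hz' hΦ hzt

/-! ## the exchange of the coordinates -/

theorem divX_swap {g : ℂ × ℂ → ℂ} (h : DivX g) : DivY fun p => g p.swap := by
  obtain ⟨g₀, h1, h2⟩ := h
  refine ⟨fun p => g₀ p.swap, AnalyticAt.comp (f := fun q : ℂ × ℂ => q.swap) (g := g₀) (x := 0) h1 (an_swap 0), ?_⟩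
  filter_upwards [tendsto_swap0.eventually h2] with p hp
  rw [hp, Prod.fst_swap]

theorem divY_swap {g : ℂ × ℂ → ℂ} (h : DivY g) : DivX fun p => g p.swap := by
  obtain ⟨g₀, h1, h2⟩ := h
  refine ⟨fun p => g₀ p.swap, AnalyticAt.comp (f := fun q : ℂ × ℂ => q.swap) (g := g₀) (x := 0) h1 (an_swap 0), ?_⟩
  filter_upwards [tendsto_swap0.eventually h2] with p hp
  rw [hp, Prod.snd_swap]

theorem AxW.swap {al be : ℝ} {v : ℂ × ℂ → ℂ × ℂ} {g : ℂ × ℂ → ℂ} (h : AxW al be v g) : AxW be al (swv v) fun p => g p.swap where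
  fst := fun hb hv => divY_swap (h.snd hb hv)
  snd := fun ha hv => divX_swap (h.fst ha hv)

theorem Avoid.swap {al be : ℝ} {Om : Set ℂ} {p : ℂ → ℂ × ℂ} (h : Avoid al be Om p) : Avoid be al Om fun z => (p z).swap where
  fst := h.snd
  snd := h.fst

theorem locX_swap {v : ℂ × ℂ → ℂ × ℂ} {g J : ℂ × ℂ → ℂ} {r : ℝ} {Om O : Set ℂ} {p : ℂ → ℂ × ℂ} {lm : ℂ → ℝ} {s A δ : ℝ} (hp : Crv1 v r Om p) (hO : O ⊆ Om)
    (hX : LocX (swv v) (fun q => g q.swap) (fun q => J q.swap) O (fun z => (p z).swap) lm s A δ) : LocX v g J O p lm s A δ := by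
  obtain ⟨C, l, η, Φ, err, h1, h2, h3, h4, h5, h6, h7, h8, h9, h10, h11, h12⟩ := hX
  have hb : ∀ z, (p z).swap ∈ ball (0 : ℂ × ℂ) s ↔ p z ∈ ball (0 : ℂ × ℂ) s := by
    intro z
    rw [mem_ball_zero_iff, mem_ball_zero_iff, norm_swap']
  refine ⟨C, l, η, Φ, err, h1, h2, h3, h4, h5, h6, h7, ?_, ?_, h10, ?_, h12⟩
  · intro z hz hs
    rw [← DDv_swap' hp (hO hz)]
    exact h8 z hz fun h => hs ((hb z).1 h)
  · intro z hz hs
    exact h9 z hz ((hb z).2 hs)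
  · intro z hz hΦ hzt hg hJ
    rw [← ztv_swap' hp (hO hz)] at hzt ⊢
    have := h11 z hz hΦ hzt (by simpa only [Prod.swap_swap] using hg) (by simpa only [Prod.swap_swap] using hJ)
    simpa only [Prod.swap_swap] using this

theorem GoodD.swap {P : (ℂ × ℂ → ℂ) → Prop} {al be : ℝ} {v : ℂ × ℂ → ℂ × ℂ} (hv : GoodD (SG P) be al (swv v)) : GoodD P al be v := by
  obtain ⟨m, c, hc, hg⟩ := hv
  refine ⟨m, fun i N z => (c i N z).swap, fun i => sep_swap (hc i), fun g hP hw hA => ?_⟩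
  have hPs : SG P fun q => g q.swap := by
    unfold SG
    simpa only [Prod.swap_swap] using hP
  filter_upwards [hg _ hPs hw.swap hA.swap] with r hr
  intro s s' hs hss hsr B hB
  obtain ⟨A, C₀, hA, hC₀, hmain⟩ := hr s s' hs hss hsr B hB
  refine ⟨A, C₀, hA, hC₀, ?_⟩
  intro d n q ψ hd hn hq hψ hord M F Q lm Om p hD hAv
  have hq' : AnalyticAt ℂ (fun p : ℂ × ℂ => q p.swap) 0 := AnalyticAt.comp (f := fun q : ℂ × ℂ => q.swap) (g := q) (x := 0) hq (an_swap 0)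
  have hψ' : ContDiffAt ℝ 1 (fun p : ℂ × ℂ => ψ p.swap) 0 :=
    ContDiffAt.comp (g := ψ) (f := fun q : ℂ × ℂ => q.swap) 0 hψ (((an_swap 0).contDiffAt (n := 1)).restrict_scalars ℝ)
  have h1 := hmain d n _ _ hd hn hq' hψ' (fun i => hord i) M F Q lm Om _ hD.swap hAv.swap
  refine locX_swap (Om := Om) hD.crv (fun z hz => hz.1) ?_
  have h2 : (fun q : ℂ × ℂ => JD al be q.swap) = JD be al := funext fun q => JD_swap be al q
  have h3 : {z | z ∈ Om ∧ (p z).swap ∈ ball (0 : ℂ × ℂ) s'} = {z | z ∈ Om ∧ p z ∈ ball (0 : ℂ × ℂ) s'} := by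
    ext z
    rw [mem_setOf_eq, mem_setOf_eq, mem_ball_zero_iff, mem_ball_zero_iff, norm_swap']
  rw [h2, ← h3]
  exact h1

/-! ## nonnegative exponents -/

/-- the black box of the second stage: `J ≤ 1` for nonnegative exponents -/
theorem goodD_of_good {al be : ℝ} (hal : 0 ≤ al) (hbe : 0 ≤ be) {v : ℂ × ℂ → ℂ × ℂ} (h : Good PT v) : GoodD GT al be v := by
  obtain ⟨m, c, hc, hg⟩ := h
  refine ⟨m, c, hc, fun g _ hw _ => ?_⟩
  filter_upwards [hg g (fun _ => 1) trivial hw analyticAt_const, Ioo_mem_nhdsGT one_pos] with r hr hr1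
  intro s s' hs hss hsr B hB
  obtain ⟨A, C₀, hA, hC₀, hmain⟩ := hr s hs (hss.trans hsr) B hB
  refine ⟨A, C₀, hA, hC₀, ?_⟩
  intro d n q ψ hd hn hq hψ hord M F Q lm Om p hD _
  refine locX_jac (fun z hz _ => ⟨one_ne_zero, ?_⟩) (locX_sub hD.crv.isOpen hss.le (hmain d n q ψ hd hn hq hψ hord M F Q lm Om p hD))
  have h1 := hD.crv.mem z hz.1
  rw [mem_ball_zero_iff] at h1
  have h2 : ‖(p z).1‖ ≤ 1 := (norm_fst_le (p z)).trans (h1.trans hr1.2).le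
  have h3 : ‖(p z).2‖ ≤ 1 := (norm_snd_le (p z)).trans (h1.trans hr1.2).le
  rw [JD_norm, norm_one]
  exact mul_le_one₀ (Real.rpow_le_one (norm_nonneg _) h2 hal) (by positivity) (Real.rpow_le_one (norm_nonneg _) h3 hbe)

/-- a positive exponent can be replaced by `0` -/
theorem GoodD.exp_zero {P : (ℂ × ℂ → ℂ) → Prop} {al be : ℝ} (hbe : 0 ≤ be) {v : ℂ × ℂ → ℂ × ℂ} (h : GoodD P al 0 v) : GoodD P al be v := by
  obtain ⟨m, c, hc, hg⟩ := h
  refine ⟨m, c, hc, fun g hP hw hA => ?_⟩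
  have hA' : AxW al 0 v g := ⟨hA.fst, fun h => absurd h (lt_irrefl 0)⟩
  filter_upwards [hg g hP hw hA', Ioo_mem_nhdsGT one_pos] with r hr hr1
  intro s s' hs hss hsr B hB
  obtain ⟨A, C₀, hA, hC₀, hmain⟩ := hr s s' hs hss hsr B hB
  refine ⟨A, C₀, hA, hC₀, ?_⟩
  intro d n q ψ hd hn hq hψ hord M F Q lm Om p hD hAv
  have hAv' : Avoid al 0 Om p := ⟨hAv.fst, fun h => absurd h (lt_irrefl 0)⟩
  refine locX_jac (fun z hz hJ => ?_) (hmain d n q ψ hd hn hq hψ hord M F Q lm Om p hD hAv')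
  have h1 := hD.crv.mem z hz.1
  rw [mem_ball_zero_iff] at h1
  have h3 : ‖(p z).2‖ ≤ 1 := (norm_snd_le (p z)).trans (h1.trans hr1.2).le
  have h4 : ‖JD al be (p z)‖ ≤ ‖JD al 0 (p z)‖ := by
    rw [JD_norm, JD_norm, Real.rpow_zero, mul_one]
    exact mul_le_of_le_one_right (by positivity) (Real.rpow_le_one (norm_nonneg _) h3 hbe)
  exact ⟨norm_pos_iff.1 ((norm_pos_iff.2 hJ).trans_le h4), h4⟩

end Pool.Agent.MQL
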