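import Pool.Agent.MQL.RootE
import Pool.Agent.MQ2.TAxes

/-!
# MQL CorD: the logarithmic package at a corner

The field is the one of `MQ2.good_C`; in the small polydisc `|ζ'| |x y| |x| ^ al |y| ^ be ≤ C |x'| |x| ^ al`.
-/

set_option autoImplicit false

open Topology Filter Metric MeasureTheory Asymptotics Laplacian

noncomputable section

namespace Pool.Agent.MQL

open Pool.Agent.H36.BP (EN)
open Pool.Agent.H30M (tau LogSing)
open Pool.Agent.MQ Pool.Agent.MQ2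

theorem norm_JD (al be : ℝ) (p : ℂ × ℂ) : ‖JD al be p‖ = ‖p.1‖ ^ al * ‖p.2‖ ^ be := by
  unfold JD
  rw [Complex.norm_real, Real.norm_of_nonneg (by positivity)]

theorem rpow_le_two {s r x al : ℝ} (hs : 0 < s) (hsx : s ≤ x) (hxr : x ≤ r) : x ^ al ≤ s ^ al + r ^ al := by
  have hx : 0 < x := hs.trans_le hsx
  have hr : 0 < r := hx.trans_le hxr
  rcases le_total 0 al with h | h
  · have h1 : x ^ al ≤ r ^ al := Real.rpow_le_rpow hx.le hxr h
    have h2 : 0 ≤ s ^ al := Real.rpow_nonneg hs.le _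
    linarith
  · have h1 : x ^ al ≤ s ^ al := Real.rpow_le_rpow_of_nonpos hs hsx h
    have h2 : 0 ≤ r ^ al := Real.rpow_nonneg hr.le _
    linarith

theorem mul_rpow_le {y r be : ℝ} (hbe : -1 < be) (hy : 0 < y) (hyr : y ≤ r) : y * y ^ be ≤ r ^ (1 + be) := by
  have h1 : y * y ^ be = y ^ (1 + be) := by rw [Real.rpow_add hy, Real.rpow_one]
  rw [h1]
  exact Real.rpow_le_rpow hy.le hyr (by linarith)

/-- the logarithm of a product bounded by a multiple of the density -/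
theorem log_three_le {a b c C l : ℝ} (ha : 0 < a) (hb : 0 < b) (hc : 0 < c) (hC : 0 ≤ C) (hl : 0 ≤ l) (h : a * b * c ≤ C * l) :
    Real.log a + Real.log b + Real.log c ≤ Real.log (1 + C) + Real.log (1 + l) := by
  rw [← Real.log_mul ha.ne' hb.ne', ← Real.log_mul (mul_pos ha hb).ne' hc.ne', ← Real.log_mul (by positivity) (by positivity)]
  exact Real.log_le_log (by positivity) (by nlinarith)

/-- **The package at a corner.** -/
theorem goodD_corner {al be : ℝ} (hal : -1 < al) (hbe : -1 < be) {a b : ℂ × ℂ → ℂ} (ha : AnalyticAt ℂ a 0) (hb : AnalyticAt ℂ b 0) (ha0 : a 0 ≠ 0) (hb0 : b 0 ≠ 0)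
    (hq : ∀ k l : ℕ, 1 ≤ k → 1 ≤ l → k * a 0 ≠ l * b 0) : GoodD GC al be fun p => (p.1 * a p, p.2 * b p) := by
  refine ⟨0, fun i => i.elim0, fun i => i.elim0, ?_⟩
  rintro g ⟨g₀, hg₀, hg⟩ hw -
  have hu := corner_unit ha hb hq hg₀ hg hw
  have h1 := eventually_cball (ha.eventually_analyticAt.and (hb.eventually_analyticAt.and (hg₀.eventually_analyticAt.and
    ((ha.continuousAt.eventually_ne ha0).and ((hb.continuousAt.eventually_ne hb0).and ((hg₀.continuousAt.eventually_ne hu).and hg))))))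
  filter_upwards [h1] with r hr s s' hs hss hsr B hB
  have hs' : 0 < s' := hs.trans hss
  have r1 : AnalyticOnNhd ℂ a (closedBall 0 r) := fun p hp => (hr p hp).1
  have r2 : AnalyticOnNhd ℂ b (closedBall 0 r) := fun p hp => (hr p hp).2.1
  have r3 : AnalyticOnNhd ℂ g₀ (closedBall 0 r) := fun p hp => (hr p hp).2.2.1
  have r5 : ∀ p ∈ closedBall (0 : ℂ × ℂ) r, a p ≠ 0 := fun p hp => (hr p hp).2.2.2.1
  have r6 : ∀ p ∈ closedBall (0 : ℂ × ℂ) r, b p ≠ 0 := fun p hp => (hr p hp).2.2.2.2.1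
  have r7 : ∀ p ∈ closedBall (0 : ℂ × ℂ) r, g₀ p ≠ 0 := fun p hp => (hr p hp).2.2.2.2.2.1
  have r8 : ∀ p ∈ closedBall (0 : ℂ × ℂ) r, g p = p.1 * p.2 * g₀ p := fun p hp => (hr p hp).2.2.2.2.2.2
  obtain ⟨C₁, hC₁, hD0⟩ := D0_bound r1 r2 r3 r5 r6 r7
  obtain ⟨K₁, hK₁, hab⟩ := ratio_bound r1 r2 r6
  obtain ⟨K₂, hK₂, hba⟩ := ratio_bound r2 r1 r5
  obtain ⟨C₂, hC₂, hga⟩ := ratio_bound r3 r1 r5
  obtain ⟨A, hA, hroot⟩ := root_energy hal hs' hsr hB
  refine ⟨A, 0, hA, le_rfl, ?_⟩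
  intro d n q ψ _ _ _ _ _ M F Q lm Om p hD _
  have hcrv := hD.crv
  have hr0 : 0 < r := hs'.trans hsr
  have hmem : ∀ z ∈ Om, p z ∈ closedBall (0 : ℂ × ℂ) r := fun z hz => ball_subset_closedBall (hcrv.mem z hz)
  have hN : NodeC (fun p => (p.1 * a p, p.2 * b p)) r Om p a b (max K₁ K₂) :=
    ⟨hcrv, r1, r2, r5, r6, fun _ => rfl, fun p hp => (hab p hp).trans (mul_le_mul_of_nonneg_right (le_max_left _ _) (norm_nonneg _)),
      fun p hp => (hba p hp).trans (mul_le_mul_of_nonneg_right (le_max_right _ _) (norm_nonneg _))⟩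
  -- no curve meets the axes
  have hax : ∀ z ∈ Om, (p z).1 ≠ 0 ∧ (p z).2 ≠ 0 := fun z hz => by
    have h2 : ∀ᶠ w in 𝓝 z, g (p w) = (p w).1 * (p w).2 * g₀ (p w) := by
      filter_upwards [hcrv.isOpen.mem_nhds hz] with w hw using r8 _ (hmem w hw)
    have h3 := (hD.g_ne z hz).and_eventually h2
    obtain ⟨m, k, hm, hk, hmk⟩ := ord_axes hcrv (fun _ => rfl) hz (r1 _ (hmem z hz)).continuousAt (r2 _ (hmem z hz)).continuousAt
      (h3.mono fun w hw h4 => hw.1 (by rw [hw.2, h4, zero_mul, zero_mul])) (h3.mono fun w hw h4 => hw.1 (by rw [hw.2, h4, mul_zero, zero_mul]))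
    rw [← hm, ← hk]
    have ha' := r5 _ (hmem z hz)
    have hb' := r6 _ (hmem z hz)
    rcases Nat.eq_zero_or_pos m with rfl | hm0
    · refine ⟨rfl, ?_⟩
      rw [Nat.cast_zero, zero_mul] at hmk
      exact_mod_cast (mul_eq_zero.1 hmk.symm).resolve_right ha'
    · exfalso
      rcases Nat.eq_zero_or_pos k with rfl | hk0
      · rw [Nat.cast_zero, zero_mul] at hmk
        have := (mul_eq_zero.1 hmk).resolve_right hb'
        exact hm0.ne' (by exact_mod_cast this)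
      · have h5 : (p z).1 = 0 := by
          by_contra h5
          exact hm0.ne' (hm.2 h5)
        have h6 : (p z).2 = 0 := by
          by_contra h6
          exact hk0.ne' (hk.2 h6)
        have h7 : p z = 0 := Prod.ext h5 h6
        rw [h7] at hmk
        exact hq k m hk0 hm0 hmk.symm
  have hgz : ∀ z ∈ Om, g (p z) = (p z).1 * (p z).2 * g₀ (p z) := fun z hz => r8 _ (hmem z hz)
  have hDD : ∀ z ∈ Om, DDv (fun p => (p.1 * a p, p.2 * b p)) g p z = D0 a b g₀ p z := fun z hz => by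
    obtain ⟨hx, hy⟩ := hax z hz
    have hg0 := r7 _ (hmem z hz)
    unfold DDv D0
    rw [hN.dvg_zt hz (Or.inl hx)]
    have e1 : (fun w => g (p w)) =ᶠ[𝓝 z] fun w => (p w).1 * (p w).2 * g₀ (p w) := by
      filter_upwards [hcrv.isOpen.mem_nhds hz] with w hw using hgz w hw
    have hp := hcrv.an z hz
    have d1 : HasDerivAt (fun w => (p w).1) (deriv p z).1 z := by
      have := (an_fst hp).differentiableAt.hasDerivAt
      rwa [deriv_fst' hp.differentiableAt] at this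
    have d2 : HasDerivAt (fun w => (p w).2) (deriv p z).2 z := by
      have := (an_snd hp).differentiableAt.hasDerivAt
      rwa [deriv_snd' hp.differentiableAt] at this
    have d3 : HasDerivAt (fun w => g₀ (p w)) (deriv (fun w => g₀ (p w)) z) z :=
      (AnalyticAt.differentiableAt ((r3 _ (hmem z hz)).comp hp)).hasDerivAt
    rw [e1.deriv_eq, ((d1.fun_mul d2).fun_mul d3).deriv, hgz z hz, hN.dfst hz (Or.inl hx), hN.dsnd hz (Or.inl hx)]
    field_simp
    ring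
  have hDan : ∀ z ∈ Om, AnalyticAt ℂ (D0 a b g₀ p) z := fun z hz => (hD0 (hcrv.an z hz) (hmem z hz)).1
  have hDle : ∀ z ∈ Om, ‖D0 a b g₀ p z‖ ≤ C₁ * B * lm z := fun z hz => by
    refine ((hD0 (hcrv.an z hz) (hmem z hz)).2).trans ?_
    rw [mul_assoc]
    exact mul_le_mul_of_nonneg_left (hD.lm_ge z hz) hC₁.le
  obtain ⟨l₁, K, hl₁c, hl₁, hl₁E, hl₁r⟩ := hroot Om p lm hcrv.isOpen hcrv.an hcrv.mem hcrv.closed (fun z hz => (hax z hz).1) hD.lm_cont hD.lm_nonneg hD.lm_ge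
  have hl0 : ∀ z, 0 ≤ l₁ z := fun z => (hD.lm_nonneg z).trans (hl₁ z)
  -- the constant
  set E : ℝ := C₂ * r ^ (1 + be) with hE
  have hE0 : 0 ≤ E := mul_nonneg hC₂.le (Real.rpow_nonneg hr0.le _)
  have hpt : ∀ z ∈ Om, p z ∈ ball (0 : ℂ × ℂ) s' → ‖ztv (fun p => (p.1 * a p, p.2 * b p)) p z‖ * ‖g (p z)‖ * ‖JD al be (p z)‖ ≤ E * l₁ z := fun z hz hps => by
    obtain ⟨hx, hy⟩ := hax z hz
    have hap := norm_pos_iff.2 (r5 _ (hmem z hz))
    have hy0 : 0 < ‖(p z).2‖ := norm_pos_iff.2 hy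
    have hpr : ‖p z‖ ≤ r := by simpa using hmem z hz
    have hyr : ‖(p z).2‖ ≤ r := (norm_snd_le _).trans hpr
    have t1 : ‖ztv (fun p => (p.1 * a p, p.2 * b p)) p z‖ * ‖g (p z)‖ * ‖JD al be (p z)‖ =
        (‖(deriv p z).1‖ * ‖(p z).1‖ ^ al) * ((‖g₀ (p z)‖ / ‖a (p z)‖) * (‖(p z).2‖ * ‖(p z).2‖ ^ be)) := by
      rw [norm_JD, hgz z hz, hN.dfst hz (Or.inl hx)]
      simp only [norm_mul]
      field_simp
    have u1 : (‖g₀ (p z)‖ / ‖a (p z)‖) * (‖(p z).2‖ * ‖(p z).2‖ ^ be) ≤ E :=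
      mul_le_mul (by rw [div_le_iff₀ hap]; exact hga _ (hmem z hz)) (mul_rpow_le hbe hy0 hyr) (by positivity) hC₂.le
    rw [t1, mul_comm E]
    exact mul_le_mul (hl₁r z hz (ball_subset_closedBall hps)) u1 (by positivity) (hl0 z)
  set C : ℝ := C₁ * B + Real.log (1 + E) + |K| with hC
  have hlog0 : 0 ≤ Real.log (1 + E) := Real.log_nonneg (by linarith)
  have hCB : 0 ≤ C₁ * B := by positivity
  have hC0 : 0 ≤ C := by positivity
  refine ⟨C, l₁, fun z => (starRingEnd ℂ) (D0 a b g₀ p z), fun _ => 0, fun _ => 0, hC0, hl₁c, hl₁, fun R hR => (hl₁E R hR).trans ?_, ?_,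
    continuousOn_const, fun z _ => ⟨0, LogSing.of_contDiffAt contDiffAt_const⟩, fun z hz _ => ⟨by rw [hDD z hz.1], rfl, rfl⟩, fun z hz _ => ?_,
    fun z hz _ => ?_, fun z hz _ hzt hgz' hJz => ?_, fun R hR => ?_⟩
  · have := le_abs_self K
    linarith
  · exact fun z hz => (contDiffAt_conj_holo (hDan z hz.1)).contDiffWithinAt
  · rw [RCLike.norm_conj]
    have h2 : C₁ * B ≤ C := by
      have := abs_nonneg K
      linarith
    exact (hDle z hz.1).trans (mul_le_mul h2 (hl₁ z) (hD.lm_nonneg z) hC0)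
  · have e : dv (fun z => (starRingEnd ℂ) (D0 a b g₀ p z)) z = 0 := dv_conj (hDan z hz.1).differentiableAt
    have e2 : Δ (fun _ : ℂ => (0 : ℝ)) z = 0 := by simp
    rw [e, e2]
    norm_num
  · rw [add_zero]
    refine (log_three_le (norm_pos_iff.2 hzt) (norm_pos_iff.2 hgz') (norm_pos_iff.2 hJz) hE0 (hl0 z) (hpt z hz.1 hz.2)).trans ?_
    have := abs_nonneg K
    linarith
  · simp only [mul_zero, integral_zero, zero_mul, zero_div, zero_add]
    refine add_nonneg (mul_nonneg hC0 (integral_nonneg fun z => mul_nonneg (norm_nonneg _) (hl0 z))) hC0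

end Pool.Agent.MQL
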