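import Pool.Agent.MQ2.Defs

/-!
# MQL Defs: the package at an isolated singular point for curves which avoid a curve `D` (logarithmic version)

The curve `D` lies in the axes `{x = 0}`, `{y = 0}` of the box; the form `W` has poles of order less than `m` along `D`.  The Jacobian factor is
`|x| ^ al * |y| ^ be` with real exponents `al`, `be` greater than `-1`; a negative exponent means that the axis belongs to `D`, so the curves do not meet it, and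
if it is invariant then the weight vanishes on it.  For `0 ≤ al`, `0 ≤ be` this is `MQ2.Good` with `J = 1`.
-/

set_option autoImplicit false

open Topology Filter Metric MeasureTheory Asymptotics Laplacian

noncomputable section

namespace Pool.Agent.MQL

open Pool.Agent.H36.BP (EN)
open Pool.Agent.H30M (tau LogSing)
open Pool.Agent.MQ Pool.Agent.MQ2

/-- `|x| ^ al * |y| ^ be` -/
def JD (al be : ℝ) (p : ℂ × ℂ) : ℂ := ((‖p.1‖ ^ al * ‖p.2‖ ^ be : ℝ) : ℂ)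

/-- `x` divides `g` -/
def DivX (g : ℂ × ℂ → ℂ) : Prop := ∃ g₀ : ℂ × ℂ → ℂ, AnalyticAt ℂ g₀ 0 ∧ ∀ᶠ p in 𝓝 (0 : ℂ × ℂ), g p = p.1 * g₀ p

/-- `y` divides `g` -/
def DivY (g : ℂ × ℂ → ℂ) : Prop := ∃ g₀ : ℂ × ℂ → ℂ, AnalyticAt ℂ g₀ 0 ∧ ∀ᶠ p in 𝓝 (0 : ℂ × ℂ), g p = p.2 * g₀ p

/-- the weight contains the invariant axes with a negative exponent -/
structure AxW (al be : ℝ) (v : ℂ × ℂ → ℂ × ℂ) (g : ℂ × ℂ → ℂ) : Prop where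
  fst : al < 0 → (∀ᶠ t in 𝓝 (0 : ℂ), (v (0, t)).1 = 0) → DivX g
  snd : be < 0 → (∀ᶠ t in 𝓝 (0 : ℂ), (v (t, 0)).2 = 0) → DivY g

/-- the curve avoids the axes with a negative exponent -/
structure Avoid (al be : ℝ) (Om : Set ℂ) (p : ℂ → ℂ × ℂ) : Prop where
  fst : al < 0 → ∀ z ∈ Om, (p z).1 ≠ 0
  snd : be < 0 → ∀ z ∈ Om, (p z).2 ≠ 0

/-- **The package** for `v` and the exponents `al`, `be`, for the weights `g` with `P g`.  The conclusion is for the part of the curve in the polydisc of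
radius `s' < r` (the root energies are bounded there only); outside the polydisc of radius `s` the field is `conj D`. -/
def GoodD (P : (ℂ × ℂ → ℂ) → Prop) (al be : ℝ) (v : ℂ × ℂ → ℂ × ℂ) : Prop :=
  ∃ (m : ℕ) (c : Fin m → ℕ → ℂ → ℂ × ℂ), (∀ i, Sep v (c i)) ∧
    ∀ g : ℂ × ℂ → ℂ, P g → Wt v g → AxW al be v g → ∀ᶠ r in 𝓝[>] (0 : ℝ), ∀ s s', 0 < s → s < s' → s' < r → ∀ B, 0 ≤ B → ∃ A C₀ : ℝ, 0 ≤ A ∧ 0 ≤ C₀ ∧
      ∀ (d n : ℕ) (q : ℂ × ℂ → ℂ) (ψ : ℂ × ℂ → ℝ), 1 ≤ d → 1 ≤ n → AnalyticAt ℂ q 0 → ContDiffAt ℝ 1 ψ 0 →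
        (∀ i, FZero (c i) g ∨ HasOrd (c i) q n) →
        ∀ (M : ℕ) (F : ℂ → EN M) (Q : ℂ → ℂ) (lm : ℂ → ℝ) (Om : Set ℂ) (p : ℂ → ℂ × ℂ), Dat v g r B d q ψ F Q lm Om p → Avoid al be Om p →
          LocX v g (JD al be) {z | z ∈ Om ∧ p z ∈ ball (0 : ℂ × ℂ) s'} p lm s A (C₀ * d / n)

/-- the package without separatrices (for all forms `q`); used at regular points which depend on the curve `{Ra = 0}` -/
def GoodD0 (P : (ℂ × ℂ → ℂ) → Prop) (al be : ℝ) (v : ℂ × ℂ → ℂ × ℂ) : Prop :=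
  ∀ g : ℂ × ℂ → ℂ, P g → Wt v g → AxW al be v g → ∀ᶠ r in 𝓝[>] (0 : ℝ), ∀ s s', 0 < s → s < s' → s' < r → ∀ B, 0 ≤ B → ∃ A C₀ : ℝ, 0 ≤ A ∧ 0 ≤ C₀ ∧
    ∀ (d n : ℕ) (q : ℂ × ℂ → ℂ) (ψ : ℂ × ℂ → ℝ), 1 ≤ d → 1 ≤ n → AnalyticAt ℂ q 0 → ContDiffAt ℝ 1 ψ 0 →
      ∀ (M : ℕ) (F : ℂ → EN M) (Q : ℂ → ℂ) (lm : ℂ → ℝ) (Om : Set ℂ) (p : ℂ → ℂ × ℂ), Dat v g r B d q ψ F Q lm Om p → Avoid al be Om p →
        LocX v g (JD al be) {z | z ∈ Om ∧ p z ∈ ball (0 : ℂ × ℂ) s'} p lm s A (C₀ * d / n)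

/-- all weights -/
def GT : (ℂ × ℂ → ℂ) → Prop := fun _ => True

/-- both axes are in the weight -/
def GC (g : ℂ × ℂ → ℂ) : Prop := ∃ g₀ : ℂ × ℂ → ℂ, AnalyticAt ℂ g₀ 0 ∧ ∀ᶠ p in 𝓝 (0 : ℂ × ℂ), g p = p.1 * p.2 * g₀ p

/-- the class of the transforms of the weights of the class `P`, at the point `t` of the exceptional line -/
def TG (ι : ℕ) (t : ℂ) (P : (ℂ × ℂ → ℂ) → Prop) (g₁ : ℂ × ℂ → ℂ) : Prop :=
  ∃ (g : ℂ × ℂ → ℂ) (m : ℕ) (g' : ℂ × ℂ → ℂ), P g ∧ AnalyticAt ℂ g 0 ∧ AnalyticAt ℂ g' 0 ∧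
    (∀ᶠ p in 𝓝 (0 : ℂ × ℂ), g (be t p) = p.1 ^ m * g' p) ∧ ∀ᶠ p in 𝓝 (0 : ℂ × ℂ), g₁ p = p.1 ^ ι * g' p

/-- the class with the coordinates exchanged -/
def SG (P : (ℂ × ℂ → ℂ) → Prop) (g : ℂ × ℂ → ℂ) : Prop := P fun p => g p.swap

end Pool.Agent.MQL
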