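import Pool.Agent.MQL.Defs
import Pool.Agent.MQ.Green

/-!
# MQL DensD: from `LocalN1` to `LocX` with a bigger density `l` in the pointwise bound; the pointwise bound from the two root densities
-/

set_option autoImplicit false

open Topology Filter Metric MeasureTheory Asymptotics Laplacian

noncomputable section

namespace Pool.Agent.MQL

open Pool.Agent.H36.BP (EN)
open Pool.Agent.H30M (tau LogSing)
open Pool.Agent.MQ Pool.Agent.MQ2

theorem len_le_len {l l' : ℂ → ℝ} (hl : Continuous l) (hl' : Continuous l') (hle : ∀ z, l z ≤ l' z) {R : ℝ} (hR : 1 ≤ R) :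
    ∫ z, ‖gr (tau R) z‖ * l z ≤ ∫ z, ‖gr (tau R) z‖ * l' z := by
  have hc : Continuous (gr (tau R)) := continuous_gr ((Pool.Agent.H30M.contDiff_tau R).of_le (by norm_num))
  have hs : HasCompactSupport fun z => ‖gr (tau R) z‖ := (hasCompactSupport_gr (Pool.Agent.H30M.hcs_tau hR)).norm
  exact integral_mono ((hc.norm.mul hl).integrable_of_hasCompactSupport hs.mul_right) ((hc.norm.mul hl').integrable_of_hasCompactSupport hs.mul_right)
    fun z => mul_le_mul_of_nonneg_left (hle z) (norm_nonneg _)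

/-- `LocX` from `LocalN1`; the density `l` of the pointwise bound is bigger than `lm` -/
theorem locX_dens {v : ℂ × ℂ → ℂ × ℂ} {g J : ℂ × ℂ → ℂ} {Om : Set ℂ} {p : ℂ → ℂ × ℂ} {lm l : ℂ → ℝ} {s δ B C₁ A K : ℝ} (hB : 0 ≤ B) (hC₁ : 0 ≤ C₁)
    (hlc : Continuous lm) (hl0 : ∀ z, 0 ≤ lm z) (hp : ∀ z ∈ Om, ‖deriv p z‖ ≤ B * lm z)
    (h : LocalN1 v g Om p (fun R => ∫ z, tau R z * lm z ^ 2) (fun R => ∫ z, ‖gr (tau R) z‖ * lm z) s δ)
    (hl : Continuous l) (hle : ∀ z, lm z ≤ l z) (hE : ∀ R, 1 ≤ R → ∫ z, tau R z * l z ^ 2 ≤ A * (∫ z, tau R z * lm z ^ 2) + K)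
    (hpt : ∀ z ∈ Om, ztv v p z ≠ 0 → g (p z) ≠ 0 → ‖ztv v p z‖ * ‖g (p z)‖ * ‖J (p z)‖ ≤ C₁ * l z) : LocX v g J Om p lm s A δ := by
  obtain ⟨C, η, err, hC, hη, herr, hout, hin, he0, hdv, hint⟩ := h
  have hll : ∀ z, 0 ≤ l z := fun z => (hl0 z).trans (hle z)
  have hL : ∀ R : ℝ, 0 ≤ ∫ z, ‖gr (tau R) z‖ * l z := fun R => integral_nonneg fun z => mul_nonneg (norm_nonneg _) (hll z)
  refine ⟨max K (max (C * B) (max C (Real.log (1 + C₁)))), l, η, fun _ => 0, err, ?_, hl, hle, fun R hR => ?_, hη, herr,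
    fun z _ => ⟨0, ?_⟩, fun z hz hs => ⟨(hout z hz hs).1, (hout z hz hs).2, rfl⟩, fun z hz hs => ?_, fun z hz _ => ?_, fun z hz _ h1 h2 h3 => ?_, fun R hR => ?_⟩
  · exact le_max_of_le_right (le_max_of_le_left (mul_nonneg hC hB))
  · exact (hE R hR).trans (add_le_add le_rfl (le_max_left _ _))
  · refine ⟨fun _ => 0, contDiff_const.contDiffAt, Eventually.of_forall fun w => by simp⟩
  · refine (hin z hz hs).trans ?_
    calc C * ‖deriv p z‖ ≤ C * (B * lm z) := mul_le_mul_of_nonneg_left (hp z hz) hC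
      _ = C * B * lm z := by ring
      _ ≤ C * B * l z := mul_le_mul_of_nonneg_left (hle z) (mul_nonneg hC hB)
      _ ≤ _ := mul_le_mul_of_nonneg_right (le_max_of_le_right (le_max_left _ _)) (hll z)
  · have h0 : Δ (fun _ : ℂ => (0 : ℝ)) z = 0 := by
      rw [InnerProductSpace.laplacian_const]
      rfl
    rw [h0, add_zero]
    exact hdv z hz
  · have h4 := hpt z hz h1 h2
    have h5 : Real.log ‖ztv v p z‖ + Real.log ‖g (p z)‖ + Real.log ‖J (p z)‖ = Real.log (‖ztv v p z‖ * ‖g (p z)‖ * ‖J (p z)‖) := by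
      rw [Real.log_mul (mul_ne_zero (norm_ne_zero_iff.2 h1) (norm_ne_zero_iff.2 h2)) (norm_ne_zero_iff.2 h3), Real.log_mul (norm_ne_zero_iff.2 h1) (norm_ne_zero_iff.2 h2)]
    rw [h5, add_zero]
    have h6 : 0 < ‖ztv v p z‖ * ‖g (p z)‖ * ‖J (p z)‖ :=
      mul_pos (mul_pos (norm_pos_iff.2 h1) (norm_pos_iff.2 h2)) (norm_pos_iff.2 h3)
    have h7 : C₁ * l z ≤ (1 + C₁) * (1 + l z) := by nlinarith [hll z]
    calc Real.log (‖ztv v p z‖ * ‖g (p z)‖ * ‖J (p z)‖) ≤ Real.log ((1 + C₁) * (1 + l z)) := Real.log_le_log h6 (h4.trans h7)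
      _ = Real.log (1 + C₁) + Real.log (1 + l z) := Real.log_mul (by linarith) (by linarith [hll z])
      _ ≤ _ := by gcongr; exact ((le_max_right _ _).trans (le_max_right _ _)).trans (le_max_right _ _)
  · refine (hint R hR).trans ?_
    have h1 : C ≤ max K (max (C * B) (max C (Real.log (1 + C₁)))) := ((le_max_left _ _).trans (le_max_right _ _)).trans (le_max_right _ _)
    have h2 := mul_le_mul h1 (len_le_len hlc hl hle hR) (integral_nonneg fun z => mul_nonneg (norm_nonneg _) (hl0 z)) (hC.trans h1)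
    simp only at h2 ⊢
    linarith

/-- `t ^ al` is bounded on `[s, r]` -/
theorem rpow_le_max {t s r al : ℝ} (hs : 0 < s) (h1 : s ≤ t) (h2 : t ≤ r) : t ^ al ≤ s ^ al + r ^ al := by
  have hr : 0 < r := hs.trans_le (h1.trans h2)
  rcases le_total 0 al with h | h
  · exact (Real.rpow_le_rpow (hs.le.trans h1) h2 h).trans (le_add_of_nonneg_left (Real.rpow_nonneg hs.le _))
  · exact (Real.rpow_le_rpow_of_nonpos hs h1 h).trans (le_add_of_nonneg_right (Real.rpow_nonneg hr.le _))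

end Pool.Agent.MQL
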