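import Pool.Agent.MQL.PBa
import Pool.Agent.SR2.HDefs
import Pool.Agent.SDA.X4

/-!
# MQL Dns: an algebraic symmetric differential which is not `0` at one tangent vector is not `0` at the points of a dense set
-/

set_option autoImplicit false

open Topology Filter Metric MvPolynomial

noncomputable section

namespace Pool.Agent.MQL

open Pool.Agent.H36.BP (EN)
open Pool.Agent.H14.PP (IsCone Tan)
open Pool.Agent.H62.FC (Homog)
open Pool.Agent.H17LG.Variety (FunField)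
open Pool.Agent.H17EF (coneE LE)
open Pool.Agent.H13.SM (conTan)
open Pool.Agent.AD (SymDiff)
open Pool.Agent.SR2 (oc IsAlg)
open Pool.Agent.SDA (openCone E2_tan E2_tan' X4_openPart)

variable {N m h : ℕ} {P : Ideal (MvPolynomial (Fin (N + 1)) ℂ)} {H : MvPolynomial (Fin (N + 1)) ℂ}

/-- **The identity theorem for algebraic symmetric differentials.** -/
theorem dense_alg [P.IsPrime] (hP : Homog P) {z : Fin 2 → FunField P} (hz : IsTranscendenceBasis ℂ z)
    (hsm : ∀ y : Fin (N + 1) → ℂ, y ≠ 0 → (∀ Q ∈ P, eval y Q = 0) → Module.finrank ℂ (conTan P y) ≤ 3) (hH : H.IsHomogeneous h)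
    (θ : SymDiff (oc P H) m) (hθ : IsAlg θ) (hne : ∃ x ∈ oc P H, ∃ v, Tan (oc P H) x v ∧ θ.toFun x v ≠ 0) :
    oc P H ⊆ closure {x | x ∈ oc P H ∧ ∃ v, Tan (oc P H) x v ∧ θ.toFun x v ≠ 0} := by
  have hc : IsCone (coneE P) := Pool.Agent.AD.isCone_coneE hP
  have hK := X4_openPart (H := fun _ : Fin 1 => H) (e := fun _ => h) hc fun _ => hH
  obtain ⟨W, r, hW⟩ := hθ
  obtain ⟨x₀, hx₀, v₀, hv₀, hne⟩ := hne
  intro x₁ hx₁
  by_contra hcl
  have h1 : ∀ᶠ x in 𝓝 x₁, x ∈ oc P H → ∀ v, Tan (oc P H) x v → θ.toFun x v = 0 := by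
    have h2 : (closure {x | x ∈ oc P H ∧ ∃ v, Tan (oc P H) x v ∧ θ.toFun x v ≠ 0})ᶜ ∈ 𝓝 x₁ := isClosed_closure.isOpen_compl.mem_nhds hcl
    filter_upwards [h2] with x hx hxc v hv
    by_contra h3
    exact hx (subset_closure ⟨hxc, v, hv, h3⟩)
  have hx0 : x₀.ofLp ≠ 0 := hx₀.1.1
  have hT₀ : Tan (coneE P) x₀ v₀ := E2_tan' hK hv₀
  obtain ⟨V, Δ, hΔ, hV, hV₀⟩ := exists_vfield hP hz hsm hx0 hx₀.1.2 (Pool.Agent.AD.P.conTan_of_tan hT₀)
  obtain ⟨S, hS⟩ : ∃ S : MvPolynomial (Fin (N + 1)) ℂ, ∀ x : Fin (N + 1) → ℂ, eval x S = eval (Sum.elim x fun l => eval x (V l)) W := by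
    refine ⟨bind₁ (Sum.elim X V) W, fun x => ?_⟩
    rw [← coe_aeval_eq_eval, ← coe_aeval_eq_eval]
    show aeval x (bind₁ _ W) = aeval _ W
    rw [aeval_bind₁]
    congr 1
    apply congrArg
    funext s
    rcases s with i | s
    · simp
    · simp [coe_aeval_eq_eval, aeval_eq_eval]
  have hHc : Continuous fun x : EN N => eval x.ofLp H := (MvPolynomial.continuous_eval H).comp (LE N).symm.continuous
  have h0 := exists_zero hP hz hsm (S := S) hx₁.1 (by
    filter_upwards [h1, hHc.continuousAt.eventually_ne (hx₁.2 0)] with x hx hxH hxc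
    have hxo : x ∈ oc P H := ⟨hxc, fun _ => hxH⟩
    have h2 : Tan (coneE P) x ((LE N) fun l => eval x.ofLp (V l)) := by
      refine (conTan_three hP hz hsm hxc).2 _ ?_
      rw [ContinuousLinearEquiv.symm_apply_apply]
      exact hV x.ofLp hxc.1 hxc.2
    have h3 : Tan (oc P H) x ((LE N) fun l => eval x.ofLp (V l)) := E2_tan hK hxo h2
    have h4 := hW x hxo _ h3
    rw [hx hxo _ h3, zero_mul] at h4
    rw [hS]
    exact h4.symm) x₀ hx₀.1
  have h5 : Tan (oc P H) x₀ (Δ • v₀) := by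
    obtain ⟨F, ⟨hF, hFX⟩, hF0, hF1⟩ := hv₀
    refine ⟨fun y => F (Δ * y), ⟨?_, ?_⟩, by simpa using hF0, ?_⟩
    · have : AnalyticAt ℂ F (Δ * 0) := by simpa using hF
      exact this.comp ((analyticAt_const).mul analyticAt_id)
    · have hc : Tendsto (fun y : ℂ => Δ * y) (𝓝 0) (𝓝 0) := by
        have := (continuous_const_mul Δ).tendsto (0 : ℂ)
        simpa using this
      exact hc.eventually hFX
    · have hd : HasDerivAt F (deriv F 0) (Δ * 0) := by
        rw [mul_zero]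
        exact hF.differentiableAt.hasDerivAt
      have hd2 : HasDerivAt (fun y : ℂ => Δ * y) Δ 0 := by simpa using (hasDerivAt_id (0 : ℂ)).const_mul Δ
      have := hd.scomp (0 : ℂ) hd2
      rw [← hF1]
      exact this.deriv
  have h6 := hW x₀ hx₀ _ h5
  rw [θ.smul x₀ v₀ hv₀ Δ] at h6
  have h7 : (fun l => eval x₀.ofLp (V l)) = (Δ • v₀).ofLp := by
    funext l
    exact hV₀ l
  rw [hS, h7] at h0
  rw [h0] at h6
  exact mul_ne_zero (mul_ne_zero (pow_ne_zero _ hΔ) hne) (pow_ne_zero _ (hx₀.2 0)) h6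

end Pool.Agent.MQL
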