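import Pool.Agent.MQL.PtB
import Pool.Agent.MQ2.GoodT

/-!
# MQL PtN: the points of an invariant exceptional line `{x = 0}`, nodes

`v p = (p.1 * a p, b p)`, `a 0 = λ ≠ 0`, `b_y (0) = μ ≠ 0`, `k λ ≠ l μ` for `k, l ≥ 1`.  `node_zero`: the exponents `(al, 0)`; if `al < 0` one step leads to the
exponents `(1 + al, 0)`, where the package of the second stage applies.  `node_ord`: `be < 0`, `b (x, 0) = x ^ (n + 1) * unit`, induction on `n`.
-/

set_option autoImplicit false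

open Topology Filter Metric MeasureTheory Asymptotics Laplacian

noncomputable section

namespace Pool.Agent.MQL

open Pool.Agent.H17BP (exists_div_x exists_div_y)
open Pool.Agent.MQ Pool.Agent.MQ2

/-- the data of a node on the invariant line `{x = 0}` -/
private structure Nd (a b : ℂ × ℂ → ℂ) : Prop where
  ha : AnalyticAt ℂ a 0
  hb : AnalyticAt ℂ b 0
  ha0 : a 0 ≠ 0
  hb0 : b 0 = 0
  hb1 : fderiv ℂ b 0 (0, 1) ≠ 0
  hq : ∀ k l : ℕ, 1 ≤ k → 1 ≤ l → k * a 0 ≠ l * fderiv ℂ b 0 (0, 1)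

private theorem Nd.ne {a b : ℂ × ℂ → ℂ} (h : Nd a b) : a 0 ≠ fderiv ℂ b 0 (0, 1) := by
  have h1 := h.hq 1 1 le_rfl le_rfl
  simpa using h1

private theorem Nd.hq' {a b : ℂ × ℂ → ℂ} (h : Nd a b) : ∀ k l : ℕ, 1 ≤ k → 1 ≤ l → k * fderiv ℂ b 0 (0, 1) ≠ l * (a 0 - fderiv ℂ b 0 (0, 1)) := by
  intro k l hk hl he
  refine h.hq l (k + l) hl (by omega) ?_
  push_cast
  linear_combination -he

private theorem Nd.iso {a b : ℂ × ℂ → ℂ} (h : Nd a b) : ∀ᶠ p in 𝓝 (0 : ℂ × ℂ), p ≠ 0 → (p.1 * a p, b p) ≠ (0 : ℂ × ℂ) := by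
  have h1 : HasDerivAt (fun y : ℂ => ((0 : ℂ), y)) ((0 : ℂ), (1 : ℂ)) 0 := (hasDerivAt_const _ _).prodMk (hasDerivAt_id _)
  have h2 : HasDerivAt (fun y => b (0, y)) (fderiv ℂ b 0 (0, 1)) 0 := h.hb.differentiableAt.hasFDerivAt.comp_hasDerivAt (0 : ℂ) h1
  have h3 : ∀ᶠ y in 𝓝[≠] (0 : ℂ), b (0, y) ≠ 0 := h2.eventually_ne h.hb1
  rw [eventually_nhdsWithin_iff] at h3
  have hsnd : Tendsto (fun q : ℂ × ℂ => q.2) (𝓝 0) (𝓝 0) := continuous_snd.tendsto' _ _ rfl
  filter_upwards [hsnd.eventually h3, h.ha.continuousAt.eventually_ne h.ha0] with p e1 e2 hp h0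
  rw [Prod.mk_eq_zero] at h0
  have hx : p.1 = 0 := (mul_eq_zero.1 h0.1).resolve_right e2
  have hy : p.2 ≠ 0 := fun hy => hp (Prod.ext hx hy)
  refine e1 hy ?_
  have e3 : ((0 : ℂ), p.2) = p := Prod.ext hx.symm rfl
  rw [e3]
  exact h0.2

private theorem Nd.Iso {a b : ℂ × ℂ → ℂ} (h : Nd a b) : Iso fun p : ℂ × ℂ => (p.1 * a p, b p) :=
  ⟨(analyticAt_fst.mul h.ha).prod h.hb, by simp [h.hb0], h.iso⟩

/-- the transforms at the singular directions are nodes -/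
private theorem Nd.child {a b : ℂ × ℂ → ℂ} (h : Nd a b) {t : ℂ} {β : ℂ × ℂ → ℂ} (hβ : PtC a b t β)
    (h0 : fderiv ℂ b 0 (1, 0) + t * (fderiv ℂ b 0 (0, 1) - a 0) = 0) :
    Nd (fun q => a (be t q)) (fun q : ℂ × ℂ => β q - (q.2 + t) * a (be t q)) where
  ha := hβ.an_a
  hb := hβ.an_b
  ha0 := by
    show a (be t 0) ≠ 0
    rw [pt_be_zero]
    exact h.ha0
  hb0 := by
    show β 0 - ((0 : ℂ × ℂ).2 + t) * a (be t 0) = 0
    rw [← h0]
    exact hβ.val
  hb1 := by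
    rw [hβ.dy]
    exact sub_ne_zero.2 h.ne.symm
  hq := by
    intro k l hk hl he
    rw [hβ.dy] at he
    change (k : ℂ) * a (be t 0) = _ at he
    rw [pt_be_zero] at he
    refine h.hq (k + l) l (by omega) hl ?_
    push_cast
    linear_combination he

/-- the derivative along the first axis -/
private theorem node_fst {b : ℂ × ℂ → ℂ} (hb : AnalyticAt ℂ b 0) : HasDerivAt (fun x : ℂ => b (x, 0)) (fderiv ℂ b 0 (1, 0)) 0 := by
  have h1 : HasDerivAt (fun x : ℂ => (x, (0 : ℂ))) ((1 : ℂ), (0 : ℂ)) 0 := (hasDerivAt_id _).prodMk (hasDerivAt_const _ _)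
  have h2 : HasFDerivAt b (fderiv ℂ b 0) ((fun x : ℂ => (x, (0 : ℂ))) 0) := hb.differentiableAt.hasFDerivAt
  exact HasFDerivAt.comp_hasDerivAt (f := fun x : ℂ => (x, (0 : ℂ))) (l := b) (0 : ℂ) h2 h1

/-- the exponents `(al, 0)` -/
private theorem node_zero {al : ℝ} (hal : -1 < al) {a b : ℂ × ℂ → ℂ} (h : Nd a b) : GoodD DivX al 0 fun p => (p.1 * a p, b p) := by
  by_cases h0 : 0 ≤ al
  · exact GoodD.mono (fun _ _ _ _ => trivial) (goodD_of_good h0 le_rfl (good_of_iso h.Iso))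
  · have hbb : ∀ (t : ℂ) (β : ℂ × ℂ → ℂ), PtC a b t β → fderiv ℂ b 0 (1, 0) + t * (fderiv ℂ b 0 (0, 1) - a 0) = 0 →
        GoodD (TG 1 t DivX) (1 + al + 0) 0 (pw a t β) := fun t β hβ ht =>
      GoodD.mono (fun _ _ _ _ => trivial) (goodD_of_good (by linarith) le_rfl (good_of_iso (h.child hβ ht).Iso))
    refine goodD_one (fun _ hg => hg) hal (by norm_num) h.ha h.hb h.hb0 h.hb1 h.ne h.hq' h.iso (fun h1 β hβ => ?_) (fun t _ ht β hβ => hbb t β hβ ht)
    exact hbb 0 β hβ (by rw [h1, zero_mul, add_zero])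

/-- the order of `b (x, 0)` is finite -/
private theorem node_ord {be' : ℝ} (hbe : -1 < be') (n : ℕ) : ∀ (al : ℝ) (a b : ℂ × ℂ → ℂ), -1 < al → Nd a b →
    (∃ u : ℂ → ℂ, AnalyticAt ℂ u 0 ∧ u 0 ≠ 0 ∧ ∀ᶠ x in 𝓝 (0 : ℂ), b (x, 0) = x ^ (n + 1) * u x) → GoodD DivX al be' fun p => (p.1 * a p, b p) := by
  induction n with
  | zero =>
    intro al a b hal h hu
    obtain ⟨u, hu, hu0, he⟩ := hu
    have hd : fderiv ℂ b 0 (1, 0) ≠ 0 := by
      have h2 : HasDerivAt (fun x : ℂ => b (x, 0)) (fderiv ℂ b 0 (1, 0)) 0 := node_fst h.hb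
      have h3 : HasDerivAt (fun x : ℂ => x ^ (0 + 1) * u x) (u 0) 0 := by
        have h4 := (hasDerivAt_id (0 : ℂ)).mul hu.differentiableAt.hasDerivAt
        have h5 : (fun x : ℂ => x ^ (0 + 1) * u x) = id * u := by
          funext x
          simp
        rw [h5]
        simpa using h4
      rw [h2.unique (h3.congr_of_eventuallyEq he)]
      exact hu0
    refine goodD_one (fun _ hg => hg) hal hbe h.ha h.hb h.hb0 h.hb1 h.ne h.hq' h.iso (fun h1 => absurd h1 hd) (fun t _ ht β hβ => ?_)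
    exact GoodD.mono (fun g hg _ _ => tg_divX hg) (node_zero (by linarith) (h.child hβ ht))
  | succ n ih =>
    intro al a b hal h hu
    obtain ⟨u, hu, hu0, he⟩ := hu
    have hd : fderiv ℂ b 0 (1, 0) = 0 := by
      have h2 : HasDerivAt (fun x : ℂ => b (x, 0)) (fderiv ℂ b 0 (1, 0)) 0 := node_fst h.hb
      have h3 : HasDerivAt (fun x : ℂ => x ^ (n + 1 + 1) * u x) 0 0 := by
        have h4 := (hasDerivAt_pow (n + 1 + 1) (0 : ℂ)).mul hu.differentiableAt.hasDerivAt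
        have h5 : (fun x : ℂ => x ^ (n + 1 + 1) * u x) = (fun x : ℂ => x ^ (n + 1 + 1)) * u := rfl
        rw [h5]
        simpa using h4
      exact h2.unique (h3.congr_of_eventuallyEq he)
    refine goodD_one (fun _ hg => hg) hal hbe h.ha h.hb h.hb0 h.hb1 h.ne h.hq' h.iso (fun _ β hβ => ?_) (fun t ht0 ht β hβ => ?_)
    · have h0 : fderiv ℂ b 0 (1, 0) + 0 * (fderiv ℂ b 0 (0, 1) - a 0) = 0 := by rw [hd, zero_mul, add_zero]
      refine GoodD.mono (fun g hg _ _ => tg_divX hg) (ih (1 + al + be') _ _ (by linarith) (h.child hβ h0) ⟨u, hu, hu0, ?_⟩)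
      filter_upwards [he, pt_line'.eventually hβ.eq] with x e1 e2
      have e3 : be 0 (x, (0 : ℂ)) = (x, 0) := by simp [be]
      rw [e3, e1] at e2
      by_cases hx : x = 0
      · have e4 := (h.child hβ h0).hb0
        rw [hx]
        rw [zero_pow (Nat.succ_ne_zero n), zero_mul]
        exact e4
      · show β (x, 0) - ((x, (0 : ℂ)).2 + 0) * a (be 0 (x, 0)) = x ^ (n + 1) * u x
        have e5 : x * β (x, 0) = x * (x ^ (n + 1) * u x) := by
          rw [← e2]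
          ring
        rw [mul_left_cancel₀ hx e5]
        simp
    · exfalso
      rw [hd, zero_add] at ht
      rcases mul_eq_zero.1 ht with h1 | h1
      · exact ht0 h1
      · exact h.ne (sub_eq_zero.1 h1).symm

theorem goodD_N {al be : ℝ} (hal : -1 < al) (hbe : -1 < be) {a b : ℂ × ℂ → ℂ} (ha : AnalyticAt ℂ a 0) (hb : AnalyticAt ℂ b 0) (ha0 : a 0 ≠ 0) (hb0 : b 0 = 0)
    (hb1 : fderiv ℂ b 0 (0, 1) ≠ 0) (hq : ∀ k l : ℕ, 1 ≤ k → 1 ≤ l → k * a 0 ≠ l * fderiv ℂ b 0 (0, 1)) : GoodD DivX al be fun p => (p.1 * a p, b p) := by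
  have h : Nd a b := ⟨ha, hb, ha0, hb0, hb1, hq⟩
  by_cases hbe0 : 0 ≤ be
  · exact GoodD.exp_zero hbe0 (node_zero hal h)
  · have hbn : be < 0 := not_le.1 hbe0
    have han : AnalyticAt ℂ (fun x : ℂ => b (x, 0)) 0 :=
      AnalyticAt.fun_comp (g := b) (f := fun x : ℂ => (x, (0 : ℂ))) (by exact hb) (analyticAt_id.prod analyticAt_const)
    by_cases hinv : ∀ᶠ x in 𝓝 (0 : ℂ), b (x, 0) = 0
    · -- the corner
      obtain ⟨b₀, hb₀, hbe'⟩ := exists_div_y hb hinv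
      have hbe2 : ∀ᶠ p in 𝓝 (0 : ℂ × ℂ), b p = p.2 * b₀ p := by simpa using hbe'
      have hb00 : b₀ 0 = fderiv ℂ b 0 (0, 1) := by
        have h1 : HasDerivAt (fun y : ℂ => ((0 : ℂ), y)) ((0 : ℂ), (1 : ℂ)) 0 := (hasDerivAt_const _ _).prodMk (hasDerivAt_id _)
        have h2 : HasDerivAt (fun y => b (0, y)) (fderiv ℂ b 0 (0, 1)) 0 := hb.differentiableAt.hasFDerivAt.comp_hasDerivAt (0 : ℂ) h1
        have h3 : HasDerivAt (fun y => b₀ (0, y)) (fderiv ℂ b₀ 0 (0, 1)) 0 := hb₀.differentiableAt.hasFDerivAt.comp_hasDerivAt (0 : ℂ) h1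
        have h4 := (hasDerivAt_id (0 : ℂ)).mul h3
        have h5 : (fun y => b (0, y)) =ᶠ[𝓝 0] (id * fun y => b₀ (0, y)) := by
          filter_upwards [pt_line.eventually hbe2] with y hy
          rw [hy]
          rfl
        have h6 := h2.unique (h4.congr_of_eventuallyEq h5)
        rw [h6]
        simp
        rfl
      have hcor : GoodD GC al be fun p : ℂ × ℂ => (p.1 * a p, p.2 * b₀ p) := goodD_corner hal hbe ha hb₀ ha0 (by rw [hb00]; exact hb1) (by rw [hb00]; exact hq)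
      have hcor' : GoodD GC al be fun p : ℂ × ℂ => (p.1 * a p, b p) := by
        refine hcor.congr ?_
        filter_upwards [hbe2] with p hp
        rw [hp]
      exact GoodD.mono (fun g hg _ hax => gc_of_div hg (hax.snd hbn hinv)) hcor'
    · obtain ⟨n, u, hu, hu0, he⟩ := han.exists_eventuallyEq_pow_smul_nonzero_iff.2 hinv
      have hn : n ≠ 0 := by
        intro h0
        have h1 := he.self_of_nhds
        rw [h0, pow_zero, one_smul] at h1
        exact hu0 (by rw [← h1]; exact hb0)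
      obtain ⟨k, rfl⟩ := Nat.exists_eq_succ_of_ne_zero hn
      refine node_ord hbe k al a b hal h ⟨u, hu, hu0, ?_⟩
      filter_upwards [he] with x hx
      rw [hx, sub_zero, smul_eq_mul]

end Pool.Agent.MQL
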