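import Pool.Agent.MQL.PtS
import Pool.Agent.MQL.PtN
import Pool.Agent.MQ2.TE

/-!
# MQL ElemD: an elementary reduced singular point, logarithmic version

Blow up once, as `good_elem` (MQ2/TE).  `v (be t p) = x (A, B)`, `w t = (x A, B - (y + t) A)`; `w t 0 = 0` iff `(1, t)` is an eigenvector; with its
eigenvalue `l` and the other one `k`: `A 0 = l`, `∂_y (B - (y + t) A) = k - l` at `0`.  So `w t` is regular (`goodD_reg`), a node (`goodD_N`) or a saddle-node
(`goodD_S`); the exceptional line is invariant, so `x` divides the new weights.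
-/

set_option autoImplicit false

open Topology Filter Metric MeasureTheory Asymptotics Laplacian

noncomputable section

namespace Pool.Agent.MQL

open Pool.Agent.H36.BP (EN)
open Pool.Agent.H30M (tau LogSing)
open Pool.Agent.MQ Pool.Agent.MQ2
open Pool.Agent.MQ2.TE (an_be be_line be_ne tend_be div fderiv_fst fderiv_snd poly_zero iso_swap elem_swap)

namespace ElemD

/-- the classes of the transforms -/
theorem tg_divX {P : (ℂ × ℂ → ℂ) → Prop} {t : ℂ} (g : ℂ × ℂ → ℂ) (h : TG 1 t P g) : DivX g := by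
  obtain ⟨g₀, m, g', -, -, h3, -, h5⟩ := h
  refine ⟨g', h3, ?_⟩
  filter_upwards [h5] with p hp
  rw [hp, pow_one]

/-- the transforms of an elementary reduced singular point -/
theorem child {v : ℂ × ℂ → ℂ × ℂ} (hv : Iso v) (he : Elem v) (t : ℂ) : ∃ w : ℂ × ℂ → ℂ × ℂ, Child 0 1 t v w ∧
    ∀ (al be : ℝ), -1 < al → -1 < be → w 0 = 0 → GoodD DivX al be w := by
  obtain ⟨hva, hv0, hvi⟩ := hv
  obtain ⟨-, l, k, htr, hdt, hl0, hlk⟩ := he
  have hne : l ≠ k := by
    intro h
    apply hlk 1 1 one_pos one_pos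
    rw [h]
  have ha : AnalyticAt ℂ (fun p => (v p).1) 0 := analyticAt_fst.comp hva
  have hb : AnalyticAt ℂ (fun p => (v p).2) 0 := analyticAt_snd.comp hva
  obtain ⟨A, hA, hA1, hA2⟩ := div ha (by rw [hv0]; rfl) t
  obtain ⟨B, hB, hB1, hB2⟩ := div hb (by rw [hv0]; rfl) t
  rw [fderiv_fst hva, fderiv_fst hva] at hA2
  rw [fderiv_snd hva, fderiv_snd hva] at hB2
  set a₁ := (fderiv ℂ v 0 (1, 0)).1 with ha₁
  set a₂ := (fderiv ℂ v 0 (0, 1)).1 with ha₂
  set b₁ := (fderiv ℂ v 0 (1, 0)).2 with hb₁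
  set b₂ := (fderiv ℂ v 0 (0, 1)).2 with hb₂
  set b : ℂ × ℂ → ℂ := fun p => B p - (p.2 + t) * A p with hbdef
  have hban : AnalyticAt ℂ b 0 := hB.sub ((analyticAt_snd.add analyticAt_const).mul hA)
  have hbl : ∀ᶠ y in 𝓝 (0 : ℂ), b (0, y) = b₁ + (b₂ - a₁) * (y + t) + (-a₂) * (y + t) ^ 2 := by
    filter_upwards [hA2, hB2] with y h1 h2
    show B (0, y) - (y + t) * A (0, y) = _
    rw [h1, h2]
    ring
  -- the polynomial is not zero
  have hbne : ∀ᶠ y in 𝓝[≠] (0 : ℂ), b (0, y) ≠ 0 := by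
    have h1 : AnalyticAt ℂ (fun y : ℂ => b (0, y)) 0 := by
      have h2 : AnalyticAt ℂ (fun y : ℂ => ((0 : ℂ), y)) 0 := analyticAt_const.prod analyticAt_id
      have h3 : AnalyticAt ℂ b ((fun y : ℂ => ((0 : ℂ), y)) 0) := hban
      exact h3.comp h2
    rcases h1.eventually_eq_zero_or_eventually_ne_zero with h | h
    · exfalso
      obtain ⟨e0, e1, e2⟩ := poly_zero (t := t) (by
        filter_upwards [h, hbl] with y hy hy'
        rw [← hy', hy])
      apply hne
      have e3 : (l - k) ^ 2 = 0 := by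
        have e4 : b₂ = a₁ := sub_eq_zero.1 e1
        have e5 : a₂ = 0 := neg_eq_zero.1 e2
        rw [e4] at htr hdt
        rw [e5] at hdt
        linear_combination (l + k + 2 * a₁) * htr - 4 * hdt
      exact sub_eq_zero.1 (pow_eq_zero_iff two_ne_zero |>.1 e3)
    · exact h
  have hiso : ∀ᶠ p in 𝓝 (0 : ℂ × ℂ), p ≠ 0 → (p.1 * A p, b p) ≠ (0 : ℂ × ℂ) := by
    have h1 : ∀ᶠ p in 𝓝 (0 : ℂ × ℂ), p.2 ≠ 0 → b (0, p.2) ≠ 0 := by
      have h2 : Tendsto (fun p : ℂ × ℂ => p.2) (𝓝 0) (𝓝 0) := continuous_snd.tendsto' 0 0 rfl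
      exact h2.eventually (eventually_nhdsWithin_iff.1 hbne)
    have h3 := (tend_be t).eventually hvi
    filter_upwards [h1, h3, hA1, hB1] with p hp1 hp3 hpA hpB hp0 hw
    have w1 : p.1 * A p = 0 := congrArg Prod.fst hw
    have w2 : b p = 0 := congrArg Prod.snd hw
    by_cases hx : p.1 = 0
    · have hy : p.2 ≠ 0 := fun hy => hp0 (Prod.ext hx hy)
      apply hp1 hy
      have hp' : p = (0, p.2) := Prod.ext hx rfl
      rw [← hp']
      exact w2
    · have hA0 : A p = 0 := (mul_eq_zero.1 w1).resolve_left hx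
      have hB0 : B p = 0 := by
        have : B p - (p.2 + t) * A p = 0 := w2
        rw [hA0, mul_zero, sub_zero] at this
        exact this
      apply hp3 (be_ne hx)
      apply Prod.ext
      · rw [hpA, hA0, mul_zero]
        rfl
      · rw [hpB, hB0, mul_zero]
        rfl
  refine ⟨fun p => (p.1 * A p, b p), ⟨?_, ?_, ?_, ?_, Or.inl ⟨rfl, ?_⟩⟩, ?_⟩
  · exact (analyticAt_fst.mul hA).prod hban
  · filter_upwards [hA1] with p hp
    rw [hp, pow_zero, one_mul]
  · filter_upwards [hA1, hB1] with p hp hp'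
    rw [hp, hp']
    show p.1 * B p = (p.2 + t) * (p.1 * A p) + p.1 ^ (0 + 1) * (B p - (p.2 + t) * A p)
    ring
  · exact hiso
  · exact Eventually.of_forall fun y => by
      show (0 : ℂ) * A (0, y) = 0
      rw [zero_mul]
  · intro al be hal hbe hw0
    have hb0 : b 0 = 0 := congrArg Prod.snd hw0
    have hA0 : A 0 = a₁ + t * a₂ := by
      have h1 := hA2.self_of_nhds
      rw [zero_add] at h1
      exact h1
    have hb0' : b₁ + (b₂ - a₁) * t + (-a₂) * t ^ 2 = 0 := by
      have h1 := hbl.self_of_nhds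
      rw [zero_add] at h1
      rw [← h1]
      exact hb0
    have hbd : fderiv ℂ b 0 (0, 1) = b₂ - a₁ - 2 * t * a₂ := by
      have h1 : HasDerivAt (fun y : ℂ => b (0, y)) (fderiv ℂ b 0 (0, 1)) 0 := by
        have h2 : HasDerivAt (fun y : ℂ => ((0 : ℂ), y)) ((0 : ℂ), (1 : ℂ)) 0 :=
          (hasDerivAt_const (0 : ℂ) (0 : ℂ)).prodMk (hasDerivAt_id (0 : ℂ))
        have h3 : HasFDerivAt b (fderiv ℂ b 0) ((fun y : ℂ => ((0 : ℂ), y)) 0) := hban.differentiableAt.hasFDerivAt
        exact HasFDerivAt.comp_hasDerivAt (f := fun y : ℂ => ((0 : ℂ), y)) (0 : ℂ) h3 h2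
      have h4 : HasDerivAt (fun y : ℂ => b₁ + (b₂ - a₁) * (y + t) + (-a₂) * (y + t) ^ 2)
          ((b₂ - a₁) * 1 + (-a₂) * (2 * (0 + t) ^ 1 * 1)) 0 := by
        have h5 : HasDerivAt (fun y : ℂ => y + t) 1 0 := (hasDerivAt_id (0 : ℂ)).add_const t
        exact ((h5.const_mul (b₂ - a₁)).const_add b₁).add ((h5.pow 2).const_mul (-a₂))
      have h6 := h4.congr_of_eventuallyEq hbl
      rw [h1.unique h6]
      ring
    -- the eigenvalues
    set μ := fderiv ℂ b 0 (0, 1) with hμ
    have e1 : A 0 + (A 0 + μ) = l + k := by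
      rw [hA0, hbd, htr]
      ring
    have e2 : A 0 * (A 0 + μ) = l * k := by
      rw [hA0, hbd, hdt]
      linear_combination a₂ * hb0'
    have e3 : (A 0 - l) * (A 0 - k) = 0 := by
      linear_combination A 0 * e1 - e2
    rcases mul_eq_zero.1 e3 with e4 | e4
    · have e5 : A 0 = l := sub_eq_zero.1 e4
      have e6 : μ = k - l := by linear_combination e1 - 2 * e5
      refine goodD_N hal hbe hA hban (by rw [e5]; exact hl0) hb0 (by rw [← hμ, e6]; exact sub_ne_zero.2 hne.symm) ?_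
      intro m n hm hn h
      rw [← hμ, e5, e6] at h
      apply hlk (m + n) n (by omega) hn
      push_cast
      linear_combination h
    · have e5 : A 0 = k := sub_eq_zero.1 e4
      have e6 : μ = l - k := by linear_combination e1 - 2 * e5
      have e7 : μ ≠ 0 := by rw [e6]; exact sub_ne_zero.2 hne
      by_cases hk : k = 0
      · exact goodD_S hal hbe hA hban (by rw [e5]; exact hk) hb0 e7 hiso
      · refine goodD_N hal hbe hA hban (by rw [e5]; exact hk) hb0 e7 ?_
        intro m n hm hn h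
        rw [← hμ, e5, e6] at h
        apply hlk n (m + n) hn (by omega)
        push_cast
        linear_combination -h

/-- the package for a transform -/
theorem good_child {v : ℂ × ℂ → ℂ × ℂ} (hv : Iso v) (he : Elem v) (t : ℂ) : ∃ w : ℂ × ℂ → ℂ × ℂ, Child 0 1 t v w ∧
    ∀ (P : (ℂ × ℂ → ℂ) → Prop) (al be : ℝ), -1 < al → -1 < be → GoodD (TG 1 t P) al be w := by
  obtain ⟨w, hw, h⟩ := child hv he t
  refine ⟨w, hw, fun P al be hal hbe => ?_⟩
  by_cases h0 : w 0 = 0
  · exact GoodD.mono (P' := DivX) (fun g hg _ _ => tg_divX g hg) (h al be hal hbe h0)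
  · exact GoodD.mono (P' := GT) (fun _ _ _ _ => trivial) (goodD_reg hal hbe hw.an h0)

end ElemD

/-- module ElemD: one blow-up; the singular directions are the two eigenvalue directions, nodes or saddle-nodes -/
theorem goodD_elem {al be : ℝ} (hal : -1 < al) (hbe : -1 < be) {v : ℂ × ℂ → ℂ × ℂ} (hv : Iso v) (he : Elem v) : GoodD GT al be v := by
  choose w hw hg using ElemD.good_child hv he
  obtain ⟨wi, hwi, hgi⟩ := ElemD.good_child (iso_swap hv) (elem_swap hv.1 he) 0
  have h1 : -1 < 1 + al + be := by linarith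
  exact goodD_step hal hbe hv hw hwi (hg 0 GT _ _ h1 hbe) (fun t _ => hg t GT _ _ h1 (by norm_num)) (hgi (SG GT) _ _ h1 hal)

end Pool.Agent.MQL
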