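import Pool.Agent.E2.Kod
import Pool.Agent.SDA.EP
import Pool.Agent.MQL.SDefs

/-!
# MQL StartL: a section of `m (K + D) - H` with poles of order at most `m - 1`, and the curves along which it vanishes
-/

set_option autoImplicit false

open Topology Filter Metric MvPolynomial

noncomputable section

namespace Pool.Agent.MQL

open Pool.Agent.H36.BP (EN)
open Pool.Agent.H14.PP (Tan)
open Pool.Agent.H17BP (Surface IsChart IsForm NoZeros)
open Pool.Agent.H36.BPL (PoleLE VanOff coneK mem_coneK_iff)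
open Pool.Agent.H62.FC (Homog)
open Pool.Agent.H17LG.Variety (FunField OnBoundary IsLogGeneralType)
open Pool.Agent.H17EF (coneE LE)
open Pool.Agent.H13.SM (cone)
open Pool.Agent.E2 (frequently_ind exists_second isForm_transport)

variable {N : ℕ}

theorem okE_eq (P : Ideal (MvPolynomial (Fin (N + 1)) ℂ)) (H₀ : MvPolynomial (Fin (N + 1)) ℂ) :
    okE P H₀ = (LE N).symm ⁻¹' coneK P fun _ : Fin 1 => H₀ := by
  ext x
  exact ⟨fun h => ⟨h.1, fun _ => h.2⟩, fun h => ⟨h.1, h.2 0⟩⟩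

/-- the transported form has the same poles -/
theorem pole_transport {X K : Set (Fin (N + 1) → ℂ)} {e : ℕ} {Ω : (Fin (N + 1) → ℂ) → (Fin (N + 1) → ℂ) → (Fin (N + 1) → ℂ) → ℂ}
    (h : PoleLE X K e Ω) : PoleLE ((LE N).symm ⁻¹' X : Set (EN N)) ((LE N).symm ⁻¹' K : Set (EN N)) e
      (fun x v w => Ω ((LE N).symm x) ((LE N).symm v) ((LE N).symm w)) := by
  intro φ p hφ hφX G hG hGv
  have h1 : AnalyticAt ℂ (fun y => (LE N).symm (φ y)) p := (((LE N).symm : EN N →L[ℂ] (Fin (N + 1) → ℂ)).analyticAt _).comp hφ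
  obtain ⟨b, hb, hbe⟩ := h (fun y => (LE N).symm (φ y)) p h1 hφX G hG fun g hg => ⟨(hGv g hg).1, (hGv g hg).2⟩
  refine ⟨b, hb, ?_⟩
  filter_upwards [hbe, hφ.eventually_analyticAt] with y hy hya hyK
  have h3 : HasFDerivAt (fun y => (LE N).symm (φ y)) (((LE N).symm : EN N →L[ℂ] (Fin (N + 1) → ℂ)).comp (fderiv ℂ φ y)) y :=
    ((LE N).symm : EN N →L[ℂ] (Fin (N + 1) → ℂ)).hasFDerivAt.comp y hya.differentiableAt.hasFDerivAt
  have h4 := hy hyK
  rw [h3.fderiv] at h4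
  exact h4

/-- **A section of `m (K + D) - H` with poles of order at most `m - 1`.** -/
theorem exists_form_log {P : Ideal (MvPolynomial (Fin (N + 1)) ℂ)} [P.IsPrime] (hP : Homog P) {z : Fin 2 → FunField P} (hz : IsTranscendenceBasis ℂ z)
    (hsm : ∀ y : Fin (N + 1) → ℂ, y ≠ 0 → (∀ Q ∈ P, eval y Q = 0) → Module.finrank ℂ (Pool.Agent.H13.SM.conTan P y) ≤ 3)
    {e : ℕ} {H₀ : MvPolynomial (Fin (N + 1)) ℂ} (hH₀ : H₀.IsHomogeneous e) (hH₀P : H₀ ∉ P)
    (hgt : IsLogGeneralType (K := FunField P) (k := 2) (OnBoundary P fun _ : Fin 1 => H₀)) :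
    ∃ (m : ℕ) (W : EN N → EN N → EN N → ℂ) (D : ℕ) (Q : MvPolynomial (Fin (N + 1)) ℂ), Q.IsHomogeneous D ∧ Q ∉ P ∧ LW P H₀ m 1 W ∧ ∀ F : ℂ → EN N, Differentiable ℂ F → (∀ z, F z ∈ okE P H₀) → (∃ z w, ∀ c : ℂ, F z ≠ c • F w) →
        (∀ z w, Tan (coneE P) (F z) w → W (F z) (deriv F z) w = 0) → ∀ z, eval (F z).ofLp Q = 0 := by
  have hone : (1 : MvPolynomial (Fin (N + 1)) ℂ) ∉ P := fun h => (inferInstance : P.IsPrime).ne_top ((Ideal.eq_top_iff_one P).2 h)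
  obtain ⟨m, Om, Q, D, hQ, hQP, -, -, hmod⟩ := Pool.Agent.SDA.EP_model hP hz hsm hH₀ hH₀P hgt (R := 1) (isHomogeneous_one _ _) hone
  have hX : Surface (coneE P) := Pool.Agent.H90.SG.surface_coneE hP hz hsm
  refine ⟨m, fun x v w => Om ((LE N).symm x) ((LE N).symm v) ((LE N).symm w), D, Q, hQ, hQP, ⟨hmod.one_m, ⟨e, hH₀⟩, ?_, ?_⟩, ?_⟩
  · rw [okE_eq]
    exact isForm_transport hmod.form
  · rw [okE_eq]
    exact pole_transport hmod.pole
  intro F hF hFK hne h z₁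
  by_contra hQ0
  have hFX : ∀ z, F z ∈ coneE P := fun z => (hFK z).1
  have hcont : Continuous fun z => eval (F z).ofLp Q := (MvPolynomial.continuous_eval Q).comp ((LE N).symm.continuous.comp hF.continuous)
  have h0 : ∀ z, F z ≠ 0 := fun z e => hX.zero (e ▸ hFX z)
  obtain ⟨z₂, hz2, hz2'⟩ := ((frequently_ind hF h0 hne z₁).and_eventually (hcont.continuousAt.eventually_ne hQ0)).exists
  have hT : Tan (coneE P) (F z₂) (deriv F z₂) := by
    refine ⟨fun y => F (z₂ + y), ⟨?_, Eventually.of_forall fun y => hFX _⟩, by simp, ?_⟩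
    · exact (hF.comp (differentiable_id.const_add z₂)).analyticAt 0
    · have := deriv_comp_const_add F z₂ 0
      rw [add_zero] at this
      exact this
  obtain ⟨w, hw, hind⟩ := exists_second hX (hFX z₂) hT hz2
  -- tangent vectors of the open part
  have hTK : ∀ v, Tan (coneE P) (F z₂) v → (LE N).symm v ∈ Pool.Agent.H17BP.Tan (coneK P fun _ : Fin 1 => H₀) ((LE N).symm (F z₂)) := by
    rintro v ⟨G, ⟨hG, hGX⟩, hG0, hG1⟩
    refine Pool.Agent.H36.BP.tan_transport (LE N) ⟨G, ⟨hG, ?_⟩, hG0, hG1⟩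
    have hc : ContinuousAt (fun y => eval (G y).ofLp H₀) 0 :=
      ((MvPolynomial.continuous_eval H₀).comp (LE N).symm.continuous).continuousAt.comp hG.continuousAt
    have hn : eval (G 0).ofLp H₀ ≠ 0 := by rw [hG0]; exact (hFK z₂).2
    filter_upwards [hGX, hc.eventually_ne hn] with y hy hy'
    exact ⟨hy, fun _ => hy'⟩
  refine hmod.noZeros ((LE N).symm (F z₂)) ⟨hFX z₂, fun _ => (hFK z₂).2⟩ (fun hh => hz2' hh.2) _ (hTK _ hT) _ (hTK _ hw) ?_ (h z₂ w hw)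
  have h3 := hind.map' ((LE N).symm : EN N →ₗ[ℂ] (Fin (N + 1) → ℂ)) (LinearMap.ker_eq_bot.2 (LE N).symm.injective)
  have h2 : (((LE N).symm : EN N →ₗ[ℂ] (Fin (N + 1) → ℂ)) ∘ ![F z₂, deriv F z₂, w]) =
      ![(LE N).symm (F z₂), (LE N).symm (deriv F z₂), (LE N).symm w] := by
    funext i
    fin_cases i <;> rfl
  rwa [h2] at h3

end Pool.Agent.MQL
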