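import Pool.Agent.MQL.AsmNL
import Pool.Agent.MQL.StartL
import Pool.Agent.MQL.WtL
import Pool.Agent.MQL.FamL
import Pool.Agent.MQL.AlgRL
import Pool.Agent.MQL.DensNL
import Pool.Agent.MQL.AxLa
import Pool.Agent.MQL.AxLb
import Pool.Agent.MQL.PolL
import Pool.Agent.MQ3.Cov
import Pool.Agent.MQ3.SatN
import Pool.Agent.MQ3.GInvN
import Pool.Agent.MQ3.RNe
import Pool.Agent.MQ3.LocN
import Pool.Agent.MQ3.BoxW
import Pool.Agent.MQ3.Bad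
import Pool.Agent.MQ3.GlobB
import Pool.Agent.MQ2.SepC
import Pool.Agent.MQ.Sieg
import Pool.Agent.MQ.VFin
import Pool.Agent.MQL.SDefs
import Pool.Agent.AD.T.NCDefs

/-!
# MQL FinL: the entire curves of order two which avoid `D` and are null for a logarithmic symmetric differential lie in one algebraic curve
-/

set_option autoImplicit false

open Topology Filter Metric MvPolynomial Asymptotics MeasureTheory Laplacian

noncomputable section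

namespace Pool.Agent.MQL

open Pool.Agent.H36.BP (EN fs)
open Pool.Agent.H14.PP (Tan)
open Pool.Agent.H17BP (Surface IsForm)
open Pool.Agent.H17EF (projVar coneE)
open Pool.Agent.H30M (tau avg LogSing tau_nonneg)
open Pool.Agent.H62.FC (Homog)
open Pool.Agent.H17LG.Variety (FunField OnBoundary IsLogGeneralType)
open Pool.Agent.MQ (lam En ztv dvg DDv gr dv Pack false_of_pack sieg)
open Pool.Agent.MQ2 (Iso Wt Sep FZero HasOrd LocX Dat hasOrd_of)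
open Pool.Agent.MQ3

/-! ## the packages -/

/-- the package is monotone in the constants -/
private theorem locX_monoL {v : ℂ × ℂ → ℂ × ℂ} {g J : ℂ × ℂ → ℂ} {Om : Set ℂ} {p : ℂ → ℂ × ℂ} {lm : ℂ → ℝ} {s A A' δ δ' : ℝ} (h : LocX v g J Om p lm s A δ)
    (hA : A ≤ A') (hδ : δ ≤ δ') : LocX v g J Om p lm s A' δ' := by
  obtain ⟨C, l, η, Φ, err, h0, h1, h2, h3, h4, h5, h6, h7, h8, h9, h10, h11⟩ := h
  have hI : ∀ R, 1 ≤ R → 0 ≤ ∫ z, tau R z * lm z ^ 2 := fun R hR => integral_nonneg fun z => mul_nonneg (tau_nonneg hR z) (sq_nonneg _)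
  refine ⟨C, l, η, Φ, err, h0, h1, h2, fun R hR => (h3 R hR).trans ?_, h4, h5, h6, h7, h8, h9, h10, fun R hR => (h11 R hR).trans ?_⟩
  · have := mul_le_mul_of_nonneg_right hA (hI R hR)
    linarith
  · have := mul_le_mul_of_nonneg_right hδ (hI R hR)
    linarith

/-- the package for one radius `r` -/
def GrL {n₀ : ℕ} (c : Fin n₀ → ℕ → ℂ → ℂ × ℂ) (al be : ℝ) (v : ℂ × ℂ → ℂ × ℂ) (g : ℂ × ℂ → ℂ) (r : ℝ) : Prop :=
  ∀ s s', 0 < s → s < s' → s' < r → ∀ B, 0 ≤ B → ∃ A C₀ : ℝ, 0 ≤ A ∧ 0 ≤ C₀ ∧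
    ∀ (d n : ℕ) (q : ℂ × ℂ → ℂ) (ψ : ℂ × ℂ → ℝ), 1 ≤ d → 1 ≤ n → AnalyticAt ℂ q 0 → ContDiffAt ℝ 1 ψ 0 →
      (∀ i, FZero (c i) g ∨ HasOrd (c i) q n) →
      ∀ (M : ℕ) (F : ℂ → EN M) (Q : ℂ → ℂ) (lm : ℂ → ℝ) (Om : Set ℂ) (p : ℂ → ℂ × ℂ), Dat v g r B d q ψ F Q lm Om p → Avoid al be Om p →
        LocX v g (JD al be) {z | z ∈ Om ∧ p z ∈ ball (0 : ℂ × ℂ) s'} p lm s A (C₀ * d / n)

variable {M : ℕ} {P : Ideal (MvPolynomial (Fin (M + 1)) ℂ)} {m : ℕ} {mK : ℕ} {Wf : EN M → EN M → EN M → ℂ}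

theorem exX_le (H₀ : MvPolynomial (Fin (M + 1)) ℂ) (hm : 1 ≤ mK) (φ : ℂ × ℂ → EN M) (q : ℂ × ℂ) : exX H₀ mK φ q ≤ 0 := by
  unfold exX
  split_ifs
  · have h1 : (1 : ℝ) ≤ mK := by exact_mod_cast hm
    have := inv_le_one_of_one_le₀ h1
    linarith
  · exact le_rfl

theorem exY_le (H₀ : MvPolynomial (Fin (M + 1)) ℂ) (hm : 1 ≤ mK) (φ : ℂ × ℂ → EN M) (q : ℂ × ℂ) : exY H₀ mK φ q ≤ 0 := by
  unfold exY
  split_ifs
  · have h1 : (1 : ℝ) ≤ mK := by exact_mod_cast hm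
    have := inv_le_one_of_one_le₀ h1
    linarith
  · exact le_rfl

/-- the Jacobian factor does not vanish along a curve which avoids the axes with a negative exponent -/
theorem JD_ne {al be : ℝ} (hal : al ≤ 0) (hbe : be ≤ 0) {Om : Set ℂ} {p : ℂ → ℂ × ℂ} (h : Avoid al be Om p) {z : ℂ} (hz : z ∈ Om) : JD al be (p z) ≠ 0 := by
  unfold JD
  rw [Complex.ofReal_ne_zero]
  have key : ∀ {a : ℝ} {x : ℂ}, a ≤ 0 → (a < 0 → x ≠ 0) → ‖x‖ ^ a ≠ 0 := by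
    intro a x ha hx
    rcases ha.eq_or_lt with h0 | h0
    · rw [h0, Real.rpow_zero]
      exact one_ne_zero
    · exact (Real.rpow_pos_of_pos (norm_pos_iff.2 (hx h0)) a).ne'
  exact mul_ne_zero (key hal fun h0 => h.fst h0 z hz) (key hbe fun h0 => h.snd h0 z hz)

/-- the data of a chart point -/
private theorem exists_ptL {RD Ra H₀ : MvPolynomial (Fin (M + 1)) ℂ} {X : NCModel P RD} {θ : WDiff (coneE P) m} {l : LF M} {S : Web X θ l} {d dR : ℕ}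
    (hX : Surface (coneE P)) (hD : DivB P RD H₀) {jH : ℕ} (hW : LW P H₀ mK jH Wf)
    (hd : RD.IsHomogeneous d) (hdR : Ra.IsHomogeneous dR) (hRa : RNe X Ra) {k : S.ι} {q : ℂ × ℂ} (hq : q ∈ S.D k) {n₀ : ℕ} (c₀ : Fin n₀ → ℕ → ℂ → ℂ × ℂ)
    (hpk : GoodC c₀ (exX H₀ mK (S.σ k) q) (exY H₀ mK (S.σ k) q) fun x => S.v k (q + x)) :
    ∃ (r₀ : ℝ) (g : ℂ × ℂ → ℂ) (Cb : ℝ), 0 < r₀ ∧ AnalyticAt ℂ g q ∧ (∀ x ∈ closedBall q r₀, x ≠ q → InvAt S Ra k x g) ∧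
      (∀ c : ℕ → ℂ → ℂ × ℂ, Sep (fun x => S.v k (q + x)) c → FZero c (fun x => eval (S.σ k (q + x)).ofLp Ra) → FZero c fun x => g (q + x)) ∧
      (∀ r, 0 < r → r ≤ r₀ → GrL c₀ (exX H₀ mK (S.σ k) q) (exY H₀ mK (S.σ k) q) (fun x => S.v k (q + x)) (fun x => g (q + x)) r) ∧
      (∀ r, 0 < r → r ≤ r₀ → ∀ F : ℂ → EN M, LCrv θ RD H₀ Ra F → ∀ Y : NCLift X F,
        Avoid (exX H₀ mK (S.σ k) q) (exY H₀ mK (S.σ k) q) {z | z ∈ S.Om Y k ∧ S.lf Y k z ∈ ball q r} fun z => S.lf Y k z - q) ∧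
      ∀ F : ℂ → EN M, LCrv θ RD H₀ Ra F → ∀ Y : NCLift X F, ∀ z ∈ S.Om Y k, S.lf Y k z ∈ closedBall q r₀ →
      wt Wf Y k.1 z ≠ 0 → jc (S.κ k) (S.lf Y k z) ≠ 0 →
        Real.log ‖jc (S.κ k) (S.lf Y k z)‖ + 1 / mK * Real.log ‖wt Wf Y k.1 z‖ + jH / mK * Real.log ‖F z‖ ≤
          Cb + Real.log ‖JD (exX H₀ mK (S.σ k) q) (exY H₀ mK (S.σ k) q) (S.lf Y k z - q)‖ := by
  obtain ⟨g, hg1, hg2, hg3⟩ := exists_gq hd hdR hRa hq
  have hgq : AnalyticAt ℂ g q := by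
    have h1 : AnalyticAt ℂ (fun x => g (q + x)) 0 := hg1.an
    have h2 : AnalyticAt ℂ (fun x : ℂ × ℂ => x - q) q := analyticAt_id.sub analyticAt_const
    have h4 : AnalyticAt ℂ ((fun x => g (q + x)) ∘ fun x : ℂ × ℂ => x - q) q := h1.comp_of_eq h2 (sub_self _)
    refine h4.congr (Eventually.of_forall fun x => ?_)
    simp
  have hax := axW_of (mK := mK) hX hD hq hgq hg2
  have h1 := hpk _ hg1 hax
  have h2 := avoidL (Ra := Ra) (θ := θ) (mK := mK) (S := S) hX hD k hq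
  obtain ⟨N, hN, Cb, h3⟩ := wt_leC (Ra := Ra) hX hD hW k hq
  rw [eventually_nhdsWithin_iff] at hg2
  obtain ⟨ε, hε, h4⟩ := Metric.eventually_nhds_iff_ball.1 hg2
  obtain ⟨ε', hε', h5⟩ := mem_nhdsGT_iff_exists_Ioo_subset.1 (h1.and h2)
  obtain ⟨ε'', hε'', h6⟩ := Metric.mem_nhds_iff.1 hN
  have hε'0 : (0 : ℝ) < ε' := hε'
  have hm0 : 0 < min ε (min ε' ε'') := lt_min hε (lt_min hε'0 hε'')
  have hm1 := min_le_left ε (min ε' ε'')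
  have hm2 := (min_le_right ε (min ε' ε'')).trans (min_le_left ε' ε'')
  have hm3 := (min_le_right ε (min ε' ε'')).trans (min_le_right ε' ε'')
  refine ⟨min ε (min ε' ε'') / 2, g, Cb, by linarith, hgq, fun x hx hxq => ?_, hg3, fun r hr hr' => ?_, fun r hr hr' => ?_, fun F hF Y z hz hzq => ?_⟩
  · refine h4 x ?_ hxq
    refine lt_of_le_of_lt (mem_closedBall.1 hx) ?_
    linarith
  · exact (h5 (show r ∈ Set.Ioo 0 ε' from ⟨hr, by linarith⟩)).1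
  · exact (h5 (show r ∈ Set.Ioo 0 ε' from ⟨hr, by linarith⟩)).2
  · refine h3 F hF Y z hz (h6 ?_)
    refine lt_of_le_of_lt (mem_closedBall.1 hzq) ?_
    linarith

/-- **The entire curves of order two which avoid `D` and are null for a logarithmic symmetric differential lie in one algebraic curve.** -/
theorem exists_R_log {H₀ : MvPolynomial (Fin (M + 1)) ℂ} [P.IsPrime] (hP : Homog P) (hdim : ∃ z : Fin 2 → FunField P, IsTranscendenceBasis ℂ z)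
    (hsmooth : Pool.Agent.AD.NC.IsSmooth P 2)
    {e : ℕ} (hH₀ : H₀.IsHomogeneous e) (hH₀P : H₀ ∉ P) (hgt : IsLogGeneralType (K := FunField P) (k := 2) (OnBoundary P fun _ : Fin 1 => H₀))
    (hm : 1 ≤ m) (θ : WDiff (coneE P) m) (hθ : coneE P ⊆ closure {x | x ∈ coneE P ∧ ∃ v, Tan (coneE P) x v ∧ θ.toFun x v ≠ 0}) :
    ∃ (R : MvPolynomial (Fin (M + 1)) ℂ) (d : ℕ), R.IsHomogeneous d ∧ R ∉ P ∧ ∀ F : ℂ → EN M, Differentiable ℂ F → (∀ z, F z ∈ coneE P) →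
      (∀ z, eval (F z).ofLp H₀ ≠ 0) → (∃ A : ℝ, ∀ r : ℝ, 0 < r → Real.circleAverage (fun z => Real.log ‖F z‖) 0 r ≤ A * (1 + r ^ 2)) →
      (∃ z w, ∀ c : ℂ, F z ≠ c • F w) → (∀ z, θ.toFun (F z) (deriv F z) = 0) → ∀ z, eval (F z).ofLp R = 0 := by
  classical
  obtain ⟨z, hz⟩ := id hdim
  have hsm : ∀ y : Fin (M + 1) → ℂ, y ≠ 0 → (∀ Q ∈ P, eval y Q = 0) → Module.finrank ℂ (Pool.Agent.H13.SM.conTan P y) ≤ 3 :=
    fun y h0 h1 => hsmooth y h0 h1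
  have hX : Surface (coneE P) := Pool.Agent.H90.SG.surface_coneE hP hz hsm
  have hPp : P.IsPrime := inferInstance
  -- the frame and the model
  obtain ⟨l, RD₀, d₀, hRD₀, hRD₀P, hgood₀⟩ := exists_R_good hz hX hm θ hθ
  obtain ⟨RD, hRDdef⟩ : ∃ RD : MvPolynomial (Fin (M + 1)) ℂ, RD = RD₀ * H₀ := ⟨_, rfl⟩
  obtain ⟨d, hddef⟩ : ∃ d : ℕ, d = d₀ + e := ⟨_, rfl⟩
  have hRD : RD.IsHomogeneous d := by
    rw [hRDdef, hddef]
    exact hRD₀.mul hH₀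
  have hRDP : RD ∉ P := by
    rw [hRDdef]
    intro h1
    rcases hPp.mem_or_mem h1 with h2 | h2
    · exact hRD₀P h2
    · exact hH₀P h2
  have hgood : ∀ x ∈ coneE P, (eval x.ofLp) RD ≠ 0 → GoodPt θ l x := by
    intro x hx h0
    refine hgood₀ x hx fun h1 => h0 ?_
    rw [hRDdef, map_mul, h1, zero_mul]
  have hD : DivB P RD H₀ := by
    refine ⟨⟨e, hH₀⟩, fun x _ h1 => ?_⟩
    rw [hRDdef, map_mul, h1, mul_zero]
  obtain ⟨X, A₀, CK, hmodel⟩ := exists_ncModel hP hz hsm hRD hRDP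
  -- the web
  have hbw : ∀ i, Nonempty (BoxWeb θ l (X.ρ i)) := fun i => exists_boxWeb hX hm (X.box i) fun p hp =>
    hgood _ ((X.box i).mem' hp).self_of_nhds (X.good i p hp)
  let W₀ : ∀ i, BoxWeb θ l (X.ρ i) := fun i => (hbw i).some
  let S : Web X θ l := ⟨W₀, fun i => (exists_webOver (W₀ i)).some⟩
  -- the form of logarithmic general type
  obtain ⟨mK, Wf, dW, QW, hQW, hQWP, hW, hWz⟩ := exists_form_log hP hz hsm hH₀ hH₀P hgt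
  have hm1 : 1 ≤ mK := hW.one_m
  -- the packages
  obtain ⟨mv, fam, hfam, hfam0, hpk⟩ := exists_fam hX hD S hm1
  have hcpD : ∀ k : S.ι, ∀ q ∈ S.cp k, q ∈ S.D k := fun k q hq => (cp_compact k).2 hq
  obtain ⟨Ra, dR, hRa, hRaP, hRaZ⟩ := exists_RaL hz hX S mv fam (fun k q hq => hfam k q (hcpD k q hq)) fun k q hq => hfam0 k q (hcpD k q hq)
  have hRne : RNe X Ra := rne_of hP hz hsm X hRa hRaP
  have hpt : ∀ (k : S.ι) (q : ℂ × ℂ), ∃ (r₀ : ℝ) (g : ℂ × ℂ → ℂ) (Cb : ℝ), 0 < r₀ ∧ (q ∈ S.D k → AnalyticAt ℂ g q ∧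
      (∀ x ∈ closedBall q r₀, x ≠ q → InvAt S Ra k x g) ∧
      (∀ c : ℕ → ℂ → ℂ × ℂ, Sep (fun x => S.v k (q + x)) c → FZero c (fun x => eval (S.σ k (q + x)).ofLp Ra) → FZero c fun x => g (q + x)) ∧
      (∀ r, 0 < r → r ≤ r₀ → GrL (fam k q) (exX H₀ mK (S.σ k) q) (exY H₀ mK (S.σ k) q) (fun x => S.v k (q + x)) (fun x => g (q + x)) r) ∧
      (∀ r, 0 < r → r ≤ r₀ → ∀ F : ℂ → EN M, LCrv θ RD H₀ Ra F → ∀ Y : NCLift X F,
        Avoid (exX H₀ mK (S.σ k) q) (exY H₀ mK (S.σ k) q) {z | z ∈ S.Om Y k ∧ S.lf Y k z ∈ ball q r} fun z => S.lf Y k z - q) ∧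
      ∀ F : ℂ → EN M, LCrv θ RD H₀ Ra F → ∀ Y : NCLift X F, ∀ z ∈ S.Om Y k, S.lf Y k z ∈ closedBall q r₀ →
      wt Wf Y k.1 z ≠ 0 → jc (S.κ k) (S.lf Y k z) ≠ 0 →
        Real.log ‖jc (S.κ k) (S.lf Y k z)‖ + 1 / mK * Real.log ‖wt Wf Y k.1 z‖ + (1 : ℕ) / mK * Real.log ‖F z‖ ≤
          Cb + Real.log ‖JD (exX H₀ mK (S.σ k) q) (exY H₀ mK (S.σ k) q) (S.lf Y k z - q)‖) := by
    intro k q
    by_cases hq : q ∈ S.D k
    · obtain ⟨r₀, g, Cb, h1, h2⟩ := exists_ptL hX hD hW hRD hRa hRne hq (fam k q) (hpk k q hq)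
      exact ⟨r₀, g, Cb, h1, fun _ => h2⟩
    · exact ⟨1, fun _ => 0, 0, one_pos, fun h => absurd h hq⟩
  choose r₀ gq Cb hr₀ hgq using hpt
  obtain ⟨C, hCr⟩ := exists_cov hRD hRa hRne S r₀ fun k q _ => hr₀ k q
  have hQD : ∀ j, C.Q j ∈ S.D (C.ck j) := fun j => (cp_compact (C.ck j)).2 (C.Q_mem j)
  set g : Fin C.nP → ℂ × ℂ → ℂ := fun j => gq (C.ck j) (C.Q j) with hgdef
  set al : Fin C.nP → ℝ := fun j => exX H₀ mK (S.σ (C.ck j)) (C.Q j) with haldef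
  set be : Fin C.nP → ℝ := fun j => exY H₀ mK (S.σ (C.ck j)) (C.Q j) with hbedef
  have hgj := fun j => hgq (C.ck j) (C.Q j) (hQD j)
  have hrpos : ∀ j, 0 < C.r j := fun j => (C.s_pos j).trans (C.s_lt j)
  have hPG : PG C g := ⟨fun j => (hgj j).1, fun j x hx hxQ => (hgj j).2.1 x (closedBall_subset_closedBall (hCr j) hx) hxQ⟩
  obtain ⟨A, B, hA0, hdens⟩ := exists_densL hX hD hW C A₀ CK
  obtain ⟨s', hs', hpack⟩ := pack_webL hX hW C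
  have hGr : ∀ j, ∃ A' C₀ : ℝ, 0 ≤ A' ∧ 0 ≤ C₀ ∧
      ∀ (d n : ℕ) (q : ℂ × ℂ → ℂ) (ψ : ℂ × ℂ → ℝ), 1 ≤ d → 1 ≤ n → AnalyticAt ℂ q 0 → ContDiffAt ℝ 1 ψ 0 →
        (∀ i, FZero (fam (C.ck j) (C.Q j) i) (fun x => g j (C.Q j + x)) ∨ HasOrd (fam (C.ck j) (C.Q j) i) q n) →
          ∀ (M : ℕ) (F : ℂ → EN M) (Q : ℂ → ℂ) (lm : ℂ → ℝ) (Om : Set ℂ) (p : ℂ → ℂ × ℂ),
            Dat (fun x => S.v (C.ck j) (C.Q j + x)) (fun x => g j (C.Q j + x)) (C.r j) 1 d q ψ F Q lm Om p → Avoid (al j) (be j) Om p →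
              LocX (fun x => S.v (C.ck j) (C.Q j + x)) (fun x => g j (C.Q j + x)) (JD (al j) (be j)) {z | z ∈ Om ∧ p z ∈ ball (0 : ℂ × ℂ) (s' j)} p lm (C.s j) A'
                (C₀ * d / n) :=
    fun j => (hgj j).2.2.2.1 (C.r j) (hrpos j) (hCr j) (C.s j) (s' j) (C.s_pos j) (hs' j).1 (hs' j).2 1 zero_le_one
  choose A' C₀ hA' hC₀ hLoc using hGr
  obtain ⟨A₁, hA₁, hA₁'⟩ : ∃ A₁ : ℝ, 0 ≤ A₁ ∧ ∀ j, A' j ≤ A₁ :=
    ⟨∑ j, A' j, Finset.sum_nonneg fun j _ => hA' j, fun j => Finset.single_le_sum (fun j _ => hA' j) (Finset.mem_univ j)⟩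
  obtain ⟨C₁, hC₁, hC₁'⟩ : ∃ C₁ : ℝ, 0 ≤ C₁ ∧ ∀ j, C₀ j ≤ C₁ :=
    ⟨∑ j, C₀ j, Finset.sum_nonneg fun j _ => hC₀ j, fun j => Finset.single_le_sum (fun j _ => hC₀ j) (Finset.mem_univ j)⟩
  obtain ⟨C₂, hC₂'⟩ : ∃ C₂ : ℝ, ∀ j, Cb (C.ck j) (C.Q j) ≤ C₂ :=
    ⟨∑ j, |Cb (C.ck j) (C.Q j)|, fun j => (le_abs_self _).trans (Finset.single_le_sum (f := fun j => |Cb (C.ck j) (C.Q j)|) (fun j _ => abs_nonneg _) (Finset.mem_univ j))⟩
  -- the number `k`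
  obtain ⟨k, hk⟩ := exists_nat_gt ((mK : ℝ) * (C.nP * (C₁ + 1) * A))
  have hk0 : 0 < k := by
    have h1 : (0 : ℝ) < k := lt_of_le_of_lt (by positivity) hk
    exact_mod_cast h1
  have hkr : (0 : ℝ) < k := by exact_mod_cast hk0
  -- the form with high contact
  obtain ⟨e₁⟩ : Nonempty (Fin (Fintype.card (Σ j : Fin C.nP, Fin (mv (C.ck j) (C.Q j)))) ≃ (Σ j : Fin C.nP, Fin (mv (C.ck j) (C.Q j)))) :=
    ⟨(Fintype.equivFin _).symm⟩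
  have htr : ∀ {E : Type} [NormedAddCommGroup E] [NormedSpace ℂ E] {f : ℂ × ℂ → E} {q : ℂ × ℂ}, AnalyticAt ℂ f q → AnalyticAt ℂ (fun x => f (q + x)) 0 := by
    intro E _ _ f q hf
    have h1 : AnalyticAt ℂ (fun x : ℂ × ℂ => q + x) 0 := analyticAt_const.add analyticAt_id
    have h2 : AnalyticAt ℂ f ((fun x : ℂ × ℂ => q + x) 0) := by simpa using hf
    exact h2.comp h1
  have hsep : ∀ j, ∀ i, Sep (fun x => S.v (C.ck j) (C.Q j + x)) (fam (C.ck j) (C.Q j) i) := fun j i => hfam _ _ (hQD j) i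
  have hσan : ∀ j, AnalyticAt ℂ (fun x => S.σ (C.ck j) (C.Q j + x)) 0 := fun j => htr (σ_an _ _ (hQD j)).1
  have hcan : ∀ n (t : Fin (Fintype.card (Σ j : Fin C.nP, Fin (mv (C.ck j) (C.Q j))))),
      AnalyticAt ℂ (fun s => S.σ (C.ck (e₁ t).1) (C.Q (e₁ t).1 + fam (C.ck (e₁ t).1) (C.Q (e₁ t).1) (e₁ t).2 n s)) 0 := by
    intro n t
    have h1 := hsep (e₁ t).1 (e₁ t).2
    have h2 : AnalyticAt ℂ (fun x => S.σ (C.ck (e₁ t).1) (C.Q (e₁ t).1 + x)) (fam (C.ck (e₁ t).1) (C.Q (e₁ t).1) (e₁ t).2 n 0) := by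
      rw [h1.zero n]
      exact hσan _
    exact h2.comp (h1.an n)
  obtain ⟨dQ, Qf, hdQ, hQf, hQfP, hQc⟩ := sieg hz (Pool.Agent.H62.FC.exists_X_notMem (r := 2) (by norm_num) ⟨z, hz⟩) _ hcan k
  have hQc' : ∀ j i, (fun s => eval (S.σ (C.ck j) (C.Q j + fam (C.ck j) (C.Q j) i (k * dQ) s)).ofLp Qf) =O[𝓝 0] fun t : ℂ => t ^ (k * dQ) := by
    have h1 : ∀ x : (Σ j : Fin C.nP, Fin (mv (C.ck j) (C.Q j))),
        (fun s => eval (S.σ (C.ck x.1) (C.Q x.1 + fam (C.ck x.1) (C.Q x.1) x.2 (k * dQ) s)).ofLp Qf) =O[𝓝 0] fun t : ℂ => t ^ (k * dQ) := by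
      intro x
      obtain ⟨t, rfl⟩ := e₁.surjective x
      exact hQc t
    exact fun j i => h1 ⟨j, i⟩
  have hn1 : 1 ≤ k * dQ := Nat.mul_pos hk0 hdQ
  have hdr : (0 : ℝ) < dQ := by exact_mod_cast hdQ
  refine ⟨RD * Ra * QW * Qf, d + dR + dW + dQ, ((hRD.mul hRa).mul hQW).mul hQf, fun h1 => ?_, fun F hF hFX hav hord hnc htan => ?_⟩
  · rcases hPp.mem_or_mem h1 with h2 | h2
    · rcases hPp.mem_or_mem h2 with h3 | h3
      · rcases hPp.mem_or_mem h3 with h4 | h4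
        · exact hRDP h4
        · exact hRaP h4
      · exact hQWP h3
    · exact hQfP h2
  by_contra hcon
  push Not at hcon
  obtain ⟨z₀, hz₀⟩ := hcon
  rw [map_mul, map_mul, map_mul] at hz₀
  have hDz : eval (F z₀).ofLp RD ≠ 0 := fun h1 => hz₀ (by rw [h1]; ring)
  have hRz : eval (F z₀).ofLp Ra ≠ 0 := fun h1 => hz₀ (by rw [h1]; ring)
  have hWz₀ : eval (F z₀).ofLp QW ≠ 0 := fun h1 => hz₀ (by rw [h1]; ring)
  have hQz : eval (F z₀).ofLp Qf ≠ 0 := fun h1 => hz₀ (by rw [h1]; ring)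
  have hFW : WCrv θ RD F := ⟨⟨d, hRD⟩, hF, hFX, htan, hord, hnc, ⟨z₀, hDz⟩⟩
  have hFR : RCrv θ RD Ra F := ⟨hFW, ⟨dR, hRa⟩, ⟨z₀, hRz⟩⟩
  have hFL : LCrv θ RD H₀ Ra F := ⟨hFR, hav⟩
  obtain ⟨Y, lm₀, hY⟩ := hmodel F hF hFX hnc ⟨z₀, hDz⟩
  have hWF : ∃ z w, Pool.Agent.H17BP.Tan (coneE P) (F z) w ∧ Wf (F z) (deriv F z) w ≠ 0 := by
    by_contra hno
    push Not at hno
    refine hWz₀ (hWz F hF (fun z => ⟨hFX z, hav z⟩) hnc (fun z w hw => ?_) z₀)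
    obtain ⟨γ, ⟨h1, h2⟩, h3, h4⟩ := hw
    exact hno z w ⟨γ, h1, h2, h3, h4⟩
  have hWne : WNe Wf Y := wne hX hW hFW hav Y hWF
  obtain ⟨lm, hlm⟩ := hdens F hFL Y lm₀ hWne hY
  have hAv : ∀ j, Avoid (al j) (be j) (C.UP Y j) (C.pj Y j) := fun j => (hgj j).2.2.2.2.1 (C.r j) (hrpos j) (hCr j) F hFL Y
  -- the local packages
  have hL : ∀ j, LocX (C.vj j) (fun x => g j (C.Q j + x)) (JD (al j) (be j)) {z | z ∈ C.UP Y j ∧ C.pj Y j z ∈ ball (0 : ℂ × ℂ) (s' j)} (C.pj Y j) lm (C.s j) A₁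
      ((C₁ + 1) / k) := by
    intro j
    obtain ⟨Q, hDat⟩ := dat_web C hPG j hFR Y hlm.toDens hQf ⟨z₀, hQz⟩
    have hqan : AnalyticAt ℂ (fun x => eval (S.σ (C.ck j) (C.Q j + x)).ofLp Qf) 0 := by
      exact (Pool.Agent.H14.PP.analyticAt_evalEN Qf _).comp (hσan j)
    have hψ : ContDiffAt ℝ 1 (fun x => Real.log ‖S.σ (C.ck j) (C.Q j + x)‖) 0 := by
      have h1 : ContDiffAt ℝ 1 (fun x => S.σ (C.ck j) (C.Q j + x)) 0 := ((hσan j).contDiffAt (n := 1)).restrict_scalars ℝ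
      have h2 : S.σ (C.ck j) (C.Q j + 0) ≠ 0 := by
        intro h0
        have h3 := (σ_an _ _ (hQD j)).2
        rw [add_zero] at h0
        rw [h0] at h3
        exact hX.zero h3
      exact (h1.norm ℂ h2).log (norm_ne_zero_iff.2 h2)
    have h1 := hLoc j dQ (k * dQ) _ _ hdQ hn1 hqan hψ (fun i => ?_) M F Q lm (C.UP Y j) (C.pj Y j) hDat (hAv j)
    · refine locX_monoL h1 (hA₁' j) ?_
      push_cast
      rw [mul_div_mul_right _ _ hdr.ne']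
      exact div_le_div_of_nonneg_right ((hC₁' j).trans (by linarith)) hkr.le
    · rcases hRaZ (C.ck j) (C.Q j) (C.Q_mem j) i with h2 | h2
      · exact Or.inl ((hgj j).2.2.1 _ (hsep j i) h2)
      · exact Or.inr (hasOrd_of (hsep j i) hqan (h2 Qf dQ hQf hQfP) (hQc' j i))
  have hJb : ∀ j, ∀ z ∈ C.UP Y j, wt Wf Y (C.ck j).1 z ≠ 0 → C.Jj j (C.pj Y j z) ≠ 0 → JD (al j) (be j) (C.pj Y j z) ≠ 0 ∧
      Real.log ‖C.Jj j (C.pj Y j z)‖ + 1 / mK * Real.log ‖wt Wf Y (C.ck j).1 z‖ + (1 : ℕ) / mK * Real.log ‖F z‖ ≤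
        C₂ + Real.log ‖JD (al j) (be j) (C.pj Y j z)‖ := by
    intro j z hz h1 h2
    refine ⟨JD_ne (exX_le H₀ hm1 _ _) (exY_le H₀ hm1 _ _) (hAv j) hz, ?_⟩
    have h3 : C.Q j + C.pj Y j z = S.lf Y (C.ck j) z := by
      unfold Cov.pj
      abel
    unfold Cov.Jj at h2 ⊢
    rw [h3] at h2 ⊢
    refine ((hgj j).2.2.2.2.2 F hFL Y z hz.1 (closedBall_subset_closedBall (hCr j) (ball_subset_closedBall hz.2)) h1 h2).trans ?_
    exact add_le_add_left (hC₂' j) _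
  obtain ⟨L, hLc, hLle, hLen, hPack⟩ := hpack g hPG F hFL Y hWne A B hA0 lm hlm A₁ ((C₁ + 1) / k) (by positivity) al be C₂ hJb hL
  have hmr : (0 : ℝ) < mK := by exact_mod_cast hm1
  have hcrv : Pool.Agent.MQ.Crv P Set.univ F := ⟨hF, hFX, fun _ => Set.mem_univ _, hord, hnc⟩
  refine false_of_pack hcrv hLc (fun z => (Pool.Agent.MQ.lam_nonneg F z).trans (hLle z)) hLle hLen hPack ?_
  push_cast
  have h3 : (C.nP * (C₁ + 1) * A) / (k : ℝ) < 1 / mK := by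
    rw [div_lt_div_iff₀ hkr hmr]
    linarith
  have h4 : 2 * (1 : ℝ) / mK = 2 * (1 / mK) := by ring
  have h5 : 2 * ((C.nP : ℝ) * ((C₁ + 1) / k * A)) = 2 * ((C.nP * (C₁ + 1) * A) / k) := by ring
  rw [h4, h5]
  linarith

end Pool.Agent.MQL
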