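import Pool.Agent.SDA.Fin
import Pool.Agent.MQ.Fin
import Pool.Agent.MQ3.WDiff

/-!
# MQL FinSD: the curves which are tangent to a logarithmic symmetric differential
-/

set_option autoImplicit false

open Topology Filter Metric MvPolynomial

noncomputable section

namespace Pool.Agent.MQL

open Pool.Agent.H36.BP (EN)
open Pool.Agent.H14.PP (IsCone Tan IsOpenPart)
open Pool.Agent.H14.V (IsLift)
open Pool.Agent.H17 (PN VanishesAt HolomorphicInto)
open Pool.Agent.H62.FC (Homog)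
open Pool.Agent.H17LG.Variety (FunField)
open Pool.Agent.H17EF (coneE)
open Pool.Agent.H13.OT (OrderTwo)
open Pool.Agent.H22.W (tan_curve)
open Pool.Agent.H22.WL (vanishesAt_lift)
open Pool.Agent.AD (SymDiff TangentTo)
open Pool.Agent.AD.NC (IsSmooth IsOfLogGeneralType complement)
open Pool.Agent.MQ (growth_of_orderTwo)
open Pool.Agent.MQ3
open Pool.Agent.SDA (openCone)

variable {N k : ℕ} {P : Ideal (MvPolynomial (Fin (N + 1)) ℂ)} {H : Fin k → MvPolynomial (Fin (N + 1)) ℂ} {e : Fin k → ℕ}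

/-- a lift of a curve in the complement -/
theorem lift_mem (hP : Homog P) (hH : ∀ i, (H i).IsHomogeneous (e i)) {f : ℂ → PN N} (hfU : ∀ z, f z ∈ complement P H) {F : ℂ → EN N} (hF : IsLift F f) (z : ℂ) : F z ∈ openCone P H := by
  refine ⟨(hF.mem_iff hP z).1 (hfU z).1, fun i hi => (hfU z).2 i ?_⟩
  obtain ⟨h5, h6⟩ := hF.2 z
  show eval (f z).rep (H i) = 0
  rw [h6]
  obtain ⟨a, ha, hrep⟩ := Pool.Agent.H36.BP.rep_mk h5
  rw [hrep, Pool.Agent.H17EF.eval_smul_form (hH i) a (F z).ofLp, hi, mul_zero]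

/-- from the theorem for twisted symmetric differentials on the projective surface to the curves tangent to `θ` -/
theorem curve_of_log (hP : Homog P) (hH : ∀ i, (H i).IsHomogeneous (e i)) {m : ℕ} (θ : SymDiff (openCone P H) m) (θ' : WDiff (coneE P) m)
    (h0 : ∀ x ∈ openCone P H, ∀ v, Tan (coneE P) x v → θ.toFun x v = 0 → θ'.toFun x v = 0)
    {R : MvPolynomial (Fin (N + 1)) ℂ} {d : ℕ} (hR : R.IsHomogeneous d)
    (hR' : ∀ F : ℂ → EN N, Differentiable ℂ F → (∀ z, F z ∈ coneE P) → (∀ z, eval (F z).ofLp (∏ i, H i) ≠ 0) →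
      (∃ A : ℝ, ∀ r : ℝ, 0 < r → Real.circleAverage (fun z => Real.log ‖F z‖) 0 r ≤ A * (1 + r ^ 2)) →
      (∃ z w, ∀ c : ℂ, F z ≠ c • F w) → (∀ z, θ'.toFun (F z) (deriv F z) = 0) → ∀ z, eval (F z).ofLp R = 0)
    {f : ℂ → PN N} (hfo : OrderTwo f) (hfU : ∀ z, f z ∈ complement P H) (hne : ∃ z w, f z ≠ f w) (ht : TangentTo θ f) (z : ℂ) :
    VanishesAt R (f z) := by
  obtain ⟨F, hF, hF1⟩ := ht
  have hFK := lift_mem hP hH hfU hF
  have hFX : ∀ z, F z ∈ coneE P := fun z => (hFK z).1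
  rw [vanishesAt_lift hF hR]
  refine hR' F hF.1 hFX (fun z h => ?_) (growth_of_orderTwo hfo hF) ?_ (fun z => h0 _ (hFK z) _
    (tan_curve ⟨hF.1.analyticAt z, Eventually.of_forall hFX⟩) (hF1 z)) z
  · rw [map_prod] at h
    obtain ⟨i, -, hi⟩ := Finset.prod_eq_zero_iff.1 h
    exact (hFK z).2 i hi
  · obtain ⟨z, w, hzw⟩ := hne
    refine ⟨z, w, fun c hc => hzw ?_⟩
    obtain ⟨h1, h2⟩ := hF.2 z
    obtain ⟨h3, h4⟩ := hF.2 w
    rw [h2, h4, Projectivization.mk_eq_mk_iff']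
    exact ⟨c, by rw [hc]; rfl⟩

end Pool.Agent.MQL
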