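import Pool.Agent.SDA.X4
import Pool.Agent.MQ3.WDiff

/-!
# MQL LogW: a logarithmic symmetric differential gives a twisted symmetric differential on the projective surface

`θ' (x; v) = (∏ H i (x)) ^ (m + 1) θ (x; v)` is holomorphic on the cone.
-/

set_option autoImplicit false

open Topology Filter Metric MvPolynomial

noncomputable section

namespace Pool.Agent.MQL

open Pool.Agent.H36.BP (EN fs wd wd_cont fs_nonneg)
open Pool.Agent.H14.PP (IsCone Tan IsOpenPart)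
open Pool.Agent.H17BP (Surface IsChart)
open Pool.Agent.H62.FC (Homog)
open Pool.Agent.H17LG.Variety (FunField)
open Pool.Agent.H17EF (coneE)
open Pool.Agent.H13.SM (conTan)
open Pool.Agent.H22.W (tan_smul tan_curve)
open Pool.Agent.AD (SymDiff)
open Pool.Agent.MQ3
open Pool.Agent.SDA (openCone VanishesOnStatic logLength X3_openPart E1_an analyticAt_of_bound E2_tan)

variable {N k : ℕ} {P : Ideal (MvPolynomial (Fin (N + 1)) ℂ)} {H : Fin k → MvPolynomial (Fin (N + 1)) ℂ} {e : Fin k → ℕ}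

section

variable {E : Type} [NormedAddCommGroup E] [NormedSpace ℂ E]

/-- the differential of a chart -/
theorem lw_cont {σ : E → EN N} {p : E} (hσ : AnalyticAt ℂ σ p) (v : E) :
    ContinuousAt (fun y : E × E => fderiv ℂ σ y.1 y.2) (p, v) := by
  have h1 : ContinuousAt (fun y : E × E => fderiv ℂ σ y.1) (p, v) :=
    ContinuousAt.comp (g := fderiv ℂ σ) (f := Prod.fst) (x := (p, v)) hσ.fderiv.continuousAt continuousAt_fst
  have hcb : Continuous fun q : (E →L[ℂ] EN N) × E => q.1 q.2 := isBoundedBilinearMap_apply.continuous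
  exact ContinuousAt.comp (g := fun q : (E →L[ℂ] EN N) × E => q.1 q.2)
    (f := fun y : E × E => (fderiv ℂ σ y.1, y.2)) hcb.continuousAt (h1.prodMk continuousAt_snd)

/-- the product of the equations of the boundary times the logarithmic length is bounded -/
theorem lw_log (H : Fin k → MvPolynomial (Fin (N + 1)) ℂ) (e : Fin k → ℕ) {σ : E → EN N} {p : E} (hσ : AnalyticAt ℂ σ p) (hne : σ p ≠ 0)
    (v : E) : ∃ B : ℝ, 0 ≤ B ∧ ∀ᶠ y in 𝓝 (p, v), ‖∏ i, eval (σ y.1).ofLp (H i)‖ * fs (σ y.1) (fderiv ℂ σ y.1 y.2) ≤ B ∧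
      ((∏ i, eval (σ y.1).ofLp (H i)) ≠ 0 → ‖∏ i, eval (σ y.1).ofLp (H i)‖ * logLength H e (σ y.1) (fderiv ℂ σ y.1 y.2) ≤ B) := by
  have hs : ContinuousAt (fun y : E × E => σ y.1) (p, v) :=
    ContinuousAt.comp (g := σ) (f := Prod.fst) (x := (p, v)) hσ.continuousAt continuousAt_fst
  have hD := lw_cont hσ v
  have hev : ∀ Q : MvPolynomial (Fin (N + 1)) ℂ, ContinuousAt (fun y : E × E => eval (σ y.1).ofLp Q) (p, v) := fun Q =>
    ContinuousAt.comp (g := fun x : EN N => eval x.ofLp Q) (f := fun y : E × E => σ y.1) (x := (p, v))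
      (E1_an Q _).continuousAt hs
  have hn0 : ‖σ ((p, v) : E × E).1‖ ^ 2 ≠ 0 := pow_ne_zero _ (norm_ne_zero_iff.2 hne)
  have hh : ContinuousAt (fun y : E × E => ∏ i, eval (σ y.1).ofLp (H i)) (p, v) := by
    have := tendsto_finsetProd (s := Finset.univ) (f := fun (i : Fin k) (y : E × E) => eval (σ y.1).ofLp (H i))
      (a := fun i => eval (σ ((p, v) : E × E).1).ofLp (H i)) (x := 𝓝 (p, v)) fun i _ => hev (H i)
    exact this
  have hfs : ContinuousAt (fun y : E × E => fs (σ y.1) (fderiv ℂ σ y.1 y.2)) (p, v) := by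
    have h1 : ContinuousAt (fun y : E × E => wd (σ y.1) (fderiv ℂ σ y.1 y.2)) (p, v) :=
      ContinuousAt.comp (g := fun q : EN N × EN N => wd q.1 q.2) (f := fun y : E × E => (σ y.1, fderiv ℂ σ y.1 y.2))
        (x := (p, v)) wd_cont.continuousAt (hs.prodMk hD)
    exact h1.div (hs.norm.pow 2) hn0
  have hin : ContinuousAt (fun y : E × E => (inner ℂ (σ y.1) (fderiv ℂ σ y.1 y.2) / (‖σ y.1‖ : ℂ) ^ 2 : ℂ)) (p, v) := by
    refine (hs.inner hD).div ((Complex.continuous_ofReal.continuousAt.comp hs.norm).pow 2) ?_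
    have h1 : ((‖σ ((p, v) : E × E).1‖ : ℝ) : ℂ) ≠ 0 := Complex.ofReal_ne_zero.2 (norm_ne_zero_iff.2 hne)
    exact pow_ne_zero _ h1
  have hdf : ∀ i : Fin k, ContinuousAt (fun y : E × E =>
      fderiv ℂ (fun x : EN N => eval x.ofLp (H i)) (σ y.1) (fderiv ℂ σ y.1 y.2)) (p, v) := by
    intro i
    have h1 : ContinuousAt (fun y : E × E => fderiv ℂ (fun x : EN N => eval x.ofLp (H i)) (σ y.1)) (p, v) :=
      ContinuousAt.comp (g := fderiv ℂ (fun x : EN N => eval x.ofLp (H i))) (f := fun y : E × E => σ y.1)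
        (x := (p, v)) (E1_an (H i) _).fderiv.continuousAt hs
    have hcb : Continuous fun q : (EN N →L[ℂ] ℂ) × EN N => q.1 q.2 := isBoundedBilinearMap_apply.continuous
    exact ContinuousAt.comp (g := fun q : (EN N →L[ℂ] ℂ) × EN N => q.1 q.2)
      (f := fun y : E × E => (fderiv ℂ (fun x : EN N => eval x.ofLp (H i)) (σ y.1), fderiv ℂ σ y.1 y.2)) hcb.continuousAt
      (h1.prodMk hD)
  obtain ⟨G, hG⟩ : ∃ G : Fin k → E × E → ℂ, G = fun i y => (∏ j ∈ Finset.univ.erase i, eval (σ y.1).ofLp (H j)) *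
      fderiv ℂ (fun x : EN N => eval x.ofLp (H i)) (σ y.1) (fderiv ℂ σ y.1 y.2) -
      (∏ j, eval (σ y.1).ofLp (H j)) * ((e i : ℂ) * (inner ℂ (σ y.1) (fderiv ℂ σ y.1 y.2) / (‖σ y.1‖ : ℂ) ^ 2)) := ⟨_, rfl⟩
  have hGc : ∀ i, ContinuousAt (G i) (p, v) := by
    intro i
    rw [hG]
    have h1 : ContinuousAt (fun y : E × E => ∏ j ∈ Finset.univ.erase i, eval (σ y.1).ofLp (H j)) (p, v) := by
      have := tendsto_finsetProd (s := Finset.univ.erase i) (f := fun (j : Fin k) (y : E × E) => eval (σ y.1).ofLp (H j))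
        (a := fun j => eval (σ ((p, v) : E × E).1).ofLp (H j)) (x := 𝓝 (p, v)) fun j _ => hev (H j)
      exact this
    exact (h1.mul (hdf i)).sub (hh.mul (continuousAt_const.mul hin))
  have hGb : ∀ᶠ y in 𝓝 (p, v), ∀ i, ‖G i y‖ ≤ ‖G i (p, v)‖ + 1 := by
    rw [eventually_all]
    exact fun i => (hGc i).norm.eventually_le_const (by linarith)
  have hfb : ∀ᶠ y in 𝓝 (p, v), ‖∏ i, eval (σ y.1).ofLp (H i)‖ * fs (σ y.1) (fderiv ℂ σ y.1 y.2) ≤
      ‖∏ i, eval (σ p).ofLp (H i)‖ * fs (σ p) (fderiv ℂ σ p v) + 1 :=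
    (hh.norm.mul hfs).eventually_le_const (by
      show ‖∏ i, eval (σ p).ofLp (H i)‖ * fs (σ p) (fderiv ℂ σ p v) < _
      linarith)
  obtain ⟨A, hA⟩ : ∃ A : ℝ, A = ‖∏ i, eval (σ p).ofLp (H i)‖ * fs (σ p) (fderiv ℂ σ p v) + 1 := ⟨_, rfl⟩
  have hA0 : 0 ≤ A := by
    rw [hA]
    have := mul_nonneg (norm_nonneg (∏ i, eval (σ p).ofLp (H i))) (fs_nonneg (σ p) (fderiv ℂ σ p v))
    linarith
  have hS0 : 0 ≤ ∑ i, (‖G i (p, v)‖ + 1) := Finset.sum_nonneg fun i _ => by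
    have := norm_nonneg (G i (p, v))
    linarith
  refine ⟨A + ∑ i, (‖G i (p, v)‖ + 1), add_nonneg hA0 hS0, ?_⟩
  filter_upwards [hGb, hfb] with y h1 h2
  rw [← hA] at h2
  refine ⟨by linarith, fun h0 => ?_⟩
  unfold logLength
  rw [mul_add, Finset.mul_sum]
  refine add_le_add h2 (Finset.sum_le_sum fun i _ => ?_)
  refine le_trans (le_of_eq ?_) (h1 i)
  rw [← norm_mul]
  congr 1
  rw [hG]
  have hi : eval (σ y.1).ofLp (H i) ≠ 0 := fun hi => h0 (Finset.prod_eq_zero (Finset.mem_univ i) hi)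
  have hp : (∏ j, eval (σ y.1).ofLp (H j)) = eval (σ y.1).ofLp (H i) * ∏ j ∈ Finset.univ.erase i, eval (σ y.1).ofLp (H j) :=
    (Finset.mul_prod_erase _ _ (Finset.mem_univ i)).symm
  simp only
  rw [mul_sub]
  congr 1
  rw [hp]
  field_simp

end

/-- the tangent vectors of a parametrization -/
theorem lw_tan {X : Set (EN N)} {E : Type} [NormedAddCommGroup E] [NormedSpace ℂ E] {σ : E → EN N} {p : E} (hσ : AnalyticAt ℂ σ p)
    (hX : ∀ᶠ q in 𝓝 p, σ q ∈ X) (v : E) : Tan X (σ p) (fderiv ℂ σ p v) := by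
  have hl : AnalyticAt ℂ (fun z : ℂ => p + z • v) 0 := by fun_prop
  have h0 : p + (0 : ℂ) • v = p := by simp
  have hσ' : AnalyticAt ℂ σ (p + (0 : ℂ) • v) := by rwa [h0]
  refine ⟨fun z => σ (p + z • v), ⟨AnalyticAt.comp (g := σ) (f := fun z : ℂ => p + z • v) hσ' hl, ?_⟩, by simp, ?_⟩
  · have h1 : Tendsto (fun z : ℂ => p + z • v) (𝓝 0) (𝓝 p) := by
      have := hl.continuousAt.tendsto
      rwa [h0] at this
    exact h1.eventually hX
  · have h1 : HasFDerivAt σ (fderiv ℂ σ p) (p + (0 : ℂ) • v) := by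
      rw [h0]
      exact hσ.differentiableAt.hasFDerivAt
    have h2 : HasDerivAt (fun z : ℂ => p + z • v) v 0 := by
      have h3 : HasDerivAt (fun z : ℂ => z • v) ((1 : ℂ) • v) 0 := (hasDerivAt_id (0 : ℂ)).smul_const v
      rw [one_smul] at h3
      exact h3.const_add p
    exact (h1.comp_hasDerivAt (0 : ℂ) h2).deriv

/-- `h ^ (m + 1) * θ` is holomorphic -/
theorem lw_an (hX : Surface (coneE P)) (hH : ∀ i, (H i).IsHomogeneous (e i)) {m : ℕ} (θ : SymDiff (openCone P H) m)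
    (hθ : VanishesOnStatic e θ) {n : ℕ} {σ : (Fin n → ℂ) → EN N} {p : Fin n → ℂ} (hσ : AnalyticAt ℂ σ p) (hσX : ∀ᶠ y in 𝓝 p, σ y ∈ coneE P)
    (v : Fin n → ℂ) :
    AnalyticAt ℂ (fun y : (Fin n → ℂ) × (Fin n → ℂ) => (∏ i, eval (σ y.1).ofLp (H i)) ^ (m + 1) * θ.toFun (σ y.1) (fderiv ℂ σ y.1 y.2)) (p, v) := by
  have hne : σ p ≠ 0 := fun h => hX.zero (h ▸ hσX.self_of_nhds)
  have hK := X3_openPart (H := H) (e := e) hX.smul hH
  have hev : ∀ p : Fin n → ℂ, AnalyticAt ℂ σ p → AnalyticAt ℂ (fun p => ∏ i, eval (σ p).ofLp (H i)) p := fun p hp =>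
    Finset.analyticAt_fun_prod _ fun i _ => AnalyticAt.comp (g := fun x : EN N => eval x.ofLp (H i)) (f := σ) (E1_an (H i) _) hp
  have h0 : AnalyticAt ℂ (fun y : (Fin n → ℂ) × (Fin n → ℂ) => ∏ i, eval (σ y.1).ofLp (H i)) (p, v) :=
    AnalyticAt.comp (g := fun p : Fin n → ℂ => ∏ i, eval (σ p).ofLp (H i)) (f := Prod.fst) (x := (p, v)) (hev p hσ) analyticAt_fst
  have hfst : Tendsto (Prod.fst : (Fin n → ℂ) × (Fin n → ℂ) → Fin n → ℂ) (𝓝 (p, v)) (𝓝 p) := continuousAt_fst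
  obtain ⟨B, hB, hlog⟩ := lw_log H e hσ hne v
  obtain ⟨C, hC⟩ := hθ 1 one_pos
  refine analyticAt_of_bound (h := fun y : (Fin n → ℂ) × (Fin n → ℂ) => ∏ i, eval (σ y.1).ofLp (H i)) (C := (B + |C| * B) ^ m) h0 ?_ ?_
  · filter_upwards [hfst.eventually hσ.eventually_analyticAt, hfst.eventually hσX.eventually_nhds] with y h1 h2 hy
    have h3 := hev y.1 h1
    have h4 : ∀ᶠ q in 𝓝 y.1, σ q ∈ openCone P H := by
      filter_upwards [h2, h3.continuousAt.eventually_ne hy] with q hq hq0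
      exact ⟨hq, fun i hi => hq0 (Finset.prod_eq_zero (Finset.mem_univ i) hi)⟩
    have h5 : AnalyticAt ℂ (fun y : (Fin n → ℂ) × (Fin n → ℂ) => ∏ i, eval (σ y.1).ofLp (H i)) y :=
      AnalyticAt.comp (g := fun p : Fin n → ℂ => ∏ i, eval (σ p).ofLp (H i)) (f := Prod.fst) (x := y) h3 analyticAt_fst
    exact (h5.pow (m + 1)).mul (θ.analytic n σ y.1 y.2 h1 h4)
  · filter_upwards [hlog, hfst.eventually hσ.eventually_analyticAt, hfst.eventually hσX.eventually_nhds] with y h1 h2 h3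
    by_cases hy : (∏ i, eval (σ y.1).ofLp (H i)) = 0
    · rw [hy, zero_pow (Nat.succ_ne_zero m), zero_mul, norm_zero, mul_zero]
    have h4 : ∀ᶠ q in 𝓝 y.1, σ q ∈ openCone P H := by
      filter_upwards [h3, (hev y.1 h2).continuousAt.eventually_ne hy] with q hq hq0
      exact ⟨hq, fun i hi => hq0 (Finset.prod_eq_zero (Finset.mem_univ i) hi)⟩
    have h5 := hC (σ y.1) h4.self_of_nhds (fderiv ℂ σ y.1 y.2) (lw_tan h2 h4 y.2)
    have h6 := h1.2 hy
    have h7 := h1.1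
    obtain ⟨t, ht⟩ : ∃ t : ℝ, t = ‖∏ i, eval (σ y.1).ofLp (H i)‖ := ⟨_, rfl⟩
    obtain ⟨L, hL⟩ : ∃ L : ℝ, L = logLength H e (σ y.1) (fderiv ℂ σ y.1 y.2) := ⟨_, rfl⟩
    obtain ⟨f, hf⟩ : ∃ f : ℝ, f = fs (σ y.1) (fderiv ℂ σ y.1 y.2) := ⟨_, rfl⟩
    rw [norm_mul, norm_pow]
    rw [← ht, ← hL] at h6
    rw [← ht, ← hf] at h7
    rw [← hL, ← hf] at h5
    rw [← ht]
    have ht0 : 0 ≤ t := ht ▸ norm_nonneg _
    have hf0 : 0 ≤ f := hf ▸ fs_nonneg _ _
    have hL0 : 0 ≤ L := by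
      rw [hL]
      unfold logLength
      exact add_nonneg (fs_nonneg _ _) (Finset.sum_nonneg fun i _ => norm_nonneg _)
    have h8 : |t * (1 * L + C * f)| ≤ B + |C| * B := by
      have h9 : |t * (1 * L + C * f)| ≤ t * L + |C| * (t * f) := by
        rw [one_mul, mul_add, show t * (C * f) = C * (t * f) by ring]
        refine (abs_add_le _ _).trans ?_
        rw [abs_mul C, abs_of_nonneg (mul_nonneg ht0 hL0), abs_of_nonneg (mul_nonneg ht0 hf0)]
      exact h9.trans (add_le_add h6 (mul_le_mul_of_nonneg_left h7 (abs_nonneg C)))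
    calc t ^ (m + 1) * ‖θ.toFun (σ y.1) (fderiv ℂ σ y.1 y.2)‖ ≤ t ^ (m + 1) * (1 * L + C * f) ^ m :=
          mul_le_mul_of_nonneg_left h5 (pow_nonneg ht0 _)
      _ = (t * (1 * L + C * f)) ^ m * t := by rw [mul_pow]; ring
      _ ≤ |t * (1 * L + C * f)| ^ m * t := by
          refine mul_le_mul_of_nonneg_right ?_ ht0
          rw [← abs_pow]
          exact le_abs_self _
      _ ≤ (B + |C| * B) ^ m * t := mul_le_mul_of_nonneg_right (pow_le_pow_left₀ (abs_nonneg _) h8 m) ht0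


/-- **The twisted symmetric differential.** -/
theorem exists_wdiff [P.IsPrime] {z : Fin 2 → FunField P} (hP : Homog P) (hz : IsTranscendenceBasis ℂ z)
    (hsm : ∀ y : Fin (N + 1) → ℂ, y ≠ 0 → (∀ Q ∈ P, eval y Q = 0) → Module.finrank ℂ (conTan P y) ≤ 3)
    (hH : ∀ i, (H i).IsHomogeneous (e i)) {m : ℕ} (θ : SymDiff (openCone P H) m) (hθ : VanishesOnStatic e θ) :
    ∃ θ' : WDiff (coneE P) m, ∀ x ∈ openCone P H, ∀ v, Tan (coneE P) x v → (θ'.toFun x v = 0 ↔ θ.toFun x v = 0) := by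
  have hX : Surface (coneE P) := Pool.Agent.H90.SG.surface_coneE hP hz hsm
  have hc : IsCone (coneE P) := Pool.Agent.AD.isCone_coneE hP
  have hK := X3_openPart (H := H) (e := e) hX.smul hH
  have hpr : ∀ x : EN N, x ∈ coneE P → x ∉ openCone P H → (∏ i, eval x.ofLp (H i)) = 0 := by
    intro x hx hxK
    by_contra h
    exact hxK ⟨hx, fun i hi => h (Finset.prod_eq_zero (Finset.mem_univ i) hi)⟩
  have hprn : ∀ x : EN N, x ∈ openCone P H → (∏ i, eval x.ofLp (H i)) ≠ 0 := fun x hx => Finset.prod_ne_zero_iff.2 fun i _ => hx.2 i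
  have hsc : ∀ (c : ℂ) (x : EN N), (∏ i, eval (c • x).ofLp (H i)) = c ^ (∑ i, e i) * ∏ i, eval x.ofLp (H i) := by
    intro c x
    have h1 : (c • x).ofLp = c • x.ofLp := rfl
    simp only [h1, Pool.Agent.H17EF.eval_smul_form (hH _), Finset.prod_mul_distrib, Finset.prod_pow_eq_pow_sum]
  have hmX : ∀ {x v : EN N}, Tan (coneE P) x v → x ∈ coneE P := by
    rintro x v ⟨γ, ⟨-, h2⟩, h3, -⟩
    exact h3 ▸ h2.self_of_nhds
  refine ⟨
    { toFun := fun x v => (∏ i, eval x.ofLp (H i)) ^ (m + 1) * θ.toFun x v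
      add_smul := ?_
      smul := ?_
      scale := ?_
      analytic := ?_ }, ?_⟩
  · intro x v hv a
    by_cases hx : x ∈ openCone P H
    · show _ * θ.toFun x (v + a • x) = _ * θ.toFun x v
      rw [θ.add_smul x v (E2_tan hK hx hv) a]
    · show _ ^ (m + 1) * _ = _ ^ (m + 1) * _
      rw [hpr x (hmX hv) hx, zero_pow (Nat.succ_ne_zero m), zero_mul, zero_mul]
  · intro x v hv a
    by_cases hx : x ∈ openCone P H
    · show _ * θ.toFun x (a • v) = a ^ m * (_ * θ.toFun x v)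
      rw [θ.smul x v (E2_tan hK hx hv) a]
      ring
    · show _ ^ (m + 1) * _ = a ^ m * (_ ^ (m + 1) * _)
      rw [hpr x (hmX hv) hx, zero_pow (Nat.succ_ne_zero m), zero_mul, zero_mul, mul_zero]
  · intro c hc0
    refine ⟨(c ^ (∑ i, e i)) ^ (m + 1), pow_ne_zero _ (pow_ne_zero _ hc0), fun x v hv => ?_⟩
    show (∏ i, eval (c • x).ofLp (H i)) ^ (m + 1) * θ.toFun (c • x) (c • v) = _ * ((∏ i, eval x.ofLp (H i)) ^ (m + 1) * θ.toFun x v)
    rw [hsc, mul_pow]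
    by_cases hx : x ∈ openCone P H
    · rw [θ.scale x v (E2_tan hK hx hv) c hc0]
      ring
    · rw [hpr x (hmX hv) hx, zero_pow (Nat.succ_ne_zero m)]
      ring
  · intro n φ p w hφ hφX
    exact lw_an hX hH θ hθ hφ hφX w
  · intro x hx v _
    show (∏ i, eval x.ofLp (H i)) ^ (m + 1) * θ.toFun x v = 0 ↔ _
    rw [mul_eq_zero]
    exact or_iff_right (pow_ne_zero _ (hprn x hx))

end Pool.Agent.MQL
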