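import Pool.Agent.MQL.FinSD
import Pool.Agent.MQL.LogW
import Pool.Agent.MQL.FinL

/-!
# MQL FinSDA: the main theorem for affine surfaces with a logarithmic symmetric differential
-/

set_option autoImplicit false

open Topology Filter Metric MvPolynomial

noncomputable section

namespace Pool.Agent.MQL

open Pool.Agent.H36.BP (EN)
open Pool.Agent.H14.PP (IsCone Tan IsOpenPart)
open Pool.Agent.H17BP (Surface IsChart)
open Pool.Agent.H62.FC (Homog)
open Pool.Agent.H17LG.Variety (FunField OnBoundary IsLogGeneralType)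
open Pool.Agent.H17EF (coneE)
open Pool.Agent.AD (SymDiff TangentTo)
open Pool.Agent.H62.SA (OnBd)
open Pool.Agent.H13.OT (OrderTwo)
open Pool.Agent.H17 (PN VanishesAt HolomorphicInto)
open Pool.Agent.AD.NC (IsSmooth IsOfLogGeneralType complement)
open Pool.Agent.MQ3
open Pool.Agent.SDA (openCone IsHyperbolicOpen X4_openPart E2_tan)

variable {N k : ℕ} {P : Ideal (MvPolynomial (Fin (N + 1)) ℂ)} {H : Fin k → MvPolynomial (Fin (N + 1)) ℂ} {e : Fin k → ℕ}

theorem onBoundary_eq_onBd [P.IsPrime] (D : MvPolynomial (Fin (N + 1)) ℂ) {r : ℕ} :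
    OnBoundary P (fun _ : Fin 1 => D) (k := r) = OnBd P (fun _ : Fin 1 => D) := by
  funext E
  refine propext ?_
  constructor
  · rintro ⟨j, hj, hj', m, hm⟩
    exact ⟨j, hj, hj', fun _ => hm⟩
  · rintro ⟨j, hj, hj', hm⟩
    exact ⟨j, hj, hj', 0, hm 0⟩

/-- the open cone is dense -/
theorem openCone_dense [P.IsPrime] (hP : Homog P) {z : Fin 2 → FunField P} (hz : IsTranscendenceBasis ℂ z) (hsmooth : IsSmooth P 2)
    (hH : ∀ i, (H i).IsHomogeneous (e i)) (hHP : ∀ i, H i ∉ P) : coneE P ⊆ closure (openCone P H) := by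
  intro x hx
  have hX : Surface (coneE P) := Pool.Agent.H90.SG.surface_coneE hP hz hsmooth
  obtain ⟨σ, τ, hσ, h0⟩ := hX.chart x hx
  have hQ : (∏ i, H i).IsHomogeneous (∑ i, e i) := IsHomogeneous.prod Finset.univ _ _ fun i _ => hH i
  have hQP : ∏ i, H i ∉ P := by
    intro h1
    obtain ⟨i, -, hi⟩ := (Ideal.IsPrime.prod_mem_iff (p := P)).1 h1
    exact hHP i hi
  have hfr := Pool.Agent.H90.SG.thin_coneE hP hz hsmooth hQ hQP hσ
  rw [← h0]
  have hσt : Filter.Tendsto σ (𝓝 0) (𝓝 (σ 0)) := hσ.σ_an.continuousAt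
  refine mem_closure_iff_frequently.2 (hσt.frequently ((hfr.and_eventually hσ.σ_mem).mono fun p hp => ⟨hp.2, fun i hi => hp.1 ?_⟩))
  rw [map_prod]
  exact Finset.prod_eq_zero (Finset.mem_univ i) hi

/-- **The curves tangent to a symmetric differential on the open surface** lie in one curve. -/
theorem exists_R_curve (P : Ideal (MvPolynomial (Fin (N + 1)) ℂ)) [P.IsPrime] (hP : Homog P)
    (hdim : ∃ z : Fin 2 → FunField P, IsTranscendenceBasis ℂ z) (hsmooth : IsSmooth P 2)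
    (H : Fin k → MvPolynomial (Fin (N + 1)) ℂ) (e : Fin k → ℕ) (hH : ∀ i, (H i).IsHomogeneous (e i)) (hHP : ∀ i, H i ∉ P)
    (hgt : IsOfLogGeneralType P H 2) {m : ℕ} (hm : 1 ≤ m) (θ : SymDiff (openCone P H) m)
    (hw : ∃ θ' : WDiff (coneE P) m, ∀ x ∈ openCone P H, ∀ v, Tan (coneE P) x v → (θ'.toFun x v = 0 ↔ θ.toFun x v = 0))
    (h0 : openCone P H ⊆ closure {x | x ∈ openCone P H ∧ ∃ v, Tan (openCone P H) x v ∧ θ.toFun x v ≠ 0}) :
    ∃ (R : MvPolynomial (Fin (N + 1)) ℂ) (d : ℕ), R.IsHomogeneous d ∧ R ∉ P ∧ ∀ f : ℂ → PN N, HolomorphicInto f Set.univ → OrderTwo f →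
      (∀ z, f z ∈ complement P H) → (∃ z w, f z ≠ f w) → TangentTo θ f → ∀ z, VanishesAt R (f z) := by
  obtain ⟨z, hz⟩ := id hdim
  have hc : IsCone (coneE P) := Pool.Agent.AD.isCone_coneE hP
  have hK := X4_openPart hc hH
  obtain ⟨θ', hθ'⟩ := hw
  have hQ : (∏ i, H i).IsHomogeneous (∑ i, e i) := IsHomogeneous.prod Finset.univ _ _ fun i _ => hH i
  have hQP : ∏ i, H i ∉ P := by
    intro h1
    obtain ⟨i, -, hi⟩ := (Ideal.IsPrime.prod_mem_iff (p := P)).1 h1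
    exact hHP i hi
  have hgt' : IsLogGeneralType (K := FunField P) (k := 2) (OnBoundary P fun _ : Fin 1 => ∏ i, H i) := by
    rw [onBoundary_eq_onBd]
    exact hgt
  have hd : coneE P ⊆ closure {x | x ∈ coneE P ∧ ∃ v, Tan (coneE P) x v ∧ θ'.toFun x v ≠ 0} := by
    refine (openCone_dense hP hz hsmooth hH hHP).trans (closure_minimal (h0.trans (closure_mono ?_)) isClosed_closure)
    rintro x ⟨hx, v, hv, hne⟩
    have hvX : Tan (coneE P) x v := Pool.Agent.SDA.E2_tan' hK hv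
    exact ⟨hx.1, v, hvX, fun h => hne ((hθ' x hx v hvX).1 h)⟩
  obtain ⟨R, d, hR, hRP, h⟩ := exists_R_log hP hdim hsmooth hQ hQP hgt' hm θ' hd
  exact ⟨R, d, hR, hRP, fun f _ hfo hfU hfn ht => curve_of_log hP hH θ θ' (fun x hx v hv h1 => (hθ' x hx v hv).2 h1) hR h hfo hfU hfn ht⟩

/-- **Main theorem** for affine surfaces with a symmetric differential which vanishes on the static vectors. -/
theorem main_sd (P : Ideal (MvPolynomial (Fin (N + 1)) ℂ)) [P.IsPrime] (hP : Homog P)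
    (hdim : ∃ z : Fin 2 → FunField P, IsTranscendenceBasis ℂ z) (hsmooth : IsSmooth P 2) (hk : 1 ≤ k)
    (H : Fin k → MvPolynomial (Fin (N + 1)) ℂ) (e : Fin k → ℕ) (hH : ∀ i, (H i).IsHomogeneous (e i)) (he : ∀ i, 1 ≤ e i) (hHP : ∀ i, H i ∉ P)
    (hgt : IsOfLogGeneralType P H 2) {m : ℕ} (hm : 1 ≤ m) (θ : SymDiff (openCone P H) m) (hθ : Pool.Agent.SDA.VanishesOnStatic e θ)
    (h0 : openCone P H ⊆ closure {x | x ∈ openCone P H ∧ ∃ v, Tan (openCone P H) x v ∧ θ.toFun x v ≠ 0}) :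
    IsHyperbolicOpen P (fun _ : Fin 1 => ∏ i, H i) := by
  obtain ⟨z, hz⟩ := id hdim
  obtain ⟨R, d, hR, hRP, h⟩ := exists_R_curve P hP hdim hsmooth H e hH hHP hgt hm θ (exists_wdiff hP hz hsmooth hH θ hθ) h0
  exact Pool.Agent.SDA.main_log P hP hdim hsmooth hk H e hH he hHP hgt (fun _ : Fin 1 => m) (fun _ => hm) (fun _ => θ) (fun _ => hθ) R d hR hRP
    fun f hf hfo hfU hfn ht => h f hf hfo hfU hfn (ht 0)

end Pool.Agent.MQL
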