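import Pool.Agent.MQL.LogW
import Pool.Agent.SR2.HDefs

/-!
# MQL LogA: an algebraic symmetric differential on the open surface gives a twisted symmetric differential on the projective surface
-/

set_option autoImplicit false

open Topology Filter Metric MvPolynomial

noncomputable section

namespace Pool.Agent.MQL

open Pool.Agent.H36.BP (EN)
open Pool.Agent.H14.PP (IsCone Tan IsOpenPart)
open Pool.Agent.H17BP (Surface IsChart)
open Pool.Agent.H17EF (coneE)
open Pool.Agent.AD (SymDiff)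
open Pool.Agent.MQ3
open Pool.Agent.SDA (openCone X3_openPart E1_an E2_tan)
open Pool.Agent.SR2 (oc IsAlg)

variable {N k : ℕ} {P : Ideal (MvPolynomial (Fin (N + 1)) ℂ)} {H : Fin k → MvPolynomial (Fin (N + 1)) ℂ} {e : Fin k → ℕ}

/-- the twisted symmetric differential `h ^ (n + 1) θ`, if it is holomorphic -/
theorem wdiff_of (hX : Surface (coneE P)) (hH : ∀ i, (H i).IsHomogeneous (e i)) {m : ℕ} (θ : SymDiff (openCone P H) m) (n : ℕ)
    (han : ∀ (l : ℕ) (φ : (Fin l → ℂ) → EN N) (p w : Fin l → ℂ), AnalyticAt ℂ φ p → (∀ᶠ y in 𝓝 p, φ y ∈ coneE P) →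
      AnalyticAt ℂ (fun y : (Fin l → ℂ) × (Fin l → ℂ) => (∏ i, eval (φ y.1).ofLp (H i)) ^ (n + 1) * θ.toFun (φ y.1) (fderiv ℂ φ y.1 y.2)) (p, w)) :
    ∃ θ' : WDiff (coneE P) m, ∀ x ∈ openCone P H, ∀ v, Tan (coneE P) x v → (θ'.toFun x v = 0 ↔ θ.toFun x v = 0) := by
  have hK := X3_openPart (H := H) (e := e) hX.smul hH
  have hpr : ∀ x : EN N, x ∈ coneE P → x ∉ openCone P H → (∏ i, eval x.ofLp (H i)) = 0 := by
    intro x hx hxK
    by_contra h
    exact hxK ⟨hx, fun i hi => h (Finset.prod_eq_zero (Finset.mem_univ i) hi)⟩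
  have hprn : ∀ x : EN N, x ∈ openCone P H → (∏ i, eval x.ofLp (H i)) ≠ 0 := fun x hx => Finset.prod_ne_zero_iff.2 fun i _ => hx.2 i
  have hsc : ∀ (c : ℂ) (x : EN N), (∏ i, eval (c • x).ofLp (H i)) = c ^ (∑ i, e i) * ∏ i, eval x.ofLp (H i) := by
    intro c x
    have h1 : (c • x).ofLp = c • x.ofLp := rfl
    simp only [h1, Pool.Agent.H17EF.eval_smul_form (hH _), Finset.prod_mul_distrib, Finset.prod_pow_eq_pow_sum]
  have hmX : ∀ {x v : EN N}, Tan (coneE P) x v → x ∈ coneE P := by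
    rintro x v ⟨γ, ⟨-, h2⟩, h3, -⟩
    exact h3 ▸ h2.self_of_nhds
  refine ⟨
    { toFun := fun x v => (∏ i, eval x.ofLp (H i)) ^ (n + 1) * θ.toFun x v
      add_smul := ?_
      smul := ?_
      scale := ?_
      analytic := ?_ }, ?_⟩
  · intro x v hv a
    by_cases hx : x ∈ openCone P H
    · show _ * θ.toFun x (v + a • x) = _ * θ.toFun x v
      rw [θ.add_smul x v (E2_tan hK hx hv) a]
    · show _ ^ (n + 1) * _ = _ ^ (n + 1) * _
      rw [hpr x (hmX hv) hx, zero_pow (Nat.succ_ne_zero n), zero_mul, zero_mul]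
  · intro x v hv a
    by_cases hx : x ∈ openCone P H
    · show _ * θ.toFun x (a • v) = a ^ m * (_ * θ.toFun x v)
      rw [θ.smul x v (E2_tan hK hx hv) a]
      ring
    · show _ ^ (n + 1) * _ = a ^ m * (_ ^ (n + 1) * _)
      rw [hpr x (hmX hv) hx, zero_pow (Nat.succ_ne_zero n), zero_mul, zero_mul, mul_zero]
  · intro c hc0
    refine ⟨(c ^ (∑ i, e i)) ^ (n + 1), pow_ne_zero _ (pow_ne_zero _ hc0), fun x v hv => ?_⟩
    show (∏ i, eval (c • x).ofLp (H i)) ^ (n + 1) * θ.toFun (c • x) (c • v) = _ * ((∏ i, eval x.ofLp (H i)) ^ (n + 1) * θ.toFun x v)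
    rw [hsc, mul_pow]
    by_cases hx : x ∈ openCone P H
    · rw [θ.scale x v (E2_tan hK hx hv) c hc0]
      ring
    · rw [hpr x (hmX hv) hx, zero_pow (Nat.succ_ne_zero n)]
      ring
  · intro l φ p w hφ hφX
    exact han l φ p w hφ hφX
  · intro x hx v _
    show (∏ i, eval x.ofLp (H i)) ^ (n + 1) * θ.toFun x v = 0 ↔ _
    rw [mul_eq_zero]
    exact or_iff_right (pow_ne_zero _ (hprn x hx))

/-- **The twisted symmetric differential** of an algebraic symmetric differential. -/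
theorem exists_wdiff_alg (hX : Surface (coneE P)) {H : MvPolynomial (Fin (N + 1)) ℂ} {h : ℕ} (hH : H.IsHomogeneous h) {m : ℕ}
    (θ : SymDiff (oc P H) m) (hθ : IsAlg θ) :
    ∃ θ' : WDiff (coneE P) m, ∀ x ∈ oc P H, ∀ v, Tan (coneE P) x v → (θ'.toFun x v = 0 ↔ θ.toFun x v = 0) := by
  obtain ⟨W, r, hW⟩ := hθ
  refine wdiff_of (e := fun _ => h) hX (fun _ => hH) θ r fun l φ p w hφ hφX => ?_
  have hev : ∀ (p : Fin l → ℂ), AnalyticAt ℂ φ p → AnalyticAt ℂ (fun y => eval (φ y).ofLp H) p := fun p hp =>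
    AnalyticAt.comp (g := fun x : EN N => eval x.ofLp H) (f := φ) (E1_an H _) hp
  have hfst : Tendsto (Prod.fst : (Fin l → ℂ) × (Fin l → ℂ) → Fin l → ℂ) (𝓝 (p, w)) (𝓝 p) := continuousAt_fst
  -- the polynomial along the parametrisation
  have hpoly : AnalyticAt ℂ (fun y : (Fin l → ℂ) × (Fin l → ℂ) => eval (φ y.1).ofLp H * eval (Sum.elim (φ y.1).ofLp (fderiv ℂ φ y.1 y.2).ofLp) W) (p, w) := by
    have h1 : AnalyticAt ℂ (fun y : (Fin l → ℂ) × (Fin l → ℂ) => φ y.1) (p, w) :=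
      AnalyticAt.comp (g := φ) (f := Prod.fst) (x := (p, w)) hφ analyticAt_fst
    have h2 : AnalyticAt ℂ (fun y : (Fin l → ℂ) × (Fin l → ℂ) => fderiv ℂ φ y.1 y.2) (p, w) := by
      have h3 : AnalyticAt ℂ (fun y : (Fin l → ℂ) × (Fin l → ℂ) => fderiv ℂ φ y.1) (p, w) :=
        AnalyticAt.comp (g := fderiv ℂ φ) (f := Prod.fst) (x := (p, w)) hφ.fderiv analyticAt_fst
      exact AnalyticAt.comp (g := fun q : ((Fin l → ℂ) →L[ℂ] EN N) × (Fin l → ℂ) => q.1 q.2)
        (f := fun y : (Fin l → ℂ) × (Fin l → ℂ) => (fderiv ℂ φ y.1, y.2))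
        (ContinuousLinearMap.analyticAt_bilinear (ContinuousLinearMap.id ℂ ((Fin l → ℂ) →L[ℂ] EN N)) _) (h3.prod analyticAt_snd)
    have hc : ∀ {F : (Fin l → ℂ) × (Fin l → ℂ) → EN N}, AnalyticAt ℂ F (p, w) → ∀ i, AnalyticAt ℂ (fun y => (F y).ofLp i) (p, w) := fun hF i =>
      AnalyticAt.comp (g := fun v : EN N => (EuclideanSpace.proj i : EN N →L[ℂ] ℂ) v) ((EuclideanSpace.proj i : EN N →L[ℂ] ℂ).analyticAt _) hF
    refine AnalyticAt.fun_mul (AnalyticAt.comp (g := fun x : EN N => eval x.ofLp H) (f := fun y : (Fin l → ℂ) × (Fin l → ℂ) => φ y.1) (E1_an H _) h1) ?_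
    have h5 : ∀ W' : MvPolynomial (Fin (N + 1) ⊕ Fin (N + 1)) ℂ,
        AnalyticAt ℂ (fun y : (Fin l → ℂ) × (Fin l → ℂ) => eval (Sum.elim (φ y.1).ofLp (fderiv ℂ φ y.1 y.2).ofLp) W') (p, w) := by
      intro W'
      induction W' using MvPolynomial.induction_on with
      | C a => simpa using analyticAt_const
      | add a b ha hb =>
        simp only [map_add]
        exact ha.fun_add hb
      | mul_X a i ha =>
        simp only [map_mul, eval_X]
        refine ha.fun_mul ?_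
        rcases i with i | i
        · exact hc h1 i
        · exact hc h2 i
    exact h5 W
  refine hpoly.congr ?_
  filter_upwards [hfst.eventually hφ.eventually_analyticAt, hfst.eventually hφX.eventually_nhds] with y h1 h2
  rw [Finset.prod_const, Finset.card_univ, Fintype.card_fin, pow_one]
  by_cases hy : eval (φ y.1).ofLp H = 0
  · rw [hy, zero_mul, zero_pow (Nat.succ_ne_zero r), zero_mul]
  · have h4 : ∀ᶠ q in 𝓝 y.1, φ q ∈ oc P H := by
      filter_upwards [h2, (hev y.1 h1).continuousAt.eventually_ne hy] with q hq hq0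
      exact ⟨hq, fun _ => hq0⟩
    rw [← hW _ h4.self_of_nhds _ (lw_tan h1 h4 y.2)]
    ring

end Pool.Agent.MQL
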