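import Pool.Agent.MQL.FinT
import Pool.Agent.MQL.Dns

/-!
# MQL FinT1: the main theorem for one symmetric differential `θ ≠ 0` with logarithmic poles, in the compact definitions
-/

set_option autoImplicit false

open MvPolynomial

noncomputable section

namespace Pool.Agent.SR2.T

/-- **Main theorem** for one symmetric differential, which is not `0`. -/
theorem main_ne {N : ℕ} (P : Ideal (MvPolynomial (Fin (N + 1)) ℂ)) [P.IsPrime] (hP : Homog P) (hdim : HasDim P 2) (hsmooth : Smooth P 2)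
    {h : ℕ} (H : MvPolynomial (Fin (N + 1)) ℂ) (hH : H.IsHomogeneous h) (h1 : 1 ≤ h) (hHP : H ∉ P) {k M : ℕ}
    (E : Fin k → Fin (M + 1) → MvPolynomial (Fin (N + 1)) ℂ) (c b : Fin k → ℕ) (hE : ∀ i l, (E i l).IsHomogeneous (c i)) (hsnc : Snc P H E b)
    (hbdy : NoBdyCurve P E) (hgt : LogGT P (fun _ : Fin 1 => H) 2) (hline : NoLine P H) {mΩ jΩ r : ℕ} (Ω : Fin r → V N → V N → V N → ℂ)
    (Q : Fin r → MvPolynomial (Fin (N + 1)) ℂ) (hample : LogAmple P H mΩ jΩ Ω Q)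
    {m : ℕ} (hm : 1 ≤ m) (θ : SymDiff (CU P H) m) (hlog : HasLogPoles E c θ) (halg : IsAlg θ)
    (hne : ∃ x ∈ CU P H, ∃ v, Tan (CU P H) x v ∧ θ.toFun x v ≠ 0) : Hyperbolic P (fun _ : Fin 1 => H) := by
  obtain ⟨z, hz⟩ := id hdim
  exact main_one P hP hdim hsmooth H hH h1 hHP E c b hE hsnc hbdy hgt hline Ω Q hample hm θ hlog halg
    (Pool.Agent.MQL.dense_alg hP hz (isSmooth_of hsmooth) hH (toS θ) (isAlg_of halg) hne)

end Pool.Agent.SR2.T
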