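import Pool.Agent.MQL.SDefs
import Pool.Agent.SDA.X1
import Pool.Agent.SR2.HDefs
import Pool.Agent.H90.SG.Poly
import Pool.Agent.MQ.Fin

/-!
# MQL LogK: symmetric differentials with poles along the boundary as twisted symmetric differentials on the surface, and their tangent curves

`K` is the cone over `X ∖ {H₀ = 0}`, `θ` a symmetric differential on `K` such that `H₀ ^ n θ` is locally bounded.  Then `H₀ ^ (n + 1) θ` is a twisted
symmetric differential on `X` (`exists_wdiff`).  This applies to symmetric differentials which are polynomials divided by a power of `H₀`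
(`bdd_of_alg`, `exists_null_alg`).
-/

set_option autoImplicit false

open Topology Filter Metric MvPolynomial

noncomputable section

namespace Pool.Agent.MQL.LogK

open Pool.Agent.H36.BP (EN fs)
open Pool.Agent.H14.PP (Tan)
open Pool.Agent.H17 (PN VanishesAt HolomorphicInto)
open Pool.Agent.H17BP (Surface IsChart)
open Pool.Agent.H17EF (projVar coneE)
open Pool.Agent.H13.OT (OrderTwo)
open Pool.Agent.H13.SM (conTan)
open Pool.Agent.H62.FC (Homog)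
open Pool.Agent.H17LG.Variety (FunField)
open Pool.Agent.H14.V (IsLift)
open Pool.Agent.H22.WL (vanishesAt_lift evF evF_diff evF_smul)
open Pool.Agent.AD (SymDiff TangentTo)
open Pool.Agent.MQ3

variable {N m n : ℕ} {P : Ideal (MvPolynomial (Fin (N + 1)) ℂ)} {H₀ : MvPolynomial (Fin (N + 1)) ℂ} {K : Set (EN N)}

/-- `K` is the cone over the complement of `{H₀ = 0}`. -/
def IsComp (P : Ideal (MvPolynomial (Fin (N + 1)) ℂ)) (H₀ : MvPolynomial (Fin (N + 1)) ℂ) (K : Set (EN N)) : Prop :=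
  ∀ x, x ∈ K ↔ x ∈ coneE P ∧ eval x.ofLp H₀ ≠ 0

theorem isComp_okE : IsComp P H₀ (okE P H₀) := fun _ => Iff.rfl

theorem isComp_open {k : ℕ} (H : Fin k → MvPolynomial (Fin (N + 1)) ℂ) : IsComp P (∏ i, H i) (Pool.Agent.SDA.openCone P H) := by
  intro x
  rw [map_prod, Finset.prod_ne_zero_iff]
  exact ⟨fun h => ⟨h.1, fun i _ => h.2 i⟩, fun h => ⟨h.1, fun i => h.2 i (Finset.mem_univ i)⟩⟩

theorem isComp_oc : IsComp P H₀ (Pool.Agent.SR2.oc P H₀) := fun _ => ⟨fun h => ⟨h.1, h.2 0⟩, fun h => ⟨h.1, fun _ => h.2⟩⟩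

theorem analyticAt_ev (Q : MvPolynomial (Fin (N + 1)) ℂ) (x : EN N) : AnalyticAt ℂ (fun y : EN N => eval y.ofLp Q) x := by
  have h := AnalyticAt.aeval_mvPolynomial (𝕜 := ℂ) (f := fun y : EN N => y.ofLp) (z := x) (fun i =>
    (EuclideanSpace.proj (𝕜 := ℂ) i : EN N →L[ℂ] ℂ).analyticAt x) Q
  simpa [MvPolynomial.aeval_eq_eval] using h

theorem continuous_evF (Q : MvPolynomial (Fin (N + 1)) ℂ) : Continuous fun x : EN N => eval x.ofLp Q := (evF_diff Q).continuous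

theorem IsComp.tan (hK : IsComp P H₀ K) {x v : EN N} (h : eval x.ofLp H₀ ≠ 0) : Tan K x v ↔ Tan (coneE P) x v := by
  constructor
  · rintro ⟨F, hF, h0, h1⟩
    exact ⟨F, ⟨hF.1, hF.2.mono fun w hw => ((hK _).1 hw).1⟩, h0, h1⟩
  · rintro ⟨F, hF, h0, h1⟩
    refine ⟨F, ⟨hF.1, ?_⟩, h0, h1⟩
    have h2 : ContinuousAt (fun w => eval (F w).ofLp H₀) 0 := (continuous_evF H₀).continuousAt.comp hF.1.continuousAt
    filter_upwards [hF.2, h2.eventually_ne (by rwa [h0])] with w h3 h4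
    exact (hK _).2 ⟨h3, h4⟩

/-- **`H₀ ^ (n + 1) θ` on the surface.** -/
theorem exists_wdiff {e : ℕ} (hH₀ : H₀.IsHomogeneous e) (hK : IsComp P H₀ K) (θ : SymDiff K m)
    (hb : ∀ x ∈ coneE P, ∀ v : EN N, ∃ C : ℝ, ∀ᶠ y : EN N × EN N in 𝓝 (x, v), y.1 ∈ K → Tan K y.1 y.2 →
      ‖eval y.1.ofLp H₀ ^ n * θ.toFun y.1 y.2‖ ≤ C) :
    ∃ θ' : WDiff (coneE P) m, ∀ x v, θ'.toFun x v = eval x.ofLp H₀ ^ (n + 1) * θ.toFun x v := by
  refine ⟨⟨fun x v => eval x.ofLp H₀ ^ (n + 1) * θ.toFun x v, ?_, ?_, ?_, ?_⟩, fun x v => rfl⟩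
  · intro x v hv a
    by_cases h : eval x.ofLp H₀ = 0
    · rw [h]
      simp
    · rw [θ.add_smul x v ((hK.tan h).2 hv) a]
  · intro x v hv a
    by_cases h : eval x.ofLp H₀ = 0
    · rw [h]
      simp
    · rw [θ.smul x v ((hK.tan h).2 hv) a]
      ring
  · intro c hc
    refine ⟨(c ^ e) ^ (n + 1), pow_ne_zero _ (pow_ne_zero _ hc), fun x v hv => ?_⟩
    have h1 : eval (c • x).ofLp H₀ = c ^ e * eval x.ofLp H₀ := evF_smul hH₀ c x
    rw [h1]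
    by_cases h : eval x.ofLp H₀ = 0
    · rw [h]
      simp
    · rw [θ.scale x v ((hK.tan h).2 hv) c hc]
      ring
  · intro k φ p w hφ hφX
    have hφ' : ∀ᶠ q : (Fin k → ℂ) in 𝓝 p, AnalyticAt ℂ φ q ∧ ∀ᶠ y in 𝓝 q, φ y ∈ coneE P := hφ.eventually_analyticAt.and (eventually_eventually_nhds.2 hφX)
    have ht : Tendsto (Prod.fst : (Fin k → ℂ) × (Fin k → ℂ) → (Fin k → ℂ)) (𝓝 (p, w)) (𝓝 p) := continuous_fst.tendsto (p, w)
    have hh : ∀ y : (Fin k → ℂ) × (Fin k → ℂ), AnalyticAt ℂ φ y.1 →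
        AnalyticAt ℂ (fun y : (Fin k → ℂ) × (Fin k → ℂ) => eval (φ y.1).ofLp H₀) y := fun y hy =>
      AnalyticAt.comp (g := fun q : Fin k → ℂ => eval (φ q).ofLp H₀) (f := Prod.fst)
        (AnalyticAt.comp (g := fun x : EN N => eval x.ofLp H₀) (f := φ) (analyticAt_ev H₀ (φ y.1)) hy) analyticAt_fst
    -- the tangent vectors
    have htan : ∀ y : (Fin k → ℂ) × (Fin k → ℂ), AnalyticAt ℂ φ y.1 → (∀ᶠ q in 𝓝 y.1, φ q ∈ coneE P) → Tan (coneE P) (φ y.1) (fderiv ℂ φ y.1 y.2) := by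
      rintro ⟨q, u⟩ h1 h2
      have h3 : HasDerivAt (fun t : ℂ => q + t • u) u 0 := by
        have := (hasDerivAt_id (0 : ℂ)).smul_const u |>.const_add q
        simpa using this
      have h4 : (fun t : ℂ => q + t • u) 0 = q := by simp
      have h5 : AnalyticAt ℂ (fun t : ℂ => q + t • u) 0 := by fun_prop
      refine ⟨fun t => φ (q + t • u), ⟨?_, ?_⟩, by simp, ?_⟩
      · refine AnalyticAt.comp (g := φ) (f := fun t : ℂ => q + t • u) ?_ h5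
        show AnalyticAt ℂ φ (q + (0 : ℂ) • u)
        rw [zero_smul, add_zero]
        exact h1
      · have h6 : Tendsto (fun t : ℂ => q + t • u) (𝓝 0) (𝓝 q) := by
          have h7 := h5.continuousAt.tendsto
          simpa using h7
        exact h6.eventually h2
      · have h7 : HasFDerivAt φ (fderiv ℂ φ q) ((fun t : ℂ => q + t • u) 0) := by
          rw [h4]
          exact h1.differentiableAt.hasFDerivAt
        exact (h7.comp_hasDerivAt 0 h3).deriv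
    have hdφ : Tendsto (fun y : (Fin k → ℂ) × (Fin k → ℂ) => (φ y.1, fderiv ℂ φ y.1 y.2)) (𝓝 (p, w)) (𝓝 (φ p, fderiv ℂ φ p w)) := by
      have h1 : Tendsto (fun y : (Fin k → ℂ) × (Fin k → ℂ) => φ y.1) (𝓝 (p, w)) (𝓝 (φ p)) := hφ.continuousAt.tendsto.comp ht
      have h2 : Tendsto (fun y : (Fin k → ℂ) × (Fin k → ℂ) => fderiv ℂ φ y.1) (𝓝 (p, w)) (𝓝 (fderiv ℂ φ p)) :=
        hφ.fderiv.continuousAt.tendsto.comp ht
      have hcb : Continuous fun p : ((Fin k → ℂ) →L[ℂ] EN N) × (Fin k → ℂ) => p.1 p.2 := isBoundedBilinearMap_apply.continuous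
      exact h1.prodMk_nhds ((hcb.tendsto (fderiv ℂ φ p, w)).comp (h2.prodMk_nhds (continuous_snd.tendsto (p, w))))
    obtain ⟨C, hC⟩ := hb (φ p) hφX.self_of_nhds (fderiv ℂ φ p w)
    refine Pool.Agent.SDA.analyticAt_of_bound (C := C) (hh (p, w) hφ) ?_ ?_
    · filter_upwards [ht.eventually hφ'] with y hy hne
      have h1 : ∀ᶠ q in 𝓝 y.1, φ q ∈ K := by
        have h2 : ContinuousAt (fun q => eval (φ q).ofLp H₀) y.1 := (continuous_evF H₀).continuousAt.comp hy.1.continuousAt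
        filter_upwards [hy.2, h2.eventually_ne hne] with q h3 h4
        exact (hK _).2 ⟨h3, h4⟩
      have h5 := θ.analytic k φ y.1 y.2 hy.1 h1
      exact ((hh y hy.1).pow (n + 1)).mul h5
    · filter_upwards [ht.eventually hφ', hdφ.eventually hC] with y hy hyC
      by_cases hne : eval (φ y.1).ofLp H₀ = 0
      · rw [hne]
        simp
      · have h1 : φ y.1 ∈ K := (hK _).2 ⟨hy.2.self_of_nhds, hne⟩
        have h2 := hyC h1 ((hK.tan hne).2 (htan y hy.1 hy.2))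
        have h3 : eval (φ y.1).ofLp H₀ ^ (n + 1) * θ.toFun (φ y.1) (fderiv ℂ φ y.1 y.2) =
            eval (φ y.1).ofLp H₀ ^ n * θ.toFun (φ y.1) (fderiv ℂ φ y.1 y.2) * eval (φ y.1).ofLp H₀ := by ring
        rw [h3, norm_mul]
        exact mul_le_mul_of_nonneg_right h2 (norm_nonneg _)

/-! ## local bounds -/

/-- `θ` is a polynomial divided by `H₀ ^ r` -/
theorem bdd_of_alg {θ : SymDiff K m} {W : MvPolynomial (Fin (N + 1) ⊕ Fin (N + 1)) ℂ} {r : ℕ}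
    (hW : ∀ x ∈ K, ∀ v, Tan K x v → θ.toFun x v * eval x.ofLp H₀ ^ r = eval (Sum.elim x.ofLp v.ofLp) W) (x v : EN N) :
    ∃ C : ℝ, ∀ᶠ y : EN N × EN N in 𝓝 (x, v), y.1 ∈ K → Tan K y.1 y.2 → ‖eval y.1.ofLp H₀ ^ r * θ.toFun y.1 y.2‖ ≤ C := by
  have h1 : Continuous fun y : EN N × EN N => (Sum.elim y.1.ofLp y.2.ofLp : Fin (N + 1) ⊕ Fin (N + 1) → ℂ) := by
    refine continuous_pi ?_
    rintro (i | i)
    · exact (EuclideanSpace.proj (𝕜 := ℂ) i : EN N →L[ℂ] ℂ).continuous.comp continuous_fst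
    · exact (EuclideanSpace.proj (𝕜 := ℂ) i : EN N →L[ℂ] ℂ).continuous.comp continuous_snd
  have h2 : Continuous fun y : EN N × EN N => ‖eval (Sum.elim y.1.ofLp y.2.ofLp) W‖ := ((MvPolynomial.continuous_eval W).comp h1).norm
  refine ⟨‖eval (Sum.elim x.ofLp v.ofLp) W‖ + 1, ?_⟩
  filter_upwards [h2.continuousAt.eventually_le_const (show ‖eval (Sum.elim x.ofLp v.ofLp) W‖ < ‖eval (Sum.elim x.ofLp v.ofLp) W‖ + 1 by linarith)]
    with y hy h3 h4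
  rw [mul_comm, hW y.1 h3 y.2 h4]
  exact hy

/-! ## the curves -/

/-- the set where `θ' = H₀ ^ n θ` is not zero is dense -/
theorem dense_wdiff [P.IsPrime] (hP : Homog P) {z : Fin 2 → FunField P} (hz : IsTranscendenceBasis ℂ z)
    (hsm : ∀ y : Fin (N + 1) → ℂ, y ≠ 0 → (∀ Q ∈ P, eval y Q = 0) → Module.finrank ℂ (conTan P y) ≤ 3)
    {e : ℕ} (hH₀ : H₀.IsHomogeneous e) (hH₀P : H₀ ∉ P) (hK : IsComp P H₀ K) {θ : SymDiff K m} {θ' : WDiff (coneE P) m}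
    (hθ' : ∀ x v, θ'.toFun x v = eval x.ofLp H₀ ^ n * θ.toFun x v)
    (hd : K ⊆ closure {x | x ∈ K ∧ ∃ v, Tan K x v ∧ θ.toFun x v ≠ 0}) :
    coneE P ⊆ closure {x | x ∈ coneE P ∧ ∃ v, Tan (coneE P) x v ∧ θ'.toFun x v ≠ 0} := by
  have hX : Surface (coneE P) := Pool.Agent.H90.SG.surface_coneE hP hz hsm
  have h1 : closure {x | x ∈ K ∧ ∃ v, Tan K x v ∧ θ.toFun x v ≠ 0} ⊆ closure {x | x ∈ coneE P ∧ ∃ v, Tan (coneE P) x v ∧ θ'.toFun x v ≠ 0} := by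
    refine closure_mono ?_
    rintro x ⟨hx, v, hv, h0⟩
    have h2 := (hK x).1 hx
    refine ⟨h2.1, v, (hK.tan h2.2).1 hv, ?_⟩
    rw [hθ']
    exact mul_ne_zero (pow_ne_zero _ h2.2) h0
  intro x hx
  obtain ⟨σ, τ, hσ, h0⟩ := hX.chart x hx
  have h2 : x ∈ closure K := by
    rw [mem_closure_iff_nhds]
    intro t ht
    have h3 : ∀ᶠ p in 𝓝 (0 : ℂ × ℂ), σ p ∈ t := by
      refine hσ.σ_an.continuousAt.eventually ?_
      rw [h0]
      exact ht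
    obtain ⟨p, hp1, hp2, hp3⟩ := ((Pool.Agent.H90.SG.thin_coneE hP hz hsm hH₀ hH₀P hσ).and_eventually (hσ.σ_mem.and h3)).exists
    exact ⟨σ p, hp3, (hK _).2 ⟨hp2, hp1⟩⟩
  have h3 : x ∈ closure (closure {x | x ∈ K ∧ ∃ v, Tan K x v ∧ θ.toFun x v ≠ 0}) := closure_mono hd h2
  rw [closure_closure] at h3
  exact h1 h3

/-- the conclusion of `exists_R_log`: the entire curves of order two which avoid `{H₀ = 0}` and are tangent to `θ'` lie in one curve `{R = 0}` -/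
def HasCurve (P : Ideal (MvPolynomial (Fin (N + 1)) ℂ)) (H₀ : MvPolynomial (Fin (N + 1)) ℂ) (θ' : WDiff (coneE P) m) : Prop :=
  ∃ (R : MvPolynomial (Fin (N + 1)) ℂ) (d : ℕ), R.IsHomogeneous d ∧ R ∉ P ∧ ∀ F : ℂ → EN N, Differentiable ℂ F → (∀ z, F z ∈ coneE P) →
    (∀ z, eval (F z).ofLp H₀ ≠ 0) → (∃ A : ℝ, ∀ r : ℝ, 0 < r → Real.circleAverage (fun z => Real.log ‖F z‖) 0 r ≤ A * (1 + r ^ 2)) →
    (∃ z w, ∀ c : ℂ, F z ≠ c • F w) → (∀ z, θ'.toFun (F z) (deriv F z) = 0) → ∀ z, eval (F z).ofLp R = 0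

/-- **The tangent curves of `θ`.** -/
theorem exists_null [P.IsPrime] (hP : Homog P) {z : Fin 2 → FunField P} (hz : IsTranscendenceBasis ℂ z)
    (hsm : ∀ y : Fin (N + 1) → ℂ, y ≠ 0 → (∀ Q ∈ P, eval y Q = 0) → Module.finrank ℂ (conTan P y) ≤ 3)
    {e : ℕ} (hH₀ : H₀.IsHomogeneous e) (hH₀P : H₀ ∉ P) (hK : IsComp P H₀ K) (θ : SymDiff K m)
    (hb : ∀ x ∈ coneE P, ∀ v : EN N, ∃ C : ℝ, ∀ᶠ y : EN N × EN N in 𝓝 (x, v), y.1 ∈ K → Tan K y.1 y.2 →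
      ‖eval y.1.ofLp H₀ ^ n * θ.toFun y.1 y.2‖ ≤ C)
    (hd : K ⊆ closure {x | x ∈ K ∧ ∃ v, Tan K x v ∧ θ.toFun x v ≠ 0})
    (hlog : ∀ θ' : WDiff (coneE P) m, coneE P ⊆ closure {x | x ∈ coneE P ∧ ∃ v, Tan (coneE P) x v ∧ θ'.toFun x v ≠ 0} → HasCurve P H₀ θ') :
    ∃ (R : MvPolynomial (Fin (N + 1)) ℂ) (d : ℕ), R.IsHomogeneous d ∧ R ∉ P ∧ ∀ f : ℂ → PN N, OrderTwo f →
      (∀ z, f z ∈ projVar P ∧ ¬ VanishesAt H₀ (f z)) → (∃ z w, f z ≠ f w) → TangentTo θ f → ∀ z, VanishesAt R (f z) := by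
  obtain ⟨θ', hθ'⟩ := exists_wdiff hH₀ hK θ hb
  obtain ⟨R, d, hR, hRP, h⟩ := hlog θ' (dense_wdiff hP hz hsm hH₀ hH₀P hK hθ' hd)
  refine ⟨R, d, hR, hRP, fun f hf hfX hfn ht w => ?_⟩
  obtain ⟨F, hF, hF0⟩ := ht
  have hne : ∃ z w, ∀ c : ℂ, F z ≠ c • F w := by
    obtain ⟨a, b, hab⟩ := hfn
    refine ⟨a, b, fun c hc => hab ?_⟩
    obtain ⟨h1, h2⟩ := hF.2 a
    obtain ⟨h3, h4⟩ := hF.2 b
    rw [h2, h4, Projectivization.mk_eq_mk_iff']
    exact ⟨c, by rw [hc]; rfl⟩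
  rw [vanishesAt_lift hF hR]
  refine h F hF.1 (fun z => (hF.mem_iff hP z).1 (hfX z).1) (fun z h0 => (hfX z).2 ((vanishesAt_lift hF hH₀ z).2 h0))
    (Pool.Agent.MQ.growth_of_orderTwo hf hF) hne (fun z => ?_) w
  rw [hθ', hF0 z, mul_zero]

/-- The tangent curves of an algebraic symmetric differential on the complement of `{H₀ = 0}`. -/
theorem exists_null_alg [P.IsPrime] (hP : Homog P) {z : Fin 2 → FunField P} (hz : IsTranscendenceBasis ℂ z)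
    (hsm : ∀ y : Fin (N + 1) → ℂ, y ≠ 0 → (∀ Q ∈ P, eval y Q = 0) → Module.finrank ℂ (conTan P y) ≤ 3)
    {e : ℕ} (hH₀ : H₀.IsHomogeneous e) (hH₀P : H₀ ∉ P) (θ : SymDiff (Pool.Agent.SR2.oc P H₀) m) (hθ : Pool.Agent.SR2.IsAlg θ)
    (hd : Pool.Agent.SR2.oc P H₀ ⊆ closure {x | x ∈ Pool.Agent.SR2.oc P H₀ ∧ ∃ v, Tan (Pool.Agent.SR2.oc P H₀) x v ∧ θ.toFun x v ≠ 0})
    (hlog : ∀ θ' : WDiff (coneE P) m, coneE P ⊆ closure {x | x ∈ coneE P ∧ ∃ v, Tan (coneE P) x v ∧ θ'.toFun x v ≠ 0} → HasCurve P H₀ θ') :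
    ∃ (R : MvPolynomial (Fin (N + 1)) ℂ) (d : ℕ), R.IsHomogeneous d ∧ R ∉ P ∧ ∀ f : ℂ → PN N, OrderTwo f →
      (∀ z, f z ∈ projVar P ∧ ¬ VanishesAt H₀ (f z)) → (∃ z w, f z ≠ f w) → TangentTo θ f → ∀ z, VanishesAt R (f z) := by
  obtain ⟨W, r, hW⟩ := hθ
  exact exists_null hP hz hsm hH₀ hH₀P isComp_oc θ (n := r) (fun x _ v => bdd_of_alg hW x v) hd hlog

end Pool.Agent.MQL.LogK
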