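import Pool.Agent.MQ3.WForm
import Pool.Agent.H90.SG.Poly
import Pool.Agent.H90.SG.CoNe
import Pool.Agent.AD.P.Bridge

/-!
# MQL PBa: the identity theorem for a form `G (x, x ∧ v)` on an irreducible smooth cone

`dense_form`: if `G (x₀, x₀ ∧ v₀) ≠ 0` for one tangent vector `v₀`, then the points `x` of the cone with `G (x, x ∧ v) ≠ 0` for a tangent vector `v` are dense.

Polynomials `V` with `V (x)` tangent for every `x` in the cone and `V (x₀) = v₀`: let `B (x)` be the matrix of the gradients of `r = N - 2` elements of the ideal,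
of rank `r` at `x₀`, and `B (x₀) A = 1`; then `V = det (B A) v₀ - A adj (B A) B v₀`.
-/

set_option autoImplicit false

open Topology Filter Metric MvPolynomial Matrix

noncomputable section

namespace Pool.Agent.MQL

open Pool.Agent.H36.BP (EN)
open Pool.Agent.H17BP (Surface IsChart)
open Pool.Agent.H14.PP (Tan CurveAt)
open Pool.Agent.H62.FC (Homog)
open Pool.Agent.H17LG.Variety (FunField)
open Pool.Agent.H17EF (coneE LE)
open Pool.Agent.H13.SM (conTan cone exists_indep)
open Pool.Agent.MQ3 (webVal plk IsBihom)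

/-! ## linear algebra -/

/-- a vector in the kernel of `B` -/
private def kv {R : Type*} [CommRing R] {r n : ℕ} (B : Matrix (Fin r) (Fin n) R) (A : Matrix (Fin n) (Fin r) R) (v : Fin n → R) : Fin n → R :=
  (B * A).det • v - A *ᵥ ((B * A).adjugate *ᵥ (B *ᵥ v))

private theorem kv_ker {R : Type*} [CommRing R] {r n : ℕ} (B : Matrix (Fin r) (Fin n) R) (A : Matrix (Fin n) (Fin r) R) (v : Fin n → R) :
    B *ᵥ kv B A v = 0 := by
  unfold kv
  rw [mulVec_sub, mulVec_smul, mulVec_mulVec, mulVec_mulVec, mul_adjugate, smul_mulVec, one_mulVec, sub_self]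

private theorem kv_one {R : Type*} [CommRing R] {r n : ℕ} {B : Matrix (Fin r) (Fin n) R} {A : Matrix (Fin n) (Fin r) R} {v : Fin n → R} (hBA : B * A = 1)
    (hv : B *ᵥ v = 0) : kv B A v = v := by
  unfold kv
  rw [hBA, det_one, one_smul, hv, mulVec_zero, mulVec_zero, sub_zero]

private theorem kv_map {R S : Type*} [CommRing R] [CommRing S] (φ : R →+* S) {r n : ℕ} (B : Matrix (Fin r) (Fin n) R) (A : Matrix (Fin n) (Fin r) R)
    (v : Fin n → R) : (fun i => φ (kv B A v i)) = kv (B.map φ) (A.map φ) (fun i => φ (v i)) := by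
  have h1 : (B * A).map φ = B.map φ * A.map φ := Matrix.map_mul
  have h2 : φ (B * A).det = (B.map φ * A.map φ).det := by
    rw [RingHom.map_det, ← h1]
    rfl
  have h3 : (B * A).adjugate.map φ = (B.map φ * A.map φ).adjugate := by
    rw [← h1]
    exact RingHom.map_adjugate φ (B * A)
  funext i
  unfold kv
  simp only [Pi.sub_apply, Pi.smul_apply, smul_eq_mul, map_sub, map_mul, h2]
  congr 1
  rw [RingHom.map_mulVec]
  congr 1
  congr 1
  funext j
  simp only [Function.comp_apply]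
  rw [RingHom.map_mulVec, h3]
  congr 2
  funext k
  simp only [Function.comp_apply]
  rw [RingHom.map_mulVec]
  rfl

private theorem det_zero {r n : ℕ} {B : Matrix (Fin r) (Fin n) ℂ} (h : ¬ LinearIndependent ℂ B.row) (A : Matrix (Fin n) (Fin r) ℂ) : (B * A).det = 0 := by
  rw [Fintype.not_linearIndependent_iff] at h
  obtain ⟨c, hc, i, hi⟩ := h
  rw [← exists_vecMul_eq_zero_iff]
  have h1 : c ᵥ* B = 0 := by
    rw [vecMul_eq_sum]
    exact hc
  exact ⟨c, fun h => hi (congrFun h i), by rw [← vecMul_vecMul, h1, zero_vecMul]⟩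

private theorem kv_zero {r n : ℕ} {B : Matrix (Fin r) (Fin n) ℂ} (h : ¬ LinearIndependent ℂ B.row) (A : Matrix (Fin n) (Fin r) ℂ) (v : Fin n → ℂ) :
    kv B A v = 0 := by
  unfold kv
  have h1 : (B * A).adjugate *ᵥ (B *ᵥ v) = 0 := by
    rw [← cramer_eq_adjugate_mulVec]
    funext i
    rw [cramer_apply, Pi.zero_apply]
    have h2 : (B * A).updateCol i (B *ᵥ v) = B * A.updateCol i v := by
      ext j k
      by_cases hk : k = i
      · subst hk
        rw [updateCol_self, mul_apply]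
        simp only [updateCol_self]
        rfl
      · rw [updateCol_ne hk, mul_apply, mul_apply]
        simp only [updateCol_ne hk]
    rw [h2]
    exact det_zero h _
  rw [det_zero h, h1, zero_smul, mulVec_zero, sub_zero]

private theorem exists_right {r n : ℕ} {B : Matrix (Fin r) (Fin n) ℂ} (h : LinearIndependent ℂ B.row) : ∃ A : Matrix (Fin n) (Fin r) ℂ, B * A = 1 := by
  rw [← mulVec_surjective_iff_exists_right_inverse]
  have h1 : B.rank = r := by rw [h.rank_matrix, Fintype.card_fin]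
  have h2 : LinearMap.range B.mulVecLin = ⊤ := by
    apply Submodule.eq_top_of_finrank_eq
    rw [Module.finrank_fintype_fun_eq_card, Fintype.card_fin]
    exact h1
  exact LinearMap.range_eq_top.1 h2

private theorem ker_finrank {r n : ℕ} {B : Matrix (Fin r) (Fin n) ℂ} (h : LinearIndependent ℂ B.row) :
    r + Module.finrank ℂ (LinearMap.ker B.mulVecLin) = n := by
  have h1 : B.rank = r := by rw [h.rank_matrix, Fintype.card_fin]
  have h2 := LinearMap.finrank_range_add_finrank_ker B.mulVecLin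
  rw [Module.finrank_fintype_fun_eq_card, Fintype.card_fin] at h2
  have h3 : Module.finrank ℂ (LinearMap.range B.mulVecLin) = r := h1
  rw [h3] at h2
  exact h2

/-! ## tangent vectors of the cone -/

/-- the Zariski tangent space of the cone of a smooth surface has dimension three and consists of tangent vectors -/
theorem conTan_three {N : ℕ} {P : Ideal (MvPolynomial (Fin (N + 1)) ℂ)} [P.IsPrime] {z : Fin 2 → FunField P} (hP : Homog P)
    (hz : IsTranscendenceBasis ℂ z) (hsm : ∀ y : Fin (N + 1) → ℂ, y ≠ 0 → (∀ Q ∈ P, eval y Q = 0) → Module.finrank ℂ (conTan P y) ≤ 3) {x : EN N}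
    (hx : x ∈ coneE P) : Module.finrank ℂ (conTan P ((LE N).symm x)) = 3 ∧
      ∀ v : EN N, (LE N).symm v ∈ conTan P ((LE N).symm x) → Tan (coneE P) x v := by
  have hX : Surface (coneE P) := Pool.Agent.H90.SG.surface_coneE hP hz hsm
  obtain ⟨σ, τ, hσ, hσ0⟩ := hX.chart x hx
  have hli := (Pool.Agent.H90.SG.linInd_chart hσ).self_of_nhds
  -- curves
  have hcurve : ∀ (a : ℂ) (w : ℂ × ℂ), Tan (coneE P) x (fderiv ℂ σ 0 w + a • x) := by
    intro a w
    have hg : HasDerivAt (fun z : ℂ => z • w) w 0 := by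
      simpa using (hasDerivAt_id (0 : ℂ)).smul_const w
    have hσd : HasFDerivAt σ (fderiv ℂ σ 0) ((0 : ℂ) • w) := by
      rw [zero_smul]; exact hσ.σ_an.differentiableAt.hasFDerivAt
    have h1 : HasDerivAt (fun z : ℂ => σ (z • w)) (fderiv ℂ σ 0 w) 0 := hσd.comp_hasDerivAt (0 : ℂ) hg
    have h2 : HasDerivAt (fun z : ℂ => 1 + a * z) a 0 := by
      simpa using ((hasDerivAt_id (0 : ℂ)).const_mul a).const_add 1
    have h3 := h2.smul h1
    refine ⟨fun z => (1 + a * z) • σ (z • w), ⟨?_, ?_⟩, ?_, ?_⟩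
    · have e1 : AnalyticAt ℂ (fun z : ℂ => z • w) 0 := (analyticAt_id).smul analyticAt_const
      have e2 : AnalyticAt ℂ σ ((fun z : ℂ => z • w) 0) := by simpa using hσ.σ_an
      exact (analyticAt_const.add (analyticAt_const.mul analyticAt_id)).smul
        (AnalyticAt.comp (g := σ) (f := fun z : ℂ => z • w) e2 e1)
    · have c1 : Tendsto (fun z : ℂ => z • w) (𝓝 0) (𝓝 0) := by
        have : Continuous fun z : ℂ => z • w := by fun_prop
        simpa using this.tendsto 0
      have c2 : ∀ᶠ z : ℂ in 𝓝 0, (1 + a * z) ≠ 0 := by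
        have : ContinuousAt (fun z : ℂ => 1 + a * z) 0 := by fun_prop
        exact this.eventually_ne (by simp)
      filter_upwards [c1.eventually hσ.σ_mem, c2] with z hz1 hz2
      exact hX.smul _ hz1 _ hz2
    · simp [hσ0]
    · have h4 : deriv (fun z => (1 + a * z) • σ (z • w)) 0 = (1 + a * 0) • (fderiv ℂ σ 0) w + a • σ ((0 : ℂ) • w) := h3.deriv
      rw [h4]
      simp [hσ0]
  -- the span
  have hmem : ∀ u : EN N, Tan (coneE P) x u → (LE N).symm u ∈ conTan P ((LE N).symm x) := fun u hu => Pool.Agent.AD.P.conTan_of_tan hu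
  have hdim : Module.finrank ℂ (conTan P ((LE N).symm x)) ≤ 3 := hsm _ hx.1 hx.2
  set L : EN N →ₗ[ℂ] (Fin (N + 1) → ℂ) := ((LE N).symm : EN N →L[ℂ] (Fin (N + 1) → ℂ)).toLinearMap with hL
  have hLi : Function.Injective L := (LE N).symm.injective
  set b : Fin 3 → (Fin (N + 1) → ℂ) := L ∘ ![σ 0, fderiv ℂ σ 0 (1, 0), fderiv ℂ σ 0 (0, 1)] with hb
  have hbli : LinearIndependent ℂ b := hli.map' L (LinearMap.ker_eq_bot.2 hLi)
  have hb0 : b 0 = (LE N).symm x := by
    change (LE N).symm (σ 0) = _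
    rw [hσ0]
  have hb1 : b 1 = (LE N).symm (fderiv ℂ σ 0 (1, 0)) := rfl
  have hb2 : b 2 = (LE N).symm (fderiv ℂ σ 0 (0, 1)) := rfl
  have hbmem : ∀ i, b i ∈ conTan P ((LE N).symm x) := by
    rw [Fin.forall_fin_succ, Fin.forall_fin_succ, Fin.forall_fin_succ]
    refine ⟨?_, ?_, ?_, fun i => i.elim0⟩
    · have := hmem _ (hcurve 1 0)
      simp only [map_zero, zero_add, one_smul] at this
      rw [hb0]; exact this
    · have := hmem _ (hcurve 0 (1, 0))
      simp only [zero_smul, add_zero] at this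
      exact this
    · have := hmem _ (hcurve 0 (0, 1))
      simp only [zero_smul, add_zero] at this
      exact this
  have hspan : Submodule.span ℂ (Set.range b) = conTan P ((LE N).symm x) := by
    apply Submodule.eq_of_le_of_finrank_le
    · rw [Submodule.span_le]
      rintro _ ⟨i, rfl⟩
      exact hbmem i
    · rw [finrank_span_eq_card hbli]
      simpa using hdim
  refine ⟨?_, fun v hv => ?_⟩
  · rw [← hspan, finrank_span_eq_card hbli, Fintype.card_fin]
  · rw [← hspan, Submodule.mem_span_range_iff_exists_fun] at hv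
    obtain ⟨c, hc⟩ := hv
    have h1 : v = fderiv ℂ σ 0 (c 1, c 2) + c 0 • x := by
      apply (LE N).symm.injective
      rw [← hc, Fin.sum_univ_three]
      have e1 : ((c 1, c 2) : ℂ × ℂ) = c 1 • (1, 0) + c 2 • (0, 1) := by simp
      rw [e1, hb0, hb1, hb2]
      simp only [map_add, map_smul]
      abel
    rw [h1]
    exact hcurve _ _

/-- the polynomial tangent field -/
private theorem exists_field {N : ℕ} {P : Ideal (MvPolynomial (Fin (N + 1)) ℂ)} [P.IsPrime] (hP : Homog P) {z : Fin 2 → FunField P}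
    (hz : IsTranscendenceBasis ℂ z) (hsm : ∀ y : Fin (N + 1) → ℂ, y ≠ 0 → (∀ Q ∈ P, eval y Q = 0) → Module.finrank ℂ (conTan P y) ≤ 3)
    {x₀ v₀ : Fin (N + 1) → ℂ} (h0 : x₀ ≠ 0) (hx₀ : ∀ Q ∈ P, eval x₀ Q = 0) (hv₀ : v₀ ∈ conTan P x₀) :
    ∃ V : Fin (N + 1) → MvPolynomial (Fin (N + 1)) ℂ, (fun i => eval x₀ (V i)) = v₀ ∧
      ∀ x : Fin (N + 1) → ℂ, x ≠ 0 → (∀ Q ∈ P, eval x Q = 0) → (fun i => eval x (V i)) ∈ conTan P x := by
  obtain ⟨f, hfP, hfli⟩ := exists_indep (P := P) (n := 2) (hsm x₀ h0 hx₀)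
  set Bp : Matrix (Fin (N - 2)) (Fin (N + 1)) (MvPolynomial (Fin (N + 1)) ℂ) := fun j i => pderiv i (f j) with hBp
  have hfli' : LinearIndependent ℂ (Bp.map (eval x₀)).row := hfli
  obtain ⟨A, hA⟩ := exists_right hfli'
  have hAC : ∀ x : Fin (N + 1) → ℂ, (A.map (C : ℂ →+* MvPolynomial (Fin (N + 1)) ℂ)).map (eval x) = A := by
    intro x
    ext i j
    simp
  have hV : ∀ x : Fin (N + 1) → ℂ, (fun i => eval x (kv Bp (A.map C) (fun i => C (v₀ i)) i)) = kv (Bp.map (eval x)) A v₀ := by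
    intro x
    rw [kv_map (eval x), hAC]
    congr 1
    funext i
    simp
  have hmul : ∀ (x v : Fin (N + 1) → ℂ) (j : Fin (N - 2)), (Bp.map (eval x) *ᵥ v) j = ∑ i, v i * eval x (pderiv i (f j)) := by
    intro x v j
    simp only [mulVec, dotProduct, Matrix.map_apply, hBp]
    exact Finset.sum_congr rfl fun i _ => mul_comm _ _
  have hsub : ∀ x v : Fin (N + 1) → ℂ, v ∈ conTan P x → Bp.map (eval x) *ᵥ v = 0 := by
    intro x v hv
    funext j
    rw [hmul]
    exact hv _ (hfP j)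
  refine ⟨kv Bp (A.map C) fun i => C (v₀ i), ?_, fun x hx hxP => ?_⟩
  · rw [hV]
    exact kv_one hA (hsub _ _ hv₀)
  · rw [hV]
    by_cases hli : LinearIndependent ℂ (Bp.map (eval x)).row
    · have hxc : (LE N) x ∈ coneE P := by
        show (LE N).symm ((LE N) x) ∈ cone P
        rw [ContinuousLinearEquiv.symm_apply_apply]
        exact ⟨hx, hxP⟩
      have h3 := (conTan_three hP hz hsm hxc).1
      rw [ContinuousLinearEquiv.symm_apply_apply] at h3
      have hle : conTan P x ≤ LinearMap.ker (Bp.map (eval x)).mulVecLin := by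
        intro v hv
        rw [LinearMap.mem_ker, mulVecLin_apply]
        exact hsub x v hv
      have hdimk := ker_finrank hli
      have hN : 2 ≤ N := by
        have h4 := Submodule.finrank_le (conTan P x)
        rw [h3, Module.finrank_fintype_fun_eq_card, Fintype.card_fin] at h4
        omega
      have heq : conTan P x = LinearMap.ker (Bp.map (eval x)).mulVecLin := by
        apply Submodule.eq_of_le_of_finrank_le hle
        rw [h3]
        omega
      rw [heq, LinearMap.mem_ker, mulVecLin_apply]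
      exact kv_ker _ _ _
    · rw [kv_zero hli]
      exact (conTan P x).zero_mem

/-- all homogeneous components of a polynomial which vanishes on the multiples of `x` near `x` vanish at `x` -/
private theorem comp_zero {N : ℕ} {S : MvPolynomial (Fin (N + 1)) ℂ} {x : Fin (N + 1) → ℂ} (h : ∀ᶠ c : ℂ in 𝓝 1, eval (c • x) S = 0) (n : ℕ) :
    eval x (homogeneousComponent n S) = 0 := by
  have h1 : ∀ c : ℂ, eval (c • x) S = (∑ i ∈ Finset.range (S.totalDegree + 1), Polynomial.monomial i (eval x (homogeneousComponent i S))).eval c := by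
    intro c
    conv_lhs => rw [← MvPolynomial.sum_homogeneousComponent S]
    rw [map_sum, Polynomial.eval_finset_sum]
    refine Finset.sum_congr rfl fun i _ => ?_
    rw [Pool.Agent.AD.P.eval_smul_of_homog (homogeneousComponent_isHomogeneous i S), Polynomial.eval_monomial, mul_comm]
  have h2 : (∑ i ∈ Finset.range (S.totalDegree + 1), Polynomial.monomial i (eval x (homogeneousComponent i S))) = 0 := by
    apply Polynomial.eq_zero_of_infinite_isRoot
    have h3 : {c : ℂ | eval (c • x) S = 0} ∈ 𝓝 (1 : ℂ) := h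
    refine (infinite_of_mem_nhds (1 : ℂ) h3).mono ?_
    intro c hc
    show Polynomial.eval c _ = 0
    rw [← h1]
    exact hc
  by_cases hn : n ∈ Finset.range (S.totalDegree + 1)
  · have h4 := congrArg (fun q : Polynomial ℂ => q.coeff n) h2
    simp only [Polynomial.finset_sum_coeff, Polynomial.coeff_monomial, Polynomial.coeff_zero] at h4
    rw [Finset.sum_eq_single n] at h4
    · simpa using h4
    · intro i _ hi
      rw [if_neg hi]
    · intro h5
      exact absurd hn h5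
  · rw [homogeneousComponent_eq_zero _ _ (by rw [Finset.mem_range, not_lt] at hn; omega), map_zero]

/-- a polynomial vector field tangent to the cone, with a given value at one point -/
theorem exists_vfield {N : ℕ} {P : Ideal (MvPolynomial (Fin (N + 1)) ℂ)} [P.IsPrime] (hP : Homog P) {z : Fin 2 → FunField P}
    (hz : IsTranscendenceBasis ℂ z) (hsm : ∀ y : Fin (N + 1) → ℂ, y ≠ 0 → (∀ Q ∈ P, eval y Q = 0) → Module.finrank ℂ (conTan P y) ≤ 3)
    {x₀ v₀ : Fin (N + 1) → ℂ} (h0 : x₀ ≠ 0) (hx₀ : ∀ Q ∈ P, eval x₀ Q = 0) (hv₀ : v₀ ∈ conTan P x₀) :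
    ∃ (V : Fin (N + 1) → MvPolynomial (Fin (N + 1)) ℂ) (Δ : ℂ), Δ ≠ 0 ∧
      (∀ x : Fin (N + 1) → ℂ, x ≠ 0 → (∀ Q ∈ P, eval x Q = 0) → (fun l => eval x (V l)) ∈ conTan P x) ∧ ∀ l, eval x₀ (V l) = Δ * v₀ l := by
  obtain ⟨V, hV0, hV⟩ := exists_field hP hz hsm h0 hx₀ hv₀
  exact ⟨V, 1, one_ne_zero, hV, fun l => by rw [one_mul]; exact congrFun hV0 l⟩

/-- a polynomial which vanishes on the cone near one point of the cone lies in the ideal -/
theorem mem_of_eventually {N : ℕ} {P : Ideal (MvPolynomial (Fin (N + 1)) ℂ)} [P.IsPrime] (hP : Homog P) {z : Fin 2 → FunField P}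
    (hz : IsTranscendenceBasis ℂ z) (hsm : ∀ y : Fin (N + 1) → ℂ, y ≠ 0 → (∀ Q ∈ P, eval y Q = 0) → Module.finrank ℂ (conTan P y) ≤ 3)
    {S : MvPolynomial (Fin (N + 1)) ℂ} {x₁ : EN N} (hx₁ : x₁ ∈ coneE P) (hS : ∀ᶠ y in 𝓝 x₁, y ∈ coneE P → eval y.ofLp S = 0) : S ∈ P := by
  have hSW : ∀ᶠ x in 𝓝 x₁, x ∈ coneE P → ∀ n, eval x.ofLp (homogeneousComponent n S) = 0 := by
    filter_upwards [hS.eventually_nhds] with x hx hxc n
    apply comp_zero
    have h4 : Tendsto (fun c : ℂ => c • x) (𝓝 1) (𝓝 x) := by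
      have h5 : Continuous fun c : ℂ => c • x := by fun_prop
      simpa using h5.tendsto 1
    have h6 : ∀ᶠ c : ℂ in 𝓝 1, c ≠ 0 := isOpen_ne.eventually_mem (one_ne_zero)
    filter_upwards [h4.eventually hx, h6] with c hc hc0
    exact hc ((Pool.Agent.H90.SG.surface_coneE hP hz hsm).smul x hxc c hc0)
  obtain ⟨σ, τ, hσ, hσ0⟩ := (Pool.Agent.H90.SG.surface_coneE hP hz hsm).chart x₁ hx₁
  have hSP : ∀ n, homogeneousComponent n S ∈ P := by
    intro n
    by_contra hn
    have h1 := Pool.Agent.H90.SG.thin_coneE hP hz hsm (homogeneousComponent_isHomogeneous n S) hn hσ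
    have h2 : Tendsto σ (𝓝 0) (𝓝 x₁) := by
      rw [← hσ0]
      exact hσ.σ_an.continuousAt
    obtain ⟨p, hp1, hp2, hp3⟩ := (h1.and_eventually ((h2.eventually hSW).and hσ.σ_mem)).exists
    exact hp1 (hp2 hp3 n)
  rw [← MvPolynomial.sum_homogeneousComponent S]
  exact P.sum_mem fun i _ => hSP i

theorem exists_zero {N : ℕ} {P : Ideal (MvPolynomial (Fin (N + 1)) ℂ)} [P.IsPrime] (hP : Homog P) {z : Fin 2 → FunField P}
    (hz : IsTranscendenceBasis ℂ z) (hsm : ∀ y : Fin (N + 1) → ℂ, y ≠ 0 → (∀ Q ∈ P, eval y Q = 0) → Module.finrank ℂ (conTan P y) ≤ 3)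
    {S : MvPolynomial (Fin (N + 1)) ℂ} {x₁ : EN N} (hx₁ : x₁ ∈ coneE P) (hS : ∀ᶠ y in 𝓝 x₁, y ∈ coneE P → eval y.ofLp S = 0) :
    ∀ x ∈ coneE P, eval x.ofLp S = 0 := fun _ hx => hx.2 S (mem_of_eventually hP hz hsm hx₁ hS)

/-- **The identity theorem for a form `G (x, x ∧ v)`.** -/
theorem dense_form {N a m : ℕ} {P : Ideal (MvPolynomial (Fin (N + 1)) ℂ)} [P.IsPrime] (hP : Homog P) {z : Fin 2 → FunField P} (hz : IsTranscendenceBasis ℂ z)
    (hsm : ∀ y : Fin (N + 1) → ℂ, y ≠ 0 → (∀ Q ∈ P, eval y Q = 0) → Module.finrank ℂ (conTan P y) ≤ 3)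
    {G : MvPolynomial (Fin (N + 1) ⊕ Fin (N + 1) × Fin (N + 1)) ℂ} (hG : IsBihom a m G) {x₀ v₀ : Fin (N + 1) → ℂ} (h0 : x₀ ≠ 0)
    (hx₀ : ∀ Q ∈ P, eval x₀ Q = 0) (hv₀ : v₀ ∈ conTan P x₀) (hne : webVal G x₀ v₀ ≠ 0) :
    coneE P ⊆ closure {x | x ∈ coneE P ∧ ∃ v : EN N, Tan (coneE P) x v ∧ webVal G x.ofLp v.ofLp ≠ 0} := by
  intro x₁ hx₁
  by_contra hcl
  have hW : ∀ᶠ x in 𝓝 x₁, x ∈ coneE P → ∀ v : EN N, Tan (coneE P) x v → webVal G x.ofLp v.ofLp = 0 := by
    have h1 : (closure {x | x ∈ coneE P ∧ ∃ v : EN N, Tan (coneE P) x v ∧ webVal G x.ofLp v.ofLp ≠ 0})ᶜ ∈ 𝓝 x₁ := isClosed_closure.isOpen_compl.mem_nhds hcl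
    filter_upwards [h1] with x hx hxc v hv
    by_contra h2
    exact hx (subset_closure ⟨hxc, v, hv, h2⟩)
  obtain ⟨V, hV0, hV⟩ := exists_field hP hz hsm h0 hx₀ hv₀
  -- the polynomial
  obtain ⟨S, hS⟩ : ∃ S : MvPolynomial (Fin (N + 1)) ℂ, ∀ x : Fin (N + 1) → ℂ, eval x S = webVal G x fun i => eval x (V i) := by
    refine ⟨bind₁ (Sum.elim X fun s => X s.1 * V s.2 - X s.2 * V s.1) G, fun x => ?_⟩
    unfold webVal
    rw [← coe_aeval_eq_eval, ← coe_aeval_eq_eval]
    show aeval x (bind₁ _ G) = aeval _ G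
    rw [aeval_bind₁]
    congr 1
    apply congrArg
    funext s
    rcases s with i | s
    · simp
    · simp [plk, coe_aeval_eq_eval, aeval_eq_eval]
  have hS0 : S ∈ P := by
    refine mem_of_eventually hP hz hsm hx₁ ?_
    filter_upwards [hW] with x hx hxc
    have h2 := hV x.ofLp hxc.1 hxc.2
    rw [hS]
    obtain ⟨w, hw⟩ : ∃ w : Fin (N + 1) → ℂ, w = fun i => eval x.ofLp (V i) := ⟨_, rfl⟩
    rw [← hw] at h2 ⊢
    have h3 := (conTan_three hP hz hsm hxc).2 ((LE N) w) (by
      rw [ContinuousLinearEquiv.symm_apply_apply]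
      exact h2)
    have h4 := hx hxc _ h3
    have h5 : ((LE N) w).ofLp = w := rfl
    rw [h5] at h4
    exact h4
  apply hne
  rw [← hV0, ← hS]
  exact hx₀ S hS0

end Pool.Agent.MQL
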