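import Mathlib

/-!
# MQL PBb: the bihomogeneous components of a polynomial

`comp_zero`: if a polynomial `G` vanishes at all points `(c x, d z)`, `c ≠ 0 ≠ d`, then so do its bihomogeneous components.
-/

set_option autoImplicit false

open MvPolynomial

noncomputable section

namespace Pool.Agent.MQL.PB

variable {ι : Type}

/-- the monomials of `G` of weight `n` -/
def comp (w : ι → ℕ × ℕ) (n : ℕ × ℕ) (G : MvPolynomial ι ℂ) : MvPolynomial ι ℂ :=
  ∑ s ∈ G.support with (s.sum fun i k => k • w i) = n, monomial s (coeff s G)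

/-- the value of a monomial -/
private def mv (y : ι → ℂ) (s : ι →₀ ℕ) : ℂ := s.prod fun i k => y i ^ k

private theorem mv_scale (w : ι → ℕ × ℕ) (y : ι → ℂ) (c d : ℂ) (s : ι →₀ ℕ) :
    mv (fun i => c ^ (w i).1 * d ^ (w i).2 * y i) s = c ^ (s.sum fun i k => k • w i).1 * d ^ (s.sum fun i k => k • w i).2 * mv y s := by
  simp only [mv, Finsupp.prod, Finsupp.sum, Prod.fst_sum, Prod.snd_sum, ← Finset.prod_pow_eq_pow_sum]
  rw [← Finset.prod_mul_distrib, ← Finset.prod_mul_distrib]
  refine Finset.prod_congr rfl fun i _ => ?_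
  rw [mul_pow, mul_pow, ← pow_mul, ← pow_mul]
  simp only [Prod.smul_fst, Prod.smul_snd, smul_eq_mul]
  rw [mul_comm (w i).1, mul_comm (w i).2]

private theorem eval_mono (y : ι → ℂ) (s : ι →₀ ℕ) (a : ℂ) : eval y (monomial s a) = a * mv y s := by
  rw [eval_monomial, mv]

private theorem eval_eq' (y : ι → ℂ) (G : MvPolynomial ι ℂ) : eval y G = ∑ s ∈ G.support, coeff s G * mv y s := by
  conv_lhs => rw [G.as_sum]
  rw [map_sum]
  exact Finset.sum_congr rfl fun s _ => eval_mono y s _

private theorem eval_comp (w : ι → ℕ × ℕ) (n : ℕ × ℕ) (G : MvPolynomial ι ℂ) (y : ι → ℂ) :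
    eval y (comp w n G) = ∑ s ∈ G.support with (s.sum fun i k => k • w i) = n, coeff s G * mv y s := by
  rw [comp, map_sum]
  exact Finset.sum_congr rfl fun s _ => eval_mono y s _

/-- the components are homogeneous -/
theorem eval_comp_scale (w : ι → ℕ × ℕ) (n : ℕ × ℕ) (G : MvPolynomial ι ℂ) (y : ι → ℂ) (c d : ℂ) :
    eval (fun i => c ^ (w i).1 * d ^ (w i).2 * y i) (comp w n G) = c ^ n.1 * d ^ n.2 * eval y (comp w n G) := by
  rw [eval_comp, eval_comp, Finset.mul_sum]
  refine Finset.sum_congr rfl fun s hs => ?_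
  rw [mv_scale, (Finset.mem_filter.1 hs).2]
  ring

/-- a polynomial whose components vanish at a point vanishes there -/
theorem exists_comp {w : ι → ℕ × ℕ} {G : MvPolynomial ι ℂ} {y : ι → ℂ} (h : eval y G ≠ 0) : ∃ n, eval y (comp w n G) ≠ 0 := by
  classical
  by_contra hcon
  push Not at hcon
  apply h
  rw [eval_eq', ← Finset.sum_fiberwise_of_maps_to (s := G.support) (t := G.support.image fun s => s.sum fun i k => k • w i)
    (g := fun s => s.sum fun i k => k • w i) fun s hs => Finset.mem_image_of_mem _ hs]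
  refine Finset.sum_eq_zero fun n _ => ?_
  rw [← eval_comp]
  exact hcon n

/-- **The components.** -/
theorem comp_zero {w : ι → ℕ × ℕ} {G : MvPolynomial ι ℂ} {y : ι → ℂ}
    (h : ∀ c d : ℂ, c ≠ 0 → d ≠ 0 → eval (fun i => c ^ (w i).1 * d ^ (w i).2 * y i) G = 0) (n : ℕ × ℕ) : eval y (comp w n G) = 0 := by
  classical
  obtain ⟨W, hW⟩ : ∃ W : (ι →₀ ℕ) → ℕ × ℕ, W = fun s => s.sum fun i k => k • w i := ⟨_, rfl⟩
  obtain ⟨K, hK⟩ : ∃ K : ℕ, ∀ s ∈ G.support, (W s).1 < K := by
    refine ⟨(G.support.sup fun s => (W s).1) + 1, fun s hs => Nat.lt_succ_of_le ?_⟩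
    exact Finset.le_sup (f := fun s => (W s).1) hs
  have hco : ∀ s, (s.sum fun i k => k • w i) = W s := fun s => by rw [hW]
  by_cases hn : n.1 < K
  · obtain ⟨p, hp⟩ : ∃ p : Polynomial ℂ, p = ∑ s ∈ G.support, Polynomial.monomial ((W s).1 + K * (W s).2) (coeff s G * mv y s) := ⟨_, rfl⟩
    have hp0 : p = 0 := by
      refine Polynomial.eq_zero_of_infinite_isRoot p (Set.Infinite.mono (s := {c : ℂ | c ≠ 0}) (fun c hc => ?_) ?_)
      · have hc' : c ≠ 0 := hc
        have h1 := h c (c ^ K) hc' (pow_ne_zero _ hc')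
        rw [eval_eq'] at h1
        show p.eval c = 0
        rw [hp, Polynomial.eval_finsetSum, ← h1]
        refine Finset.sum_congr rfl fun s _ => ?_
        rw [Polynomial.eval_monomial, mv_scale, hco, pow_add, pow_mul]
        ring
      · exact (Set.finite_singleton (0 : ℂ)).infinite_compl
    have h2 : p.coeff (n.1 + K * n.2) = 0 := by rw [hp0, Polynomial.coeff_zero]
    rw [eval_comp, ← h2, hp, Polynomial.finsetSum_coeff, Finset.sum_filter]
    refine Finset.sum_congr rfl fun s hs => ?_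
    rw [Polynomial.coeff_monomial, hco]
    have h3 : (W s).1 + K * (W s).2 = n.1 + K * n.2 ↔ W s = n := by
      constructor
      · intro h4
        have h5 : (W s).1 = n.1 := by
          have h6 := congrArg (fun t => t % K) h4
          simp only [Nat.add_mul_mod_self_left] at h6
          rwa [Nat.mod_eq_of_lt (hK s hs), Nat.mod_eq_of_lt hn] at h6
        have h7 : (W s).2 = n.2 := by
          rw [h5] at h4
          have h8 : K * (W s).2 = K * n.2 := Nat.add_left_cancel h4
          exact Nat.eq_of_mul_eq_mul_left (lt_of_le_of_lt (Nat.zero_le _) hn) h8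
        exact Prod.ext h5 h7
      · intro h4
        rw [h4]
    by_cases h4 : W s = n
    · rw [if_pos h4, if_pos (h3.2 h4)]
    · rw [if_neg h4, if_neg fun h5 => h4 (h3.1 h5)]
  · rw [eval_comp]
    refine Finset.sum_eq_zero fun s hs => ?_
    exfalso
    have h1 := Finset.mem_filter.1 hs
    have h2 := hK s h1.1
    rw [hco] at h1
    rw [h1.2] at h2
    exact hn h2

end Pool.Agent.MQL.PB
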