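import Pool.Agent.MQL.PBa
import Pool.Agent.MQL.PBb
import Pool.Agent.MQL.FinL
import Pool.Agent.MQL.FinSDA
import Pool.Agent.MQ3.RForm
import Pool.Agent.SR2.T.Defs

/-!
# MQL PBc: curves which satisfy an algebraic differential equation of order at most one

`exists_R_ode`: on a surface `U = X` or `U = X - {H₀ = 0}` of logarithmic general type the nonconstant entire curves `f` of order two such that all `f (c z)`
satisfy one equation `G (F, F ∧ F') = 0` lie in one algebraic curve.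
-/

set_option autoImplicit false

open Topology Filter Metric MvPolynomial

noncomputable section

namespace Pool.Agent.MQL.PB

open Pool.Agent.H36.BP (EN)
open Pool.Agent.H14.PP (Tan)
open Pool.Agent.H14.V (IsLift)
open Pool.Agent.H17 (PN VanishesAt HolomorphicInto)
open Pool.Agent.H17EF (projVar coneE)
open Pool.Agent.H13.OT (OrderTwo)
open Pool.Agent.H13.SM (conTan)
open Pool.Agent.H62.FC (Homog)
open Pool.Agent.H62.SA (locVar OnBd)
open Pool.Agent.H17LG.Variety (FunField OnBoundary IsLogGeneralType)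
open Pool.Agent.MQ3 (WDiff plk webVal IsBihom)
open Pool.Agent.SR2.T (Pt)

variable {N : ℕ}

/-- a polynomial which scales like a form is a form -/
theorem hom_of_scale {R : MvPolynomial (Fin (N + 1)) ℂ} {a : ℕ} (h : ∀ (c : ℂ) (x : Fin (N + 1) → ℂ), eval (fun i => c * x i) R = c ^ a * eval x R) :
    R.IsHomogeneous a := by
  have key : homogeneousComponent a R = R := by
    refine MvPolynomial.funext fun x => ?_
    obtain ⟨p, hp⟩ : ∃ p : Polynomial ℂ, p = ∑ i ∈ Finset.range (R.totalDegree + 1), Polynomial.monomial i (eval x (homogeneousComponent i R)) := ⟨_, rfl⟩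
    have h1 : p = Polynomial.monomial a (eval x R) := by
      refine Polynomial.funext fun c => ?_
      rw [hp, Polynomial.eval_finsetSum, Polynomial.eval_monomial]
      have h2 : eval (fun i => c * x i) R = ∑ i ∈ Finset.range (R.totalDegree + 1), c ^ i * eval x (homogeneousComponent i R) := by
        conv_lhs => rw [← sum_homogeneousComponent R]
        rw [map_sum]
        refine Finset.sum_congr rfl fun i _ => ?_
        exact Pool.Agent.H17BP.eval_smul_form (homogeneousComponent_isHomogeneous i R) c x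
      rw [h] at h2
      rw [mul_comm, h2]
      refine Finset.sum_congr rfl fun i _ => ?_
      rw [Polynomial.eval_monomial, mul_comm]
    have h3 : p.coeff a = eval x R := by rw [h1, Polynomial.coeff_monomial, if_pos rfl]
    rw [← h3, hp, Polynomial.finsetSum_coeff]
    simp only [Polynomial.coeff_monomial]
    rw [Finset.sum_ite_eq' (Finset.range (R.totalDegree + 1)) a]
    split_ifs with h4
    · rfl
    · rw [homogeneousComponent_eq_zero a R (by
        rw [Finset.mem_range] at h4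
        omega), map_zero]
  rw [← key]
  exact homogeneousComponent_isHomogeneous a R

/-- all lifts of the curve `f` satisfy the equation `G (F, F ∧ F') = 0` -/
def Sat (G : MvPolynomial (Fin (N + 1) ⊕ Fin (N + 1) × Fin (N + 1)) ℂ) (f : ℂ → PN N) : Prop :=
  ∀ F : ℂ → Fin (N + 1) → ℂ, Differentiable ℂ F → (∀ z, Pt (F z) (f z)) → ∀ z, webVal G (F z) (deriv F z) = 0

/-- the weights of the variables -/
def wt (N : ℕ) : Fin (N + 1) ⊕ Fin (N + 1) × Fin (N + 1) → ℕ × ℕ := Sum.elim (fun _ => (1, 0)) fun _ => (0, 1)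

theorem wt_scale (c d : ℂ) (x : Fin (N + 1) → ℂ) (p : Fin (N + 1) × Fin (N + 1) → ℂ) :
    (fun i => c ^ (wt N i).1 * d ^ (wt N i).2 * Sum.elim x p i) = Sum.elim (fun i => c * x i) fun s => d * p s := by
  funext i
  rcases i with i | s
  · simp [wt]
  · simp [wt]

theorem isBihom_comp (n : ℕ × ℕ) (G : MvPolynomial (Fin (N + 1) ⊕ Fin (N + 1) × Fin (N + 1)) ℂ) : IsBihom n.1 n.2 (comp (wt N) n G) := by
  intro c d x p
  rw [← wt_scale]
  exact eval_comp_scale (wt N) n G (Sum.elim x p) c d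

/-- the components of the equation are satisfied, too -/
theorem sat_comp {G : MvPolynomial (Fin (N + 1) ⊕ Fin (N + 1) × Fin (N + 1)) ℂ} {f : ℂ → PN N} (h : ∀ c : ℂ, c ≠ 0 → Sat G fun z => f (c * z))
    (n : ℕ × ℕ) {F : ℂ → Fin (N + 1) → ℂ} (hF : Differentiable ℂ F) (hFf : ∀ z, Pt (F z) (f z)) (z : ℂ) :
    webVal (comp (wt N) n G) (F z) (deriv F z) = 0 := by
  refine comp_zero (fun c d hc hd => ?_) n
  rw [wt_scale]
  obtain ⟨b, hb⟩ : ∃ b : ℂ, b = d / c ^ 2 := ⟨_, rfl⟩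
  have hb0 : b ≠ 0 := by
    rw [hb]
    exact div_ne_zero hd (pow_ne_zero 2 hc)
  obtain ⟨F', hF'⟩ : ∃ F' : ℂ → Fin (N + 1) → ℂ, F' = fun w => c • F (b * w) := ⟨_, rfl⟩
  have hd' : ∀ w, HasDerivAt F' (c • b • deriv F (b * w)) w := by
    intro w
    have h1 : HasDerivAt (fun w : ℂ => b * w) b w := by
      simpa using (hasDerivAt_id w).const_mul b
    have h2 := ((hF (b * w)).hasDerivAt.scomp w h1).const_smul c
    rw [hF']
    exact h2
  have h1 := h b hb0 F' (fun w => (hd' w).differentiableAt) (fun w => by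
    obtain ⟨h2, h3⟩ := hFf (b * w)
    rw [hF']
    refine ⟨smul_ne_zero hc h2, ?_⟩
    show f (b * w) = _
    rw [h3, Projectivization.mk_eq_mk_iff']
    exact ⟨c⁻¹, by rw [smul_smul, inv_mul_cancel₀ hc, one_smul]⟩) (z / b)
  rw [(hd' _).deriv, hF'] at h1
  have h3 : b * (z / b) = z := mul_div_cancel₀ z hb0
  simp only [h3] at h1
  unfold webVal at h1
  have h4 : (plk (c • F z) (c • b • deriv F z)) = fun s => d * plk (F z) (deriv F z) s := by
    funext s
    simp only [plk, Pi.smul_apply, smul_eq_mul]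
    rw [hb]
    field_simp
  rw [h4] at h1
  exact h1

/-- circle averages and dilations -/
theorem circleAverage_dil (g : ℂ → ℝ) (c : ℂ) (r : ℝ) :
    Real.circleAverage (fun z => g (c * z)) 0 r = Real.circleAverage g 0 (‖c‖ * r) := by
  have hc : ∀ t : ℝ, c * circleMap 0 r t = circleMap 0 (‖c‖ * r) (t + c.arg) := by
    intro t
    have h1 := Complex.norm_mul_exp_arg_mul_I c
    simp only [circleMap, zero_add]
    push_cast
    rw [add_mul, Complex.exp_add]
    conv_lhs => rw [← h1]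
    ring
  rw [Real.circleAverage_def, Real.circleAverage_def]
  congr 1
  simp only [hc]
  rw [intervalIntegral.integral_comp_add_right (f := fun t => g (circleMap 0 (‖c‖ * r) t)) c.arg]
  have hper : Function.Periodic (fun t => g (circleMap 0 (‖c‖ * r) t)) (2 * Real.pi) := (periodic_circleMap 0 (‖c‖ * r)).comp g
  have h2 := hper.intervalIntegral_add_eq (0 + c.arg) 0
  rw [show (0 : ℝ) + c.arg + 2 * Real.pi = 2 * Real.pi + c.arg by ring, zero_add (2 * Real.pi)] at h2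
  exact h2

/-- the composition of a curve of order two with a dilation -/
theorem orderTwo_mul {f : ℂ → PN N} (hf : OrderTwo f) {c : ℂ} (hc : c ≠ 0) : OrderTwo fun z => f (c * z) := by
  obtain ⟨F, A, hF, hFf, hA⟩ := hf
  refine ⟨fun z => F (c * z), |A| * (1 + ‖c‖ ^ 2), hF.comp ((differentiable_const c).mul differentiable_id), fun z => hFf (c * z), fun r hr => ?_⟩
  have hcn : 0 < ‖c‖ := norm_pos_iff.2 hc
  have h1 : Real.circleAverage (fun z => Real.log ‖F (c * z)‖) 0 r = Real.circleAverage (fun z => Real.log ‖F z‖) 0 (‖c‖ * r) :=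
    circleAverage_dil (fun z => Real.log ‖F z‖) c r
  rw [h1]
  refine (hA _ (mul_pos hcn hr)).trans ?_
  have h2 : (0 : ℝ) ≤ 1 + (‖c‖ * r) ^ 2 := by positivity
  have h3 : 1 + (‖c‖ * r) ^ 2 ≤ (1 + ‖c‖ ^ 2) * (1 + r ^ 2) := by nlinarith [sq_nonneg ‖c‖, sq_nonneg r]
  calc A * (1 + (‖c‖ * r) ^ 2) ≤ |A| * (1 + (‖c‖ * r) ^ 2) := mul_le_mul_of_nonneg_right (le_abs_self A) h2
    _ ≤ |A| * ((1 + ‖c‖ ^ 2) * (1 + r ^ 2)) := mul_le_mul_of_nonneg_left h3 (abs_nonneg A)
    _ = _ := by ring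

/-- an equation of degree zero in the derivatives is given by a form -/
theorem exists_form_zero {a : ℕ} {G : MvPolynomial (Fin (N + 1) ⊕ Fin (N + 1) × Fin (N + 1)) ℂ} (hG : IsBihom a 0 G) :
    ∃ R : MvPolynomial (Fin (N + 1)) ℂ, R.IsHomogeneous a ∧ ∀ x v, eval x R = webVal G x v := by
  obtain ⟨R, hR⟩ : ∃ R : MvPolynomial (Fin (N + 1)) ℂ, R = aeval (Sum.elim X fun _ => 0) G := ⟨_, rfl⟩
  have h1 : ∀ x : Fin (N + 1) → ℂ, eval x R = eval (Sum.elim x fun _ => 0) G := by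
    intro x
    rw [hR, ← aeval_eq_eval x, ← AlgHom.comp_apply, comp_aeval, aeval_eq_eval]
    congr 2
    funext i
    rcases i with i | i
    · simp
    · simp
  have h2 : ∀ (x : Fin (N + 1) → ℂ) (p : Fin (N + 1) × Fin (N + 1) → ℂ), eval x R = eval (Sum.elim x p) G := by
    intro x p
    have h3 := hG 1 0 x p
    simp only [one_mul, zero_mul, one_pow, pow_zero] at h3
    rw [h1, h3]
  refine ⟨R, hom_of_scale fun c x => ?_, fun x v => h2 x (plk x v)⟩
  have h3 := hG c 1 x fun _ => 0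
  simp only [mul_zero, one_pow, mul_one] at h3
  rw [h1, h1, h3]

/-- McQuillan's theorem for `U = locVar P G`: the nonconstant entire curves of order two in `U` which are tangent to a symmetric differential (of any
weight) on the surface, which is not `0` on a dense set, lie in one algebraic curve -/
def HasR (P : Ideal (MvPolynomial (Fin (N + 1)) ℂ)) {s : ℕ} (Gs : Fin s → MvPolynomial (Fin (N + 1)) ℂ) : Prop :=
  ∀ (m : ℕ), 1 ≤ m → ∀ θ : WDiff (coneE P) m, coneE P ⊆ closure {x | x ∈ coneE P ∧ ∃ v, Tan (coneE P) x v ∧ θ.toFun x v ≠ 0} →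
    ∃ (R : MvPolynomial (Fin (N + 1)) ℂ) (d : ℕ), R.IsHomogeneous d ∧ R ∉ P ∧ ∀ F : ℂ → EN N, Differentiable ℂ F → (∀ z, F z ∈ coneE P) →
      (∀ z, ∃ i, eval (F z).ofLp (Gs i) ≠ 0) → (∃ A : ℝ, ∀ r : ℝ, 0 < r → Real.circleAverage (fun z => Real.log ‖F z‖) 0 r ≤ A * (1 + r ^ 2)) →
      (∃ z w, ∀ c : ℂ, F z ≠ c • F w) → (∀ z, θ.toFun (F z) (deriv F z) = 0) → ∀ z, eval (F z).ofLp R = 0

/-- the case of the complement of one hypersurface section -/
theorem hasR_section {P : Ideal (MvPolynomial (Fin (N + 1)) ℂ)} [P.IsPrime] (hP : Homog P) (hdim : ∃ z : Fin 2 → FunField P, IsTranscendenceBasis ℂ z)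
    (hsmooth : Pool.Agent.AD.NC.IsSmooth P 2) {H₀ : MvPolynomial (Fin (N + 1)) ℂ} {e : ℕ} (hH₀ : H₀.IsHomogeneous e) (hH₀P : H₀ ∉ P)
    (hgt : IsLogGeneralType (OnBd P (fun _ : Fin 1 => H₀) (k := 2))) : HasR P fun _ : Fin 1 => H₀ := by
  intro m hm θ hθ
  have hgt' : IsLogGeneralType (K := FunField P) (k := 2) (OnBoundary P fun _ : Fin 1 => H₀) := by
    rw [Pool.Agent.MQL.onBoundary_eq_onBd]
    exact hgt
  obtain ⟨R, d, hR, hRP, h⟩ := Pool.Agent.MQL.exists_R_log hP hdim hsmooth hH₀ hH₀P hgt' hm θ hθ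
  exact ⟨R, d, hR, hRP, fun F hF hFX hav => h F hF hFX fun z => (hav z).choose_spec⟩

/-- **Curves which satisfy an algebraic differential equation of order at most one.** -/
theorem exists_R_ode {P : Ideal (MvPolynomial (Fin (N + 1)) ℂ)} [P.IsPrime] (hP : Homog P) (hdim : ∃ z : Fin 2 → FunField P, IsTranscendenceBasis ℂ z)
    (hsmooth : Pool.Agent.AD.NC.IsSmooth P 2) {s : ℕ} {Gs : Fin s → MvPolynomial (Fin (N + 1)) ℂ} (hGs : ∀ i, ∃ n, (Gs i).IsHomogeneous n)
    (hcur : HasR P Gs)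
    {G : MvPolynomial (Fin (N + 1) ⊕ Fin (N + 1) × Fin (N + 1)) ℂ} {x₀ v₀ : Fin (N + 1) → ℂ} (h0 : x₀ ≠ 0) (hx₀ : ∀ Q ∈ P, eval x₀ Q = 0)
    (hv₀ : v₀ ∈ conTan P x₀) (hne : webVal G x₀ v₀ ≠ 0) :
    ∃ (R : MvPolynomial (Fin (N + 1)) ℂ) (d : ℕ), R.IsHomogeneous d ∧ R ∉ P ∧ ∀ f : ℂ → PN N, OrderTwo f →
      (∀ z, f z ∈ locVar P Gs) → (∃ z w, f z ≠ f w) → (∀ c : ℂ, c ≠ 0 → Sat G fun z => f (c * z)) → ∀ z, VanishesAt R (f z) := by
  obtain ⟨z, hz⟩ := id hdim
  have hsm : ∀ y : Fin (N + 1) → ℂ, y ≠ 0 → (∀ Q ∈ P, eval y Q = 0) → Module.finrank ℂ (conTan P y) ≤ 3 :=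
    fun y h0 h1 => hsmooth y h0 h1
  obtain ⟨n, hn⟩ := exists_comp (w := wt N) hne
  have hb := isBihom_comp n G
  have lift : ∀ f : ℂ → PN N, OrderTwo f → ∃ F : ℂ → Fin (N + 1) → ℂ, Differentiable ℂ F ∧ ∀ z, Pt (F z) (f z) := by
    rintro f ⟨F, A, hF, hFf, hA⟩
    exact ⟨F, hF, hFf⟩
  rcases Nat.eq_zero_or_pos n.2 with h2 | h2
  · rw [h2] at hb
    obtain ⟨R, hR, hR'⟩ := exists_form_zero hb
    refine ⟨R, n.1, hR, fun hRP => ?_, fun f hf hfU hfn hs w => ?_⟩
    · have h3 : eval x₀ R = 0 := hx₀ R hRP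
      rw [hR' x₀ v₀] at h3
      exact hn h3
    · obtain ⟨F, hF, hFf⟩ := lift f hf
      obtain ⟨h4, h5⟩ := hFf w
      rw [h5, Pool.Agent.H17BP.vanishesAt_mk hR h4, hR' (F w) (deriv F w)]
      exact sat_comp hs n hF hFf w
  · have hden := Pool.Agent.MQL.dense_form hP hz hsm hb h0 hx₀ hv₀ hn
    obtain ⟨R, d, hR, hRP, h⟩ := hcur n.2 h2 (WDiff.ofForm (coneE P) hb) hden
    refine ⟨R, d, hR, hRP, fun f hf hfU hfn hs w => ?_⟩
    obtain ⟨F, hF, hFf⟩ := lift f hf
    obtain ⟨F', hF'⟩ : ∃ F' : ℂ → EN N, F' = fun z => WithLp.toLp 2 (F z) := ⟨_, rfl⟩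
    have hl : IsLift F' f := by
      rw [hF']
      exact ⟨(Pool.Agent.H17EF.LE N).differentiable.comp hF, fun z => hFf z⟩
    have hd : ∀ z, (deriv F' z).ofLp = deriv F z := by
      intro z
      have h3 : HasDerivAt F' ((Pool.Agent.H17EF.LE N) (deriv F z)) z := by
        rw [hF']
        exact (Pool.Agent.H17EF.LE N).hasFDerivAt.comp_hasDerivAt z (hF z).hasDerivAt
      rw [h3.deriv]
      rfl
    rw [Pool.Agent.H22.WL.vanishesAt_lift hl hR w]
    refine h F' hl.1 (fun z => (hl.mem_iff hP z).1 (hfU z).1) (fun z => ?_) (Pool.Agent.MQ.growth_of_orderTwo hf hl) ?_ (fun z => ?_) w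
    · obtain ⟨m, hm⟩ := (hfU z).2
      obtain ⟨k, hk⟩ := hGs m
      exact ⟨m, fun h0 => hm ((Pool.Agent.H22.WL.vanishesAt_lift hl hk z).2 h0)⟩
    · obtain ⟨a, b, hab⟩ := hfn
      refine ⟨a, b, fun c hc => hab ?_⟩
      obtain ⟨h1, h2⟩ := hl.2 a
      obtain ⟨h3, h4⟩ := hl.2 b
      rw [h2, h4, Projectivization.mk_eq_mk_iff']
      exact ⟨c, by rw [hc]; rfl⟩
    · show webVal (comp (wt N) n G) (F' z).ofLp (deriv F' z).ofLp = 0
      rw [hd z, show (F' z).ofLp = F z by rw [hF']]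
      exact sat_comp hs n hF hFf z

end Pool.Agent.MQL.PB
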