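import Pool.Agent.MQL.PBd
import Pool.Agent.MQK.FinL

/-!
# MQL PBe: pseudo Brody hyperbolic surfaces which are proper over an affine variety

McQuillan's theorem for curves of order two in the complement of an arbitrary curve (`MQK.FinL`) gives the equivalences of `PBd.tfae_gen` for all surfaces which
are proper over an affine variety.
-/

set_option autoImplicit false

open Topology Filter Metric MvPolynomial

noncomputable section

namespace Pool.Agent.MQL.PB

open Pool.Agent.H17 (PN VanishesAt HolomorphicInto ZariskiClosedIn puncturedDisc PseudoBrodyHyperbolic PseudoPicardHyperbolic)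
open Pool.Agent.H17EF (coneE LE)
open Pool.Agent.H62.SA (locVar OnBd locCone)
open Pool.Agent.H17LG.Variety (FunField IsLogGeneralType)
open Pool.Agent.H36.BPL (OpenPart)
open Pool.Agent.SR2.T (Homog HasDim Var Loc Smooth LogGT GGL Hyperbolic)
open Pool.Agent.MQL.PB.T

variable {N s : ℕ} {P : Ideal (MvPolynomial (Fin (N + 1)) ℂ)}

/-- the cone over the complement of a curve -/
theorem openPart_okG (hP : Homog P) {G : Fin s → MvPolynomial (Fin (N + 1)) ℂ} {e : Fin s → ℕ} (hG : ∀ i, (G i).IsHomogeneous (e i))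
    (hc : CurveComplement P G) : OpenPart (coneE P) (Pool.Agent.MQK.okG P G) := by
  have h := Pool.Agent.H36.LB.openPart_of_curveComplement (P := P) hP hG hc
  refine ⟨fun x hx => hx.1, fun x hx c hc0 => h.smul ((LE N).symm x) hx c hc0, fun x hx => ?_⟩
  obtain ⟨g, hg, he⟩ := h.eqn ((LE N).symm x) hx
  have ht : Tendsto (fun y => (LE N).symm y) (𝓝 x) (𝓝 ((LE N).symm x)) := (LE N).symm.continuous.continuousAt
  exact ⟨fun y => g ((LE N).symm y), AnalyticAt.comp (g := g) (f := fun y => (LE N).symm y) hg ((LE N).symm.toContinuousLinearMap.analyticAt x), ht.eventually he⟩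

/-- **McQuillan's theorem** for curves of order two in the complement of a curve -/
theorem hasR_open [P.IsPrime] (hP : Homog P) (hdim : HasDim P 2) (hs : Smooth P 2) {G : Fin s → MvPolynomial (Fin (N + 1)) ℂ}
    (hG : ∀ i, ∃ n, (G i).IsHomogeneous n) (hc : CurveComplement P G) (hgt : LogGT P G 2) : HasR P G := by
  choose e he using hG
  intro m hm θ hθ
  obtain ⟨R, d, hR, hRP, h⟩ := Pool.Agent.MQK.exists_R_open hP hdim (Pool.Agent.SR2.T.isSmooth_of hs) he (openPart_okG hP he hc) hgt hm θ hθ
  exact ⟨R, d, hR, hRP, fun F hF hFX hav => h F hF fun z => ⟨hFX z, hav z⟩⟩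

/-- **The equivalences**, for a surface which is proper over an affine variety. -/
theorem tfae_proper [P.IsPrime] (hP : Homog P) (hdim : HasDim P 2) (hs : Smooth P 2) {G : Fin s → MvPolynomial (Fin (N + 1)) ℂ} (hGP : ∃ i, G i ∉ P)
    (hpr : ProperOverAffine P G) (hgt : LogGT P G 2) :
    List.TFAE [
      ∃ E : Eqn N, Nontrivial P E ∧ ∀ f, IsCurve (Loc P G) f → Satisfies E f,
      ∃ (R : MvPolynomial (Fin (N + 1)) ℂ) (d : ℕ), R.IsHomogeneous d ∧ R ∉ P ∧ ∀ f, IsCurve (Loc P G) f → ∀ z, VanishesAt R (f z),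
      StronglyLogGT P G ∧ ∀ f, IsCurve (Loc P G) f → ∃ E : Eqn N, Nontrivial P E ∧ ∀ c : ℂ, c ≠ 0 → Satisfies E fun z => f (c * z),
      PseudoBrodyHyperbolic (Loc P G),
      PseudoPicardHyperbolic (Loc P G),
      PseudoKobayashi (Loc P G),
      GGL P G (Exc (Loc P G)),
      Hyperbolic P G] := by
  have hc : CurveComplement P G := by
    obtain ⟨M, F, e, h1, h2, h3, h4⟩ := hpr
    have hprop : Pool.Agent.H62.SA.IsProperMap P G F e := ⟨h1, h2, h3, h4⟩
    exact Pool.Agent.H36.LB.curveComplement_of_proper hprop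
  exact tfae_gen hP hdim hs hGP hpr hgt (hasR_open hP hdim hs (forms_of_proper hpr) hc hgt)

end Pool.Agent.MQL.PB
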