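import Pool.Agent.MQL.SD0

/-!
# MQL SDA: the bound near a point of an axis
-/

set_option autoImplicit false

open Topology Filter Metric MeasureTheory Asymptotics Laplacian

noncomputable section

namespace Pool.Agent.MQL

open Pool.Agent.H36.BP (EN)
open Pool.Agent.H30M (tau LogSing)
open Pool.Agent.MQ Pool.Agent.MQ2

/-- near a point of the axis `{x = 0}`: nonnegative exponent, or transversal, or in the weight -/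
theorem ax_bound {al : ℝ} (hal : -1 < al) {v : ℂ × ℂ → ℂ × ℂ} {g : ℂ × ℂ → ℂ} {q₀ : ℂ × ℂ} (h0 : q₀.1 = 0) (hv : AnalyticAt ℂ v q₀) (hv0 : v q₀ ≠ 0)
    (hg : AnalyticAt ℂ g q₀) (h : 0 ≤ al ∨ (v q₀).1 ≠ 0 ∨ ∃ g₀ : ℂ × ℂ → ℂ, AnalyticAt ℂ g₀ q₀ ∧ ∀ᶠ q in 𝓝 q₀, g q = q.1 * g₀ q) :
    ∃ C : ℝ, 0 ≤ C ∧ ∀ᶠ q in 𝓝 q₀, (al < 0 → q.1 ≠ 0) → ‖g q‖ * ‖q.1‖ ^ al ≤ C * (‖v q‖ + if al < 0 then ‖(v q).1‖ * ‖q.1‖ ^ al else 0) := by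
  have hv1 : ∀ᶠ q in 𝓝 q₀, ‖v q₀‖ / 2 < ‖v q‖ := hv.continuousAt.norm.eventually (lt_mem_nhds (half_lt_self (norm_pos_iff.2 hv0)))
  have hg1 : ∀ᶠ q in 𝓝 q₀, ‖g q‖ < ‖g q₀‖ + 1 := hg.continuousAt.norm.eventually (gt_mem_nhds (by linarith))
  have hx1 : ∀ᶠ q in 𝓝 q₀, ‖q.1‖ < 1 := by
    have h1 : ContinuousAt (fun q : ℂ × ℂ => ‖q.1‖) q₀ := by fun_prop
    refine h1.eventually (gt_mem_nhds ?_)
    show ‖q₀.1‖ < 1
    rw [h0, norm_zero]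
    exact one_pos
  have hc : 0 < ‖v q₀‖ / 2 := by
    have := norm_pos_iff.2 hv0
    linarith
  by_cases hal0 : 0 ≤ al
  · refine ⟨(‖g q₀‖ + 1) / (‖v q₀‖ / 2), by positivity, ?_⟩
    filter_upwards [hv1, hg1, hx1] with q a1 a2 a3 _
    rw [if_neg (not_lt.2 hal0), add_zero]
    have b1 : ‖q.1‖ ^ al ≤ 1 := Real.rpow_le_one (norm_nonneg _) a3.le hal0
    have b2 : ‖g q‖ * ‖q.1‖ ^ al ≤ (‖g q₀‖ + 1) * 1 := mul_le_mul a2.le b1 (Real.rpow_nonneg (norm_nonneg _) _) (by positivity)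
    have b3 : (‖g q₀‖ + 1) * 1 = (‖g q₀‖ + 1) / (‖v q₀‖ / 2) * (‖v q₀‖ / 2) := by
      rw [div_mul_cancel₀ _ hc.ne', mul_one]
    rw [b3] at b2
    exact b2.trans (mul_le_mul_of_nonneg_left a1.le (by positivity))
  · have hal1 : al < 0 := not_le.1 hal0
    rcases h with h | h | ⟨g₀, hg₀, h⟩
    · exact absurd h hal0
    · have hd : 0 < ‖(v q₀).1‖ / 2 := by
        have := norm_pos_iff.2 h
        linarith
      have hv2 : ∀ᶠ q in 𝓝 q₀, ‖(v q₀).1‖ / 2 < ‖(v q).1‖ := by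
        have h2 : ContinuousAt (fun q => ‖(v q).1‖) q₀ := (continuous_fst.continuousAt.comp hv.continuousAt).norm
        exact h2.eventually (lt_mem_nhds (half_lt_self (norm_pos_iff.2 h)))
      refine ⟨(‖g q₀‖ + 1) / (‖(v q₀).1‖ / 2), by positivity, ?_⟩
      filter_upwards [hv2, hg1] with q a1 a2 _
      rw [if_pos hal1]
      have b0 : 0 ≤ ‖q.1‖ ^ al := Real.rpow_nonneg (norm_nonneg _) _
      have b3 : ‖g q₀‖ + 1 = (‖g q₀‖ + 1) / (‖(v q₀).1‖ / 2) * (‖(v q₀).1‖ / 2) := by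
        rw [div_mul_cancel₀ _ hd.ne']
      have b2 : ‖g q‖ ≤ (‖g q₀‖ + 1) / (‖(v q₀).1‖ / 2) * ‖(v q).1‖ := by
        rw [b3] at a2
        exact a2.le.trans (mul_le_mul_of_nonneg_left a1.le (by positivity))
      have b4 : ‖g q‖ * ‖q.1‖ ^ al ≤ (‖g q₀‖ + 1) / (‖(v q₀).1‖ / 2) * ‖(v q).1‖ * ‖q.1‖ ^ al := mul_le_mul_of_nonneg_right b2 b0
      refine b4.trans ?_
      have b5 : 0 ≤ (‖g q₀‖ + 1) / (‖(v q₀).1‖ / 2) := by positivity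
      have b6 := mul_nonneg b5 (norm_nonneg (v q))
      nlinarith
    · have hg2 : ∀ᶠ q in 𝓝 q₀, ‖g₀ q‖ < ‖g₀ q₀‖ + 1 := hg₀.continuousAt.norm.eventually (gt_mem_nhds (by linarith))
      refine ⟨(‖g₀ q₀‖ + 1) / (‖v q₀‖ / 2), by positivity, ?_⟩
      filter_upwards [hv1, hg2, hx1, h] with q a1 a2 a3 a4 a5
      have hx : 0 < ‖q.1‖ := norm_pos_iff.2 (a5 hal1)
      rw [if_pos hal1, a4, norm_mul]
      have b1 : ‖q.1‖ * ‖q.1‖ ^ al = ‖q.1‖ ^ (1 + al) := by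
        rw [Real.rpow_add hx, Real.rpow_one]
      have b2 : ‖q.1‖ ^ (1 + al) ≤ 1 := Real.rpow_le_one hx.le a3.le (by linarith)
      have b3 : ‖q.1‖ * ‖g₀ q‖ * ‖q.1‖ ^ al = ‖g₀ q‖ * ‖q.1‖ ^ (1 + al) := by
        rw [← b1]
        ring
      rw [b3]
      have b4 : ‖g₀ q‖ * ‖q.1‖ ^ (1 + al) ≤ (‖g₀ q₀‖ + 1) * 1 := mul_le_mul a2.le b2 (Real.rpow_nonneg hx.le _) (by positivity)
      have b5 : (‖g₀ q₀‖ + 1) * 1 = (‖g₀ q₀‖ + 1) / (‖v q₀‖ / 2) * (‖v q₀‖ / 2) := by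
        rw [div_mul_cancel₀ _ hc.ne', mul_one]
      rw [b5] at b4
      have b6 : (‖g₀ q₀‖ + 1) / (‖v q₀‖ / 2) * (‖v q₀‖ / 2) ≤ (‖g₀ q₀‖ + 1) / (‖v q₀‖ / 2) * ‖v q‖ := mul_le_mul_of_nonneg_left a1.le (by positivity)
      have b7 : 0 ≤ (‖g₀ q₀‖ + 1) / (‖v q₀‖ / 2) * (‖(v q).1‖ * ‖q.1‖ ^ al) := by
        have := Real.rpow_nonneg hx.le al
        positivity
      rw [mul_add]
      linarith

end Pool.Agent.MQL
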