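import Pool.Agent.MQL.SD0
import Pool.Agent.MQL.SDA
import Pool.Agent.MQL.BasicD
import Pool.Agent.MQ2.StepA

/-!
# MQL SDB: the base chart of the blow-up step (logarithmic version)
-/

set_option autoImplicit false

open Topology Filter Metric MeasureTheory Asymptotics Laplacian

noncomputable section

namespace Pool.Agent.MQL

open Pool.Agent.H36.BP (EN)
open Pool.Agent.H30M (tau LogSing)
open Pool.Agent.MQ Pool.Agent.MQ2

namespace SDB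

/-- the hypothesis of `ax_bound` at the points of the axis `{x = 0}` near `0` -/
theorem ax_rad {al : ℝ} {v : ℂ × ℂ → ℂ × ℂ} {g : ℂ × ℂ → ℂ} (hv : AnalyticAt ℂ v 0) (hA : al < 0 → (∀ᶠ t in 𝓝 (0 : ℂ), (v (0, t)).1 = 0) → DivX g) :
    ∀ᶠ r in 𝓝[>] (0 : ℝ), ∀ t : ℂ, t ≠ 0 → ‖t‖ ≤ r → 0 ≤ al ∨ (v (0, t)).1 ≠ 0 ∨ ∃ g₀ : ℂ × ℂ → ℂ, AnalyticAt ℂ g₀ (0, t) ∧
      ∀ᶠ q in 𝓝 ((0 : ℂ), t), g q = q.1 * g₀ q := by
  rcases le_or_gt 0 al with h | h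
  · exact Eventually.of_forall fun r t _ _ => Or.inl h
  have h1 : AnalyticAt ℂ (fun t : ℂ => (v (0, t)).1) 0 := by
    have h2 : AnalyticAt ℂ (fun t : ℂ => ((0 : ℂ), t)) 0 := analyticAt_const.prod analyticAt_id
    have h3 : AnalyticAt ℂ (fun t : ℂ => v (0, t)) 0 := AnalyticAt.comp (g := v) (f := fun t : ℂ => ((0 : ℂ), t)) (x := 0) hv h2
    exact an_fst h3
  rcases h1.eventually_eq_zero_or_eventually_ne_zero with h2 | h2
  · obtain ⟨g₀, hg₀, hg⟩ := hA h h2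
    obtain ⟨ε, hε, hb⟩ := Metric.eventually_nhds_iff_ball.1 (hg₀.eventually_analyticAt.and hg.eventually_nhds)
    filter_upwards [mem_nhdsWithin_of_mem_nhds (gt_mem_nhds hε)] with r hr t _ ht
    have h3 : ((0 : ℂ), t) ∈ ball (0 : ℂ × ℂ) ε := by
      rw [mem_ball_zero_iff, Prod.norm_def]
      simp only [norm_zero, norm_nonneg, max_eq_right]
      linarith
    exact Or.inr (Or.inr ⟨g₀, (hb _ h3).1, (hb _ h3).2⟩)
  · rw [eventually_nhdsWithin_iff] at h2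
    obtain ⟨ε, hε, hb⟩ := Metric.eventually_nhds_iff_ball.1 h2
    filter_upwards [mem_nhdsWithin_of_mem_nhds (gt_mem_nhds hε)] with r hr t ht0 ht
    refine Or.inr (Or.inl (hb t ?_ ht0))
    rw [mem_ball_zero_iff]
    linarith

/-- the bound of the Jacobian factor -/
def Bd (al be : ℝ) (v : ℂ × ℂ → ℂ × ℂ) (q : ℂ × ℂ) : ℝ :=
  ‖v q‖ + (if al < 0 then ‖(v q).1‖ * ‖q.1‖ ^ al else 0) + if be < 0 then ‖(v q).2‖ * ‖q.2‖ ^ be else 0

theorem Bd_fst_nonneg (al : ℝ) (v : ℂ × ℂ → ℂ × ℂ) (q : ℂ × ℂ) : 0 ≤ if al < 0 then ‖(v q).1‖ * ‖q.1‖ ^ al else 0 := by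
  split_ifs
  · positivity
  · exact le_rfl

theorem Bd_snd_nonneg (be : ℝ) (v : ℂ × ℂ → ℂ × ℂ) (q : ℂ × ℂ) : 0 ≤ if be < 0 then ‖(v q).2‖ * ‖q.2‖ ^ be else 0 := by
  split_ifs
  · positivity
  · exact le_rfl

/-- the property on a set -/
def Pr (al be : ℝ) (v : ℂ × ℂ → ℂ × ℂ) (g : ℂ × ℂ → ℂ) (T : Set (ℂ × ℂ)) : Prop :=
  ∃ C : ℝ, 0 ≤ C ∧ ∀ q ∈ T, (al < 0 → q.1 ≠ 0) → (be < 0 → q.2 ≠ 0) → ‖g q‖ * (‖q.1‖ ^ al * ‖q.2‖ ^ be) ≤ C * Bd al be v q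

theorem rpow_bdd (be : ℝ) {q₀ : ℂ × ℂ} (h : q₀.2 ≠ 0) : ∃ C : ℝ, 0 ≤ C ∧ ∀ᶠ q in 𝓝 q₀, ‖q.2‖ ^ be ≤ C := by
  have h1 : ContinuousAt (fun q : ℂ × ℂ => ‖q.2‖ ^ be) q₀ := by
    have h2 : ContinuousAt (fun q : ℂ × ℂ => ‖q.2‖) q₀ := by fun_prop
    exact h2.rpow_const (Or.inl (norm_ne_zero_iff.2 h))
  have h3 : 0 ≤ ‖q₀.2‖ ^ be := by positivity
  exact ⟨‖q₀.2‖ ^ be + 1, by linarith, (h1.eventually (gt_mem_nhds (by linarith))).mono fun q hq => le_of_lt hq⟩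

theorem rpow_bdd' (al : ℝ) {q₀ : ℂ × ℂ} (h : q₀.1 ≠ 0) : ∃ C : ℝ, 0 ≤ C ∧ ∀ᶠ q in 𝓝 q₀, ‖q.1‖ ^ al ≤ C := by
  have h1 : ContinuousAt (fun q : ℂ × ℂ => ‖q.1‖ ^ al) q₀ := by
    have h2 : ContinuousAt (fun q : ℂ × ℂ => ‖q.1‖) q₀ := by fun_prop
    exact h2.rpow_const (Or.inl (norm_ne_zero_iff.2 h))
  have h3 : 0 ≤ ‖q₀.1‖ ^ al := by positivity
  exact ⟨‖q₀.1‖ ^ al + 1, by linarith, (h1.eventually (gt_mem_nhds (by linarith))).mono fun q hq => le_of_lt hq⟩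

/-- near one point -/
theorem pr_near {al be : ℝ} (hal : -1 < al) (hbe : -1 < be) {v : ℂ × ℂ → ℂ × ℂ} {g : ℂ × ℂ → ℂ} {q₀ : ℂ × ℂ} (hq : q₀ ≠ 0) (hv : AnalyticAt ℂ v q₀)
    (hv0 : v q₀ ≠ 0) (hg : AnalyticAt ℂ g q₀)
    (hx : q₀.1 = 0 → 0 ≤ al ∨ (v q₀).1 ≠ 0 ∨ ∃ g₀ : ℂ × ℂ → ℂ, AnalyticAt ℂ g₀ q₀ ∧ ∀ᶠ q in 𝓝 q₀, g q = q.1 * g₀ q)
    (hy : q₀.2 = 0 → 0 ≤ be ∨ (v q₀).2 ≠ 0 ∨ ∃ g₀ : ℂ × ℂ → ℂ, AnalyticAt ℂ g₀ q₀.swap ∧ ∀ᶠ q in 𝓝 q₀.swap, g q.swap = q.1 * g₀ q) :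
    ∃ T ∈ 𝓝 q₀, Pr al be v g T := by
  by_cases h1 : q₀.1 = 0
  · have h2 : q₀.2 ≠ 0 := fun h2 => hq (Prod.ext h1 h2)
    obtain ⟨C₁, hC₁, e1⟩ := ax_bound hal h1 hv hv0 hg (hx h1)
    obtain ⟨C₂, hC₂, e2⟩ := rpow_bdd be h2
    refine ⟨_, e1.and e2, C₁ * C₂, by positivity, fun q hq ha hb => ?_⟩
    have h3 := hq.1 ha
    have n1 := Bd_fst_nonneg al v q
    have n2 := Bd_snd_nonneg be v q
    have n3 : 0 ≤ C₁ * (‖v q‖ + if al < 0 then ‖(v q).1‖ * ‖q.1‖ ^ al else 0) := mul_nonneg hC₁ (add_nonneg (norm_nonneg _) n1)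
    calc ‖g q‖ * (‖q.1‖ ^ al * ‖q.2‖ ^ be) = (‖g q‖ * ‖q.1‖ ^ al) * ‖q.2‖ ^ be := by ring
      _ ≤ (C₁ * (‖v q‖ + if al < 0 then ‖(v q).1‖ * ‖q.1‖ ^ al else 0)) * C₂ := mul_le_mul h3 hq.2 (by positivity) n3
      _ = (C₁ * C₂) * (‖v q‖ + if al < 0 then ‖(v q).1‖ * ‖q.1‖ ^ al else 0) := by ring
      _ ≤ (C₁ * C₂) * Bd al be v q := mul_le_mul_of_nonneg_left (by unfold Bd; linarith) (by positivity)
  by_cases h2 : q₀.2 = 0
  · have hsw : AnalyticAt ℂ (fun q : ℂ × ℂ => q.swap) q₀.swap := an_swap _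
    have hv' : AnalyticAt ℂ (swv v) q₀.swap := by
      have h3 : AnalyticAt ℂ (fun q : ℂ × ℂ => v q.swap) q₀.swap :=
        AnalyticAt.comp (g := v) (f := fun q : ℂ × ℂ => q.swap) (x := q₀.swap) (by rw [Prod.swap_swap]; exact hv) hsw
      exact AnalyticAt.comp (g := fun q : ℂ × ℂ => q.swap) (f := fun q : ℂ × ℂ => v q.swap) (x := q₀.swap) (an_swap _) h3
    have hg' : AnalyticAt ℂ (fun q : ℂ × ℂ => g q.swap) q₀.swap :=
      AnalyticAt.comp (g := g) (f := fun q : ℂ × ℂ => q.swap) (x := q₀.swap) (by rw [Prod.swap_swap]; exact hg) hsw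
    have hv0' : swv v q₀.swap ≠ 0 := by
      unfold swv
      rw [Prod.swap_swap]
      intro h3
      exact hv0 (by have := congrArg Prod.swap h3; rwa [Prod.swap_swap] at this)
    have hh : 0 ≤ be ∨ (swv v q₀.swap).1 ≠ 0 ∨ ∃ g₀ : ℂ × ℂ → ℂ, AnalyticAt ℂ g₀ q₀.swap ∧ ∀ᶠ q in 𝓝 q₀.swap, g q.swap = q.1 * g₀ q := by
      have h3 := hy h2
      have h4 : (swv v q₀.swap).1 = (v q₀).2 := by
        unfold swv
        rw [Prod.swap_swap, Prod.fst_swap]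
      rwa [h4]
    obtain ⟨C₁, hC₁, e1⟩ := ax_bound (v := swv v) (g := fun q => g q.swap) hbe (by rw [Prod.fst_swap]; exact h2) hv' hv0' hg' hh
    obtain ⟨C₂, hC₂, e2⟩ := rpow_bdd' al h1
    have e3 : ∀ᶠ q in 𝓝 q₀, (be < 0 → q.swap.1 ≠ 0) → ‖g q.swap.swap‖ * ‖q.swap.1‖ ^ be ≤
        C₁ * (‖swv v q.swap‖ + if be < 0 then ‖(swv v q.swap).1‖ * ‖q.swap.1‖ ^ be else 0) :=
      (continuous_swap.tendsto q₀).eventually e1
    refine ⟨_, e3.and e2, C₁ * C₂, by positivity, fun q hq ha hb => ?_⟩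
    have h3 := hq.1 hb
    have h5 : swv v q.swap = (v q).swap := by
      unfold swv
      rw [Prod.swap_swap]
    rw [Prod.swap_swap, h5, Prod.fst_swap, Prod.fst_swap] at h3
    have h6 : ‖(v q).swap‖ = ‖v q‖ := by
      rw [Prod.norm_def, Prod.norm_def, Prod.fst_swap, Prod.snd_swap, max_comm]
    rw [h6] at h3
    have n1 := Bd_fst_nonneg al v q
    have n2 := Bd_snd_nonneg be v q
    have n3 : 0 ≤ C₁ * (‖v q‖ + if be < 0 then ‖(v q).2‖ * ‖q.2‖ ^ be else 0) := mul_nonneg hC₁ (add_nonneg (norm_nonneg _) n2)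
    calc ‖g q‖ * (‖q.1‖ ^ al * ‖q.2‖ ^ be) = (‖g q‖ * ‖q.2‖ ^ be) * ‖q.1‖ ^ al := by ring
      _ ≤ (C₁ * (‖v q‖ + if be < 0 then ‖(v q).2‖ * ‖q.2‖ ^ be else 0)) * C₂ := mul_le_mul h3 hq.2 (by positivity) n3
      _ = (C₁ * C₂) * (‖v q‖ + if be < 0 then ‖(v q).2‖ * ‖q.2‖ ^ be else 0) := by ring
      _ ≤ (C₁ * C₂) * Bd al be v q := mul_le_mul_of_nonneg_left (by unfold Bd; linarith) (by positivity)
  · obtain ⟨C₁, hC₁, e1⟩ := rpow_bdd' al h1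
    obtain ⟨C₂, hC₂, e2⟩ := rpow_bdd be h2
    have hv1 : 0 < ‖v q₀‖ := norm_pos_iff.2 hv0
    have e3 : ∀ᶠ q in 𝓝 q₀, ‖g q‖ < ‖g q₀‖ + 1 := hg.continuousAt.norm.eventually (gt_mem_nhds (by linarith))
    have e4 : ∀ᶠ q in 𝓝 q₀, ‖v q₀‖ / 2 < ‖v q‖ := hv.continuousAt.norm.eventually (lt_mem_nhds (by linarith))
    refine ⟨_, (e1.and e2).and (e3.and e4), (‖g q₀‖ + 1) * (C₁ * C₂) * (2 / ‖v q₀‖), by positivity, fun q hq ha hb => ?_⟩
    obtain ⟨⟨f1, f2⟩, f3, f4⟩ := hq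
    have n1 := Bd_fst_nonneg al v q
    have n2 := Bd_snd_nonneg be v q
    have h3 : ‖g q‖ * (‖q.1‖ ^ al * ‖q.2‖ ^ be) ≤ (‖g q₀‖ + 1) * (C₁ * C₂) :=
      mul_le_mul (le_of_lt f3) (mul_le_mul f1 f2 (by positivity) hC₁) (by positivity) (by positivity)
    have h4 : 1 ≤ (2 / ‖v q₀‖) * Bd al be v q := by
      have h5 : ‖v q₀‖ / 2 ≤ Bd al be v q := by
        unfold Bd
        linarith
      calc (1 : ℝ) = (2 / ‖v q₀‖) * (‖v q₀‖ / 2) := by field_simp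
        _ ≤ (2 / ‖v q₀‖) * Bd al be v q := mul_le_mul_of_nonneg_left h5 (by positivity)
    have h6 : 0 ≤ (‖g q₀‖ + 1) * (C₁ * C₂) := by positivity
    calc _ ≤ (‖g q₀‖ + 1) * (C₁ * C₂) * 1 := by rw [mul_one]; exact h3
      _ ≤ (‖g q₀‖ + 1) * (C₁ * C₂) * ((2 / ‖v q₀‖) * Bd al be v q) := mul_le_mul_of_nonneg_left h4 h6
      _ = _ := by ring

/-- on a compact set -/
theorem pr_compact {al be : ℝ} {v : ℂ × ℂ → ℂ × ℂ} {g : ℂ × ℂ → ℂ} {T : Set (ℂ × ℂ)} (hT : IsCompact T) (h : ∀ q ∈ T, ∃ T' ∈ 𝓝 q, Pr al be v g T') :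
    Pr al be v g T := by
  refine hT.induction_on (p := Pr al be v g) ?_ ?_ ?_ ?_
  · exact ⟨0, le_rfl, fun q hq => absurd hq (Set.notMem_empty q)⟩
  · rintro s t hst ⟨C, hC, h1⟩
    exact ⟨C, hC, fun q hq => h1 q (hst hq)⟩
  · rintro s t ⟨C, hC, h1⟩ ⟨C', hC', h2⟩
    refine ⟨C + C', by positivity, fun q hq ha hb => ?_⟩
    have n : 0 ≤ Bd al be v q := by
      have n1 := Bd_fst_nonneg al v q
      have n2 := Bd_snd_nonneg be v q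
      unfold Bd
      have := norm_nonneg (v q)
      linarith
    rcases hq with hq | hq
    · have := h1 q hq ha hb
      nlinarith
    · have := h2 q hq ha hb
      nlinarith
  · intro q hq
    obtain ⟨T', h1, h2⟩ := h q hq
    exact ⟨T', mem_nhdsWithin_of_mem_nhds h1, h2⟩

end SDB

/-- The base chart: outside a small polydisc. -/
theorem cht_baseD {al be : ℝ} (hal : -1 < al) (hbe : -1 < be) {v : ℂ × ℂ → ℂ × ℂ} {g : ℂ × ℂ → ℂ} (hv : Iso v) (hg : Wt v g) (hA : AxW al be v g) :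
    ∀ᶠ r in 𝓝[>] (0 : ℝ), ∀ (ρb s' : ℝ), 0 < ρb → s' < r → ∀ H : ℂ × ℂ → ℝ, ContDiffOn ℝ 2 H {p | p ≠ 0} → ∀ (N B : ℝ), 0 ≤ B → ∃ C : ℝ, 0 ≤ C ∧
      ∀ (Om : Set ℂ) (p : ℂ → ℂ × ℂ) (l₁ : ℂ → ℝ), Crv1 v r Om p → (∀ z ∈ Om, ∃ᶠ w in 𝓝 z, g (p w) ≠ 0) → Avoid al be Om p → (∀ z, 0 ≤ l₁ z) →
        (∀ z ∈ Om, ‖deriv p z‖ ≤ B * l₁ z) → Rt al be Om p s' l₁ →
        Cht (DDv v g p) (fun z => H (p z)) (LL v g (JD al be) p) (VV v g (JD al be) Om p) N l₁ C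
          {z | z ∈ Om ∧ p z ∈ ball (0 : ℂ × ℂ) s' ∧ p z ∉ closedBall (0 : ℂ × ℂ) ρb} ∅
          (fun z => (starRingEnd ℂ) (DDv v g p z)) (DDv v g p) (fun _ => 1) (fun _ => 0) (fun _ => 0) fun z => H (p z) := by
  obtain ⟨c, hc⟩ := RegE.exists_reg hv.1 hv.2.2 hg
  have hx := SDB.ax_rad (al := al) (g := g) hv.1 hA.fst
  have hy := SDB.ax_rad (al := be) (v := swv v) (g := fun q => g q.swap) hv.swap.1 fun h1 h2 => divY_swap (hA.snd h1 h2)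
  filter_upwards [hc, DD_cof hv.1 hv.2.2 hg, DD_bound hv.1 hv.2.2 hg, hx, hy] with r a1 a2 a3 a4 a5
  intro ρb s' hρb hs' H hH N B hB
  obtain ⟨h, hh, a2⟩ := a2
  obtain ⟨C₁, hC₁, a3⟩ := a3 ρb (Or.inl hρb)
  -- compact sets
  have hop : IsOpen {q : ℂ × ℂ | q ≠ 0} := isOpen_ne
  have hKs : closedBall (0 : ℂ × ℂ) r \ ball 0 ρb ⊆ {q : ℂ × ℂ | q ≠ 0} := fun q hq h0 => hq.2 (by rw [h0]; exact mem_ball_self hρb)
  have hK : IsCompact (closedBall (0 : ℂ × ℂ) r \ ball 0 ρb) := (isCompact_closedBall _ _).diff isOpen_ball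
  have hHc : ContinuousOn H (closedBall (0 : ℂ × ℂ) r \ ball 0 ρb) := hH.continuousOn.mono hKs
  have hHd : ContinuousOn (fderiv ℝ H) (closedBall (0 : ℂ × ℂ) r \ ball 0 ρb) := (hH.continuousOn_fderiv_of_isOpen hop (by norm_num)).mono hKs
  obtain ⟨C₂, hC₂⟩ := hK.exists_bound_of_continuousOn hHc
  obtain ⟨C₃, hC₃⟩ := hK.exists_bound_of_continuousOn hHd
  obtain ⟨C₄, hC₄, hPr⟩ := SDB.pr_compact (al := al) (be := be) (v := v) (g := g) hK fun q hq => by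
    refine SDB.pr_near hal hbe (hKs hq) (a1.van q hq.1) (a1.iso q hq.1 (hKs hq)) (a1.gan q hq.1) (fun h1 => ?_) fun h1 => ?_
    · have e : q = (0, q.2) := Prod.ext h1 rfl
      have h2 : q.2 ≠ 0 := fun h2 => hKs hq (Prod.ext h1 h2)
      have h3 := a4 q.2 h2 ((norm_snd_le q).trans (mem_closedBall_zero_iff.1 hq.1))
      rwa [← e] at h3
    · have e : q.swap = (0, q.1) := Prod.ext h1 rfl
      have h2 : q.1 ≠ 0 := fun h2 => hKs hq (Prod.ext h2 h1)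
      have h3 := a5 q.1 h2 ((norm_fst_le q).trans (mem_closedBall_zero_iff.1 hq.1))
      rw [← e] at h3
      have h4 : (swv v q.swap).1 = (v q).2 := by
        unfold swv
        rw [Prod.swap_swap, Prod.fst_swap]
      rwa [h4] at h3
  set M : ℝ := C₄ * (B + 2) + 1 with hM
  have hM1 : 1 ≤ M := by
    have : 0 ≤ C₄ * (B + 2) := by positivity
    linarith
  have hlM : 0 ≤ Real.log M := Real.log_nonneg hM1
  refine ⟨C₁ * B + |N| * |C₂| + |C₃| * B + Real.log M, by positivity, fun Om p l₁ hC hgne hAv hl0 hp hRt => ?_⟩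
  set C : ℝ := C₁ * B + |N| * |C₂| + |C₃| * B + Real.log M with hCdef
  have hC0 : 0 ≤ C := by positivity
  have m1 : 0 ≤ C₁ * B := by positivity
  have m2 : 0 ≤ |N| * |C₂| := by positivity
  have m3 : 0 ≤ |C₃| * B := by positivity
  have hC1 : C₁ * B ≤ C := by linarith
  have hC2 : |N| * |C₂| ≤ C := by linarith
  have hC3 : |C₃| * B ≤ C := by linarith
  have hC4 : Real.log M ≤ C := by linarith
  have hmem : ∀ z ∈ Om, p z ∈ closedBall (0 : ℂ × ℂ) r := fun z hz => ball_subset_closedBall (hC.mem z hz)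
  have hnb : ∀ z, p z ∉ closedBall (0 : ℂ × ℂ) ρb → p z ∉ ball (0 : ℂ × ℂ) ρb := fun z hz h1 => hz (ball_subset_closedBall h1)
  have hp0 : ∀ z, p z ∉ closedBall (0 : ℂ × ℂ) ρb → p z ≠ 0 := fun z hz h1 => hz (by rw [h1]; exact mem_closedBall_self hρb.le)
  have hvz : ∀ z ∈ Om, p z ∉ closedBall (0 : ℂ × ℂ) ρb → v (p z) ≠ 0 := fun z hz hz' => a1.iso _ (hmem z hz) (hp0 z hz')
  have hK' : ∀ z ∈ Om, p z ∉ closedBall (0 : ℂ × ℂ) ρb → p z ∈ closedBall (0 : ℂ × ℂ) r \ ball 0 ρb := fun z hz hz' => ⟨hmem z hz, hnb z hz'⟩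
  have hDan : ∀ z ∈ Om, p z ∉ closedBall (0 : ℂ × ℂ) ρb → AnalyticAt ℂ (DDv v g p) z := fun z hz hz' => by
    obtain ⟨-, b2, b3⟩ := a2 Om p hC hgne z hz (hvz z hz hz')
    have b4 : AnalyticAt ℂ (fun w => h (p w) * ztv v p w) z := ((hh _ (hmem z hz)).comp (hC.an z hz)).mul b2
    exact b4.congr (b3.mono fun w hw => hw.symm)
  have hHat : ∀ z ∈ Om, p z ∉ closedBall (0 : ℂ × ℂ) ρb → ContDiffAt ℝ 2 H (p z) := fun z hz hz' =>
    hH.contDiffAt (hop.mem_nhds (hp0 z hz'))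
  refine
    { op := ?_
      cl := isClosed_empty
      η_cd := fun z hz => contDiffAt_conj_holo (hDan z hz.1 hz.2.2)
      err_c := fun z hz => continuousAt_const
      Φ_ls := fun z hz => ⟨_, LogSing.of_contDiffAt contDiffAt_const⟩
      out := fun z hz _ => ⟨rfl, rfl, rfl⟩
      bd := fun z hz => ?_
      ineq := fun z hz _ => ?_
      X_an := fun z hz => analyticAt_const
      X_ne := fun z hz => Eventually.frequently (Eventually.of_forall fun _ => one_ne_zero)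
      X_V := fun z hz _ => one_ne_zero
      D_eq := fun z hz _ => ?_
      ell_eq := fun z hz _ => ?_
      u_cd := fun z hz => ?_
      u_gr := fun z hz => ?_
      u_bd := fun z hz => ?_
      up := fun z hz hV _ => ?_ }
  · rw [isOpen_iff_mem_nhds]
    intro z hz
    filter_upwards [hC.isOpen.mem_nhds hz.1, (hC.an z hz.1).continuousAt.eventually (isOpen_ball.mem_nhds hz.2.1),
      (hC.an z hz.1).continuousAt.eventually (isClosed_closedBall.isOpen_compl.mem_nhds hz.2.2)] with w h1 h2 h3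
    exact ⟨h1, h2, h3⟩
  · rw [RCLike.norm_conj]
    have h1 := (a3 Om p hC hgne z hz.1 (hnb z hz.2.2)).2
    have h2 : C₁ * ‖deriv p z‖ ≤ C₁ * (B * l₁ z) := mul_le_mul_of_nonneg_left (hp z hz.1) hC₁.le
    have h3 := mul_le_mul_of_nonneg_right hC1 (hl0 z)
    linarith
  · rw [dv_conj (hDan z hz.1 hz.2.2).differentiableAt]
    have h1 : Δ (fun _ : ℂ => (0 : ℝ)) z = 0 := by simp
    rw [h1]
    norm_num
  · simp
  · simp
  · exact (hHat z hz.1 hz.2.2).comp z ((hC.an z hz.1).contDiffAt.restrict_scalars ℝ)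
  · refine (gr_comp_curve ((hHat z hz.1 hz.2.2).differentiableAt (by norm_num)) (hC.an z hz.1)).trans ?_
    have h1 := hC₃ _ (hK' z hz.1 hz.2.2)
    have h2 : ‖fderiv ℝ H (p z)‖ ≤ |C₃| := h1.trans (le_abs_self _)
    calc ‖fderiv ℝ H (p z)‖ * ‖deriv p z‖ ≤ |C₃| * (B * l₁ z) := mul_le_mul h2 (hp z hz.1) (norm_nonneg _) (abs_nonneg _)
      _ = |C₃| * B * l₁ z := by ring
      _ ≤ C * l₁ z := mul_le_mul_of_nonneg_right hC3 (hl0 z)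
  · have h1 := hC₂ _ (hK' z hz.1 hz.2.2)
    rw [Real.norm_eq_abs] at h1
    calc N * H (p z) ≤ |N * H (p z)| := le_abs_self _
      _ = |N| * |H (p z)| := abs_mul _ _
      _ ≤ |N| * |C₂| := mul_le_mul_of_nonneg_left (h1.trans (le_abs_self _)) (abs_nonneg _)
      _ ≤ C := hC2
  · obtain ⟨-, b1, b2, b3⟩ := hV
    have hvp := hvz z hz.1 hz.2.2
    have n1 : 0 < ‖ztv v p z‖ := norm_pos_iff.2 b1
    have n2 : 0 < ‖g (p z)‖ := norm_pos_iff.2 b2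
    have n3 : 0 < ‖JD al be (p z)‖ := norm_pos_iff.2 b3
    have hl := hl0 z
    have h1 := hPr (p z) (hK' z hz.1 hz.2.2) (fun h => hAv.fst h z hz.1) fun h => hAv.snd h z hz.1
    rw [← JD_norm] at h1
    have hd := RegE.deriv_eq hC hz.1 hvp
    have hd0 : ‖ztv v p z‖ * ‖v (p z)‖ = ‖deriv p z‖ := by rw [hd, norm_smul]
    have hd1 : ‖ztv v p z‖ * ‖(v (p z)).1‖ = ‖(deriv p z).1‖ := by rw [hd, Prod.smul_fst, smul_eq_mul, norm_mul]
    have hd2 : ‖ztv v p z‖ * ‖(v (p z)).2‖ = ‖(deriv p z).2‖ := by rw [hd, Prod.smul_snd, smul_eq_mul, norm_mul]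
    have hR := hRt z hz.1 (ball_subset_closedBall hz.2.1)
    have hBd : ‖ztv v p z‖ * SDB.Bd al be v (p z) ≤ (B + 2) * l₁ z := by
      have q1 : ‖ztv v p z‖ * (if al < 0 then ‖(v (p z)).1‖ * ‖(p z).1‖ ^ al else 0) ≤ l₁ z := by
        split_ifs with h
        · rw [← mul_assoc, hd1]
          exact hR.1 h
        · rw [mul_zero]
          exact hl
      have q2 : ‖ztv v p z‖ * (if be < 0 then ‖(v (p z)).2‖ * ‖(p z).2‖ ^ be else 0) ≤ l₁ z := by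
        split_ifs with h
        · rw [← mul_assoc, hd2]
          exact hR.2 h
        · rw [mul_zero]
          exact hl
      unfold SDB.Bd
      rw [mul_add, mul_add, hd0]
      have := hp z hz.1
      linarith
    have h5 : ‖ztv v p z‖ * ‖g (p z)‖ * ‖JD al be (p z)‖ ≤ M * (1 + l₁ z) := by
      calc ‖ztv v p z‖ * ‖g (p z)‖ * ‖JD al be (p z)‖ = ‖ztv v p z‖ * (‖g (p z)‖ * ‖JD al be (p z)‖) := by ring
        _ ≤ ‖ztv v p z‖ * (C₄ * SDB.Bd al be v (p z)) := mul_le_mul_of_nonneg_left h1 n1.le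
        _ = C₄ * (‖ztv v p z‖ * SDB.Bd al be v (p z)) := by ring
        _ ≤ C₄ * ((B + 2) * l₁ z) := mul_le_mul_of_nonneg_left hBd hC₄
        _ = (C₄ * (B + 2)) * l₁ z := by ring
        _ ≤ M * (1 + l₁ z) := mul_le_mul (by linarith) (by linarith) hl (by linarith)
    have h6 : Real.log (‖ztv v p z‖ * ‖g (p z)‖ * ‖JD al be (p z)‖) ≤ Real.log M + Real.log (1 + l₁ z) := by
      rw [← Real.log_mul (by linarith) (by linarith)]
      exact Real.log_le_log (by positivity) h5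
    rw [Real.log_mul (by positivity) (by positivity), Real.log_mul (by positivity) (by positivity)] at h6
    unfold LL
    rw [norm_one, Real.log_one]
    linarith

end Pool.Agent.MQL
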