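import Pool.Agent.MQL.Defs
import Pool.Agent.MQ3.EnU

/-!
# MQL RootE: the root energy

`x = (p z).1` has no zeros; with `γ = 1 + al > 0` the function `|x| ^ (2 γ)` has the Laplacian `4 γ ^ 2 |x| ^ (2 al) |x'| ^ 2`, and the square of its gradient
is at most the Laplacian, if `|x| ≤ 1`.  So the cut-off costs only a multiple of `lm ^ 2` (`MQ3.core_pt` with `θ = 1 / 4`).
-/

set_option autoImplicit false

open Topology Filter Metric MeasureTheory Asymptotics Laplacian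

noncomputable section

namespace Pool.Agent.MQL

open Pool.Agent.H30M (tau LogSing gg lap_comp gg_comp gg_comm tau_nonneg rhoR_nonneg)
open Pool.Agent.MQ Pool.Agent.MQ2
open Pool.Agent.MQ3 (Crd cut Kb Inn pw rp_cd rp_deriv rp_deriv2 cd_sq gg_sq lap_sq core_pt core_int cut_mul_cont cut_mul_cd cut_bdU tau_int cut_nonneg
  cut_le_one cut_eq_zero et_one)

variable {x : ℂ → ℂ} {z : ℂ}

theorem RootE.rt_cd (γ : ℝ) (hx : AnalyticAt ℂ x z) (h0 : x z ≠ 0) : ContDiffAt ℝ 2 (pw x 0 γ) z := by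
  have hp : 0 < ‖x z‖ ^ 2 + 0 := by
    have := norm_pos_iff.2 h0
    positivity
  have h1 : ContDiffAt ℝ 2 (fun s : ℝ => (s + 0) ^ γ) ((fun w => ‖x w‖ ^ 2) z) := rp_cd hp
  exact h1.comp z (cd_sq hx)

theorem RootE.rt_gg (γ : ℝ) (hx : AnalyticAt ℂ x z) (h0 : x z ≠ 0) :
    gg (pw x 0 γ) (pw x 0 γ) z = pw x 0 γ z * (4 * γ ^ 2 * ((‖x z‖ ^ 2) ^ (γ - 1) * ‖deriv x z‖ ^ 2)) := by
  have hn := norm_pos_iff.2 h0
  have hp : 0 < ‖x z‖ ^ 2 + 0 := by positivity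
  have ce : DifferentiableAt ℝ (fun s : ℝ => (s + 0) ^ γ) (‖x z‖ ^ 2) := (rp_cd hp).differentiableAt (by norm_num)
  have cu : DifferentiableAt ℝ (fun w => ‖x w‖ ^ 2) z := (cd_sq hx).differentiableAt (by norm_num)
  have e1 : pw x 0 γ = fun w => (fun s : ℝ => (s + 0) ^ γ) ((fun w => ‖x w‖ ^ 2) w) := rfl
  have e2 : pw x 0 γ z = (‖x z‖ ^ 2) ^ (γ - 1) * ‖x z‖ ^ 2 := by
    rw [← Real.rpow_add_one (by positivity)]
    show (‖x z‖ ^ 2 + 0) ^ γ = _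
    rw [add_zero, sub_add_cancel]
  rw [e2, e1, gg_comp ce cu, gg_comm, gg_comp ce cu, rp_deriv hp, gg_sq hx, add_zero]
  ring

theorem RootE.rt_lap (γ : ℝ) (hx : AnalyticAt ℂ x z) (h0 : x z ≠ 0) :
    Δ (pw x 0 γ) z = 4 * γ ^ 2 * ((‖x z‖ ^ 2) ^ (γ - 1) * ‖deriv x z‖ ^ 2) := by
  have hn := norm_pos_iff.2 h0
  have hp : 0 < ‖x z‖ ^ 2 + 0 := by positivity
  have e1 : pw x 0 γ = fun w => (fun s : ℝ => (s + 0) ^ γ) ((fun w => ‖x w‖ ^ 2) w) := rfl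
  have e2 : (‖x z‖ ^ 2) ^ (γ - 1) = (‖x z‖ ^ 2) ^ (γ - 1 - 1) * ‖x z‖ ^ 2 := by
    rw [← Real.rpow_add_one (by positivity), sub_add_cancel]
  rw [e1, lap_comp (rp_cd hp) (cd_sq hx), rp_deriv hp, rp_deriv2 hp, gg_sq hx, lap_sq hx, add_zero, e2]
  ring

theorem root_energy {al r s B : ℝ} (hal : -1 < al) (hs : 0 < s) (hsr : s < r) (hB : 0 ≤ B) : ∃ A : ℝ, 0 ≤ A ∧ ∀ (Om : Set ℂ) (p : ℂ → ℂ × ℂ) (lm : ℂ → ℝ),
    IsOpen Om → (∀ z ∈ Om, AnalyticAt ℂ p z) → (∀ z ∈ Om, p z ∈ ball (0 : ℂ × ℂ) r) → (∀ t < r, IsClosed {z | z ∈ Om ∧ p z ∈ closedBall (0 : ℂ × ℂ) t}) →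
    (∀ z ∈ Om, (p z).1 ≠ 0) → Continuous lm → (∀ z, 0 ≤ lm z) → (∀ z ∈ Om, ‖deriv p z‖ ≤ B * lm z) →
    ∃ (l₁ : ℂ → ℝ) (K : ℝ), Continuous l₁ ∧ (∀ z, lm z ≤ l₁ z) ∧ (∀ R, 1 ≤ R → ∫ z, tau R z * l₁ z ^ 2 ≤ A * (∫ z, tau R z * lm z ^ 2) + K) ∧
      ∀ z ∈ Om, p z ∈ closedBall (0 : ℂ × ℂ) s → ‖(deriv p z).1‖ * ‖(p z).1‖ ^ al ≤ l₁ z := by
  have _ := hB
  have hr : 0 < r := hs.trans hsr
  obtain ⟨γ, hγ⟩ : ∃ γ : ℝ, γ = 1 + al := ⟨_, rfl⟩
  have hγ0 : 0 < γ := by linarith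
  obtain ⟨σ, hσ⟩ : ∃ σ : ℝ, σ = s / r := ⟨_, rfl⟩
  have hσ0 : 0 < σ := by rw [hσ]; positivity
  have hσ1 : σ < 1 := by rw [hσ, div_lt_one hr]; exact hsr
  obtain ⟨a, ha⟩ : ∃ a : ℝ, a = σ ^ 2 := ⟨_, rfl⟩
  obtain ⟨b, hb⟩ : ∃ b : ℝ, b = (1 + a) / 2 := ⟨_, rfl⟩
  have ha1 : a < 1 := by rw [ha]; nlinarith
  have ha0 : 0 < a := by rw [ha]; positivity
  have hb0 : 0 ≤ b := by rw [hb]; linarith
  have hab : a < b := by rw [hb]; linarith
  have hb1 : b < 1 := by rw [hb]; linarith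
  obtain ⟨C1, hC10, hC1⟩ := cut_bdU hb0 hab hb1 (B / r)
  obtain ⟨k, hk⟩ : ∃ k : ℝ, k = (r ^ γ) ^ 2 / γ ^ 2 := ⟨_, rfl⟩
  have hk0 : 0 ≤ k := by rw [hk]; positivity
  refine ⟨2 + k * (12 * C1), by positivity, fun Om p lm hOm hp hpr hcl hx0 hlm hlm0 hder => ?_⟩
  obtain ⟨X, hX⟩ : ∃ X : ℂ → ℂ, X = fun z => (p z).1 / r := ⟨_, rfl⟩
  obtain ⟨Y, hY⟩ : ∃ Y : ℂ → ℂ, Y = fun z => (p z).2 / r := ⟨_, rfl⟩
  have hXn : ∀ z, ‖X z‖ = ‖(p z).1‖ / r := fun z => by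
    rw [hX]
    show ‖(p z).1 / (r : ℂ)‖ = _
    rw [norm_div, Complex.norm_real, Real.norm_of_nonneg hr.le]
  have hYn : ∀ z, ‖Y z‖ = ‖(p z).2‖ / r := fun z => by
    rw [hY]
    show ‖(p z).2 / (r : ℂ)‖ = _
    rw [norm_div, Complex.norm_real, Real.norm_of_nonneg hr.le]
  have hXd : ∀ z ∈ Om, HasDerivAt X ((deriv p z).1 / r) z := fun z hz => by
    have h1 : HasDerivAt p (deriv p z) z := (hp z hz).differentiableAt.hasDerivAt
    have h2 : HasDerivAt (fun w => (p w).1) (deriv p z).1 z := h1.fst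
    rw [hX]
    exact h2.div_const (r : ℂ)
  have hYd : ∀ z ∈ Om, HasDerivAt Y ((deriv p z).2 / r) z := fun z hz => by
    have h1 : HasDerivAt p (deriv p z) z := (hp z hz).differentiableAt.hasDerivAt
    have h2 : HasDerivAt (fun w => (p w).2) (deriv p z).2 z := h1.snd
    rw [hY]
    exact h2.div_const (r : ℂ)
  have hXn' : ∀ z ∈ Om, ‖deriv X z‖ = ‖(deriv p z).1‖ / r := fun z hz => by
    rw [(hXd z hz).deriv, norm_div, Complex.norm_real, Real.norm_of_nonneg hr.le]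
  have hYn' : ∀ z ∈ Om, ‖deriv Y z‖ = ‖(deriv p z).2‖ / r := fun z hz => by
    rw [(hYd z hz).deriv, norm_div, Complex.norm_real, Real.norm_of_nonneg hr.le]
  have hcrd : Crd Om X Y := by
    refine ⟨hOm, fun z hz => (hXd z hz).differentiableAt.differentiableWithinAt, fun z hz => (hYd z hz).differentiableAt.differentiableWithinAt, fun t ht => ?_⟩
    have h1 : {z | z ∈ Om ∧ ‖X z‖ ≤ t ∧ ‖Y z‖ ≤ t} = {z | z ∈ Om ∧ p z ∈ closedBall (0 : ℂ × ℂ) (t * r)} := by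
      ext z
      simp only [Set.mem_ofPred_eq, mem_closedBall_zero_iff]
      rw [hXn, hYn, div_le_iff₀ hr, div_le_iff₀ hr, Prod.norm_def, max_le_iff]
    rw [h1]
    exact hcl _ (by nlinarith)
  have hX0 : ∀ z ∈ Om, X z ≠ 0 := fun z hz => by
    rw [← norm_pos_iff, hXn]
    exact div_pos (norm_pos_iff.2 (hx0 z hz)) hr
  have hX1 : ∀ z ∈ Om, ‖X z‖ ≤ 1 := fun z hz => by
    rw [hXn, div_le_one hr]
    have h1 := hpr z hz
    rw [mem_ball_zero_iff] at h1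
    exact (norm_fst_le (p z)).trans h1.le
  have hXa : ∀ z ∈ Om, AnalyticAt ℂ X z := fun z hz => hcrd.ax hz
  obtain ⟨D, hD⟩ : ∃ D : ℂ → ℝ, D = fun z => (‖X z‖ ^ 2) ^ (γ - 1) * ‖deriv X z‖ ^ 2 := ⟨_, rfl⟩
  have hD0 : ∀ z, 0 ≤ D z := fun z => by
    rw [hD]
    exact mul_nonneg (Real.rpow_nonneg (sq_nonneg _) _) (sq_nonneg _)
  obtain ⟨ch, hch⟩ : ∃ ch : ℂ → ℝ, ch = cut Om X Y a b := ⟨_, rfl⟩
  have hch0 : ∀ z, 0 ≤ ch z := fun z => by rw [hch]; exact cut_nonneg _ _ _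
  have hch1 : ∀ z, ch z ≤ 1 := fun z => by rw [hch]; exact cut_le_one _ _ _
  have hg1 : ∀ z ∈ Om, pw X 0 γ z ≤ 1 := fun z hz => by
    show (‖X z‖ ^ 2 + 0) ^ γ ≤ 1
    rw [add_zero]
    exact Real.rpow_le_one (sq_nonneg _) (pow_le_one₀ (norm_nonneg _) (hX1 z hz)) hγ0.le
  have hg0 : ∀ z, 0 ≤ pw X 0 γ z := fun z => Real.rpow_nonneg (by positivity) _
  -- the pointwise inequality
  have hpt : ∀ z, ch z ^ 2 * (2 * γ ^ 2 * D z) ≤ Δ (fun w => ch w ^ 2 * pw X 0 γ w) z + 12 * C1 * lm z ^ 2 + 0 := by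
    intro z
    by_cases hz : z ∈ Om
    · have h1 := core_pt (l := lm) hcrd hb0 hab hb1 hC10 (hC1 Om X Y lm hcrd hlm0 fun z hz => ?_) hz (RootE.rt_cd γ (hXa z hz) (hX0 z hz)) (C0 := 1) (θ := 1 / 4)
        (H := gg (pw X 0 γ) (pw X 0 γ) z) (by norm_num) (by norm_num) (by
          rw [RootE.rt_gg γ (hXa z hz) (hX0 z hz)]
          have := hD0 z
          rw [hD] at this
          have h2 := hg0 z
          positivity) (fun _ _ => ⟨by rw [abs_of_nonneg (hg0 z)]; exact hg1 z hz, le_rfl⟩)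
      · rw [RootE.rt_lap γ (hXa z hz) (hX0 z hz), RootE.rt_gg γ (hXa z hz) (hX0 z hz), ← hch] at h1
        have e1 : (‖X z‖ ^ 2) ^ (γ - 1) * ‖deriv X z‖ ^ 2 = D z := by rw [hD]
        rw [e1] at h1
        have h2 : ch z ^ 2 * (pw X 0 γ z * (4 * γ ^ 2 * D z)) ≤ ch z ^ 2 * (1 * (4 * γ ^ 2 * D z)) := by
          refine mul_le_mul_of_nonneg_left (mul_le_mul_of_nonneg_right (hg1 z hz) ?_) (sq_nonneg _)
          have := hD0 z
          positivity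
        nlinarith
      · have h3 := norm_fst_le (deriv p z)
        have h4 := norm_snd_le (deriv p z)
        have h5 := hder z hz.1
        rw [hXn' z hz.1, hYn' z hz.1]
        constructor
        · rw [div_mul_eq_mul_div]
          exact div_le_div_of_nonneg_right (h3.trans h5) hr.le
        · rw [div_mul_eq_mul_div]
          exact div_le_div_of_nonneg_right (h4.trans h5) hr.le
    · have hzK : z ∉ Kb Om X Y b := fun h => hz h.1
      have h1 : ch z = 0 := by rw [hch]; exact cut_eq_zero hab hzK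
      have h2 : Δ (fun w => ch w ^ 2 * pw X 0 γ w) z = 0 := by
        have h3 := Pool.Agent.MQ3.cut_mul_zero hcrd hb0 hab hb1 (pw X 0 γ) hzK
        rw [← hch] at h3
        rw [Pool.Agent.H30M.lap_congr h3, Pool.Agent.H30M.lap_eq contDiffAt_const]
        simp
      rw [h1, h2]
      have : 0 ≤ 12 * C1 * lm z ^ 2 := by positivity
      simpa using this
  have hGcd : ContDiff ℝ 2 fun w => ch w ^ 2 * pw X 0 γ w := by
    rw [hch]
    exact cut_mul_cd hcrd hb0 hab hb1 fun z hz => RootE.rt_cd γ (hXa z hz) (hX0 z hz)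
  have hDc : ContinuousOn D Om := by
    rw [hD]
    intro z hz
    have h1 : ContinuousAt (fun z => ‖X z‖ ^ 2) z := (hXa z hz).continuousAt.norm.pow 2
    have h2 : ContinuousAt (fun z => ‖deriv X z‖ ^ 2) z := (hXa z hz).deriv.continuousAt.norm.pow 2
    exact ((h1.rpow_const (Or.inl (pow_ne_zero 2 (norm_ne_zero_iff.2 (hX0 z hz))))).mul h2).continuousWithinAt
  have hPc : Continuous fun z => ch z ^ 2 * (2 * γ ^ 2 * D z) := by
    rw [hch]
    exact cut_mul_cont hcrd hb0 hab hb1 (continuousOn_const.mul hDc)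
  have hchD : Continuous fun z => ch z ^ 2 * D z := by
    rw [hch]
    exact cut_mul_cont hcrd hb0 hab hb1 hDc
  have hG1 : ∀ z, ch z ^ 2 * pw X 0 γ z ≤ 1 := by
    intro z
    by_cases hz : z ∈ Om
    · exact mul_le_one₀ (pow_le_one₀ (hch0 z) (hch1 z)) (hg0 z) (hg1 z hz)
    · have h1 : ch z = 0 := by rw [hch]; exact cut_eq_zero hab fun h => hz h.1
      rw [h1]
      norm_num
  have hint : ∀ R, 1 ≤ R → ∫ z, tau R z * (ch z ^ 2 * (2 * γ ^ 2 * D z)) ≤ 2 * Real.pi * 1 + 0 + 12 * C1 * (1 * ∫ z, tau R z * lm z ^ 2) +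
      ∫ z, tau R z * (0 : ℝ) := fun R hR =>
    core_int (l := lm) (fun R hR => tau_int hR (hlm.pow 2)) (B := 1) (e := fun R => ∫ z, tau R z * lm z ^ 2) (fun R _ => by rw [one_mul]) hGcd hPc
      continuous_const (by positivity) hpt hG1 (by
        rw [neg_zero]
        exact integral_nonneg fun z => mul_nonneg (rhoR_nonneg _ _) (mul_nonneg (sq_nonneg _) (hg0 z))) hR
  -- the density
  obtain ⟨m, hm⟩ : ∃ m : ℂ → ℝ, m = fun z => Real.sqrt (ch z ^ 2 * D z) := ⟨_, rfl⟩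
  have hm2 : ∀ z, m z ^ 2 = ch z ^ 2 * D z := fun z => by
    rw [hm]
    exact Real.sq_sqrt (mul_nonneg (sq_nonneg _) (hD0 z))
  have hm0 : ∀ z, 0 ≤ m z := fun z => by rw [hm]; exact Real.sqrt_nonneg _
  have hmc : Continuous m := by
    rw [hm]
    exact Real.continuous_sqrt.comp hchD
  have hrγ : 0 < r ^ γ := Real.rpow_pos_of_pos hr _
  refine ⟨fun z => lm z + r ^ γ * m z, k * (2 * Real.pi), hlm.add (continuous_const.mul hmc), fun z => ?_, fun R hR => ?_, fun z hz hps => ?_⟩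
  · exact le_add_of_nonneg_right (mul_nonneg hrγ.le (hm0 z))
  · have i1 : Integrable fun z => tau R z * lm z ^ 2 := tau_int hR (hlm.pow 2)
    have i2 : Integrable fun z => tau R z * (ch z ^ 2 * (2 * γ ^ 2 * D z)) := tau_int hR hPc
    have h1 : ∫ z, tau R z * (lm z + r ^ γ * m z) ^ 2 ≤ ∫ z, (2 * (tau R z * lm z ^ 2) + k * (tau R z * (ch z ^ 2 * (2 * γ ^ 2 * D z)))) := by
      refine integral_mono (tau_int hR ((hlm.add (continuous_const.mul hmc)).pow 2))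
        ((i1.const_mul 2).add (i2.const_mul k)) fun z => ?_
      have h2 : (lm z + r ^ γ * m z) ^ 2 ≤ 2 * lm z ^ 2 + 2 * ((r ^ γ) ^ 2 * m z ^ 2) := by nlinarith [sq_nonneg (lm z - r ^ γ * m z)]
      rw [hm2] at h2
      have h3 : 2 * ((r ^ γ) ^ 2 * (ch z ^ 2 * D z)) = k * (ch z ^ 2 * (2 * γ ^ 2 * D z)) := by
        rw [hk]
        field_simp
      rw [h3] at h2
      have h4 := mul_le_mul_of_nonneg_left h2 (tau_nonneg hR z)
      show tau R z * (lm z + r ^ γ * m z) ^ 2 ≤ 2 * (tau R z * lm z ^ 2) + k * (tau R z * (ch z ^ 2 * (2 * γ ^ 2 * D z)))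
      nlinarith
    rw [integral_add (i1.const_mul 2) (i2.const_mul k), integral_const_mul, integral_const_mul] at h1
    have h2 := hint R hR
    simp only [mul_zero, integral_zero, mul_one, add_zero, one_mul] at h2
    have h3 := mul_le_mul_of_nonneg_left h2 hk0
    refine h1.trans ?_
    nlinarith
  · have hXs : ‖X z‖ ≤ σ := by
      rw [hXn, hσ]
      rw [mem_closedBall_zero_iff] at hps
      exact div_le_div_of_nonneg_right ((norm_fst_le (p z)).trans hps) hr.le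
    have hYs : ‖Y z‖ ≤ σ := by
      rw [hYn, hσ]
      rw [mem_closedBall_zero_iff] at hps
      exact div_le_div_of_nonneg_right ((norm_snd_le (p z)).trans hps) hr.le
    have hc : ch z = 1 := by
      rw [hch]
      unfold cut
      rw [if_pos hz, et_one hab (by rw [ha]; exact pow_le_pow_left₀ (norm_nonneg _) hXs 2),
        et_one hab (by rw [ha]; exact pow_le_pow_left₀ (norm_nonneg _) hYs 2), one_mul]
    have hxp : 0 < ‖(p z).1‖ := norm_pos_iff.2 (hx0 z hz)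
    have hXp : 0 < ‖X z‖ := norm_pos_iff.2 (hX0 z hz)
    have h1 : m z = ‖X z‖ ^ al * ‖deriv X z‖ := by
      rw [hm, hD]
      show Real.sqrt (ch z ^ 2 * ((‖X z‖ ^ 2) ^ (γ - 1) * ‖deriv X z‖ ^ 2)) = _
      rw [hc]
      have h2 : (‖X z‖ ^ 2) ^ (γ - 1) = (‖X z‖ ^ al) ^ 2 := by
        rw [← Real.rpow_natCast (‖X z‖ ^ al) 2, ← Real.rpow_mul hXp.le, ← Real.rpow_natCast ‖X z‖ 2, ← Real.rpow_mul hXp.le, hγ]
        congr 1
        push_cast
        ring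
      rw [h2, one_pow, one_mul, ← mul_pow, Real.sqrt_sq (by positivity)]
    have h2 : ‖(deriv p z).1‖ * ‖(p z).1‖ ^ al = r ^ γ * m z := by
      rw [h1, hXn, hXn' z hz, Real.div_rpow hxp.le hr.le, hγ, Real.rpow_add hr, Real.rpow_one]
      have h3 : 0 < r ^ al := Real.rpow_pos_of_pos hr _
      field_simp
    rw [h2]
    exact le_add_of_nonneg_left (hlm0 z)

end Pool.Agent.MQL
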