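import Pool.Agent.MQL.SD0
import Pool.Agent.MQL.BasicD
import Pool.Agent.MQL.RootE
import Pool.Agent.MQ2.SingF
import Pool.Agent.MQ2.Energy
import Pool.Agent.H17BP.Div

/-!
# MQL SDE: the density of the blow-up step, the tangent directions, the weights of the children
-/

set_option autoImplicit false

open Topology Filter Metric MeasureTheory Asymptotics Laplacian

noncomputable section

namespace Pool.Agent.MQL

open Pool.Agent.H36.BP (EN)
open Pool.Agent.H30M (tau LogSing)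
open Pool.Agent.MQ Pool.Agent.MQ2

/-! ## the density -/

namespace SDE

theorem int_tau {l : ℂ → ℝ} (hl : Continuous l) {R : ℝ} (hR : 1 ≤ R) : Integrable fun z => tau R z * l z ^ 2 :=
  ((Pool.Agent.H30M.contDiff_tau R).continuous.mul (hl.pow 2)).integrable_of_hasCompactSupport (Pool.Agent.H30M.hcs_tau hR).mul_right

/-- the maximum of two densities -/
theorem max_dens {l l' lm : ℂ → ℝ} (hl : Continuous l) (hl' : Continuous l') (h : ∀ z, 0 ≤ l z) (h' : ∀ z, 0 ≤ l' z) {A A' K K' : ℝ}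
    (he : ∀ R, 1 ≤ R → ∫ z, tau R z * l z ^ 2 ≤ A * (∫ z, tau R z * lm z ^ 2) + K)
    (he' : ∀ R, 1 ≤ R → ∫ z, tau R z * l' z ^ 2 ≤ A' * (∫ z, tau R z * lm z ^ 2) + K') :
    ∀ R, 1 ≤ R → ∫ z, tau R z * max (l z) (l' z) ^ 2 ≤ (A + A') * (∫ z, tau R z * lm z ^ 2) + (K + K') := by
  intro R hR
  have h1 : ∫ z, tau R z * max (l z) (l' z) ^ 2 ≤ ∫ z, (tau R z * l z ^ 2 + tau R z * l' z ^ 2) := by
    refine integral_mono (int_tau (hl.max hl') hR) ((int_tau hl hR).add (int_tau hl' hR)) fun z => ?_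
    show tau R z * max (l z) (l' z) ^ 2 ≤ tau R z * l z ^ 2 + tau R z * l' z ^ 2
    rw [← mul_add]
    refine mul_le_mul_of_nonneg_left ?_ (Pool.Agent.H30M.tau_nonneg hR z)
    rcases max_choice (l z) (l' z) with h2 | h2 <;> rw [h2]
    · exact le_add_of_nonneg_right (sq_nonneg _)
    · exact le_add_of_nonneg_left (sq_nonneg _)
  rw [integral_add (int_tau hl hR) (int_tau hl' hR)] at h1
  have h2 := he R hR
  have h3 := he' R hR
  linarith

end SDE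

open SDE in
/-- `energy` of MQ2/Energy, then `root_energy` for both axes (exchanged coordinates for `{y = 0}`) -/
theorem exists_l1 {al be r s B : ℝ} (hal : -1 < al) (hbe : -1 < be) (hs : 0 < s) (hsr : s < r) (hB : 0 ≤ B) : ∃ A : ℝ, 0 ≤ A ∧
    ∀ (Om : Set ℂ) (p : ℂ → ℂ × ℂ) (lm : ℂ → ℝ), IsOpen Om → (∀ z ∈ Om, AnalyticAt ℂ p z) → (∀ z ∈ Om, p z ∈ ball (0 : ℂ × ℂ) r) →
    (∀ t < r, IsClosed {z | z ∈ Om ∧ p z ∈ closedBall (0 : ℂ × ℂ) t}) → (∀ z ∈ Om, ∃ᶠ w in 𝓝 z, p w ≠ 0) → Avoid al be Om p → Continuous lm →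
    (∀ z, 0 ≤ lm z) → (∀ z ∈ Om, ‖deriv p z‖ ≤ B * lm z) →
    ∃ (l₁ : ℂ → ℝ) (K : ℝ), Continuous l₁ ∧ (∀ z, lm z ≤ l₁ z) ∧ (∀ R, 1 ≤ R → ∫ z, tau R z * l₁ z ^ 2 ≤ A * (∫ z, tau R z * lm z ^ 2) + K) ∧
      EnB Om p s l₁ ∧ Rt al be Om p s l₁ := by
  obtain ⟨A₁, hA₁, h₁⟩ := energy hs hsr hB
  obtain ⟨A₂, hA₂, h₂⟩ := root_energy hal hs hsr hB
  obtain ⟨A₃, hA₃, h₃⟩ := root_energy hbe hs hsr hB
  refine ⟨A₁ + ((A₂ + 1) + (A₃ + 1)), by positivity, ?_⟩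
  intro Om p lm hO hpa hpb hpc hpn hAv hlc hl0 hpB
  obtain ⟨l₁, K₁, a1, a2, a3, a4⟩ := h₁ Om p lm hO hpa hpb hpc hpn hlc hl0 hpB
  have hone : ∀ R, 1 ≤ R → ∫ z, tau R z * lm z ^ 2 ≤ 1 * (∫ z, tau R z * lm z ^ 2) + 0 := fun R _ => by rw [one_mul, add_zero]
  have hI : ∀ R : ℝ, 1 ≤ R → 0 ≤ ∫ z, tau R z * lm z ^ 2 := fun R hR => integral_nonneg fun z => mul_nonneg (Pool.Agent.H30M.tau_nonneg hR z) (sq_nonneg _)
  -- the first axis
  obtain ⟨l₂, K₂, b1, b2, b3, b4⟩ : ∃ (l₂ : ℂ → ℝ) (K₂ : ℝ), Continuous l₂ ∧ (∀ z, lm z ≤ l₂ z) ∧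
      (∀ R, 1 ≤ R → ∫ z, tau R z * l₂ z ^ 2 ≤ (A₂ + 1) * (∫ z, tau R z * lm z ^ 2) + K₂) ∧
      ∀ z ∈ Om, p z ∈ closedBall (0 : ℂ × ℂ) s → al < 0 → ‖(deriv p z).1‖ * ‖(p z).1‖ ^ al ≤ l₂ z := by
    by_cases ha : al < 0
    · obtain ⟨l₂, K₂, b1, b2, b3, b4⟩ := h₂ Om p lm hO hpa hpb hpc (hAv.fst ha) hlc hl0 hpB
      refine ⟨l₂, K₂, b1, b2, fun R hR => (b3 R hR).trans ?_, fun z hz hz' _ => b4 z hz hz'⟩
      nlinarith [hI R hR]
    · refine ⟨lm, 0, hlc, fun z => le_rfl, fun R hR => ?_, fun z _ _ h => absurd h ha⟩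
      nlinarith [hI R hR, mul_nonneg hA₂ (hI R hR)]
  -- the second axis
  obtain ⟨l₃, K₃, c1, c2, c3, c4⟩ : ∃ (l₃ : ℂ → ℝ) (K₃ : ℝ), Continuous l₃ ∧ (∀ z, lm z ≤ l₃ z) ∧
      (∀ R, 1 ≤ R → ∫ z, tau R z * l₃ z ^ 2 ≤ (A₃ + 1) * (∫ z, tau R z * lm z ^ 2) + K₃) ∧
      ∀ z ∈ Om, p z ∈ closedBall (0 : ℂ × ℂ) s → be < 0 → ‖(deriv p z).2‖ * ‖(p z).2‖ ^ be ≤ l₃ z := by
    by_cases hb : be < 0
    · have hd : ∀ z ∈ Om, deriv (fun w => (p w).swap) z = (deriv p z).swap := fun z hz => deriv_swap (hpa z hz).differentiableAt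
      have hball : ∀ (t : ℝ) (z : ℂ), (p z).swap ∈ closedBall (0 : ℂ × ℂ) t ↔ p z ∈ closedBall (0 : ℂ × ℂ) t := by
        intro t z
        rw [mem_closedBall_zero_iff, mem_closedBall_zero_iff, norm_swap']
      obtain ⟨l₃, K₃, c1, c2, c3, c4⟩ := h₃ Om (fun z => (p z).swap) lm hO (fun z hz => (an_swap (p z)).comp (hpa z hz))
        (fun z hz => by
          have := hpb z hz
          rw [mem_ball_zero_iff] at this ⊢
          rwa [norm_swap'])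
        (fun t ht => by
          convert hpc t ht using 4 with z
          exact hball t z)
        (fun z hz => hAv.snd hb z hz) hlc hl0 (fun z hz => by
          rw [hd z hz, norm_swap']
          exact hpB z hz)
      refine ⟨l₃, K₃, c1, c2, fun R hR => (c3 R hR).trans ?_, fun z hz hz' _ => ?_⟩
      · nlinarith [hI R hR]
      · have h5 := c4 z hz ((hball s z).2 hz')
        rw [hd z hz] at h5
        exact h5
    · refine ⟨lm, 0, hlc, fun z => le_rfl, fun R hR => ?_, fun z _ _ h => absurd h hb⟩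
      nlinarith [hI R hR, mul_nonneg hA₃ (hI R hR)]
  have hl₁ : ∀ z, 0 ≤ l₁ z := fun z => (hl0 z).trans (a2 z)
  have hl₂ : ∀ z, 0 ≤ l₂ z := fun z => (hl0 z).trans (b2 z)
  have hl₃ : ∀ z, 0 ≤ l₃ z := fun z => (hl0 z).trans (c2 z)
  refine ⟨fun z => max (l₁ z) (max (l₂ z) (l₃ z)), K₁ + (K₂ + K₃), a1.max (b1.max c1), fun z => (a2 z).trans (le_max_left _ _),
    max_dens a1 (b1.max c1) hl₁ (fun z => (hl₂ z).trans (le_max_left _ _)) a3 (max_dens b1 c1 hl₂ hl₃ b3 c3), ?_, ?_⟩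
  · intro z hz hz'
    obtain ⟨e1, e2⟩ := a4 z hz hz'
    exact ⟨fun h ha hb => (e1 h ha hb).trans (mul_le_mul_of_nonneg_left (le_max_left _ _) (by positivity)),
      fun h ha hb => (e2 h ha hb).trans (mul_le_mul_of_nonneg_left (le_max_left _ _) (by positivity))⟩
  · intro z hz hz'
    exact ⟨fun h => (b4 z hz hz' h).trans ((le_max_left _ _).trans (le_max_right _ _)),
      fun h => (c4 z hz hz' h).trans ((le_max_right _ _).trans (le_max_right _ _))⟩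

/-! ## the tangent directions -/

namespace SDE

/-- the first component of the transforms near the point at infinity -/
theorem child_inf1 {e ι : ℕ} {v : ℂ × ℂ → ℂ × ℂ} {w : ℂ → ℂ × ℂ → ℂ × ℂ} {wi : ℂ × ℂ → ℂ × ℂ} (hw : ∀ t, Child e ι t v (w t))
    (hwi : Child e ι 0 (swv v) wi) : ∀ᶠ u in 𝓝[≠] (0 : ℂ), u ^ e * (w u⁻¹ 0).1 = u * (wi (0, u)).1 := by
  have hc : Tendsto (fun u : ℂ => ((0 : ℂ), u)) (𝓝[≠] (0 : ℂ)) (𝓝 (0 : ℂ × ℂ)) := by
    have : Continuous fun u : ℂ => ((0 : ℂ), u) := by fun_prop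
    exact (this.tendsto' 0 0 rfl).mono_left nhdsWithin_le_nhds
  have e1 : ∀ᶠ u in 𝓝[≠] (0 : ℂ), AnalyticAt ℂ wi (0, u) := hc.eventually hwi.an.eventually_analyticAt
  have e2 : ∀ᶠ u in 𝓝[≠] (0 : ℂ), ∀ᶠ p in 𝓝 ((0 : ℂ), u), (swv v (be 0 p)).1 = p.1 ^ e * (wi p).1 :=
    hc.eventually (eventually_eventually_nhds.2 hwi.fst)
  have e3 : ∀ᶠ u in 𝓝[≠] (0 : ℂ), ∀ᶠ p in 𝓝 ((0 : ℂ), u), (swv v (be 0 p)).2 = (p.2 + 0) * (swv v (be 0 p)).1 + p.1 ^ (e + 1) * (wi p).2 :=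
    hc.eventually (eventually_eventually_nhds.2 hwi.snd)
  have e5 : ∀ᶠ u in 𝓝[≠] (0 : ℂ), u ≠ 0 := eventually_mem_nhdsWithin
  filter_upwards [e1, e2, e3, e5] with u h1 h2 h3 u0
  have ca : Tendsto (fun x : ℂ => (x * u, (0 : ℂ))) (𝓝[≠] (0 : ℂ)) (𝓝 (0 : ℂ × ℂ)) := by
    have : Continuous fun x : ℂ => (x * u, (0 : ℂ)) := by fun_prop
    exact (this.tendsto' 0 0 (by simp)).mono_left nhdsWithin_le_nhds
  have cb : Tendsto (fun x : ℂ => (x, u)) (𝓝[≠] (0 : ℂ)) (𝓝 ((0 : ℂ), u)) := by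
    have : Continuous fun x : ℂ => (x, u) := by fun_prop
    exact (this.tendsto 0).mono_left nhdsWithin_le_nhds
  have hx : ∀ᶠ x in 𝓝[≠] (0 : ℂ), x ≠ 0 := eventually_mem_nhdsWithin
  have hbe : ∀ x : ℂ, be u⁻¹ (x * u, 0) = (x * u, x) := by
    intro x
    simp only [be, zero_add, Prod.mk.injEq, true_and]
    field_simp
  have hbe' : ∀ x : ℂ, swv v (be 0 (x, u)) = ((v (x * u, x)).2, (v (x * u, x)).1) := by
    intro x
    simp [be, swv, Prod.swap]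
  have l1 : Tendsto (fun x : ℂ => w u⁻¹ (x * u, 0)) (𝓝[≠] (0 : ℂ)) (𝓝 (w u⁻¹ 0)) := (hw u⁻¹).an.continuousAt.tendsto.comp ca
  have l2 : Tendsto (fun x : ℂ => wi (x, u)) (𝓝[≠] (0 : ℂ)) (𝓝 (wi (0, u))) := h1.continuousAt.tendsto.comp cb
  have lx : Tendsto (fun x : ℂ => x) (𝓝[≠] (0 : ℂ)) (𝓝 0) := nhdsWithin_le_nhds
  have f1 := ca.eventually (hw u⁻¹).fst
  have g1 := cb.eventually h2
  have g2 := cb.eventually h3
  simp only [hbe] at f1
  simp only [hbe'] at g1 g2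
  have k1 : u ^ e * (w u⁻¹ 0).1 = u * (wi (0, u)).1 + 0 * (wi (0, u)).2 := by
    refine eq_of_punctured (((continuous_fst.tendsto _).comp l1).const_mul (u ^ e))
      ((((continuous_fst.tendsto _).comp l2).const_mul u).add (lx.mul ((continuous_snd.tendsto _).comp l2))) ?_
    filter_upwards [hx, f1, g1, g2] with x x0 a1 b1 b2
    simp only [Function.comp_apply]
    have : x ^ e * (u ^ e * (w u⁻¹ (x * u, 0)).1) = x ^ e * (u * (wi (x, u)).1 + x * (wi (x, u)).2) := by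
      rw [b2, b1, mul_pow] at a1
      linear_combination -a1
    exact mul_left_cancel₀ (pow_ne_zero _ x0) this
  rw [zero_mul, add_zero] at k1
  exact k1

end SDE

open SDE in
/-- as `sing_finite` -/
theorem tan_finite {e : ℕ} {v : ℂ × ℂ → ℂ × ℂ} {w : ℂ → ℂ × ℂ → ℂ × ℂ} {wi : ℂ × ℂ → ℂ × ℂ} (hw : ∀ t, Child e 0 t v (w t))
    (hwi : Child e 0 0 (swv v) wi) : {t : ℂ | (w t 0).1 = 0}.Finite := by
  have e5 : ∀ᶠ u in 𝓝[≠] (0 : ℂ), u ≠ 0 := eventually_mem_nhdsWithin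
  have hinv : ∀ {v' w' : ℂ × ℂ → ℂ × ℂ} {t' : ℂ}, Child e 0 t' v' w' → ∀ᶠ y in 𝓝[≠] (0 : ℂ), (w' (0, y)).1 ≠ 0 := fun h =>
    (h.inv.resolve_left fun h1 => absurd h1.1 (by norm_num)).2
  have hinf : ∀ᶠ u in 𝓝[≠] (0 : ℂ), (w u⁻¹ 0).1 ≠ 0 := by
    filter_upwards [child_inf1 hw hwi, hinv hwi, e5] with u h1 h2 h3 h4
    rw [h4, mul_zero] at h1
    exact (mul_ne_zero h3 h2) h1.symm
  obtain ⟨ε, hε, hb⟩ := Metric.mem_nhdsWithin_iff.1 hinf
  have hsub : {t : ℂ | (w t 0).1 = 0} ⊆ closedBall 0 (2 / ε) := by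
    intro t ht
    by_contra hcon
    simp only [mem_closedBall, dist_zero_right, not_le] at hcon
    have h1 : 0 < ‖t‖ := lt_trans (by positivity) hcon
    have t0 : t ≠ 0 := norm_pos_iff.1 h1
    have h2 : t⁻¹ ∈ ball (0 : ℂ) ε ∩ {0}ᶜ := by
      refine ⟨?_, inv_ne_zero t0⟩
      simp only [mem_ball, dist_zero_right, norm_inv]
      rw [inv_lt_comm₀ h1 hε]
      refine lt_of_le_of_lt ?_ hcon
      rw [inv_eq_one_div]
      gcongr
      norm_num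
    have h3 : (w t⁻¹⁻¹ 0).1 ≠ 0 := hb h2
    rw [inv_inv] at h3
    exact h3 ht
  by_contra hinf
  obtain ⟨t, -, ht⟩ := Set.Infinite.exists_accPt_of_subset_isCompact hinf (isCompact_closedBall (0 : ℂ) (2 / ε)) hsub
  have h1 : ∀ᶠ u in 𝓝[≠] (0 : ℂ), (w (t + u) 0).1 ≠ 0 := by
    filter_upwards [(child_shift hw t).filter_mono nhdsWithin_le_nhds, hinv (hw t)] with u a b
    rw [a]
    exact b
  have h2 : ∀ᶠ s in 𝓝[≠] t, (w s 0).1 ≠ 0 := by
    have hm : Tendsto (fun s : ℂ => s - t) (𝓝[≠] t) (𝓝[≠] (0 : ℂ)) := by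
      refine tendsto_nhdsWithin_iff.2 ⟨?_, ?_⟩
      · have : Continuous fun s : ℂ => s - t := by fun_prop
        simpa using (this.tendsto t).mono_left nhdsWithin_le_nhds
      · filter_upwards [self_mem_nhdsWithin] with s hs
        exact sub_ne_zero.2 hs
    filter_upwards [hm.eventually h1] with s hs
    simpa using hs
  exact (accPt_iff_frequently_nhdsNE.1 ht) (h2.mono fun s hs => by simpa using hs)

/-! ## the weights of the children -/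

/-- the weights of the children contain the axes -/
theorem axW_child {al be : ℝ} {e ι m : ℕ} {t : ℂ} {v w : ℂ × ℂ → ℂ × ℂ} {g g' : ℂ × ℂ → ℂ} (hw : Child e ι t v w) (hA : AxW al be v g)
    (hg' : AnalyticAt ℂ g' 0) (hm : ∀ᶠ p in 𝓝 (0 : ℂ × ℂ), g (MQ2.be t p) = p.1 ^ m * g' p) :
    AxW (1 + al + be) (if t = 0 then be else 0) w (gt ι g') where
  fst := by
    intro _ h
    rcases hw.inv with h1 | h1
    · refine ⟨g', hg', Eventually.of_forall fun p => ?_⟩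
      show p.1 ^ ι * g' p = p.1 * g' p
      rw [h1.1, pow_one]
    · obtain ⟨y, h2, h3⟩ := (h1.2.and (h.filter_mono nhdsWithin_le_nhds)).exists
      exact absurd h3 h2
  snd := by
    intro hbe h
    have ht : t = 0 := by
      by_contra ht
      rw [if_neg ht] at hbe
      exact lt_irrefl _ hbe
    subst ht
    rw [if_pos rfl] at hbe
    have hl : Tendsto (fun x : ℂ => (x, (0 : ℂ))) (𝓝 0) (𝓝 0) := (by fun_prop : Continuous fun x : ℂ => (x, (0 : ℂ))).tendsto' _ _ rfl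
    have hbx : ∀ x : ℂ, MQ2.be 0 (x, 0) = (x, 0) := by
      intro x
      simp [MQ2.be]
    have hv0 : ∀ᶠ x in 𝓝 (0 : ℂ), (v (x, 0)).2 = 0 := by
      filter_upwards [hl.eventually hw.snd, h] with x h1 h2
      rw [hbx] at h1
      rw [h1]
      simp [h2]
    obtain ⟨g₀, hg₀, hgg⟩ := hA.snd hbe hv0
    have h1 : ∀ᶠ x in 𝓝[≠] (0 : ℂ), g' (x, 0) = 0 := by
      filter_upwards [(hl.eventually hm).filter_mono nhdsWithin_le_nhds, (hl.eventually hgg).filter_mono nhdsWithin_le_nhds, self_mem_nhdsWithin] with x a1 a2 hx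
      rw [hbx, a2] at a1
      simp only [zero_mul] at a1
      exact (mul_eq_zero.1 a1.symm).resolve_left (pow_ne_zero m hx)
    have h2 : AnalyticAt ℂ (fun x : ℂ => g' (x, 0)) 0 :=
      AnalyticAt.fun_comp (g := g') (f := fun x : ℂ => (x, (0 : ℂ))) (by exact hg') (analyticAt_id.prod analyticAt_const)
    have h3 : ∀ᶠ x in 𝓝 (0 : ℂ), g' (x, 0) = 0 := by
      rcases h2.eventually_eq_zero_or_eventually_ne_zero with h3 | h3
      · exact h3
      · obtain ⟨x, h4, h5⟩ := (h1.and h3).exists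
        exact absurd h4 h5
    obtain ⟨k, hk, hke⟩ := Pool.Agent.H17BP.exists_div_y hg' h3
    refine ⟨fun p => p.1 ^ ι * k p, (analyticAt_fst.pow ι).mul hk, ?_⟩
    filter_upwards [hke] with p hp
    show p.1 ^ ι * g' p = p.2 * (p.1 ^ ι * k p)
    rw [hp]
    ring

end Pool.Agent.MQL
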