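import Pool.Agent.MQL.SD0
import Pool.Agent.MQL.BasicD

/-!
# MQL SDW: the package of a chart in exchanged coordinates
-/

set_option autoImplicit false

open Topology Filter Metric MeasureTheory Asymptotics Laplacian

noncomputable section

namespace Pool.Agent.MQL

open Pool.Agent.H36.BP (EN)
open Pool.Agent.H30M (tau LogSing)
open Pool.Agent.MQ Pool.Agent.MQ2

theorem Rt.swap {al be : ℝ} {Om : Set ℂ} {p : ℂ → ℂ × ℂ} {s : ℝ} {l₁ : ℂ → ℝ} (hp : ∀ z ∈ Om, AnalyticAt ℂ p z) (h : Rt al be Om p s l₁) :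
    Rt be al Om (fun z => (p z).swap) s l₁ := by
  intro z hz hb
  rw [mem_closedBall_zero_iff, norm_swap', ← mem_closedBall_zero_iff] at hb
  have h1 := h z hz hb
  rw [deriv_swap (hp z hz).differentiableAt]
  exact ⟨h1.2, h1.1⟩

theorem dirD_swap {al be : ℝ} {v : ℂ × ℂ → ℂ × ℂ} {g : ℂ × ℂ → ℂ} {N r : ℝ} {Con : ℕ → (ℂ × ℂ → ℂ) → Prop} {re B A C₀ : ℝ}
    {O K : Set ℂ → (ℂ → ℂ × ℂ) → Set ℂ} (hO : ∀ Om p, O Om p ⊆ Om)
    (h : DirD be al (swv v) (fun p => g p.swap) N r Con re B A C₀ O K) :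
    DirD al be v g N r (fun n q => Con n fun p => q p.swap) re B A C₀ (fun Om p => O Om fun z => (p z).swap) fun Om p => K Om fun z => (p z).swap := by
  intro d n q ψ hd hn hq hψ hCon M F Q lm Om p hDat hAv ell hell l₁ hl₁ hle hEn hRt
  have hq' : AnalyticAt ℂ (fun p : ℂ × ℂ => q p.swap) 0 := AnalyticAt.comp (f := fun q : ℂ × ℂ => q.swap) (g := q) (x := 0) hq (an_swap 0)
  have hψ' : ContDiffAt ℝ 1 (fun p : ℂ × ℂ => ψ p.swap) 0 :=
    ContDiffAt.comp (g := ψ) (f := fun q : ℂ × ℂ => q.swap) 0 hψ (((an_swap 0).contDiffAt (n := 1)).restrict_scalars ℝ)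
  have hell' : EllP Om (fun z => (p z).swap) re ell := by
    intro z hz h0 hb
    have h1 : p z ≠ 0 := fun h2 => h0 (by
      show (p z).swap = 0
      rw [h2]
      rfl)
    have h2 : p z ∈ ball (0 : ℂ × ℂ) re := by
      rw [mem_ball_zero_iff] at hb ⊢
      rwa [norm_swap'] at hb
    rw [hell z hz h1 h2, Prod.fst_swap, Prod.snd_swap, add_comm]
  have hEn' : EnB Om (fun z => (p z).swap) re l₁ := by
    intro z hz hb
    rw [mem_closedBall_zero_iff, norm_swap', ← mem_closedBall_zero_iff] at hb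
    exact ⟨(hEn z hz hb).2, (hEn z hz hb).1⟩
  obtain ⟨C, l, η, D, X, Φ, err, u, h1, h2, h3, h4, h5, h6⟩ := h d n _ _ hd hn hq' hψ' hCon M F Q lm Om _ hDat.swap hAv.swap ell hell' l₁ hl₁ hle hEn'
    (hRt.swap hDat.crv.an)
  refine ⟨C, l, η, D, X, Φ, err, u, h1, h2, h3, h4, h5.congr (fun z hz => (DDv_swap' hDat.crv (hO _ _ hz)).symm) ?_, h6⟩
  intro z hz hV
  obtain ⟨a1, a2, a3, a4⟩ := hV
  have e1 := ztv_swap' hDat.crv a1
  refine ⟨⟨a1, by rw [e1]; exact a2, by simpa only [Prod.swap_swap] using a3, by rw [JD_swap]; exact a4⟩, ?_⟩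
  unfold LL
  rw [e1]
  simp only [Prod.swap_swap, JD_swap]

end Pool.Agent.MQL
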