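import Pool.Agent.MQL.SDS
import Pool.Agent.MQL.SDW
import Pool.Agent.MQL.SDE
import Pool.Agent.MQL.SDB
import Pool.Agent.MQ2.Step

/-!
# MQL StepD: the blow-up step (logarithmic version)

The special directions are `0`, `∞`, the singular points of the transform and, if the exceptional line is not invariant, the points where the transform is tangent
to it.
-/

set_option autoImplicit false

open Topology Filter Metric MeasureTheory Asymptotics Laplacian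

noncomputable section

namespace Pool.Agent.MQL

open Pool.Agent.H36.BP (EN)
open Pool.Agent.H30M (tau LogSing)
open Pool.Agent.MQ Pool.Agent.MQ2

/-- the package of a direction, both cases -/
theorem dirD_all {P : (ℂ × ℂ → ℂ) → Prop} {al be : ℝ} (hal : -1 < al) (hbe : -1 < be) {e ι m : ℕ} {t : ℂ} {v w : ℂ × ℂ → ℂ × ℂ} {g g' : ℂ × ℂ → ℂ}
    (S : Prop) (hS : ¬ S → t ≠ 0 ∧ w 0 ≠ 0 ∧ (ι = 0 → (w 0).1 ≠ 0)) (hv : Iso v)
    (hw : Child e ι t v w) (hg : Wt v g) (hg' : AnalyticAt ℂ g' 0)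
    (hm : ∀ᶠ p in 𝓝 (0 : ℂ × ℂ), g (MQ2.be t p) = p.1 ^ m * g' p) (hP : P g) {r re : ℝ} (hr : 0 < r) (hre : 0 < re)
    (hgr : ∀ (Om : Set ℂ) (p : ℂ → ℂ × ℂ), Crv1 v r Om p → (∀ z ∈ Om, ∃ᶠ w in 𝓝 z, g (p w) ≠ 0) → ∀ z ∈ Om, v (p z) ≠ 0 → g (p z) ≠ 0)
    (hwt : Wt w (gt ι g')) (hAw : AxW (1 + al + be) (if t = 0 then be else 0) w (gt ι g'))
    {k : ℕ} {c : Fin k → ℕ → ℂ → ℂ × ℂ} (hG : ∀ g : ℂ × ℂ → ℂ, TG ι t P g → Wt w g → AxW (1 + al + be) (if t = 0 then be else 0) w g →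
      ∀ᶠ r in 𝓝[>] (0 : ℝ), ∀ s s', 0 < s → s < s' → s' < r → ∀ B, 0 ≤ B → ∃ A C₀ : ℝ, 0 ≤ A ∧ 0 ≤ C₀ ∧
      ∀ (d n : ℕ) (q : ℂ × ℂ → ℂ) (ψ : ℂ × ℂ → ℝ), 1 ≤ d → 1 ≤ n → AnalyticAt ℂ q 0 → ContDiffAt ℝ 1 ψ 0 →
        (∀ i, FZero (c i) g ∨ HasOrd (c i) q n) →
        ∀ (M : ℕ) (F : ℂ → EN M) (Q : ℂ → ℂ) (lm : ℂ → ℝ) (Om : Set ℂ) (p : ℂ → ℂ × ℂ), Dat w g r B d q ψ F Q lm Om p →
          Avoid (1 + al + be) (if t = 0 then be else 0) Om p →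
          LocX w g (JD (1 + al + be) (if t = 0 then be else 0)) {z | z ∈ Om ∧ p z ∈ ball (0 : ℂ × ℂ) s'} p lm s A (C₀ * d / n)) :
    ∀ᶠ ρ in 𝓝[>] (0 : ℝ), ∀ σ, 0 < σ → σ < ρ → ∀ B, 0 ≤ B → ∃ A C₀ : ℝ, 0 ≤ A ∧ 0 ≤ C₀ ∧
      DirD al be v g ((e : ℝ) + 1 + ι - m) r (fun n q => S → ∀ i, FZero (c i) (gt ι g') ∨ HasOrd (c i) (fun x => q (MQ2.be t x)) n) re B A C₀
        (fun Om p => Omt Om p t ρ) (fun Om p => {z | S ∧ z ∈ Kt t ρ σ Om p}) := by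
  by_cases hS' : S
  · have e1 : ∀ ρ σ, (fun Om p => {z | S ∧ z ∈ Kt t ρ σ Om p}) = Kt t ρ σ := fun ρ σ => by
      funext Om p
      ext z
      simp [hS']
    obtain ⟨ρ', h1, h2⟩ := exists_radius (dirD_sing hal hbe hv hw hg hg' hm hP hr hre hgr hwt hAw hG)
    filter_upwards [ev_lt h1] with ρ hρ σ hσ hσρ B hB
    obtain ⟨A, C₀, hA, hC₀, h3⟩ := h2 σ ρ hσ hσρ hρ B hB
    refine ⟨A, C₀, hA, hC₀, ?_⟩
    rw [e1]
    intro d n q ψ hd hn hq hψ hCon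
    exact h3 d n q ψ hd hn hq hψ (hCon hS')
  · have e1 : ∀ ρ σ, (fun Om p => {z | S ∧ z ∈ Kt t ρ σ Om p}) = fun _ _ => ∅ := fun ρ σ => by
      funext Om p
      ext z
      simp [hS']
    obtain ⟨a1, a2, a3⟩ := hS hS'
    filter_upwards [dirD_reg hal hbe a1 hv hw hg hg' hm hr hre hgr hwt a2 a3] with ρ h σ hσ hσρ B hB
    obtain ⟨A, hA, h1⟩ := h B hB
    refine ⟨A, 0, hA, le_rfl, ?_⟩
    rw [e1]
    exact h1 _

/-- the chart of the smaller set -/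
theorem vv_sub {v : ℂ × ℂ → ℂ × ℂ} {g J : ℂ × ℂ → ℂ} {Om : Set ℂ} {p : ℂ → ℂ × ℂ} {s' : ℝ} {Df : ℂ → ℂ} {ell : ℂ → ℝ} {N : ℝ} {l : ℂ → ℝ} {C : ℝ}
    {O K : Set ℂ} {η D X : ℂ → ℂ} {Φ err u : ℂ → ℝ} (h : Cht Df ell (LL v g J p) (VV v g J Om p) N l C O K η D X Φ err u) :
    Cht Df ell (LL v g J p) (VV v g J {z | z ∈ Om ∧ p z ∈ ball (0 : ℂ × ℂ) s'} p) N l C O K η D X Φ err u :=
  h.congr (fun _ _ => rfl) fun _ _ hV => ⟨⟨hV.1.1, hV.2.1, hV.2.2.1, hV.2.2.2⟩, rfl⟩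

theorem goodD_step {P : (ℂ × ℂ → ℂ) → Prop} {al be' : ℝ} (hal : -1 < al) (hbe : -1 < be') {v : ℂ × ℂ → ℂ × ℂ} (hv : Iso v) {e ι : ℕ}
    {w : ℂ → ℂ × ℂ → ℂ × ℂ} {wi : ℂ × ℂ → ℂ × ℂ} (hw : ∀ t, Child e ι t v (w t)) (hwi : Child e ι 0 (swv v) wi)
    (h0 : GoodD (TG ι 0 P) (1 + al + be') be' (w 0)) (hg : ∀ t, t ≠ 0 → GoodD (TG ι t P) (1 + al + be') 0 (w t))
    (hgi : GoodD (TG ι 0 (SG P)) (1 + al + be') al wi) : GoodD P al be' v := by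
  classical
  -- the special directions
  let Sp : ℂ → Prop := fun t => t = 0 ∨ w t 0 = 0 ∨ (ι = 0 ∧ (w t 0).1 = 0)
  have hSfin : Finite {t : ℂ // Sp t} := by
    have h1 : {t : ℂ | Sp t} ⊆ {0} ∪ ({t : ℂ | w t 0 = 0} ∪ {t : ℂ | ι = 0 ∧ (w t 0).1 = 0}) := by
      rintro t (h | h | h)
      · exact Or.inl h
      · exact Or.inr (Or.inl h)
      · exact Or.inr (Or.inr h)
    have h2 : {t : ℂ | ι = 0 ∧ (w t 0).1 = 0}.Finite := by
      by_cases hι : ι = 0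
      · subst hι
        exact (tan_finite hw hwi).subset fun t ht => ht.2
      · convert Set.finite_empty (α := ℂ) using 1
        ext t
        simp [hι]
    exact ((Set.finite_singleton 0).union ((sing_finite hw hwi).union h2)).subset h1 |>.to_subtype
  have hSp : ∀ t, ¬ Sp t → t ≠ 0 ∧ w t 0 ≠ 0 ∧ (ι = 0 → (w t 0).1 ≠ 0) := fun t ht =>
    ⟨fun h => ht (Or.inl h), fun h => ht (Or.inr (Or.inl h)), fun h h' => ht (Or.inr (Or.inr ⟨h, h'⟩))⟩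
  have hgt : ∀ t, GoodD (TG ι t P) (1 + al + be') (if t = 0 then be' else 0) (w t) := by
    intro t
    by_cases ht : t = 0
    · rw [if_pos ht, ht]
      exact h0
    · rw [if_neg ht]
      exact hg t ht
  have hgi' : GoodD (TG ι 0 (SG P)) (1 + be' + al) (if (0 : ℂ) = 0 then al else 0) wi := by
    have hk : 1 + be' + al = 1 + al + be' := by ring
    rw [if_pos rfl, hk]
    exact hgi
  choose mm cc hsep hGG using hgt
  obtain ⟨mi, ci, hsepi, hGGi⟩ := hgi'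
  -- the families
  let I : Type := {x : (Σ t : {t : ℂ // Sp t}, Fin (mm t.1)) // ¬ FZero (cc x.1.1 x.2) (fun p => p.1)} ⊕
    {i : Fin mi // ¬ FZero (ci i) (fun p => p.1)}
  have hIfin : Finite I := inferInstance
  let cI : I → ℕ → ℂ → ℂ × ℂ := fun x => x.elim (fun x N z => MQ2.be x.1.1.1 (cc x.1.1.1 x.1.2 N z)) fun i N z => (MQ2.be 0 (ci i.1 N z)).swap
  have hcI : ∀ x, Sep v (cI x) := by
    rintro (x | i)
    · exact sep_child hv.1 (hw _) (hsep _ _) x.2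
    · exact sep_swap (sep_child hv.swap.1 hwi (hsepi _) i.2)
  let eI := Finite.equivFin I
  refine ⟨Nat.card I, fun i => cI (eI.symm i), fun i => hcI _, ?_⟩
  intro g hP hWt hA
  -- the weights
  obtain ⟨m, hm1, hm2⟩ := wt_child hv.1 hWt
  choose g' hg'an hg'm hg'wt using fun t => hm1 e ι t (w t) (hw t)
  obtain ⟨gi, hgian, hgim, hgiwt⟩ := hm2 e ι wi hwi
  have hWts : Wt (swv v) fun q => g q.swap := hWt.swap
  have hPs : SG P fun q => g q.swap := by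
    unfold SG
    simpa only [Prod.swap_swap] using hP
  filter_upwards [DD_cof hv.1 hv.2.2 hWt, DD_cof hv.swap.1 hv.swap.2.2 hWts, cht_baseD hal hbe hv hWt hA, self_mem_nhdsWithin] with r hr1 hr2 hr3 hr4
    s s' hs hss' hs'r B hB
  have hr0 : 0 < r := hr4
  have hs'0 : 0 < s' := hs.trans hss'
  have hgr : ∀ (Om : Set ℂ) (p : ℂ → ℂ × ℂ), Crv1 v r Om p → (∀ z ∈ Om, ∃ᶠ w in 𝓝 z, g (p w) ≠ 0) → ∀ z ∈ Om, v (p z) ≠ 0 → g (p z) ≠ 0 := by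
    obtain ⟨h, -, h1⟩ := hr1
    exact fun Om p hp hne z hz hvz => (h1 Om p hp hne z hz hvz).1
  have hgrs : ∀ (Om : Set ℂ) (p : ℂ → ℂ × ℂ), Crv1 (swv v) r Om p → (∀ z ∈ Om, ∃ᶠ w in 𝓝 z, g (p w).swap ≠ 0) → ∀ z ∈ Om, swv v (p z) ≠ 0 →
      g (p z).swap ≠ 0 := by
    obtain ⟨h, -, h1⟩ := hr2
    exact fun Om p hp hne z hz hvz => (h1 Om p hp hne z hz hvz).1
  obtain ⟨A₁, hA₁, hEn⟩ := exists_l1 hal hbe hs'0 hs'r hB
  obtain ⟨re, te, Ce, H, hre, hrete, htes, hCe, hHcd, hH0, hHlog, -, -⟩ := exists_ell hs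
  set N : ℝ := (e : ℝ) + 1 + ι - m with hN
  -- the direction `∞`
  have hinf := dirD_all (P := SG P) (m := m) hbe hal True (fun h => absurd trivial h) hv.swap hwi hWts hgian hgim hPs hr0 hre hgrs hgiwt
    (axW_child hwi hA.swap hgian hgim) hGGi
  have hSlt : ∀ᶠ ρ in 𝓝[>] (0 : ℝ), ∀ t : {t : ℂ // Sp t}, ρ * (‖t.1‖ + 1) < 1 / 2 := by
    rw [eventually_all]
    exact fun t => ev_mul_lt (by norm_num)
  obtain ⟨ρi, hρi, hρi1, hρi2, hρi3⟩ := exists_radius (hinf.and (hSlt.and (ev_small 0 hre)))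
  -- the other directions
  have hdir := fun t => dirD_all (P := P) (m := m) hal hbe (Sp t) (hSp t) hv (hw t) hWt (hg'an t) (hg'm t) hP hr0 hre hgr (hg'wt t)
    (axW_child (hw t) hA (hg'an t) (hg'm t)) (hGG t)
  have hex : ∀ t : ℂ, ∃ ρ, 0 < ρ ∧ (∀ σ, 0 < σ → σ < ρ → ∀ B, 0 ≤ B → ∃ A C₀ : ℝ, 0 ≤ A ∧ 0 ≤ C₀ ∧
      DirD al be' v g ((e : ℝ) + 1 + ι - m) r (fun n q => Sp t → ∀ i, FZero (cc t i) (gt ι (g' t)) ∨ HasOrd (cc t i) (fun x => q (MQ2.be t x)) n) re B A C₀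
        (fun Om p => Omt Om p t ρ) (fun Om p => {z | Sp t ∧ z ∈ Kt t ρ σ Om p})) ∧
      (∀ t' : {t : ℂ // Sp t}, t'.1 ≠ t → 2 * ρ < ‖t'.1 - t‖) ∧ ρ < 1 ∧ ρ < re ∧ ρ * (ρ + ‖t‖) < re := by
    intro t
    have h1 : ∀ᶠ ρ in 𝓝[>] (0 : ℝ), ∀ t' : {t : ℂ // Sp t}, t'.1 ≠ t → 2 * ρ < ‖t'.1 - t‖ := by
      rw [eventually_all]
      intro t'
      by_cases h2 : t'.1 = t
      · exact Eventually.of_forall fun ρ h3 => absurd h2 h3
      · have h3 : 0 < ‖t'.1 - t‖ := norm_pos_iff.2 (sub_ne_zero.2 h2)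
        filter_upwards [ev_lt (half_pos h3)] with ρ hρ _
        linarith
    obtain ⟨ρ, a1, a2, a3, a4, a5⟩ := exists_radius ((hdir t).and (h1.and ((ev_lt one_pos).and (ev_small t hre))))
    exact ⟨ρ, a1, a2, a3, a4, a5.1, a5.2⟩
  choose ρ hρ hρD hρS hρ1 hρre hρre' using hex
  -- the finite cover
  obtain ⟨T, hT1, hT2⟩ := (isCompact_closedBall (0 : ℂ) (2 / ρi)).elim_nhds_subcover (fun t => ball t (ρ t)) fun t _ => ball_mem_nhds t (hρ t)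
  -- the radius of the base
  have hb1 : ∀ᶠ x in 𝓝[>] (0 : ℝ), ∀ t ∈ T, x < ρ t := by
    rw [Finset.eventually_all]
    exact fun t _ => ev_lt (hρ t)
  obtain ⟨ρb, hρb, hρb1, hρb2, hρb3⟩ := exists_radius (hb1.and ((ev_lt hρi).and (ev_lt hs)))
  -- the radius of the cores
  have hc1 : ∀ᶠ x in 𝓝[>] (0 : ℝ), ∀ t ∈ T, x * (‖t‖ + 1) < ρb ∧ x * (‖t‖ + 1) < 1 := by
    rw [Finset.eventually_all]
    exact fun t _ => (ev_mul_lt hρb).and (ev_mul_lt one_pos)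
  obtain ⟨σ, hσ, hσ1, hσ2, hσ3⟩ := exists_radius (hc1.and ((ev_lt hρb).and (ev_lt one_pos)))
  have hσρ : ∀ t ∈ T, σ < ρ t := fun t ht => hσ2.trans (hρb1 t ht)
  -- the constants of the charts
  obtain ⟨Ai, Ci, hAi, hCi, hDi⟩ := hρi1 σ hσ (hσ2.trans hρb2) B hB
  have hex2 : ∀ t : {t // t ∈ T}, ∃ A C₀ : ℝ, 0 ≤ A ∧ 0 ≤ C₀ ∧
      DirD al be' v g ((e : ℝ) + 1 + ι - m) r (fun n q => Sp t.1 → ∀ i, FZero (cc t.1 i) (gt ι (g' t.1)) ∨ HasOrd (cc t.1 i) (fun x => q (MQ2.be t.1 x)) n)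
        re B A C₀ (fun Om p => Omt Om p t.1 (ρ t.1)) (fun Om p => {z | Sp t.1 ∧ z ∈ Kt t.1 (ρ t.1) σ Om p}) := fun t =>
    hρD t.1 σ hσ (hσρ t.1 t.2) B hB
  choose At Ct hAt hCt hDt using hex2
  obtain ⟨Cb, hCb, hbase⟩ := hr3 ρb s' hρb hs'r H hHcd N B hB
  let AA : Option {t // t ∈ T} → ℝ := fun i => i.elim Ai At
  let CC : Option {t // t ∈ T} → ℝ := fun i => i.elim Ci Ct
  have hAA : ∀ i, 0 ≤ AA i := by
    rintro (_ | i)
    · exact hAi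
    · exact hAt i
  have hCC : ∀ i, 0 ≤ CC i := by
    rintro (_ | i)
    · exact hCi
    · exact hCt i
  refine ⟨(Fintype.card (Option {t // t ∈ T}) + 1) * (1 + ∑ i, AA i) * A₁, (∑ i, CC i) * A₁, ?_, ?_, ?_⟩
  · have : 0 ≤ ∑ i, AA i := Finset.sum_nonneg fun i _ => hAA i
    positivity
  · exact mul_nonneg (Finset.sum_nonneg fun i _ => hCC i) hA₁
  intro d n q ψ hd hn hq hψ hCon M F Q lm Om p hDat hAv
  have hcrv := hDat.crv
  have hcrvs := crv_swap hDat.crv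
  obtain ⟨l₁, K₁, hl₁, hle, hE, hEnB, hRt⟩ := hEn Om p lm hcrv.isOpen hcrv.an hcrv.mem hcrv.closed hDat.p_ne hAv hDat.lm_cont hDat.lm_nonneg hDat.lm_ge
  have hres' : re ≤ s' := ((hrete.trans htes).trans hss').le
  have hEnB' : EnB Om p re l₁ := fun z hz hb => hEnB z hz (closedBall_subset_closedBall hres' hb)
  have hRt' : Rt al be' Om p re l₁ := fun z hz hb => hRt z hz (closedBall_subset_closedBall hres' hb)
  have hEll : EllP Om p re fun z => H (p z) := fun z hz h0 hb => hHlog _ h0 hb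
  have hl₁0 : ∀ z, 0 ≤ l₁ z := fun z => (hDat.lm_nonneg z).trans (hle z)
  -- contact
  have hConI : ∀ x : I, FZero (cI x) g ∨ HasOrd (cI x) q n := fun x => by
    have := hCon (eI x)
    rwa [Equiv.symm_apply_apply] at this
  have hCont : ∀ t : {t // t ∈ T}, Sp t.1 → ∀ i, FZero (cc t.1 i) (gt ι (g' t.1)) ∨ HasOrd (cc t.1 i) (fun x => q (MQ2.be t.1 x)) n := by
    intro t h0 i
    exact con_child (hw t.1) (hg'an t.1) (hg'm t.1) (hsep t.1 i) fun hx => hConI (Sum.inl ⟨⟨⟨t.1, h0⟩, i⟩, hx⟩)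
  have hConi : ∀ i, FZero (ci i) (gt ι gi) ∨ HasOrd (ci i) (fun x => q (MQ2.be 0 x).swap) n := by
    intro i
    exact con_child (g := fun x => g x.swap) (q := fun x => q x.swap) hwi hgian hgim (hsepi i) fun hx => hConI (Sum.inr ⟨i, hx⟩)
  -- the charts
  let OO : Option {t // t ∈ T} → Set ℂ := fun i => i.elim (Omt Om (fun z => (p z).swap) 0 ρi) fun t => Omt Om p t.1 (ρ t.1)
  let KK : Option {t // t ∈ T} → Set ℂ := fun i => i.elim {z | True ∧ z ∈ Kt 0 ρi σ Om fun z => (p z).swap} fun t => {z | Sp t.1 ∧ z ∈ Kt t.1 (ρ t.1) σ Om p}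
  have hDi' := dirD_swap (v := v) (g := g) (Con := fun n q => True → ∀ i, FZero (ci i) (gt ι gi) ∨ HasOrd (ci i) (fun x => q (MQ2.be 0 x)) n)
    (O := fun Om p => Omt Om p 0 ρi) (K := fun Om p => {z | True ∧ z ∈ Kt 0 ρi σ Om p}) (fun Om p z hz => hz.1) hDi
  have hch : ∀ i, DirC v g (JD al be') N H {z | z ∈ Om ∧ p z ∈ ball (0 : ℂ × ℂ) s'} p (AA i) (CC i * d / n) (OO i) (KK i) l₁ := by
    rintro (_ | t)
    · obtain ⟨C, l, η, D, X, Φ, err, u, h1, h2, h3, h4, h5, h6⟩ := hDi' d n q ψ hd hn hq hψ (fun _ => hConi) M F Q lm Om p hDat hAv _ hEll l₁ hl₁ hle hEnB' hRt'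
      exact ⟨C, l, η, D, X, Φ, err, u, h1, h2, h3, h4, vv_sub h5, h6⟩
    · obtain ⟨C, l, η, D, X, Φ, err, u, h1, h2, h3, h4, h5, h6⟩ := hDt t d n q ψ hd hn hq hψ (hCont t) M F Q lm Om p hDat hAv _ hEll l₁ hl₁ hle hEnB' hRt'
      exact ⟨C, l, η, D, X, Φ, err, u, h1, h2, h3, h4, vv_sub h5, h6⟩
  have hsl : ∀ z ∈ Om, HasSlope p z → HasSlope (fun w => (p w).swap) z → ‖MQ2.slope p z‖ * ‖MQ2.slope (fun w => (p w).swap) z‖ = 1 := by
    intro z hz h1 h2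
    rw [← norm_mul, slope_mul (hcrv.an z hz) h1 h2, norm_one]
  have hKO : ∀ i, KK i ⊆ OO i := by
    rintro (_ | t) z hz
    · exact hz.2.1
    · exact hz.2.1
  have hsub : ∀ i, OO i ⊆ {z | z ∈ Om ∧ p z ∈ ball (0 : ℂ × ℂ) s'} := by
    rintro (_ | t) z hz
    · refine ⟨hz.1, ?_⟩
      have h1 := mem_ball_re (be_pt hz (hcrvs.an z hz.1)).symm hz hρi3.1 hρi3.2
      rw [mem_ball_zero_iff, norm_swap', ← mem_ball_zero_iff] at h1
      exact ball_subset_ball hres' h1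
    · exact ⟨hz.1, ball_subset_ball hres' (mem_ball_re (be_pt hz (hcrv.an z hz.1)).symm hz (hρre t.1) (hρre' t.1))⟩
  have hσ0 := hσ.le
  have hσσ : σ * σ ≤ σ := by nlinarith
  have hdisb : ∀ i, ∀ z ∈ KK i, p z ∈ closedBall (0 : ℂ × ℂ) ρb := by
    rintro (_ | t) z hz
    · have h1 := mem_ball_of_core (hcrvs.an z hz.2.1.1) hz.2 hσ0 hσ2.le (by rw [norm_zero, zero_add]; linarith)
      rw [mem_closedBall_zero_iff, norm_swap', ← mem_closedBall_zero_iff] at h1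
      exact h1
    · refine mem_ball_of_core (hcrv.an z hz.2.1.1) hz.2 hσ0 hσ2.le ?_
      have h1 := (hσ1 t.1 t.2).1
      have h2 : σ * (‖t.1‖ + σ) ≤ σ * (‖t.1‖ + 1) := mul_le_mul_of_nonneg_left (by linarith) hσ0
      linarith
  have hdis : ∀ i j, i ≠ j → ∀ z ∈ KK i, z ∉ OO j := by
    rintro (_ | t) (_ | t') hij z hz hz'
    · exact hij rfl
    · obtain ⟨-, -, a3⟩ := norm_slope_le_of_core hz.2
      have a4 : ‖MQ2.slope p z‖ < ‖t'.1‖ + ρ t'.1 := norm_slope_le_of_mem hz'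
      have a5 := hsl z hz'.1 hz'.2.1 hz.2.1.2.1
      rw [norm_zero, zero_add] at a3
      have a6 : ‖MQ2.slope p z‖ * ‖MQ2.slope (fun w => (p w).swap) z‖ ≤ (‖t'.1‖ + 1) * σ :=
        mul_le_mul (by linarith [hρ1 t'.1]) a3 (norm_nonneg _) (by positivity)
      have a7 := (hσ1 t'.1 t'.2).2
      rw [a5, mul_comm] at a6
      linarith
    · obtain ⟨-, -, a3⟩ := norm_slope_le_of_core hz.2
      have a4 : ‖MQ2.slope (fun w => (p w).swap) z‖ < ‖(0 : ℂ)‖ + ρi := norm_slope_le_of_mem hz'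
      have a5 := hsl z hz'.1 hz.2.1.2.1 hz'.2.1
      rw [norm_zero, zero_add] at a4
      have a6 : ‖MQ2.slope p z‖ * ‖MQ2.slope (fun w => (p w).swap) z‖ ≤ (‖t.1‖ + 1) * ρi :=
        mul_le_mul (by linarith) a4.le (norm_nonneg _) (by positivity)
      have a7 := hρi2 ⟨t.1, hz.1⟩
      rw [a5, mul_comm] at a6
      dsimp only at a7
      linarith
    · have hne : t.1 ≠ t'.1 := fun h => hij (by rw [Subtype.ext h])
      obtain ⟨a1, -, -⟩ := norm_slope_le_of_core hz.2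
      have a2 := hz'.2.2.2
      have a3 := hρS t'.1 ⟨t.1, hz.1⟩ hne
      have a4 : ‖t.1 - t'.1‖ ≤ ‖MQ2.slope p z - t'.1‖ + ‖MQ2.slope p z - t.1‖ := by
        have : t.1 - t'.1 = (MQ2.slope p z - t'.1) - (MQ2.slope p z - t.1) := by ring
        rw [this]
        exact norm_sub_le _ _
      have a5 := hσρ t'.1 t'.2
      dsimp only at a3
      linarith
  have hcov : ∀ z ∈ {z | z ∈ Om ∧ p z ∈ ball (0 : ℂ × ℂ) s'}, p z ∈ closedBall (0 : ℂ × ℂ) ρb → ∃ i, z ∈ OO i := by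
    rintro z ⟨hz, -⟩ hb
    have hb' : ‖p z‖ ≤ ρb := by rwa [mem_closedBall_zero_iff] at hb
    rcases slope_cover (hcrv.an z hz) (hDat.p_ne z hz) (K := 2 / ρi) (by positivity) with ⟨a1, a2⟩ | ⟨a1, a2⟩
    · have h1 : MQ2.slope p z ∈ closedBall (0 : ℂ) (2 / ρi) := by rwa [mem_closedBall_zero_iff]
      obtain ⟨t, ht⟩ := Set.mem_iUnion.1 (hT2 h1)
      obtain ⟨htT, ht2⟩ := Set.mem_iUnion.1 ht
      refine ⟨some ⟨t, htT⟩, hz, a1, ?_, ?_⟩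
      · exact (norm_fst_le (p z)).trans_lt (hb'.trans_lt (hρb1 t htT))
      · rwa [mem_ball, dist_eq_norm] at ht2
    · refine ⟨none, hz, a1, ?_, ?_⟩
      · exact (norm_snd_le (p z)).trans_lt (hb'.trans_lt hρb2)
      · rw [sub_zero]
        refine a2.trans_lt ?_
        rw [one_div_div]
        linarith
  have hδ : ∀ i, 0 ≤ CC i * d / n := fun i => div_nonneg (mul_nonneg (hCC i) (Nat.cast_nonneg _)) (Nat.cast_nonneg _)
  have hbase' := vv_sub (s' := s') (hbase Om p l₁ hcrv hDat.g_ne hAv hl₁0 (fun z hz => (hDat.lm_ge z hz).trans (mul_le_mul_of_nonneg_left (hle z) hB)) hRt)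
  have hset : {z | z ∈ Om ∧ p z ∈ ball (0 : ℂ × ℂ) s' ∧ p z ∉ closedBall (0 : ℂ × ℂ) ρb} =
      {z | z ∈ {z | z ∈ Om ∧ p z ∈ ball (0 : ℂ × ℂ) s'} ∧ p z ∉ closedBall (0 : ℂ × ℂ) ρb} := by
    ext z
    simp only [Set.mem_ofPred_eq, and_assoc]
  rw [hset] at hbase'
  have hfin := locX_of_charts htes hH0 hρb3 hAA hδ (fun z hz => hcrv.an z hz.1) hDat.lm_nonneg hle hl₁ hE hCb hbase'
    hKO hsub hcov hdisb hdis hch
  have e1 : (∑ i, CC i * (d : ℝ) / n) * A₁ = (∑ i, CC i) * A₁ * d / n := by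
    rw [← Finset.sum_div, ← Finset.sum_mul]
    ring
  rw [e1] at hfin
  exact hfin

end Pool.Agent.MQL
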