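import Pool.Agent.MQL.BasicD
import Pool.Agent.MQL.CorD
import Pool.Agent.MQL.StepD
import Pool.Agent.MQL.RegD
import Pool.Agent.H17BP.Div

/-!
# MQL PtB: one blow-up at a point of an invariant exceptional line `{x = 0}`

`v p = (p.1 * a p, b p)`, `b 0 = 0`, `b_y (0) ≠ 0`, `a 0 ≠ b_y (0)`: the transforms in the direction `t` are `(x a (x, x (y + t)), β t - (y + t) a (x, x (y + t)))`,
`b (x, x (y + t)) = x β t`; there is one singular direction; at infinity there is a corner with the eigenvalues `b_y (0)`, `a 0 - b_y (0)`.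
-/

set_option autoImplicit false

open Topology Filter Metric MeasureTheory Asymptotics Laplacian

noncomputable section

namespace Pool.Agent.MQL

open Pool.Agent.H17BP (exists_div_x exists_div_y)
open Pool.Agent.MQ Pool.Agent.MQ2

/-! ## the chart -/

theorem pt_be_zero (t : ℂ) : be t 0 = 0 := by simp [be]

theorem pt_be_fst (t y : ℂ) : be t (0, y) = 0 := by simp [be]

theorem pt_an_be (t : ℂ) (p : ℂ × ℂ) : AnalyticAt ℂ (be t) p :=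
  analyticAt_fst.prod (analyticAt_fst.mul (analyticAt_snd.add analyticAt_const))

theorem pt_tendsto_be (t : ℂ) : Tendsto (be t) (𝓝 0) (𝓝 0) := by
  have := (pt_an_be t 0).continuousAt.tendsto
  rwa [pt_be_zero] at this

theorem pt_comp {f : ℂ × ℂ → ℂ} (hf : AnalyticAt ℂ f 0) (t : ℂ) : AnalyticAt ℂ (fun q => f (be t q)) 0 :=
  AnalyticAt.fun_comp (g := f) (f := be t) (by rw [pt_be_zero]; exact hf) (pt_an_be t 0)

theorem pt_an_swap : AnalyticAt ℂ (fun p : ℂ × ℂ => p.swap) 0 := analyticAt_snd.prod analyticAt_fst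

theorem pt_swap {f : ℂ × ℂ → ℂ} (hf : AnalyticAt ℂ f 0) : AnalyticAt ℂ (fun p : ℂ × ℂ => f p.swap) 0 :=
  AnalyticAt.fun_comp (g := f) (f := fun p : ℂ × ℂ => p.swap) hf pt_an_swap

theorem pt_line : Tendsto (fun y : ℂ => ((0 : ℂ), y)) (𝓝 0) (𝓝 0) := (by fun_prop : Continuous fun y : ℂ => ((0 : ℂ), y)).tendsto' _ _ rfl

theorem pt_line' : Tendsto (fun x : ℂ => (x, (0 : ℂ))) (𝓝 0) (𝓝 0) := (by fun_prop : Continuous fun x : ℂ => (x, (0 : ℂ))).tendsto' _ _ rfl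

/-- the derivative in the second variable -/
theorem pt_dy {f : ℂ × ℂ → ℂ} (hf : AnalyticAt ℂ f 0) {A B : ℂ} (h : ∀ᶠ y in 𝓝 (0 : ℂ), f (0, y) = A + y * B) : f 0 = A ∧ fderiv ℂ f 0 (0, 1) = B := by
  have h1 : HasDerivAt (fun y : ℂ => ((0 : ℂ), y)) ((0 : ℂ), (1 : ℂ)) 0 := (hasDerivAt_const _ _).prodMk (hasDerivAt_id _)
  have h2 : HasDerivAt (fun y => f (0, y)) (fderiv ℂ f 0 (0, 1)) 0 := hf.differentiableAt.hasFDerivAt.comp_hasDerivAt (0 : ℂ) h1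
  have h3 : HasDerivAt (fun y : ℂ => A + y * B) (1 * B) 0 := ((hasDerivAt_id (0 : ℂ)).mul_const _).const_add _
  refine ⟨?_, ?_⟩
  · have h4 := h.self_of_nhds
    rw [zero_mul, add_zero] at h4
    exact h4
  · have h5 := (h3.congr_of_eventuallyEq h).unique h2
    rw [one_mul] at h5
    exact h5.symm

/-- the division by `x` of the pull-back -/
theorem pt_beta {b : ℂ × ℂ → ℂ} (hb : AnalyticAt ℂ b 0) (hb0 : b 0 = 0) (t : ℂ) : ∃ β : ℂ × ℂ → ℂ, AnalyticAt ℂ β 0 ∧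
    (∀ᶠ q in 𝓝 (0 : ℂ × ℂ), b (be t q) = q.1 * β q) ∧ ∀ᶠ y in 𝓝 (0 : ℂ), β (0, y) = fderiv ℂ b 0 (1, 0) + (y + t) * fderiv ℂ b 0 (0, 1) := by
  obtain ⟨β, hβ, h1⟩ := exists_div_x (pt_comp hb t) (Eventually.of_forall fun y => by rw [pt_be_fst, hb0])
  refine ⟨β, hβ, by simpa using h1, ?_⟩
  filter_upwards [pt_line.eventually h1.eventually_nhds, pt_line.eventually hβ.eventually_analyticAt] with y e1 e2
  have h2 : HasDerivAt (fun x : ℂ => (x, y)) ((1 : ℂ), (0 : ℂ)) 0 := (hasDerivAt_id _).prodMk (hasDerivAt_const _ _)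
  have h3 : HasDerivAt (fun x : ℂ => be t (x, y)) ((1 : ℂ), y + t) 0 := by
    have h4 : HasDerivAt (fun x : ℂ => x * (y + t)) (1 * (y + t)) 0 := (hasDerivAt_id _).mul_const _
    rw [one_mul] at h4
    exact (hasDerivAt_id _).prodMk h4
  have h4 : HasDerivAt (fun x : ℂ => b (be t (x, y))) (fderiv ℂ b 0 ((1 : ℂ), y + t)) 0 :=
    (show HasFDerivAt b (fderiv ℂ b 0) (be t (0, y)) from by rw [pt_be_fst]; exact hb.differentiableAt.hasFDerivAt).comp_hasDerivAt (0 : ℂ) h3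
  have h5 : HasDerivAt (fun x : ℂ => x * β (x, y)) (1 * β (0, y) + 0 * (fderiv ℂ β (0, y) (1, 0))) 0 :=
    (hasDerivAt_id (0 : ℂ)).mul (e2.differentiableAt.hasFDerivAt.comp_hasDerivAt (0 : ℂ) h2)
  have h6 : (fun x : ℂ => b (be t (x, y))) =ᶠ[𝓝 0] fun x => x * β (x, y) := by
    have h7 : Tendsto (fun x : ℂ => (x, y)) (𝓝 0) (𝓝 (0, y)) := (by fun_prop : Continuous fun x : ℂ => (x, y)).tendsto' _ _ rfl
    filter_upwards [h7.eventually e1] with x hx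
    rw [hx]; rfl
  have h8 := (h5.congr_of_eventuallyEq h6).unique h4
  have h9 : (((1 : ℂ), y + t) : ℂ × ℂ) = (1, 0) + (y + t) • ((0 : ℂ), (1 : ℂ)) := by ext <;> simp
  rw [h9, map_add, map_smul, smul_eq_mul] at h8
  rw [← h8]; ring

/-- the same at infinity -/
theorem pt_beta_swap {b : ℂ × ℂ → ℂ} (hb : AnalyticAt ℂ b 0) (hb0 : b 0 = 0) : ∃ β : ℂ × ℂ → ℂ, AnalyticAt ℂ β 0 ∧
    (∀ᶠ q in 𝓝 (0 : ℂ × ℂ), b (be 0 q).swap = q.1 * β q) ∧ β 0 = fderiv ℂ b 0 (0, 1) := by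
  obtain ⟨β, h1, h2, h3⟩ := pt_beta (pt_swap hb) (by simpa using hb0) 0
  refine ⟨β, h1, h2, ?_⟩
  have h4 := h3.self_of_nhds
  have h5 : HasFDerivAt (fun p : ℂ × ℂ => p.swap) (ContinuousLinearEquiv.prodComm ℂ ℂ ℂ : ℂ × ℂ →L[ℂ] ℂ × ℂ) 0 :=
    (ContinuousLinearEquiv.prodComm ℂ ℂ ℂ).hasFDerivAt
  have h6 : HasFDerivAt (fun p : ℂ × ℂ => b p.swap) ((fderiv ℂ b 0).comp (ContinuousLinearEquiv.prodComm ℂ ℂ ℂ : ℂ × ℂ →L[ℂ] ℂ × ℂ)) 0 :=
    (show HasFDerivAt b (fderiv ℂ b 0) ((0 : ℂ × ℂ).swap) from hb.differentiableAt.hasFDerivAt).comp 0 h5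
  rw [h6.fderiv] at h4
  have h7 : β 0 = β (0, 0) := rfl
  rw [h7, h4]
  simp

/-! ## the classes of weights -/

/-- if `x ^ m * g' = x * y * G` near `0` then `y` divides `g'` -/
theorem pt_div_y {g' G : ℂ × ℂ → ℂ} {m : ℕ} (hg' : AnalyticAt ℂ g' 0) (h : ∀ᶠ q in 𝓝 (0 : ℂ × ℂ), q.1 ^ m * g' q = q.2 * G q) : DivY g' := by
  have h1 : ∀ᶠ x in 𝓝[≠] (0 : ℂ), g' (x, 0) = 0 := by
    filter_upwards [(pt_line'.eventually h).filter_mono nhdsWithin_le_nhds, self_mem_nhdsWithin] with x a1 hx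
    simp only [zero_mul] at a1
    exact (mul_eq_zero.1 a1).resolve_left (pow_ne_zero m hx)
  have h2 : AnalyticAt ℂ (fun x : ℂ => g' (x, 0)) 0 :=
    AnalyticAt.fun_comp (g := g') (f := fun x : ℂ => (x, (0 : ℂ))) (by exact hg') (analyticAt_id.prod analyticAt_const)
  have h3 : ∀ᶠ x in 𝓝 (0 : ℂ), g' (x, 0) = 0 := by
    rcases h2.eventually_eq_zero_or_eventually_ne_zero with h3 | h3
    · exact h3
    · obtain ⟨x, h4, h5⟩ := (h1.and h3).exists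
      exact absurd h4 h5
  obtain ⟨g₀, hg₀, hge⟩ := exists_div_y hg' h3
  exact ⟨g₀, hg₀, by simpa using hge⟩

theorem gc_of_div {g : ℂ × ℂ → ℂ} (h1 : DivX g) (h2 : DivY g) : GC g := by
  obtain ⟨g₀, hg₀, h3⟩ := h1
  obtain ⟨g₁, -, h4⟩ := h2
  obtain ⟨g₂, hg₂, h5⟩ := pt_div_y (m := 1) (G := g₁) hg₀ (by
    filter_upwards [h3, h4] with q a1 a2
    rw [pow_one, ← a1, a2])
  refine ⟨g₂, hg₂, ?_⟩
  filter_upwards [h3, h5] with q a1 a2
  rw [a1, a2]; ring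

theorem divX_of_gc {g : ℂ × ℂ → ℂ} (h : GC g) : DivX g := by
  obtain ⟨g₀, hg₀, h1⟩ := h
  refine ⟨fun p => p.2 * g₀ p, analyticAt_snd.mul hg₀, ?_⟩
  filter_upwards [h1] with q a1
  rw [a1]; ring

theorem tg_divX {P : (ℂ × ℂ → ℂ) → Prop} {t : ℂ} {g : ℂ × ℂ → ℂ} (h : TG 1 t P g) : DivX g := by
  obtain ⟨-, -, g', -, -, hg', -, h1⟩ := h
  exact ⟨g', hg', by simpa using h1⟩

theorem tg_gc {P : (ℂ × ℂ → ℂ) → Prop} (hP : ∀ g, P g → DivY g) {g : ℂ × ℂ → ℂ} (h : TG 1 0 P g) : GC g := by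
  obtain ⟨g₁, m, g', h1, -, hg', h2, h3⟩ := h
  obtain ⟨g₀, -, h4⟩ := hP _ h1
  obtain ⟨g₂, hg₂, h5⟩ := pt_div_y (m := m) (G := fun q => q.1 * g₀ (be 0 q)) hg' (by
    filter_upwards [h2, (pt_tendsto_be 0).eventually h4] with q a1 a2
    rw [← a1, a2]
    simp only [be]
    ring)
  refine ⟨g₂, hg₂, ?_⟩
  filter_upwards [h3, h5] with q a1 a2
  rw [a1, a2]; ring

theorem pt_divY_swap {P : (ℂ × ℂ → ℂ) → Prop} (hP : ∀ g, P g → DivX g) (g : ℂ × ℂ → ℂ) (h : SG P g) : DivY g := by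
  obtain ⟨g₀, hg₀, h1⟩ := hP _ h
  refine ⟨fun p => g₀ p.swap, pt_swap hg₀, ?_⟩
  have h2 : Tendsto (fun p : ℂ × ℂ => p.swap) (𝓝 0) (𝓝 0) := continuous_swap.tendsto' _ _ rfl
  filter_upwards [h2.eventually h1] with q a1
  rw [Prod.swap_swap] at a1
  rw [a1]; rfl

/-! ## the transforms -/

/-- the transform in the direction `t` -/
def pw (a : ℂ × ℂ → ℂ) (t : ℂ) (β : ℂ × ℂ → ℂ) (q : ℂ × ℂ) : ℂ × ℂ := (q.1 * a (be t q), β q - (q.2 + t) * a (be t q))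

/-- the transform in the direction `t`: the facts -/
structure PtC (a b : ℂ × ℂ → ℂ) (t : ℂ) (β : ℂ × ℂ → ℂ) : Prop where
  an : AnalyticAt ℂ β 0
  eq : ∀ᶠ q in 𝓝 (0 : ℂ × ℂ), b (be t q) = q.1 * β q
  line : ∀ᶠ y in 𝓝 (0 : ℂ), β (0, y) = fderiv ℂ b 0 (1, 0) + (y + t) * fderiv ℂ b 0 (0, 1)
  child : Child 0 1 t (fun p => (p.1 * a p, b p)) (pw a t β)
  an_a : AnalyticAt ℂ (fun q => a (be t q)) 0
  an_b : AnalyticAt ℂ (fun q : ℂ × ℂ => β q - (q.2 + t) * a (be t q)) 0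
  val : β 0 - (0 + t) * a (be t 0) = fderiv ℂ b 0 (1, 0) + t * (fderiv ℂ b 0 (0, 1) - a 0)
  dy : fderiv ℂ (fun q : ℂ × ℂ => β q - (q.2 + t) * a (be t q)) 0 (0, 1) = fderiv ℂ b 0 (0, 1) - a 0

theorem exists_ptC {a b : ℂ × ℂ → ℂ} (ha : AnalyticAt ℂ a 0) (hb : AnalyticAt ℂ b 0) (hb0 : b 0 = 0) (h2 : a 0 ≠ fderiv ℂ b 0 (0, 1))
    (hiso : ∀ᶠ p in 𝓝 (0 : ℂ × ℂ), p ≠ 0 → (p.1 * a p, b p) ≠ (0 : ℂ × ℂ)) (t : ℂ) : ∃ β, PtC a b t β := by
  obtain ⟨β, hβ, hβe, hβ0⟩ := pt_beta hb hb0 t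
  have hat := pt_comp ha t
  have hbt : AnalyticAt ℂ (fun q : ℂ × ℂ => β q - (q.2 + t) * a (be t q)) 0 := hβ.sub ((analyticAt_snd.add analyticAt_const).mul hat)
  have hl : ∀ᶠ y in 𝓝 (0 : ℂ), β (0, y) - (y + t) * a (be t (0, y)) = fderiv ℂ b 0 (1, 0) + t * (fderiv ℂ b 0 (0, 1) - a 0) + y * (fderiv ℂ b 0 (0, 1) - a 0) := by
    filter_upwards [hβ0] with y hy
    rw [hy, pt_be_fst]; ring
  obtain ⟨e1, e2⟩ := pt_dy hbt hl
  refine ⟨β, hβ, hβe, hβ0, ⟨(analyticAt_fst.mul hat).prod hbt, Eventually.of_forall fun q => ?_, ?_, ?_, Or.inl ⟨rfl, Eventually.of_forall fun y => ?_⟩⟩, hat, hbt, e1, e2⟩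
  · simp [pw, be]
  · filter_upwards [hβe] with q hq
    simp only [pw]
    rw [hq]
    have : (be t q).1 = q.1 := rfl
    rw [this]
    ring
  · -- isolated
    have hne : ∀ᶠ y in 𝓝 (0 : ℂ), y ≠ 0 → β (0, y) - (y + t) * a (be t (0, y)) ≠ 0 := by
      have h3 : fderiv ℂ b 0 (0, 1) - a 0 ≠ 0 := sub_ne_zero.2 h2.symm
      by_cases h0 : fderiv ℂ b 0 (1, 0) + t * (fderiv ℂ b 0 (0, 1) - a 0) = 0
      · filter_upwards [hl] with y hy hy0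
        rw [hy, h0, zero_add]
        exact mul_ne_zero hy0 h3
      · have hc : ContinuousAt (fun y : ℂ => fderiv ℂ b 0 (1, 0) + t * (fderiv ℂ b 0 (0, 1) - a 0) + y * (fderiv ℂ b 0 (0, 1) - a 0)) 0 := by fun_prop
        filter_upwards [hl, hc.eventually_ne (by simpa using h0)] with y hy hy1 _
        rw [hy]; exact hy1
    have hsnd : Tendsto (fun q : ℂ × ℂ => q.2) (𝓝 0) (𝓝 0) := continuous_snd.tendsto' _ _ rfl
    filter_upwards [hsnd.eventually hne, (pt_tendsto_be t).eventually hiso, hβe] with q e1 e2 e3 hq h0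
    simp only [pw, Prod.mk_eq_zero] at h0
    by_cases hx : q.1 = 0
    · have e4 : q = (0, q.2) := Prod.ext hx rfl
      have e5 : q.2 ≠ 0 := fun h => hq (by rw [e4, h]; rfl)
      refine e1 e5 ?_
      rw [← e4]
      exact h0.2
    · have e4 : be t q ≠ 0 := fun h => hx (by simpa [be] using congrArg Prod.fst h)
      refine e2 e4 ?_
      have e5 : a (be t q) = 0 := (mul_eq_zero.1 h0.1).resolve_left hx
      have e6 : β q = 0 := by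
        have := h0.2
        rwa [e5, mul_zero, sub_zero] at this
      rw [e3, e5, e6, mul_zero, mul_zero]
      rfl
  · simp [pw]

/-- the transform at infinity -/
theorem exists_ptI {a b : ℂ × ℂ → ℂ} (ha : AnalyticAt ℂ a 0) (hb : AnalyticAt ℂ b 0) (hb0 : b 0 = 0) (h1 : fderiv ℂ b 0 (0, 1) ≠ 0) (h2 : a 0 ≠ fderiv ℂ b 0 (0, 1)) :
    ∃ A B : ℂ × ℂ → ℂ, AnalyticAt ℂ A 0 ∧ AnalyticAt ℂ B 0 ∧ A 0 = fderiv ℂ b 0 (0, 1) ∧ B 0 = a 0 - fderiv ℂ b 0 (0, 1) ∧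
      Child 0 1 0 (swv fun p => (p.1 * a p, b p)) fun q => (q.1 * A q, q.2 * B q) := by
  obtain ⟨βi, hβi, hβie, hβi0⟩ := pt_beta_swap hb hb0
  have has : AnalyticAt ℂ (fun q : ℂ × ℂ => a (be 0 q).swap) 0 := pt_comp (f := fun p => a p.swap) (pt_swap ha) 0
  have hB : AnalyticAt ℂ (fun q : ℂ × ℂ => a (be 0 q).swap - βi q) 0 := has.sub hβi
  have hB0 : (fun q : ℂ × ℂ => a (be 0 q).swap - βi q) 0 = a 0 - fderiv ℂ b 0 (0, 1) := by
    show a (be 0 0).swap - βi 0 = _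
    rw [pt_be_zero, hβi0]
    rfl
  have hA0 : βi 0 ≠ 0 := by rw [hβi0]; exact h1
  have hB1 : (fun q : ℂ × ℂ => a (be 0 q).swap - βi q) 0 ≠ 0 := by rw [hB0]; exact sub_ne_zero.2 h2
  refine ⟨βi, fun q => a (be 0 q).swap - βi q, hβi, hB, hβi0, hB0, (analyticAt_fst.mul hβi).prod (analyticAt_snd.mul hB), ?_, ?_, ?_,
    Or.inl ⟨rfl, Eventually.of_forall fun y => by simp⟩⟩
  · filter_upwards [hβie] with q hq
    simp only [swv, Prod.fst_swap]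
    rw [hq]; ring
  · filter_upwards [hβie] with q hq
    simp only [swv, Prod.fst_swap, Prod.snd_swap]
    rw [hq]
    have : (be 0 q).2 = q.1 * q.2 := by simp [be]
    rw [this]
    ring
  · filter_upwards [hβi.continuousAt.eventually_ne hA0, hB.continuousAt.eventually_ne hB1] with p h1 h2 hp h3
    rw [Prod.mk_eq_zero] at h3
    exact hp (Prod.ext ((mul_eq_zero.1 h3.1).resolve_right h1) ((mul_eq_zero.1 h3.2).resolve_right h2))

/-- a regular transform -/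
theorem pt_reg {P : (ℂ × ℂ → ℂ) → Prop} {al be' : ℝ} (hal : -1 < al) (hbe : -1 < be') {w : ℂ × ℂ → ℂ × ℂ} (hw : AnalyticAt ℂ w 0) (h : w 0 ≠ 0) : GoodD P al be' w :=
  GoodD.mono (fun _ _ _ _ => trivial) (goodD_reg hal hbe hw h)

/-- **One step**: the package follows from the package at the singular direction. -/
theorem goodD_one {P : (ℂ × ℂ → ℂ) → Prop} (hP : ∀ g, P g → DivX g) {al be' : ℝ} (hal : -1 < al) (hbe : -1 < be') {a b : ℂ × ℂ → ℂ}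
    (ha : AnalyticAt ℂ a 0) (hb : AnalyticAt ℂ b 0) (hb0 : b 0 = 0) (h1 : fderiv ℂ b 0 (0, 1) ≠ 0) (h2 : a 0 ≠ fderiv ℂ b 0 (0, 1))
    (hq : ∀ k l : ℕ, 1 ≤ k → 1 ≤ l → k * fderiv ℂ b 0 (0, 1) ≠ l * (a 0 - fderiv ℂ b 0 (0, 1)))
    (hiso : ∀ᶠ p in 𝓝 (0 : ℂ × ℂ), p ≠ 0 → (p.1 * a p, b p) ≠ (0 : ℂ × ℂ))
    (h0 : fderiv ℂ b 0 (1, 0) = 0 → ∀ β, PtC a b 0 β → GoodD (TG 1 0 P) (1 + al + be') be' (pw a 0 β))
    (hg : ∀ t, t ≠ 0 → fderiv ℂ b 0 (1, 0) + t * (fderiv ℂ b 0 (0, 1) - a 0) = 0 → ∀ β, PtC a b t β → GoodD (TG 1 t P) (1 + al + be') 0 (pw a t β)) :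
    GoodD P al be' fun p => (p.1 * a p, b p) := by
  have hs : -1 < 1 + al + be' := by linarith
  choose β hβ using exists_ptC ha hb hb0 h2 hiso
  obtain ⟨A, B, hA, hB, hA0, hB0, hi⟩ := exists_ptI ha hb hb0 h1 h2
  have hIso : Iso fun p : ℂ × ℂ => (p.1 * a p, b p) := ⟨(analyticAt_fst.mul ha).prod hb, by simp [hb0], hiso⟩
  have hval : ∀ t, fderiv ℂ b 0 (1, 0) + t * (fderiv ℂ b 0 (0, 1) - a 0) ≠ 0 → pw a t (β t) 0 ≠ 0 := by
    intro t ht h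
    have e1 := congrArg Prod.snd h
    have e2 := (hβ t).val
    simp only [pw, Prod.snd_zero] at e1
    rw [e1] at e2
    exact ht e2.symm
  refine goodD_step hal hbe hIso (fun t => (hβ t).child) hi ?_ ?_ ?_
  · by_cases h : fderiv ℂ b 0 (1, 0) = 0
    · exact h0 h _ (hβ 0)
    · exact pt_reg hs hbe (hβ 0).child.an (hval 0 (by rwa [zero_mul, add_zero]))
  · intro t ht
    by_cases h : fderiv ℂ b 0 (1, 0) + t * (fderiv ℂ b 0 (0, 1) - a 0) = 0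
    · exact hg t ht h _ (hβ t)
    · exact pt_reg hs (by norm_num) (hβ t).child.an (hval t h)
  · refine GoodD.mono (fun g hg _ _ => tg_gc (pt_divY_swap hP) hg) (goodD_corner hs hal hA hB ?_ ?_ ?_)
    · rw [hA0]; exact h1
    · rw [hB0]; exact sub_ne_zero.2 h2
    · rw [hA0, hB0]; exact hq

end Pool.Agent.MQL
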