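import Pool.Agent.MQL.Defs
import Pool.Agent.MQ2.WtN

/-!
# MQL SnA: the weight of a saddle-node with both axes is `x y` times a unit
-/

set_option autoImplicit false

open Topology Filter Metric MeasureTheory Asymptotics Laplacian

noncomputable section

namespace Pool.Agent.MQL

open Pool.Agent.H36.BP (EN)
open Pool.Agent.H30M (tau LogSing)
open Pool.Agent.MQ Pool.Agent.MQ2

/-- the weight is `x y` times a unit -/
theorem sn_unit {k : ℕ} (hk : 1 ≤ k) {a b g : ℂ × ℂ → ℂ} (ha : AnalyticAt ℂ a 0) (hb : AnalyticAt ℂ b 0) (hb0 : b 0 ≠ 0)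
    (hg : Wt (fun p => (p.1 ^ (k + 1) * a p, p.2 * b p)) g) (hG : GC g) :
    ∃ u : ℂ × ℂ → ℂ, AnalyticAt ℂ u 0 ∧ u 0 ≠ 0 ∧ ∀ᶠ p in 𝓝 (0 : ℂ × ℂ), g p = p.1 * p.2 * u p := by
  obtain ⟨g₀, hg₀, h⟩ := hG
  obtain ⟨u, hu, hu0, h1 | h1⟩ := wt_sn hk ha hb hb0 hg (g₀ := fun p => p.2 * g₀ p) (analyticAt_snd.mul hg₀) (h.mono fun p hp => by rw [hp, mul_assoc])
  · exfalso
    have h2 : ∀ᶠ p in 𝓝 (0 : ℂ × ℂ), p.1 * (u p - p.2 * g₀ p) = 0 := by
      filter_upwards [h, h1] with p e1 e2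
      linear_combination e1 - e2
    have h3 := WtN.zero_of_mul (ℓ := fun p : ℂ × ℂ => p.1) (E := fun p => u p - p.2 * g₀ p) (hu.sub (analyticAt_snd.mul hg₀)) WtN.freq_fst h2
    have h4 := h3.self_of_nhds
    simp at h4
    exact hu0 h4
  · exact ⟨u, hu, hu0, h1⟩

end Pool.Agent.MQL
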