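import Pool.Agent.MQL.SnD0
import Pool.Agent.MQL.SnA
import Pool.Agent.MQL.BasicD
import Pool.Agent.MQL.DensD
import Pool.Agent.MQL.RootT

/-!
# MQL SnD: the saddle-node with both axes in the weight

No curve tangent to `v` meets the axes; `|ζ'| |x y| |x| ^ al |y| ^ be ≤ C |y'| |y| ^ be`, or `≤ C |x'|` for `|x| ≥ s`.
-/

set_option autoImplicit false

open Topology Filter Metric MeasureTheory Asymptotics Laplacian

noncomputable section

namespace Pool.Agent.MQL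

open Pool.Agent.H36.BP (EN)
open Pool.Agent.H30M (tau LogSing)
open Pool.Agent.MQ Pool.Agent.MQ2

theorem goodD_sn2 {al be : ℝ} (hal : -1 < al) (hbe : -1 < be) {k : ℕ} (hk : 1 ≤ k) {a b : ℂ × ℂ → ℂ} (ha : AnalyticAt ℂ a 0) (hb : AnalyticAt ℂ b 0)
    (ha0 : a 0 ≠ 0) (hb0 : b 0 ≠ 0) : GoodD GC al be fun p => (p.1 ^ (k + 1) * a p, p.2 * b p) := by
  refine ⟨0, fun i => i.elim0, fun i => i.elim0, fun g hGC hw _ => ?_⟩
  obtain ⟨u, hu, hu0, hg⟩ := sn_unit hk ha hb hb0 hw hGC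
  set v : ℂ × ℂ → ℂ × ℂ := fun p => (p.1 ^ (k + 1) * a p, p.2 * b p) with hv
  have hvan : AnalyticAt ℂ v 0 := ((analyticAt_fst.pow _).mul ha).prod (analyticAt_snd.mul hb)
  have hiso : ∀ᶠ q in 𝓝 (0 : ℂ × ℂ), q ≠ 0 → v q ≠ 0 := by
    filter_upwards [ha.continuousAt.eventually_ne ha0, hb.continuousAt.eventually_ne hb0] with q h1 h2 h3 h4
    have h5 : q.1 ^ (k + 1) * a q = 0 := congrArg Prod.fst h4
    have h6 : q.2 * b q = 0 := congrArg Prod.snd h4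
    refine h3 (Prod.ext ?_ ((mul_eq_zero.1 h6).resolve_right h2))
    exact pow_eq_zero_iff (by omega) |>.1 ((mul_eq_zero.1 h5).resolve_right h1)
  filter_upwards [ev_closedBall ha.eventually_analyticAt, ev_closedBall hb.eventually_analyticAt, ev_closedBall (ha.continuousAt.eventually_ne ha0),
    ev_closedBall (hb.continuousAt.eventually_ne hb0), ev_closedBall hg, ev_closedBall hu.eventually_analyticAt,
    ev_closedBall (hu.continuousAt.eventually_ne hu0), ev_closedBall hiso, DD_cof hvan hiso hw, self_mem_nhdsWithin]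
    with r a1 a2 a3 a4 a5 a6 a7 a8 a9 a10 s s' hs hss hsr' B hB
  have hsr : s < r := hss.trans hsr'
  have hr : (0 : ℝ) < r := a10
  obtain ⟨_, -, h1⟩ := a9
  obtain ⟨A, hA, hroot⟩ := root_snd (be := be) hbe hs hsr hB
  obtain ⟨Cb, hCb⟩ := (isCompact_closedBall (0 : ℂ × ℂ) r).bddAbove_image (f := fun q => ‖u q‖ / ‖b q‖)
    (ContinuousOn.div (fun q hq => (a6 q hq).continuousAt.norm.continuousWithinAt) (fun q hq => (a2 q hq).continuousAt.norm.continuousWithinAt)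
      fun q hq => norm_ne_zero_iff.2 (a4 q hq))
  obtain ⟨Ca, hCa⟩ := (isCompact_closedBall (0 : ℂ × ℂ) r).bddAbove_image (f := fun q => ‖u q‖ / ‖a q‖)
    (ContinuousOn.div (fun q hq => (a6 q hq).continuousAt.norm.continuousWithinAt) (fun q hq => (a1 q hq).continuousAt.norm.continuousWithinAt)
      fun q hq => norm_ne_zero_iff.2 (a3 q hq))
  have h00 : (0 : ℂ × ℂ) ∈ closedBall (0 : ℂ × ℂ) r := mem_closedBall_self hr.le
  have hCb0 : 0 ≤ Cb := (by positivity : (0 : ℝ) ≤ ‖u 0‖ / ‖b 0‖).trans (hCb ⟨0, h00, rfl⟩)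
  have hCa0 : 0 ≤ Ca := (by positivity : (0 : ℝ) ≤ ‖u 0‖ / ‖a 0‖).trans (hCa ⟨0, h00, rfl⟩)
  refine ⟨A, 1, hA, zero_le_one, ?_⟩
  intro d n q ψ hd hn _ _ _ M F Q lm Om p hD _
  have hd' : (0 : ℝ) < d := by exact_mod_cast hd
  have hn' : (0 : ℝ) < n := by exact_mod_cast hn
  have hc := hD.crv
  have hl0 := hD.lm_nonneg
  have hp := hD.lm_ge
  have hmem : ∀ z ∈ Om, p z ∈ closedBall (0 : ℂ × ℂ) r := fun z hz => ball_subset_closedBall (hc.mem z hz)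
  have hgz : ∀ z ∈ Om, p z ≠ 0 → g (p z) ≠ 0 := fun z hz h0 => (h1 Om p hc hD.g_ne z hz (a8 _ (hmem z hz) h0)).1
  -- no curve meets the axes
  have hax0 : ∀ z ∈ Om, p z ≠ 0 → (p z).1 ≠ 0 ∧ (p z).2 ≠ 0 := by
    intro z hz h0
    have h2 := hgz z hz h0
    rw [a5 _ (hmem z hz)] at h2
    exact ⟨left_ne_zero_of_mul (left_ne_zero_of_mul h2), right_ne_zero_of_mul (left_ne_zero_of_mul h2)⟩
  have hax : ∀ z ∈ Om, (p z).1 ≠ 0 ∧ (p z).2 ≠ 0 := by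
    intro z hz
    refine hax0 z hz fun h0 => ?_
    have hpz := hc.an z hz
    have hx1 : AnalyticAt ℂ (fun w => (p w).1) z := analyticAt_fst.fun_comp hpz
    have hy1 : AnalyticAt ℂ (fun w => (p w).2) z := analyticAt_snd.fun_comp hpz
    have hxz : ∀ᶠ w in 𝓝 z, (p w).1 = 0 := by
      refine SNL.ev_zero (x := fun w => (p w).1) (y := fun w => (p w).2) (a := fun w => a (p w)) (b := fun w => b (p w)) hk hx1 hy1
        ((a1 _ (hmem z hz)).fun_comp hpz) ((a2 _ (hmem z hz)).fun_comp hpz) (a3 _ (hmem z hz)) (a4 _ (hmem z hz)) (by simp only [h0]; rfl)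
        (by simp only [h0]; rfl) ?_ ?_
      · filter_upwards [hc.isOpen.mem_nhds hz] with w hw
        have h2 := hc.ode w hw
        have e1 : deriv (fun w => (p w).1) w = (deriv p w).1 := deriv_fst' (hc.an w hw).differentiableAt
        have e2 : deriv (fun w => (p w).2) w = (deriv p w).2 := deriv_snd' (hc.an w hw).differentiableAt
        rw [e1, e2]
        exact sub_eq_zero.1 h2
      · filter_upwards [hc.isOpen.mem_nhds hz] with w hw h2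
        by_contra h3
        exact (hax0 w hw fun h4 => h3 (by rw [h4]; rfl)).2 h2
    have h3 : ∀ᶠ w in 𝓝 z, g (p w) = 0 := by
      filter_upwards [hxz, hc.isOpen.mem_nhds hz] with w h4 hw
      rw [a5 _ (hmem w hw), h4, zero_mul, zero_mul]
    exact (hD.g_ne z hz) (h3.mono fun w hw hw' => hw' hw)
  obtain ⟨l, K, hl, hle, hE, hrt⟩ := hroot Om p lm hc.isOpen hc.an hc.mem hc.closed (fun _ z hz => (hax z hz).2) hD.lm_cont hl0 hp
  have hll : ∀ z, 0 ≤ l z := fun z => (hl0 z).trans (hle z)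
  have hΛ : ∀ R : ℝ, 1 ≤ R → 0 ≤ ∫ z, ‖gr (tau R) z‖ * l z := fun R _ => integral_nonneg fun z => mul_nonneg (norm_nonneg _) (hll z)
  have hN := localN1_saddleNode (g := fun q => q.1 * q.2) (g₁ := fun q => q.1) hc hk a1 a2 a3 a4 (fun _ => rfl) (fun _ => rfl) (Or.inl fun _ => rfl)
    (fun z hz _ => mul_ne_zero (hax z hz).1 (hax z hz).2) hD.lm_cont hp
    (I := fun R => ∫ z, tau R z * lm z ^ 2) (Λ := fun R => ∫ z, ‖gr (tau R) z‖ * l z) (fun R _ => le_rfl) hΛ hs (δ := 1 * d / n) (by positivity)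
  have hN' : LocalN1 v g Om p (fun R => ∫ z, tau R z * lm z ^ 2) (fun R => ∫ z, ‖gr (tau R) z‖ * l z) s (1 * d / n) :=
    localN1_unit hc a6 a7 (fun q hq => a5 q (ball_subset_closedBall hq)) (fun z hz => analyticAt_fst.mul analyticAt_snd)
      (fun z hz _ => mul_ne_zero (hax z hz).1 (hax z hz).2) hΛ hs hN
  -- the pointwise bound
  have k1 : 0 ≤ r ^ (1 + be) := Real.rpow_nonneg hr.le _
  have k2 : 0 ≤ r ^ (1 + al) := Real.rpow_nonneg hr.le _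
  have k4 : 0 ≤ s ^ be + r ^ be := add_nonneg (Real.rpow_nonneg hs.le _) (Real.rpow_nonneg hr.le _)
  have t1 : 0 ≤ Cb * r ^ (1 + al) := mul_nonneg hCb0 k2
  have t2 : 0 ≤ Cb * r ^ (1 + al) * (s ^ be + r ^ be) * B := mul_nonneg (mul_nonneg t1 k4) hB
  have t3 : 0 ≤ Ca * r ^ (1 + al) * r ^ (1 + be) * (s ^ (k + 1))⁻¹ * B := by positivity
  set C₁ : ℝ := Cb * r ^ (1 + al) + Cb * r ^ (1 + al) * (s ^ be + r ^ be) * B + Ca * r ^ (1 + al) * r ^ (1 + be) * (s ^ (k + 1))⁻¹ * B with hC₁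
  have hC₁0 : 0 ≤ C₁ := by rw [hC₁]; linarith
  refine locX_sub hc.isOpen hss.le (locX_of_localN1_den hC₁0 hl hl0 hle hE hp hN' fun z hz _ _ _ => ?_)
  obtain ⟨hx, hy⟩ := hax z hz
  have hx0 : 0 < ‖(p z).1‖ := norm_pos_iff.2 hx
  have hy0 : 0 < ‖(p z).2‖ := norm_pos_iff.2 hy
  have hzm := hc.mem z hz
  rw [mem_ball_zero_iff] at hzm
  have hxr : ‖(p z).1‖ ≤ r := (norm_fst_le _).trans hzm.le
  have hyr : ‖(p z).2‖ ≤ r := (norm_snd_le _).trans hzm.le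
  have hllz := hll z
  have hdx : ‖(deriv p z).1‖ ≤ B * l z := ((norm_fst_le _).trans (hp z hz)).trans (mul_le_mul_of_nonneg_left (hle z) hB)
  have hdy : ‖(deriv p z).2‖ ≤ B * l z := ((norm_snd_le _).trans (hp z hz)).trans (mul_le_mul_of_nonneg_left (hle z) hB)
  have hp1 : ‖(p z).2‖ * ‖(p z).2‖ ^ be ≤ r ^ (1 + be) := by
    have e : ‖(p z).2‖ * ‖(p z).2‖ ^ be = ‖(p z).2‖ ^ (1 + be) := by rw [Real.rpow_add hy0, Real.rpow_one]
    rw [e]
    exact Real.rpow_le_rpow hy0.le hyr (by linarith)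
  have hp2 : ‖(p z).1‖ * ‖(p z).1‖ ^ al ≤ r ^ (1 + al) := by
    have e : ‖(p z).1‖ * ‖(p z).1‖ ^ al = ‖(p z).1‖ ^ (1 + al) := by rw [Real.rpow_add hx0, Real.rpow_one]
    rw [e]
    exact Real.rpow_le_rpow hx0.le hxr (by linarith)
  have hxa : 0 ≤ ‖(p z).1‖ ^ al := Real.rpow_nonneg hx0.le _
  have hyb : 0 ≤ ‖(p z).2‖ ^ be := Real.rpow_nonneg hy0.le _
  have hap : 0 < ‖a (p z)‖ := norm_pos_iff.2 (a3 _ (hmem z hz))
  have hbp : 0 < ‖b (p z)‖ := norm_pos_iff.2 (a4 _ (hmem z hz))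
  have hCbz : ‖u (p z)‖ / ‖b (p z)‖ ≤ Cb := hCb ⟨p z, hmem z hz, rfl⟩
  have hCaz : ‖u (p z)‖ / ‖a (p z)‖ ≤ Ca := hCa ⟨p z, hmem z hz, rfl⟩
  rw [JD_norm, a5 _ (hmem z hz), norm_mul, norm_mul]
  have m2 : ‖ztv v p z‖ * (‖(p z).1‖ * ‖(p z).2‖ * ‖u (p z)‖) * (‖(p z).1‖ ^ al * ‖(p z).2‖ ^ be) ≤
      Cb * r ^ (1 + al) * (‖(deriv p z).2‖ * ‖(p z).2‖ ^ be) := by
    have hv2 : (v (p z)).2 ≠ 0 := mul_ne_zero hy (a4 _ (hmem z hz))
    have hv2' : (v (p z)).2 = (p z).2 * b (p z) := rfl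
    rw [ztv_snd hv2, hv2', norm_div, norm_mul]
    have e : ‖(deriv p z).2‖ / (‖(p z).2‖ * ‖b (p z)‖) * (‖(p z).1‖ * ‖(p z).2‖ * ‖u (p z)‖) * (‖(p z).1‖ ^ al * ‖(p z).2‖ ^ be) =
        (‖u (p z)‖ / ‖b (p z)‖) * (‖(p z).1‖ * ‖(p z).1‖ ^ al) * (‖(deriv p z).2‖ * ‖(p z).2‖ ^ be) := by
      field_simp
    rw [e]
    exact mul_le_mul_of_nonneg_right (mul_le_mul hCbz hp2 (by positivity) hCb0) (by positivity)
  by_cases hin : p z ∈ closedBall (0 : ℂ × ℂ) s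
  · refine m2.trans ?_
    calc Cb * r ^ (1 + al) * (‖(deriv p z).2‖ * ‖(p z).2‖ ^ be) ≤ Cb * r ^ (1 + al) * l z := mul_le_mul_of_nonneg_left (hrt z hz hin) t1
      _ ≤ C₁ * l z := mul_le_mul_of_nonneg_right (by rw [hC₁]; linarith) hllz
  · rw [mem_closedBall_zero_iff, Prod.norm_def, not_le, lt_max_iff] at hin
    rcases hin with h | h
    · have hv1 : (v (p z)).1 ≠ 0 := mul_ne_zero (pow_ne_zero _ hx) (a3 _ (hmem z hz))
      have hv1' : (v (p z)).1 = (p z).1 ^ (k + 1) * a (p z) := rfl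
      rw [hc.ztv_fst hz hv1, hv1', norm_div, norm_mul, norm_pow]
      have e : ‖(deriv p z).1‖ / (‖(p z).1‖ ^ (k + 1) * ‖a (p z)‖) * (‖(p z).1‖ * ‖(p z).2‖ * ‖u (p z)‖) * (‖(p z).1‖ ^ al * ‖(p z).2‖ ^ be) =
          (‖u (p z)‖ / ‖a (p z)‖) * (‖(p z).1‖ * ‖(p z).1‖ ^ al) * (‖(p z).2‖ * ‖(p z).2‖ ^ be) * (‖(p z).1‖ ^ (k + 1))⁻¹ * ‖(deriv p z).1‖ := by
        field_simp
      rw [e]
      have h5 : (‖(p z).1‖ ^ (k + 1))⁻¹ ≤ (s ^ (k + 1))⁻¹ := inv_anti₀ (by positivity) (pow_le_pow_left₀ hs.le h.le _)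
      have h6 : (‖u (p z)‖ / ‖a (p z)‖) * (‖(p z).1‖ * ‖(p z).1‖ ^ al) * (‖(p z).2‖ * ‖(p z).2‖ ^ be) * (‖(p z).1‖ ^ (k + 1))⁻¹ ≤
          Ca * r ^ (1 + al) * r ^ (1 + be) * (s ^ (k + 1))⁻¹ :=
        mul_le_mul (mul_le_mul (mul_le_mul hCaz hp2 (by positivity) hCa0) hp1 (by positivity) (by positivity)) h5 (by positivity) (by positivity)
      calc _ ≤ Ca * r ^ (1 + al) * r ^ (1 + be) * (s ^ (k + 1))⁻¹ * (B * l z) := mul_le_mul h6 hdx (norm_nonneg _) (by positivity)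
        _ = Ca * r ^ (1 + al) * r ^ (1 + be) * (s ^ (k + 1))⁻¹ * B * l z := by ring
        _ ≤ C₁ * l z := mul_le_mul_of_nonneg_right (by rw [hC₁]; linarith) hllz
    · have h3 : ‖(deriv p z).2‖ * ‖(p z).2‖ ^ be ≤ B * l z * (s ^ be + r ^ be) := mul_le_mul hdy (rpow_le_max hs h.le hyr) hyb (by positivity)
      refine m2.trans ?_
      calc Cb * r ^ (1 + al) * (‖(deriv p z).2‖ * ‖(p z).2‖ ^ be) ≤ Cb * r ^ (1 + al) * (B * l z * (s ^ be + r ^ be)) := mul_le_mul_of_nonneg_left h3 t1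
        _ = Cb * r ^ (1 + al) * (s ^ be + r ^ be) * B * l z := by ring
        _ ≤ C₁ * l z := mul_le_mul_of_nonneg_right (by rw [hC₁]; linarith) hllz

end Pool.Agent.MQL
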