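import Pool.Agent.MQL.BasicD
import Pool.Agent.MQL.CorD
import Pool.Agent.MQL.SnD
import Pool.Agent.MQL.StepD
import Pool.Agent.MQL.RegD
import Pool.Agent.H17BP.Div

/-!
# MQL PtS2: a saddle-node with the strong separatrix `{x = 0}` and the weak separatrix `{y = 0}`, both in the weight

`v = (x ^ (j + 1) A, y β)`, `β 0 ≠ 0`, `A (x, 0) = x ^ n * unit`.  Induction over `n`: one blow-up, the child at `t = 0` is `(x ^ (j + 2) A', y β')` with
`A (x, x y) = x A'`, `A' (x, 0) = x ^ (n - 1) * unit`; the children at the other finite points are regular, at `∞` there is a node with the eigenvalues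
`β 0`, `-β 0`.  For `n = 0`: `goodD_sn2`.
-/

set_option autoImplicit false

open Topology Filter Metric MeasureTheory Asymptotics Laplacian

noncomputable section

namespace Pool.Agent.MQL

open Pool.Agent.H36.BP (EN)
open Pool.Agent.H30M (tau LogSing)
open Pool.Agent.MQ Pool.Agent.MQ2

namespace PS2

theorem an_be (t : ℂ) (p : ℂ × ℂ) : AnalyticAt ℂ (be t) p :=
  analyticAt_fst.prod (analyticAt_fst.mul (analyticAt_snd.add analyticAt_const))

theorem be_zero (t : ℂ) : be t 0 = 0 := by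
  unfold be
  simp

theorem be_line (t y : ℂ) : be t (0, y) = 0 := by
  unfold be
  simp

theorem tend_be (t : ℂ) : Tendsto (be t) (𝓝 0) (𝓝 0) := by
  have h := (an_be t 0).continuousAt
  unfold ContinuousAt at h
  rwa [be_zero] at h

theorem comp_be {f : ℂ × ℂ → ℂ} (hf : AnalyticAt ℂ f 0) (t : ℂ) : AnalyticAt ℂ (fun p => f (be t p)) 0 := by
  have h1 : AnalyticAt ℂ f (be t 0) := by
    rw [be_zero]
    exact hf
  exact h1.comp (an_be t 0)

theorem an_swap {f : ℂ × ℂ → ℂ} (hf : AnalyticAt ℂ f 0) : AnalyticAt ℂ (fun p : ℂ × ℂ => f p.swap) 0 := by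
  have h1 : AnalyticAt ℂ f ((0 : ℂ × ℂ).swap) := hf
  have h2 : AnalyticAt ℂ (fun p : ℂ × ℂ => p.swap) 0 := analyticAt_snd.prod analyticAt_fst
  exact AnalyticAt.fun_comp (g := f) (f := fun p : ℂ × ℂ => p.swap) h1 h2

theorem tend_swap : Tendsto (fun p : ℂ × ℂ => p.swap) (𝓝 0) (𝓝 0) :=
  (continuous_snd.prodMk continuous_fst).tendsto' _ _ rfl

/-! ## the classes -/

theorem tg_mono {ι : ℕ} {t : ℂ} {P P' : (ℂ × ℂ → ℂ) → Prop} (h : ∀ g, P g → P' g) {g₁ : ℂ × ℂ → ℂ} (hg : TG ι t P g₁) : TG ι t P' g₁ := by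
  obtain ⟨g, m, g', h1, h2⟩ := hg
  exact ⟨g, m, g', h g h1, h2⟩

theorem sg_gc {g : ℂ × ℂ → ℂ} (h : SG GC g) : GC g := by
  obtain ⟨g₀, h1, h2⟩ := h
  refine ⟨fun p => g₀ p.swap, an_swap h1, ?_⟩
  filter_upwards [tend_swap.eventually h2] with p hp
  have h3 : p.swap.swap = p := Prod.swap_swap p
  rw [h3] at hp
  rw [hp]
  show p.2 * p.1 * g₀ p.swap = p.1 * p.2 * g₀ p.swap
  ring

theorem tg_gc {g₁ : ℂ × ℂ → ℂ} (h : TG 1 0 GC g₁) : GC g₁ := by
  obtain ⟨g, m, g', ⟨g₀, hg₀, hg⟩, -, hg', h1, h2⟩ := h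
  have hl : Tendsto (fun x : ℂ => ((x, 0) : ℂ × ℂ)) (𝓝 0) (𝓝 0) := (continuous_id.prodMk continuous_const).tendsto' _ _ rfl
  have hla : AnalyticAt ℂ (fun x : ℂ => g' (x, 0)) 0 := by
    have e1 : AnalyticAt ℂ (fun x : ℂ => ((x, 0) : ℂ × ℂ)) 0 := analyticAt_id.prod analyticAt_const
    exact AnalyticAt.fun_comp (g := g') (f := fun x : ℂ => ((x, 0) : ℂ × ℂ)) hg' e1
  have h3 : ∀ᶠ x : ℂ in 𝓝 0, x ≠ 0 → g' (x, 0) = 0 := by
    filter_upwards [hl.eventually h1, hl.eventually ((tend_be 0).eventually hg)] with x a1 a2 a3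
    rw [a2] at a1
    have a4 : (be 0 ((x, 0) : ℂ × ℂ)).2 = 0 := by
      unfold be
      simp
    rw [a4, mul_zero, zero_mul] at a1
    exact (mul_eq_zero.1 a1.symm).resolve_left (pow_ne_zero _ a3)
  have h4 : ∀ᶠ x : ℂ in 𝓝 0, g' (x, 0) = 0 := by
    rw [← hla.frequently_zero_iff_eventually_zero]
    have h5 : ∀ᶠ x : ℂ in 𝓝[≠] 0, g' (x, 0) = 0 := eventually_nhdsWithin_iff.2 h3
    exact h5.frequently
  obtain ⟨g'', h5, h6⟩ := Pool.Agent.H17BP.exists_div_y hg' h4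
  refine ⟨g'', h5, ?_⟩
  filter_upwards [h2, h6] with p hp hp'
  rw [hp, hp', pow_one, smul_eq_mul]
  ring

/-! ## the children -/

theorem child_fin {j : ℕ} {A β : ℂ × ℂ → ℂ} (hA : AnalyticAt ℂ A 0) (hβ : AnalyticAt ℂ β 0) (hA0 : A 0 = 0) (hβ0 : β 0 ≠ 0)
    (hiso : ∀ᶠ p in 𝓝 (0 : ℂ × ℂ), p ≠ 0 → ((p.1 ^ (j + 1) * A p, p.2 * β p) : ℂ × ℂ) ≠ 0) (t : ℂ) :
    Child 0 1 t (fun p => (p.1 ^ (j + 1) * A p, p.2 * β p))
      (fun p => (p.1 ^ (j + 1) * A (be t p), (p.2 + t) * (β (be t p) - p.1 ^ j * A (be t p)))) where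
  an := ((analyticAt_fst.pow _).mul (comp_be hA t)).prod
    ((analyticAt_snd.add analyticAt_const).mul ((comp_be hβ t).sub ((analyticAt_fst.pow _).mul (comp_be hA t))))
  fst := Eventually.of_forall fun p => by
    show (be t p).1 ^ (j + 1) * A (be t p) = p.1 ^ 0 * (p.1 ^ (j + 1) * A (be t p))
    rw [pow_zero, one_mul]
    rfl
  snd := Eventually.of_forall fun p => by
    show (be t p).2 * β (be t p) = (p.2 + t) * ((be t p).1 ^ (j + 1) * A (be t p)) + p.1 ^ (0 + 1) * ((p.2 + t) * (β (be t p) - p.1 ^ j * A (be t p)))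
    have e1 : (be t p).2 = p.1 * (p.2 + t) := rfl
    have e2 : (be t p).1 = p.1 := rfl
    rw [e1, e2]
    ring
  iso := by
    have h1 : ∀ᶠ p : ℂ × ℂ in 𝓝 0, p.2 ≠ 0 ∨ t ≠ 0 → p.2 + t ≠ 0 := by
      by_cases ht : t = 0
      · refine Eventually.of_forall fun p hp => ?_
        rw [ht, add_zero]
        exact hp.resolve_right fun h => h ht
      · have h2 : ContinuousAt (fun p : ℂ × ℂ => p.2 + t) 0 := (continuous_snd.add continuous_const).continuousAt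
        have h3 := h2.eventually_ne (show (0 : ℂ × ℂ).2 + t ≠ 0 by rw [Prod.snd_zero, zero_add]; exact ht)
        filter_upwards [h3] with p hp _ using hp
    filter_upwards [(tend_be t).eventually hiso, h1] with p a1 a2 a3 a4
    have b1 : p.1 ^ (j + 1) * A (be t p) = 0 := congrArg Prod.fst a4
    have b2 : (p.2 + t) * (β (be t p) - p.1 ^ j * A (be t p)) = 0 := congrArg Prod.snd a4
    by_cases hx : p.1 = 0
    · have hb : be t p = 0 := by
        have e : p = (0, p.2) := Prod.ext hx rfl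
        rw [e]
        exact be_line t _
      rw [hb, hA0, mul_zero, sub_zero] at b2
      have hy : p.2 ≠ 0 := fun h => a3 (Prod.ext hx h)
      exact (mul_ne_zero (a2 (Or.inl hy)) hβ0) b2
    · have hb : be t p ≠ 0 := fun h => hx (congrArg Prod.fst h)
      apply a1 hb
      have e1 : (be t p).2 = p.1 * (p.2 + t) := rfl
      have e2 : (be t p).1 = p.1 := rfl
      refine Prod.ext ?_ ?_
      · show (be t p).1 ^ (j + 1) * A (be t p) = 0
        rw [e2]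
        exact b1
      · show (be t p).2 * β (be t p) = 0
        rw [e1]
        have e3 : p.1 * (p.2 + t) * β (be t p) = (p.2 + t) * (p.1 ^ (j + 1) * A (be t p)) + p.1 * ((p.2 + t) * (β (be t p) - p.1 ^ j * A (be t p))) := by ring
        rw [e3, b1, b2, mul_zero, mul_zero, add_zero]
  inv := Or.inl ⟨rfl, Eventually.of_forall fun y => by
    show (0 : ℂ) ^ (j + 1) * A (be t (0, y)) = 0
    rw [zero_pow (Nat.succ_ne_zero j), zero_mul]⟩

theorem child_inf {j : ℕ} {A β : ℂ × ℂ → ℂ} (hA : AnalyticAt ℂ A 0) (hβ : AnalyticAt ℂ β 0) (hA0 : A 0 = 0) (hβ0 : β 0 ≠ 0)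
    (hiso : ∀ᶠ p in 𝓝 (0 : ℂ × ℂ), p ≠ 0 → ((p.1 ^ (j + 1) * A p, p.2 * β p) : ℂ × ℂ) ≠ 0) :
    Child 0 1 0 (swv fun p => (p.1 ^ (j + 1) * A p, p.2 * β p))
      (fun p => (p.1 * β (be 0 p).swap, p.2 * ((p.1 * p.2) ^ j * A (be 0 p).swap - β (be 0 p).swap))) where
  an := (analyticAt_fst.mul (comp_be (an_swap hβ) 0)).prod
    (analyticAt_snd.mul ((((analyticAt_fst.mul analyticAt_snd).pow _).mul (comp_be (an_swap hA) 0)).sub (comp_be (an_swap hβ) 0)))
  fst := Eventually.of_forall fun p => by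
    show (be 0 p).swap.2 * β (be 0 p).swap = p.1 ^ 0 * (p.1 * β (be 0 p).swap)
    rw [pow_zero, one_mul]
    rfl
  snd := Eventually.of_forall fun p => by
    show (be 0 p).swap.1 ^ (j + 1) * A (be 0 p).swap = (p.2 + 0) * ((be 0 p).swap.2 * β (be 0 p).swap) +
      p.1 ^ (0 + 1) * (p.2 * ((p.1 * p.2) ^ j * A (be 0 p).swap - β (be 0 p).swap))
    have e1 : (be 0 p).swap.1 = p.1 * (p.2 + 0) := rfl
    have e2 : (be 0 p).swap.2 = p.1 := rfl
    rw [e1, e2]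
    ring
  iso := by
    filter_upwards [(tend_be 0).eventually (tend_swap.eventually hiso)] with p a1 a3 a4
    have b1 : p.1 * β (be 0 p).swap = 0 := congrArg Prod.fst a4
    have b2 : p.2 * ((p.1 * p.2) ^ j * A (be 0 p).swap - β (be 0 p).swap) = 0 := congrArg Prod.snd a4
    by_cases hx : p.1 = 0
    · have hb : (be 0 p).swap = 0 := by
        have e : p = (0, p.2) := Prod.ext hx rfl
        rw [e, be_line]
        rfl
      rw [hb, hA0, mul_zero, zero_sub] at b2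
      have hy : p.2 ≠ 0 := fun h => a3 (Prod.ext hx h)
      exact (mul_ne_zero hy (neg_ne_zero.2 hβ0)) b2
    · have hb : (be 0 p).swap ≠ 0 := fun h => hx (congrArg Prod.snd h)
      apply a1 hb
      have e1 : (be 0 p).swap.1 = p.1 * (p.2 + 0) := rfl
      have e2 : (be 0 p).swap.2 = p.1 := rfl
      refine Prod.ext ?_ ?_
      · show (be 0 p).swap.1 ^ (j + 1) * A (be 0 p).swap = 0
        rw [e1]
        have e3 : (p.1 * (p.2 + 0)) ^ (j + 1) * A (be 0 p).swap = p.2 * (p.1 * β (be 0 p).swap) +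
          p.1 * (p.2 * ((p.1 * p.2) ^ j * A (be 0 p).swap - β (be 0 p).swap)) := by ring
        rw [e3, b1, b2, mul_zero, mul_zero, add_zero]
      · show (be 0 p).swap.2 * β (be 0 p).swap = 0
        rw [e2]
        exact b1
  inv := Or.inl ⟨rfl, Eventually.of_forall fun y => by
    show (0 : ℂ) * β (be 0 (0, y)).swap = 0
    rw [zero_mul]⟩

/-! ## the induction -/

theorem main_ind : ∀ (n j : ℕ) (A β : ℂ × ℂ → ℂ), AnalyticAt ℂ A 0 → AnalyticAt ℂ β 0 → β 0 ≠ 0 → 1 ≤ n + j →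
    (∃ h : ℂ → ℂ, AnalyticAt ℂ h 0 ∧ h 0 ≠ 0 ∧ ∀ᶠ x in 𝓝 (0 : ℂ), A (x, 0) = x ^ n * h x) →
    (∀ᶠ p in 𝓝 (0 : ℂ × ℂ), p ≠ 0 → ((p.1 ^ (j + 1) * A p, p.2 * β p) : ℂ × ℂ) ≠ 0) → ∀ al be' : ℝ, -1 < al → -1 < be' →
      GoodD GC al be' fun p => (p.1 ^ (j + 1) * A p, p.2 * β p) := by
  intro n
  induction n with
  | zero =>
    intro j A β hA hβ hβ0 hj ⟨h, _, hh0, hh⟩ _ al be' hal hbe
    have h1 : A 0 = 0 ^ 0 * h 0 := hh.self_of_nhds
    rw [pow_zero, one_mul] at h1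
    exact goodD_sn2 hal hbe (by omega) hA hβ (by rw [h1]; exact hh0) hβ0
  | succ n ih =>
    intro j A β hA hβ hβ0 _ ⟨h, hha, hh0, hh⟩ hiso al be' hal hbe
    have hA0 : A 0 = 0 := by
      have h1 : A 0 = 0 ^ (n + 1) * h 0 := hh.self_of_nhds
      rw [h1, zero_pow (Nat.succ_ne_zero n), zero_mul]
    have hv : Iso fun p : ℂ × ℂ => ((p.1 ^ (j + 1) * A p, p.2 * β p) : ℂ × ℂ) := by
      refine ⟨((analyticAt_fst.pow _).mul hA).prod (analyticAt_snd.mul hβ), ?_, hiso⟩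
      show (((0 : ℂ × ℂ).1 ^ (j + 1) * A 0, (0 : ℂ × ℂ).2 * β 0) : ℂ × ℂ) = 0
      rw [hA0, mul_zero, Prod.snd_zero, zero_mul]
      rfl
    have hex : -1 < 1 + al + be' := by linarith
    refine goodD_step hal hbe hv (child_fin hA hβ hA0 hβ0 hiso) (child_inf hA hβ hA0 hβ0 hiso) ?_ (fun t ht => ?_) ?_
    · obtain ⟨A', hA', hAA'⟩ := Pool.Agent.H17BP.exists_div_x (comp_be hA 0) (Eventually.of_forall fun y => by
        show A (be 0 (0, y)) = 0
        rw [be_line, hA0])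
      have hβ' : AnalyticAt ℂ (fun p : ℂ × ℂ => β (be 0 p) - p.1 ^ j * A (be 0 p)) 0 := (comp_be hβ 0).sub ((analyticAt_fst.pow _).mul (comp_be hA 0))
      have heq : (fun p : ℂ × ℂ => ((p.1 ^ (j + 1 + 1) * A' p, p.2 * (β (be 0 p) - p.1 ^ j * A (be 0 p))) : ℂ × ℂ)) =ᶠ[𝓝 0]
          fun p => (p.1 ^ (j + 1) * A (be 0 p), (p.2 + 0) * (β (be 0 p) - p.1 ^ j * A (be 0 p))) := by
        filter_upwards [hAA'] with p hp
        rw [hp, smul_eq_mul, add_zero]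
        refine Prod.ext ?_ rfl
        show p.1 ^ (j + 1 + 1) * A' p = p.1 ^ (j + 1) * (p.1 * A' p)
        ring
      refine GoodD.mono (fun g hg _ _ => tg_gc hg) (GoodD.congr heq (ih (j + 1) A' _ hA' hβ' ?_ (by omega) ⟨h, hha, hh0, ?_⟩ ?_ _ _ hex hbe))
      · show β (be 0 0) - (0 : ℂ × ℂ).1 ^ j * A (be 0 0) ≠ 0
        rw [be_zero, hA0, mul_zero, sub_zero]
        exact hβ0
      · have hl : Tendsto (fun x : ℂ => ((x, 0) : ℂ × ℂ)) (𝓝 0) (𝓝 0) := (continuous_id.prodMk continuous_const).tendsto' _ _ rfl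
        have e1 : AnalyticAt ℂ (fun x : ℂ => ((x, 0) : ℂ × ℂ)) 0 := analyticAt_id.prod analyticAt_const
        have e2 : AnalyticAt ℂ (fun x : ℂ => A' (x, 0)) 0 := AnalyticAt.fun_comp (g := A') (f := fun x : ℂ => ((x, 0) : ℂ × ℂ)) hA' e1
        have e3 : AnalyticAt ℂ (fun x : ℂ => x ^ n * h x) 0 := (analyticAt_id.pow n).mul hha
        rw [← e2.frequently_eq_iff_eventually_eq e3]
        have e4 : ∀ᶠ x : ℂ in 𝓝[≠] 0, A' (x, 0) = x ^ n * h x := by
          refine eventually_nhdsWithin_iff.2 ?_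
          filter_upwards [hl.eventually hAA', hh] with x a1 a2 a3
          have a4 : be 0 ((x, 0) : ℂ × ℂ) = (x, 0) := by
            unfold be
            simp
          rw [a4, a2, smul_eq_mul] at a1
          have a5 : x * (x ^ n * h x) = x * A' (x, 0) := by
            rw [← a1]
            ring
          exact (mul_left_cancel₀ a3 a5).symm
        exact e4.frequently
      · filter_upwards [(child_fin hA hβ hA0 hβ0 hiso 0).iso, heq] with p hp hp' h0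
        rw [hp']
        exact hp h0
    · refine GoodD.mono (fun _ _ _ _ => trivial) (goodD_reg hex (by norm_num) (child_fin hA hβ hA0 hβ0 hiso t).an ?_)
      intro h1
      have h2 : ((0 : ℂ × ℂ).2 + t) * (β (be t 0) - (0 : ℂ × ℂ).1 ^ j * A (be t 0)) = 0 := congrArg Prod.snd h1
      rw [be_zero, hA0, mul_zero, sub_zero, Prod.snd_zero, zero_add] at h2
      exact (mul_ne_zero ht hβ0) h2
    · refine GoodD.mono (fun g hg _ _ => tg_gc (tg_mono (fun _ => sg_gc) hg)) (goodD_corner hex hal (comp_be (an_swap hβ) 0)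
        ((((analyticAt_fst.mul analyticAt_snd).pow _).mul (comp_be (an_swap hA) 0)).sub (comp_be (an_swap hβ) 0)) ?_ ?_ ?_)
      · show β (be 0 0).swap ≠ 0
        rw [be_zero]
        exact hβ0
      · show ((0 : ℂ × ℂ).1 * (0 : ℂ × ℂ).2) ^ j * A (be 0 0).swap - β (be 0 0).swap ≠ 0
        rw [be_zero]
        show ((0 : ℂ × ℂ).1 * (0 : ℂ × ℂ).2) ^ j * A 0 - β 0 ≠ 0
        rw [hA0, mul_zero, zero_sub]
        exact neg_ne_zero.2 hβ0
      · intro k l hk _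
        show (k : ℂ) * β (be 0 0).swap ≠ l * (((0 : ℂ × ℂ).1 * (0 : ℂ × ℂ).2) ^ j * A (be 0 0).swap - β (be 0 0).swap)
        rw [be_zero]
        show (k : ℂ) * β 0 ≠ l * (((0 : ℂ × ℂ).1 * (0 : ℂ × ℂ).2) ^ j * A 0 - β 0)
        rw [hA0, mul_zero, zero_sub]
        intro h1
        have h2 : ((k : ℂ) + l) * β 0 = 0 := by linear_combination h1
        have h3 : ((k : ℂ) + l) ≠ 0 := by
          have h4 : ((k + l : ℕ) : ℂ) ≠ 0 := Nat.cast_ne_zero.2 (by omega)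
          rwa [Nat.cast_add] at h4
        exact (mul_ne_zero h3 hβ0) h2

end PS2

/-- a saddle-node `(x a, b)`, `a 0 = 0`, with the invariant line `{y = 0}`, the weight contains both axes -/
theorem goodD_S_inv {al be' : ℝ} (hal : -1 < al) (hbe : -1 < be') {a b : ℂ × ℂ → ℂ} (ha : AnalyticAt ℂ a 0) (hb : AnalyticAt ℂ b 0)
    (ha0 : a 0 = 0) (_hb0 : b 0 = 0) (hb1 : fderiv ℂ b 0 (0, 1) ≠ 0) (hinv : ∀ᶠ x in 𝓝 (0 : ℂ), b (x, 0) = 0)
    (hiso : ∀ᶠ p in 𝓝 (0 : ℂ × ℂ), p ≠ 0 → (p.1 * a p, b p) ≠ (0 : ℂ × ℂ)) : GoodD GC al be' fun p => (p.1 * a p, b p) := by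
  obtain ⟨β, hβ, hbβ⟩ := Pool.Agent.H17BP.exists_div_y hb hinv
  have hβ0 : β 0 ≠ 0 := by
    have h1 : HasFDerivAt (fun p : ℂ × ℂ => p.2 * β p) ((0 : ℂ × ℂ).2 • fderiv ℂ β 0 + β 0 • ContinuousLinearMap.snd ℂ ℂ ℂ) 0 :=
      hasFDerivAt_snd.mul hβ.differentiableAt.hasFDerivAt
    have h2 : HasFDerivAt b ((0 : ℂ × ℂ).2 • fderiv ℂ β 0 + β 0 • ContinuousLinearMap.snd ℂ ℂ ℂ) 0 := by
      refine h1.congr_of_eventuallyEq ?_
      filter_upwards [hbβ] with p hp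
      rw [hp, smul_eq_mul]
    rw [h2.fderiv] at hb1
    intro h3
    apply hb1
    rw [h3, Prod.snd_zero]
    show (0 : ℂ) • (fderiv ℂ β 0) (0, 1) + (0 : ℂ) • (ContinuousLinearMap.snd ℂ ℂ ℂ) ((0 : ℂ), (1 : ℂ)) = 0
    simp only [smul_eq_mul, zero_mul, add_zero]
  have heq : (fun p : ℂ × ℂ => ((p.1 ^ (0 + 1) * a p, p.2 * β p) : ℂ × ℂ)) =ᶠ[𝓝 0] fun p => (p.1 * a p, b p) := by
    filter_upwards [hbβ] with p hp
    rw [hp, smul_eq_mul, zero_add, pow_one]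
  refine GoodD.congr heq ?_
  have hl : Tendsto (fun x : ℂ => ((x, 0) : ℂ × ℂ)) (𝓝 0) (𝓝 0) := (continuous_id.prodMk continuous_const).tendsto' _ _ rfl
  have e1 : AnalyticAt ℂ (fun x : ℂ => ((x, 0) : ℂ × ℂ)) 0 := analyticAt_id.prod analyticAt_const
  have e2 : AnalyticAt ℂ (fun x : ℂ => a (x, 0)) 0 := AnalyticAt.fun_comp (g := a) (f := fun x : ℂ => ((x, 0) : ℂ × ℂ)) ha e1
  have e3 : ¬ ∀ᶠ x in 𝓝 (0 : ℂ), a (x, 0) = 0 := by
    intro h1
    have h2 : ∀ᶠ x : ℂ in 𝓝 0, x = 0 := by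
      filter_upwards [h1, hinv, hl.eventually hiso] with x a1 a2 a3
      by_contra h4
      exact a3 (fun h5 => h4 (congrArg Prod.fst h5)) (Prod.ext (by rw [a1, mul_zero]; rfl) a2)
    have h3 : ∀ᶠ x : ℂ in 𝓝[≠] 0, False := by
      refine eventually_nhdsWithin_iff.2 ?_
      filter_upwards [h2] with x hx hx'
      exact hx' hx
    exact h3.exists.elim fun _ h => h
  obtain ⟨n, h, hh, hh0, hn⟩ := e2.exists_eventuallyEq_pow_smul_nonzero_iff.2 e3
  have hn' : ∀ᶠ x in 𝓝 (0 : ℂ), a (x, 0) = x ^ n * h x := by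
    filter_upwards [hn] with x hx
    rw [hx, sub_zero, smul_eq_mul]
  have hn1 : 1 ≤ n := by
    rcases Nat.eq_zero_or_pos n with h0 | h0
    · exfalso
      have h1 : a 0 = 0 ^ n * h 0 := hn'.self_of_nhds
      rw [h0, pow_zero, one_mul, ha0] at h1
      exact hh0 h1.symm
    · exact h0
  refine PS2.main_ind n 0 a β ha hβ hβ0 hn1 ⟨h, hh, hh0, hn'⟩ ?_ al be' hal hbe
  filter_upwards [hiso, heq] with p hp hp' h0
  rw [hp']
  exact hp h0

end Pool.Agent.MQL
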