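import Pool.Agent.MQL.PtB
import Pool.Agent.MQL.PtS2
import Pool.Agent.MQ2.GoodT

/-!
# MQL PtS: saddle-nodes with the strong separatrix `{x = 0}`, which is exceptional
-/

set_option autoImplicit false

open Topology Filter Metric MeasureTheory Asymptotics Laplacian

noncomputable section

namespace Pool.Agent.MQL

open Pool.Agent.H17BP (exists_div_x exists_div_y)
open Pool.Agent.MQ Pool.Agent.MQ2

/-- the eigenvalues at infinity are opposite -/
theorem pt_hq {a b : ℂ × ℂ → ℂ} (ha0 : a 0 = 0) (hb1 : fderiv ℂ b 0 (0, 1) ≠ 0) (k l : ℕ) (hk : 1 ≤ k) (_hl : 1 ≤ l) :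
    k * fderiv ℂ b 0 (0, 1) ≠ l * (a 0 - fderiv ℂ b 0 (0, 1)) := by
  intro h
  rw [ha0] at h
  have h2 : ((k : ℂ) + l) * fderiv ℂ b 0 (0, 1) = 0 := by linear_combination h
  rcases mul_eq_zero.1 h2 with h3 | h3
  · have h4 : ((k + l : ℕ) : ℂ) = 0 := by push_cast; exact h3
    rw [Nat.cast_eq_zero] at h4
    omega
  · exact hb1 h3

/-- the black box at a singular transform -/
theorem pt_black {P : (ℂ × ℂ → ℂ) → Prop} {al be' : ℝ} (hal : 0 ≤ al) (hbe : 0 ≤ be') {w : ℂ × ℂ → ℂ × ℂ} (hw : Iso w) : GoodD P al be' w :=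
  GoodD.mono (fun _ _ _ _ => trivial) (goodD_of_good hal hbe (good_of_iso hw))

/-- the singular transform is an isolated singular point -/
theorem PtC.iso {a b : ℂ × ℂ → ℂ} {t : ℂ} {β : ℂ × ℂ → ℂ} (h : PtC a b t β) (h0 : fderiv ℂ b 0 (1, 0) + t * (fderiv ℂ b 0 (0, 1) - a 0) = 0) : Iso (pw a t β) := by
  refine ⟨h.child.an, ?_, h.child.iso⟩
  have h1 := h.val
  rw [h0] at h1
  exact Prod.ext (by simp [pw]) h1

/-- the case `be = 0` -/
theorem goodD_S0 {al : ℝ} (hal : -1 < al) {a b : ℂ × ℂ → ℂ} (ha : AnalyticAt ℂ a 0) (hb : AnalyticAt ℂ b 0) (ha0 : a 0 = 0) (hb0 : b 0 = 0)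
    (hb1 : fderiv ℂ b 0 (0, 1) ≠ 0) (hiso : ∀ᶠ p in 𝓝 (0 : ℂ × ℂ), p ≠ 0 → (p.1 * a p, b p) ≠ (0 : ℂ × ℂ)) : GoodD DivX al 0 fun p => (p.1 * a p, b p) := by
  rcases le_or_gt 0 al with h | h
  · exact pt_black h le_rfl ⟨(analyticAt_fst.mul ha).prod hb, by simp [hb0], hiso⟩
  · refine goodD_one (fun _ h => h) hal (by norm_num) ha hb hb0 hb1 (by rw [ha0]; exact hb1.symm) (pt_hq ha0 hb1) hiso ?_ ?_
    · intro h0 β hβ
      exact pt_black (by linarith) le_rfl (hβ.iso (by rw [h0, zero_mul, add_zero]))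
    · intro t _ h0 β hβ
      exact pt_black (by linarith) le_rfl (hβ.iso h0)

/-- the case that `{y = 0}` is not invariant, by induction on the order of `b (x, 0)` -/
theorem goodD_S_ni (n : ℕ) : ∀ {al be' : ℝ}, -1 < al → -1 < be' → ∀ {a b : ℂ × ℂ → ℂ}, AnalyticAt ℂ a 0 → AnalyticAt ℂ b 0 → a 0 = 0 → b 0 = 0 →
    fderiv ℂ b 0 (0, 1) ≠ 0 → (∀ᶠ p in 𝓝 (0 : ℂ × ℂ), p ≠ 0 → (p.1 * a p, b p) ≠ (0 : ℂ × ℂ)) → analyticOrderAt (fun x : ℂ => b (x, 0)) 0 = n →
    GoodD DivX al be' fun p => (p.1 * a p, b p) := by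
  induction n with
  | zero =>
    intro al be' hal hbe a b ha hb ha0 hb0 hb1 hiso hn
    exfalso
    have h1 : AnalyticAt ℂ (fun x : ℂ => b (x, 0)) 0 :=
      AnalyticAt.fun_comp (g := b) (f := fun x : ℂ => (x, (0 : ℂ))) (by exact hb) (analyticAt_id.prod analyticAt_const)
    rw [Nat.cast_zero, h1.analyticOrderAt_eq_zero] at hn
    exact hn hb0
  | succ n ih =>
    intro al be' hal hbe a b ha hb ha0 hb0 hb1 hiso hn
    have h2 : a 0 ≠ fderiv ℂ b 0 (0, 1) := by rw [ha0]; exact hb1.symm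
    refine goodD_one (fun _ h => h) hal hbe ha hb hb0 hb1 h2 (pt_hq ha0 hb1) hiso ?_ ?_
    · intro h0 β hβ
      have e0 : (fun q : ℂ × ℂ => β q - (q.2 + 0) * a (be 0 q)) 0 = 0 := hβ.val.trans (by rw [h0, zero_mul, add_zero])
      refine GoodD.mono (fun _ hg _ _ => tg_divX hg) (ih (by linarith) hbe hβ.an_a hβ.an_b (by rw [pt_be_zero]; exact ha0) e0 ?_ hβ.child.iso ?_)
      · rw [hβ.dy, ha0, sub_zero]; exact hb1
      · -- the order drops by one
        have hβ1 : AnalyticAt ℂ (fun x : ℂ => β (x, 0)) 0 :=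
          AnalyticAt.fun_comp (g := β) (f := fun x : ℂ => (x, (0 : ℂ))) (by exact hβ.an) (analyticAt_id.prod analyticAt_const)
        have e1 : (fun x : ℂ => b (x, 0)) =ᶠ[𝓝 0] (fun x : ℂ => x) * fun x => β (x, 0) := by
          filter_upwards [pt_line'.eventually hβ.eq] with x hx
          have : be 0 (x, 0) = (x, 0) := by simp [be]
          rw [this] at hx
          exact hx
        have e2 : (fun x : ℂ => β (x, 0) - (0 + 0) * a (be 0 (x, 0))) = fun x : ℂ => β (x, 0) := by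
          funext x
          rw [add_zero, zero_mul, sub_zero]
        show analyticOrderAt (fun x : ℂ => β (x, 0) - (0 + 0) * a (be 0 (x, 0))) 0 = n
        rw [e2]
        have hid : AnalyticAt ℂ (fun x : ℂ => x) 0 := analyticAt_id
        rw [analyticOrderAt_congr e1, analyticOrderAt_mul hid hβ1] at hn
        have e3 : analyticOrderAt (fun x : ℂ => x) (0 : ℂ) = 1 := analyticOrderAt_id
        rw [e3] at hn
        cases hm : analyticOrderAt (fun x : ℂ => β (x, 0)) 0 with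
        | top =>
          rw [hm, add_top] at hn
          exact absurd hn.symm (ENat.natCast_ne_top (n + 1))
        | coe m' =>
          rw [hm] at hn
          have h3 : 1 + m' = n + 1 := by exact_mod_cast hn
          have h4 : m' = n := by omega
          rw [h4]
    · intro t _ h0 β hβ
      have e0 : (fun q : ℂ × ℂ => β q - (q.2 + t) * a (be t q)) 0 = 0 := hβ.val.trans h0
      refine GoodD.mono (fun _ hg _ _ => tg_divX hg) (goodD_S0 (by linarith) hβ.an_a hβ.an_b (by rw [pt_be_zero]; exact ha0) e0 ?_ hβ.child.iso)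
      rw [hβ.dy, ha0, sub_zero]; exact hb1

/-- MODULE PtS -/
theorem goodD_S {al be' : ℝ} (hal : -1 < al) (hbe : -1 < be') {a b : ℂ × ℂ → ℂ} (ha : AnalyticAt ℂ a 0) (hb : AnalyticAt ℂ b 0) (ha0 : a 0 = 0) (hb0 : b 0 = 0)
    (hb1 : fderiv ℂ b 0 (0, 1) ≠ 0) (hiso : ∀ᶠ p in 𝓝 (0 : ℂ × ℂ), p ≠ 0 → (p.1 * a p, b p) ≠ (0 : ℂ × ℂ)) : GoodD DivX al be' fun p => (p.1 * a p, b p) := by
  rcases le_or_gt 0 be' with h | h
  · exact GoodD.exp_zero h (goodD_S0 hal ha hb ha0 hb0 hb1 hiso)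
  have h1 : AnalyticAt ℂ (fun x : ℂ => b (x, 0)) 0 :=
    AnalyticAt.fun_comp (g := b) (f := fun x : ℂ => (x, (0 : ℂ))) (by exact hb) (analyticAt_id.prod analyticAt_const)
  by_cases ho : analyticOrderAt (fun x : ℂ => b (x, 0)) 0 = ⊤
  · have hinv := analyticOrderAt_eq_top.1 ho
    refine GoodD.mono (fun g hg _ hA => gc_of_div hg (hA.snd h ?_)) (goodD_S_inv hal hbe ha hb ha0 hb0 hb1 hinv hiso)
    exact hinv
  · obtain ⟨n, hn⟩ := ENat.ne_top_iff_exists.1 ho
    exact goodD_S_ni n hal hbe ha hb ha0 hb0 hb1 hiso hn.symm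

end Pool.Agent.MQL
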