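import Pool.Agent.MQL.BasicD
import Pool.Agent.MQL.RootE
import Pool.Agent.MQ2.RegE

/-!
# MQL RegD0: regular points which need no separatrix

Every axis with a negative exponent is transversal or invariant, and at most one is transversal.  The field is `conj D`, `Φ = 0`; the density is the root density
of the transversal axis.
-/

set_option autoImplicit false

open Topology Filter Metric MeasureTheory Asymptotics Laplacian Set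

noncomputable section

namespace Pool.Agent.MQL

open Pool.Agent.H36.BP (EN)
open Pool.Agent.H30M (tau LogSing)
open Pool.Agent.MQ Pool.Agent.MQ2

namespace RegD0

/-- the package from a pointwise bound -/
theorem locX_reg {v : ℂ × ℂ → ℂ × ℂ} {g J : ℂ × ℂ → ℂ} (hv : AnalyticAt ℂ v 0) (h0 : v 0 ≠ 0) (hg : Wt v g) : ∀ᶠ r in 𝓝[>] (0 : ℝ),
    ∀ (Om : Set ℂ) (p : ℂ → ℂ × ℂ) (lm l : ℂ → ℝ) (s s' A K B C₁ : ℝ), Crv1 v r Om p → (∀ z ∈ Om, ∃ᶠ w in 𝓝 z, g (p w) ≠ 0) → 0 ≤ B →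
      (∀ z, 0 ≤ lm z) → (∀ z ∈ Om, ‖deriv p z‖ ≤ B * lm z) → Continuous l → (∀ z, lm z ≤ l z) →
      (∀ R, 1 ≤ R → ∫ z, tau R z * l z ^ 2 ≤ A * (∫ z, tau R z * lm z ^ 2) + K) → 0 ≤ C₁ →
      (∀ z ∈ Om, p z ∈ ball (0 : ℂ × ℂ) s' → ‖ztv v p z‖ * ‖g (p z)‖ * ‖J (p z)‖ ≤ C₁ * l z) →
      LocX v g J {z | z ∈ Om ∧ p z ∈ ball (0 : ℂ × ℂ) s'} p lm s A 0 := by
  have hiso : ∀ᶠ p in 𝓝 (0 : ℂ × ℂ), p ≠ 0 → v p ≠ 0 := (hv.continuousAt.eventually_ne h0).mono fun p hp _ => hp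
  obtain ⟨ε, hε, hball⟩ := Metric.eventually_nhds_iff_ball.1 (hv.continuousAt.eventually_ne h0)
  filter_upwards [DD_cof hv hiso hg, DD_bound hv hiso hg, Ioo_mem_nhdsGT hε] with r hcof hbd hr
  obtain ⟨h, han, hcof⟩ := hcof
  obtain ⟨C, hC, hbd⟩ := hbd 0 (Or.inr h0)
  intro Om p lm l s s' A K B C₁ hp hgn hB hlm0 hpB hlc hll hen hC₁ hpt
  have hl0 : ∀ z, 0 ≤ l z := fun z => (hlm0 z).trans (hll z)
  have hv0 : ∀ z ∈ Om, v (p z) ≠ 0 := fun z hz => hball _ (ball_subset_ball hr.2.le (hp.mem z hz))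
  have hDa : ∀ z ∈ Om, AnalyticAt ℂ (DDv v g p) z := by
    intro z hz
    obtain ⟨-, h1, h2⟩ := hcof Om p hp hgn z hz (hv0 z hz)
    have h3 : AnalyticAt ℂ (fun w => h (p w)) z := AnalyticAt.comp (g := h) (f := p) (han _ (ball_subset_closedBall (hp.mem z hz))) (hp.an z hz)
    exact (h3.mul h1).congr (h2.mono fun w hw => hw.symm)
  have hL : ∀ R : ℝ, 0 ≤ ∫ z, ‖gr (tau R) z‖ * l z := fun R => integral_nonneg fun z => mul_nonneg (norm_nonneg _) (hl0 z)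
  have hc : ∀ z ∈ Om, ContDiffAt ℝ 1 (fun w => (starRingEnd ℂ) (DDv v g p w)) z := fun z hz => contDiffAt_conj_holo (hDa z hz)
  refine ⟨max (C * B) (max |K| (Real.log (1 + C₁))), l, fun w => (starRingEnd ℂ) (DDv v g p w), fun _ => 0, fun _ => 0,
    le_max_of_le_left (mul_nonneg hC.le hB), hlc, hll, fun R hR => ?_, fun z hz => (hc z hz.1).contDiffWithinAt, continuousOn_const, fun z _ => ⟨0, ?_⟩,
    fun z _ _ => ⟨rfl, rfl, rfl⟩, fun z hz _ => ?_, fun z hz _ => ?_, fun z hz _ h1 h2 h3 => ?_, fun R hR => ?_⟩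
  · exact (hen R hR).trans (by gcongr; exact (le_abs_self K).trans ((le_max_left _ _).trans (le_max_right _ _)))
  · exact LogSing.of_contDiffAt contDiff_const.contDiffAt
  · show ‖(starRingEnd ℂ) (DDv v g p z)‖ ≤ _
    rw [RCLike.norm_conj]
    have h1 := (hbd Om p hp hgn z hz.1 (by rw [ball_zero]; exact Set.notMem_empty _)).2
    calc ‖DDv v g p z‖ ≤ C * ‖deriv p z‖ := h1
      _ ≤ C * (B * l z) := by
        gcongr
        exact (hpB z hz.1).trans (by gcongr; exact hll z)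
      _ = C * B * l z := by ring
      _ ≤ _ := mul_le_mul_of_nonneg_right (le_max_left _ _) (hl0 z)
  · have h4 : Δ (fun _ : ℂ => (0 : ℝ)) z = 0 := by
      rw [InnerProductSpace.laplacian_const]
      rfl
    rw [h4, dv_conj (hDa z hz.1).differentiableAt]
    norm_num
  · have h5 : 0 < ‖ztv v p z‖ * ‖g (p z)‖ * ‖J (p z)‖ := mul_pos (mul_pos (norm_pos_iff.2 h1) (norm_pos_iff.2 h2)) (norm_pos_iff.2 h3)
    have h6 : Real.log ‖ztv v p z‖ + Real.log ‖g (p z)‖ + Real.log ‖J (p z)‖ = Real.log (‖ztv v p z‖ * ‖g (p z)‖ * ‖J (p z)‖) := by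
      rw [Real.log_mul (mul_ne_zero (norm_ne_zero_iff.2 h1) (norm_ne_zero_iff.2 h2)) (norm_ne_zero_iff.2 h3),
        Real.log_mul (norm_ne_zero_iff.2 h1) (norm_ne_zero_iff.2 h2)]
    have h7 : C₁ * l z ≤ (1 + C₁) * (1 + l z) := by nlinarith [hl0 z]
    rw [h6, add_zero]
    calc Real.log (‖ztv v p z‖ * ‖g (p z)‖ * ‖J (p z)‖) ≤ Real.log ((1 + C₁) * (1 + l z)) := Real.log_le_log h5 ((hpt z hz.1 hz.2).trans h7)
      _ = Real.log (1 + C₁) + Real.log (1 + l z) := Real.log_mul (by linarith) (by linarith [hl0 z])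
      _ ≤ _ := by gcongr; exact (le_max_right _ _).trans (le_max_right _ _)
  · simp only [mul_zero, integral_zero, zero_mul, zero_add]
    have h1 : 0 ≤ max (C * B) (max |K| (Real.log (1 + C₁))) := le_max_of_le_left (mul_nonneg hC.le hB)
    have h2 := mul_nonneg h1 (hL R)
    linarith

theorem nJD (al be : ℝ) (p : ℂ × ℂ) : ‖JD al be p‖ = ‖p.1‖ ^ al * ‖p.2‖ ^ be := by
  unfold JD
  rw [Complex.norm_real, Real.norm_eq_abs, abs_of_nonneg (by positivity)]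

/-- `|g| |x| ^ al |y| ^ be` is bounded -/
theorem g_bound {g : ℂ × ℂ → ℂ} (hg : AnalyticAt ℂ g 0) {al be : ℝ} (hal : -1 < al) (hbe : -1 < be) (hx : 0 ≤ al ∨ DivX g) (hy : 0 ≤ be ∨ DivY g)
    (h : 0 ≤ al ∨ 0 ≤ be) : ∃ G : ℝ, 0 ≤ G ∧ ∀ᶠ q in 𝓝 (0 : ℂ × ℂ), ‖g q‖ * (‖q.1‖ ^ al * ‖q.2‖ ^ be) ≤ G := by
  have hone : ∀ᶠ q in 𝓝 (0 : ℂ × ℂ), ‖q.1‖ ≤ 1 ∧ ‖q.2‖ ≤ 1 := by
    filter_upwards [Metric.ball_mem_nhds (0 : ℂ × ℂ) one_pos] with q hq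
    rw [mem_ball_zero_iff] at hq
    exact ⟨(norm_fst_le q).trans hq.le, (norm_snd_le q).trans hq.le⟩
  have hbd : ∀ f : ℂ × ℂ → ℂ, AnalyticAt ℂ f 0 → ∀ᶠ q in 𝓝 (0 : ℂ × ℂ), ‖f q‖ ≤ ‖f 0‖ + 1 := fun f hf =>
    (hf.continuousAt.norm.eventually_lt_const (lt_add_one ‖f 0‖)).mono fun q hq => hq.le
  have hpow : ∀ {a t : ℝ}, -1 < a → 0 ≤ t → t ≤ 1 → t * t ^ a ≤ 1 := by
    intro a t ha ht ht1
    rcases ht.eq_or_lt with h1 | h1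
    · rw [← h1, zero_mul]
      exact zero_le_one
    · have h2 : t * t ^ a = t ^ (1 + a) := by rw [Real.rpow_add h1, Real.rpow_one]
      rw [h2]
      exact Real.rpow_le_one ht ht1 (by linarith)
  by_cases h1 : 0 ≤ al
  · by_cases h2 : 0 ≤ be
    · refine ⟨‖g 0‖ + 1, by positivity, ?_⟩
      filter_upwards [hone, hbd g hg] with q hq hq2
      have h3 : ‖q.1‖ ^ al * ‖q.2‖ ^ be ≤ 1 :=
        mul_le_one₀ (Real.rpow_le_one (norm_nonneg _) hq.1 h1) (by positivity) (Real.rpow_le_one (norm_nonneg _) hq.2 h2)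
      calc ‖g q‖ * (‖q.1‖ ^ al * ‖q.2‖ ^ be) ≤ (‖g 0‖ + 1) * 1 := mul_le_mul hq2 h3 (by positivity) (by positivity)
        _ = _ := mul_one _
    · obtain ⟨g₀, hg₀, hgg⟩ := hy.resolve_left h2
      refine ⟨‖g₀ 0‖ + 1, by positivity, ?_⟩
      filter_upwards [hone, hbd g₀ hg₀, hgg] with q hq hq2 hq3
      rw [hq3, norm_mul]
      have h3 : ‖q.2‖ * ‖g₀ q‖ * (‖q.1‖ ^ al * ‖q.2‖ ^ be) = ‖g₀ q‖ * (‖q.1‖ ^ al * (‖q.2‖ * ‖q.2‖ ^ be)) := by ring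
      have h4 : ‖q.1‖ ^ al * (‖q.2‖ * ‖q.2‖ ^ be) ≤ 1 :=
        mul_le_one₀ (Real.rpow_le_one (norm_nonneg _) hq.1 h1) (by positivity) (hpow hbe (norm_nonneg _) hq.2)
      rw [h3]
      calc ‖g₀ q‖ * (‖q.1‖ ^ al * (‖q.2‖ * ‖q.2‖ ^ be)) ≤ (‖g₀ 0‖ + 1) * 1 := mul_le_mul hq2 h4 (by positivity) (by positivity)
        _ = _ := mul_one _
  · have h2 := h.resolve_left h1
    obtain ⟨g₀, hg₀, hgg⟩ := hx.resolve_left h1
    refine ⟨‖g₀ 0‖ + 1, by positivity, ?_⟩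
    filter_upwards [hone, hbd g₀ hg₀, hgg] with q hq hq2 hq3
    rw [hq3, norm_mul]
    have h3 : ‖q.1‖ * ‖g₀ q‖ * (‖q.1‖ ^ al * ‖q.2‖ ^ be) = ‖g₀ q‖ * ((‖q.1‖ * ‖q.1‖ ^ al) * ‖q.2‖ ^ be) := by ring
    have h4 : (‖q.1‖ * ‖q.1‖ ^ al) * ‖q.2‖ ^ be ≤ 1 :=
      mul_le_one₀ (hpow hal (norm_nonneg _) hq.1) (by positivity) (Real.rpow_le_one (norm_nonneg _) hq.2 h2)
    rw [h3]
    calc ‖g₀ q‖ * ((‖q.1‖ * ‖q.1‖ ^ al) * ‖q.2‖ ^ be) ≤ (‖g₀ 0‖ + 1) * 1 := mul_le_mul hq2 h4 (by positivity) (by positivity)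
      _ = _ := mul_one _

/-- both axes with a negative exponent invariant (at most one of them) -/
theorem inv_case {al be : ℝ} (hal : -1 < al) (hbe : -1 < be) {v : ℂ × ℂ → ℂ × ℂ} (hv : AnalyticAt ℂ v 0) (h0 : v 0 ≠ 0) (h : 0 ≤ al ∨ 0 ≤ be)
    (hx : al < 0 → ∀ᶠ t in 𝓝 (0 : ℂ), (v (0, t)).1 = 0) (hy : be < 0 → ∀ᶠ t in 𝓝 (0 : ℂ), (v (t, 0)).2 = 0) : GoodD0 GT al be v := by
  intro g _ hg hA
  have hiso : ∀ᶠ p in 𝓝 (0 : ℂ × ℂ), p ≠ 0 → v p ≠ 0 := (hv.continuousAt.eventually_ne h0).mono fun p hp _ => hp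
  have hX : 0 ≤ al ∨ DivX g := (le_or_gt 0 al).imp_right fun h => hA.fst h (hx h)
  have hY : 0 ≤ be ∨ DivY g := (le_or_gt 0 be).imp_right fun h => hA.snd h (hy h)
  obtain ⟨G, hG, hGb⟩ := g_bound hg.an hal hbe hX hY h
  obtain ⟨ε, hε, hball⟩ := Metric.eventually_nhds_iff_ball.1 hGb
  filter_upwards [locX_reg (J := JD al be) hv h0 hg, DD_bound hv hiso hg, Ioo_mem_nhdsGT hε] with r hloc hbd hr
  intro s s' _ _ _ B hB
  obtain ⟨C, hC, hbd⟩ := hbd 0 (Or.inr h0)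
  refine ⟨1, 0, zero_le_one, le_rfl, ?_⟩
  intro d n q ψ _ _ _ _ M F Q lm Om p hD _
  rw [zero_mul, zero_div]
  refine hloc Om p lm lm s s' 1 0 B (C * B * G) hD.crv hD.g_ne hB hD.lm_nonneg hD.lm_ge hD.lm_cont (fun z => le_rfl) (fun R _ => by rw [one_mul, add_zero])
    (by positivity) fun z hz _ => ?_
  have h1 := (hbd Om p hD.crv hD.g_ne z hz (by rw [ball_zero]; exact Set.notMem_empty _)).1
  have h2 := hball _ (ball_subset_ball hr.2.le (hD.crv.mem z hz))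
  have h3 : ‖ztv v p z‖ ≤ C * B * lm z := by
    calc ‖ztv v p z‖ ≤ C * ‖deriv p z‖ := h1
      _ ≤ C * (B * lm z) := by gcongr; exact hD.lm_ge z hz
      _ = _ := by ring
  rw [nJD, mul_assoc]
  have h4 := hD.lm_nonneg z
  calc ‖ztv v p z‖ * (‖g (p z)‖ * (‖(p z).1‖ ^ al * ‖(p z).2‖ ^ be)) ≤ (C * B * lm z) * G := mul_le_mul h3 h2 (by positivity) (by positivity)
    _ = C * B * G * lm z := by ring

/-- `{x = 0}` transversal with a negative exponent -/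
theorem trans_case {al be : ℝ} (hal : -1 < al) (hbe : -1 < be) {v : ℂ × ℂ → ℂ × ℂ} (hv : AnalyticAt ℂ v 0) (hal' : al < 0) (h0 : (v 0).1 ≠ 0)
    (hy : be < 0 → ∀ᶠ t in 𝓝 (0 : ℂ), (v (t, 0)).2 = 0) : GoodD0 GT al be v := by
  intro g _ hg hA
  have h0' : v 0 ≠ 0 := fun h => h0 (by rw [h]; rfl)
  have hY : 0 ≤ be ∨ DivY g := (le_or_gt 0 be).imp_right fun h => hA.snd h (hy h)
  obtain ⟨G, hG, hGb⟩ := g_bound hg.an (al := 0) (by norm_num) hbe (Or.inl le_rfl) hY (Or.inl le_rfl)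
  obtain ⟨ε, hε, hball⟩ := Metric.eventually_nhds_iff_ball.1 hGb
  have hv1 : ContinuousAt (fun q => ‖(v q).1‖) 0 := (continuous_fst.continuousAt.comp hv.continuousAt).norm
  have hc0 : 0 < ‖(v 0).1‖ / 2 := half_pos (norm_pos_iff.2 h0)
  obtain ⟨ε', hε', hball'⟩ := Metric.eventually_nhds_iff_ball.1 (hv1.eventually_const_lt (show ‖(v 0).1‖ / 2 < ‖(v 0).1‖ by linarith))
  filter_upwards [locX_reg (J := JD al be) hv h0' hg, Ioo_mem_nhdsGT hε, Ioo_mem_nhdsGT hε'] with r hloc hr hr'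
  intro s s' hs hss hsr B hB
  obtain ⟨A, hA0, hroot⟩ := root_energy hal (hs.trans hss) hsr hB
  refine ⟨A, 0, hA0, le_rfl, ?_⟩
  intro d n q ψ _ _ _ _ M F Q lm Om p hD hAv
  rw [zero_mul, zero_div]
  obtain ⟨l₁, K, k1, k2, k3, k4⟩ := hroot Om p lm hD.crv.isOpen hD.crv.an hD.crv.mem hD.crv.closed (hAv.fst hal') hD.lm_cont hD.lm_nonneg hD.lm_ge
  refine hloc Om p lm l₁ s s' A K B ((‖(v 0).1‖ / 2)⁻¹ * G) hD.crv hD.g_ne hB hD.lm_nonneg hD.lm_ge k1 k2 k3 (by positivity) fun z hz hz' => ?_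
  have h1 := hball _ (ball_subset_ball hr.2.le (hD.crv.mem z hz))
  have h2 := hball' _ (ball_subset_ball hr'.2.le (hD.crv.mem z hz))
  have hvz : v (p z) ≠ 0 := by
    intro h
    rw [h] at h2
    simp only [Prod.fst_zero, norm_zero] at h2
    linarith
  have h3 : ‖ztv v p z‖ ≤ (‖(v 0).1‖ / 2)⁻¹ * ‖(deriv p z).1‖ := by
    rw [hD.crv.deriv_fst hz hvz, norm_mul]
    have h4 : (‖(v 0).1‖ / 2)⁻¹ * (‖ztv v p z‖ * ‖(v (p z)).1‖) = ‖ztv v p z‖ * ((‖(v 0).1‖ / 2)⁻¹ * ‖(v (p z)).1‖) := by ring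
    rw [h4]
    refine le_mul_of_one_le_right (norm_nonneg _) ?_
    rw [inv_mul_eq_div, one_le_div hc0]
    exact h2.le
  have h5 := k4 z hz (ball_subset_closedBall hz')
  rw [Real.rpow_zero, one_mul] at h1
  rw [nJD]
  have h6 : ‖ztv v p z‖ * ‖g (p z)‖ * (‖(p z).1‖ ^ al * ‖(p z).2‖ ^ be) = (‖ztv v p z‖ * ‖(p z).1‖ ^ al) * (‖g (p z)‖ * ‖(p z).2‖ ^ be) := by ring
  have h7 : ‖ztv v p z‖ * ‖(p z).1‖ ^ al ≤ (‖(v 0).1‖ / 2)⁻¹ * l₁ z := by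
    calc ‖ztv v p z‖ * ‖(p z).1‖ ^ al ≤ (‖(v 0).1‖ / 2)⁻¹ * ‖(deriv p z).1‖ * ‖(p z).1‖ ^ al := by gcongr
      _ = (‖(v 0).1‖ / 2)⁻¹ * (‖(deriv p z).1‖ * ‖(p z).1‖ ^ al) := by ring
      _ ≤ _ := by gcongr
  have h8 : 0 ≤ l₁ z := (hD.lm_nonneg z).trans (k2 z)
  rw [h6]
  calc (‖ztv v p z‖ * ‖(p z).1‖ ^ al) * (‖g (p z)‖ * ‖(p z).2‖ ^ be) ≤ ((‖(v 0).1‖ / 2)⁻¹ * l₁ z) * G :=
        mul_le_mul h7 h1 (by positivity) (by positivity)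
    _ = _ := by ring

/-- the exchange of the coordinates -/
theorem swap0 {al be : ℝ} {v : ℂ × ℂ → ℂ × ℂ} (hv : GoodD0 GT be al (swv v)) : GoodD0 GT al be v := by
  intro g _ hw hA
  filter_upwards [hv _ trivial hw.swap hA.swap] with r hr
  intro s s' hs hss hsr B hB
  obtain ⟨A, C₀, hA, hC₀, hmain⟩ := hr s s' hs hss hsr B hB
  refine ⟨A, C₀, hA, hC₀, ?_⟩
  intro d n q ψ hd hn hq hψ M F Q lm Om p hD hAv
  have hq' : AnalyticAt ℂ (fun p : ℂ × ℂ => q p.swap) 0 := AnalyticAt.comp (f := fun q : ℂ × ℂ => q.swap) (g := q) (x := 0) hq (an_swap 0)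
  have hψ' : ContDiffAt ℝ 1 (fun p : ℂ × ℂ => ψ p.swap) 0 :=
    ContDiffAt.comp (g := ψ) (f := fun q : ℂ × ℂ => q.swap) 0 hψ (((an_swap 0).contDiffAt (n := 1)).restrict_scalars ℝ)
  have h1 := hmain d n _ _ hd hn hq' hψ' M F Q lm Om _ hD.swap hAv.swap
  refine locX_swap (Om := Om) hD.crv (fun z hz => hz.1) ?_
  have h2 : (fun q : ℂ × ℂ => JD al be q.swap) = JD be al := funext fun q => JD_swap be al q
  have h3 : {z | z ∈ Om ∧ (p z).swap ∈ ball (0 : ℂ × ℂ) s'} = {z | z ∈ Om ∧ p z ∈ ball (0 : ℂ × ℂ) s'} := by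
    ext z
    rw [mem_setOf_eq, mem_setOf_eq, mem_ball_zero_iff, mem_ball_zero_iff, norm_swap']
  rw [h2, ← h3]
  exact h1

end RegD0

open RegD0 in
theorem goodD_reg0 {al be : ℝ} (hal : -1 < al) (hbe : -1 < be) {v : ℂ × ℂ → ℂ × ℂ} (hv : AnalyticAt ℂ v 0) (h0 : v 0 ≠ 0)
    (hx : al < 0 → (v 0).1 ≠ 0 ∨ ∀ᶠ t in 𝓝 (0 : ℂ), (v (0, t)).1 = 0) (hy : be < 0 → (v 0).2 ≠ 0 ∨ ∀ᶠ t in 𝓝 (0 : ℂ), (v (t, 0)).2 = 0)
    (hxy : al < 0 → be < 0 → (∀ᶠ t in 𝓝 (0 : ℂ), (v (0, t)).1 = 0) ∨ ∀ᶠ t in 𝓝 (0 : ℂ), (v (t, 0)).2 = 0) : GoodD0 GT al be v := by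
  have ex : (∀ᶠ t in 𝓝 (0 : ℂ), (v (0, t)).1 = 0) → (v 0).1 = 0 := fun h => h.self_of_nhds
  have ey : (∀ᶠ t in 𝓝 (0 : ℂ), (v (t, 0)).2 = 0) → (v 0).2 = 0 := fun h => h.self_of_nhds
  by_cases c1 : al < 0 ∧ (v 0).1 ≠ 0
  · refine trans_case hal hbe hv c1.1 c1.2 fun hb => ?_
    exact (hxy c1.1 hb).resolve_left fun h => c1.2 (ex h)
  by_cases c2 : be < 0 ∧ (v 0).2 ≠ 0
  · refine swap0 (trans_case (v := swv v) hbe hal ?_ c2.1 c2.2 fun ha => ?_)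
    · have h4 : AnalyticAt ℂ (fun q : ℂ × ℂ => v q.swap) 0 := AnalyticAt.comp (f := fun q : ℂ × ℂ => q.swap) (g := v) (x := 0) hv (an_swap 0)
      exact AnalyticAt.comp (f := fun q : ℂ × ℂ => v q.swap) (g := fun q : ℂ × ℂ => q.swap) (x := 0) (an_swap _) h4
    · exact (hxy ha c2.1).resolve_right fun h => c2.2 (ey h)
  have c3 : al < 0 → ∀ᶠ t in 𝓝 (0 : ℂ), (v (0, t)).1 = 0 := fun ha => (hx ha).resolve_left fun h => c1 ⟨ha, h⟩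
  have c4 : be < 0 → ∀ᶠ t in 𝓝 (0 : ℂ), (v (t, 0)).2 = 0 := fun hb => (hy hb).resolve_left fun h => c2 ⟨hb, h⟩
  refine inv_case hal hbe hv h0 ?_ c3 c4
  by_contra hcon
  push Not at hcon
  exact h0 (Prod.ext (ex (c3 hcon.1)) (ey (c4 hcon.2)))

end Pool.Agent.MQL
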