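import Pool.Agent.MQL.Defs
import Pool.Agent.MQ3.LogS0
import Pool.Agent.MQ.Ax0

/-!
# MQL RegDA: the potential `ramp (log (|y| / ρ) / log 2)`

`ramp` is concave, `0` for `t ≥ 0`, of slope `1` for `t ≤ -1`.  For a holomorphic function `y` the Laplacian of the potential lives in the shell
`ρ / 2 ≤ |y| ≤ ρ`, where it is bounded by `|y' / y|²`, with a constant which does not depend on `ρ`.
-/

set_option autoImplicit false

open Topology Filter Metric MeasureTheory Asymptotics Laplacian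

noncomputable section

namespace Pool.Agent.MQL

open Pool.Agent.H30M (tau LogSing)
open Pool.Agent.MQ Pool.Agent.MQ2

/-- concave, `0` for `t ≥ 0`, of slope `1` for `t ≤ -1` -/
def ramp (t : ℝ) : ℝ := ∫ u in (0 : ℝ)..t, (1 - Real.smoothTransition (1 + u))

theorem ramp_cont : Continuous fun u : ℝ => 1 - Real.smoothTransition (1 + u) := by
  have h1 : Continuous Real.smoothTransition := (Real.smoothTransition.contDiff (n := 0)).continuous
  exact continuous_const.sub (h1.comp (continuous_const.add continuous_id))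

theorem hasDerivAt_ramp (t : ℝ) : HasDerivAt ramp (1 - Real.smoothTransition (1 + t)) t :=
  (ramp_cont.integral_hasStrictDerivAt 0 t).hasDerivAt

theorem deriv_ramp : deriv ramp = fun t => 1 - Real.smoothTransition (1 + t) := funext fun t => (hasDerivAt_ramp t).deriv

theorem contDiff_st1 : ContDiff ℝ 1 fun u : ℝ => 1 - Real.smoothTransition (1 + u) :=
  contDiff_const.sub ((Real.smoothTransition.contDiff (n := 1)).comp (contDiff_const.add contDiff_id))

theorem contDiff_ramp : ContDiff ℝ 2 ramp := by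
  have h1 : ContDiff ℝ (1 + 1) ramp := by
    rw [contDiff_succ_iff_deriv]
    refine ⟨fun t => (hasDerivAt_ramp t).differentiableAt, fun h => by simp at h, ?_⟩
    rw [deriv_ramp]
    exact contDiff_st1
  exact h1.of_le (by norm_num)

theorem deriv2_ramp (t : ℝ) : deriv (deriv ramp) t = -deriv Real.smoothTransition (1 + t) := by
  rw [deriv_ramp]
  have h1 : HasDerivAt Real.smoothTransition (deriv Real.smoothTransition (1 + t)) (1 + t) :=
    ((Real.smoothTransition.contDiff (n := 1)).differentiable (by norm_num) _).hasDerivAt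
  have h2 : HasDerivAt (fun u : ℝ => 1 + u) 1 t := (hasDerivAt_id t).const_add 1
  have h3 : HasDerivAt (fun u : ℝ => Real.smoothTransition (1 + u)) (deriv Real.smoothTransition (1 + t) * 1) t :=
    HasDerivAt.comp (h₂ := Real.smoothTransition) t h1 h2
  rw [(h3.const_sub 1).deriv, mul_one]

theorem deriv2_ramp_nonpos (t : ℝ) : deriv (deriv ramp) t ≤ 0 := by
  rw [deriv2_ramp, neg_nonpos]
  exact Pool.Agent.H30M.deriv_st_nonneg _

theorem deriv2_ramp_zero {t : ℝ} (h : t ≤ -1 ∨ 0 ≤ t) : deriv (deriv ramp) t = 0 := by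
  rw [deriv2_ramp, neg_eq_zero]
  refine Pool.Agent.H30M.deriv_st_eq_zero ?_
  rcases h with h | h
  · left; linarith
  · right; linarith

theorem ramp_of_nonneg {t : ℝ} (ht : 0 ≤ t) : ramp t = 0 := by
  unfold ramp
  have h1 : ∫ u in (0 : ℝ)..t, (1 - Real.smoothTransition (1 + u)) = ∫ _ in (0 : ℝ)..t, (0 : ℝ) := by
    refine intervalIntegral.integral_congr fun u hu => ?_
    rw [Set.uIcc_of_le ht] at hu
    rw [Real.smoothTransition.one_of_one_le (by linarith [hu.1]), sub_self]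
  rw [h1, intervalIntegral.integral_zero]

/-- the constant of the linear part -/
def rc : ℝ := ramp (-1) + 1

theorem ramp_of_le {t : ℝ} (ht : t ≤ -1) : ramp t = t + rc := by
  have h0 : ramp t = ramp (-1) + ∫ u in (-1 : ℝ)..t, (1 - Real.smoothTransition (1 + u)) := by
    unfold ramp
    exact (intervalIntegral.integral_add_adjacent_intervals (ramp_cont.intervalIntegrable _ _) (ramp_cont.intervalIntegrable _ _)).symm
  have h1 : ∫ u in (-1 : ℝ)..t, (1 - Real.smoothTransition (1 + u)) = ∫ _ in (-1 : ℝ)..t, (1 : ℝ) := by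
    refine intervalIntegral.integral_congr fun u hu => ?_
    rw [Set.uIcc_of_ge ht] at hu
    rw [Real.smoothTransition.zero_of_nonpos (by linarith [hu.2]), sub_zero]
  rw [h0, h1, intervalIntegral.integral_const, rc]
  simp only [smul_eq_mul, mul_one]
  ring

theorem ramp_nonpos (t : ℝ) : ramp t ≤ 0 := by
  rcases le_total 0 t with h | h
  · rw [ramp_of_nonneg h]
  · unfold ramp
    rw [intervalIntegral.integral_symm, neg_nonpos]
    exact intervalIntegral.integral_nonneg h fun u _ => sub_nonneg.2 (Real.smoothTransition.le_one _)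

/-! ## the potential -/

/-- the scale -/
def pT (ρ : ℝ) (y : ℂ → ℂ) (z : ℂ) : ℝ := (Real.log ‖y z‖ - Real.log ρ) / Real.log 2

/-- the potential -/
def pot (ρ : ℝ) (y : ℂ → ℂ) (z : ℂ) : ℝ := ramp (pT ρ y z)

/-- its Laplacian with the opposite sign -/
def perr (ρ : ℝ) (y : ℂ → ℂ) (z : ℂ) : ℝ := -deriv (deriv ramp) (pT ρ y z) * (‖deriv y z / y z‖ / Real.log 2) ^ 2

theorem log2_pos : 0 < Real.log 2 := Real.log_pos one_lt_two

variable {ρ : ℝ} {y : ℂ → ℂ} {z : ℂ}

theorem pT_le (hρ : 0 < ρ) (h0 : y z ≠ 0) (h : ‖y z‖ ≤ ρ / 2) : pT ρ y z ≤ -1 := by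
  have h1 := Real.log_le_log (norm_pos_iff.2 h0) h
  rw [Real.log_div hρ.ne' two_ne_zero] at h1
  unfold pT
  rw [div_le_iff₀ log2_pos]
  linarith

theorem pT_ge (hρ : 0 < ρ) (h : ρ ≤ ‖y z‖) : 0 ≤ pT ρ y z := by
  have h1 := Real.log_le_log hρ h
  unfold pT
  exact div_nonneg (by linarith) log2_pos.le

theorem pot_nonpos : pot ρ y z ≤ 0 := ramp_nonpos _

theorem pot_of_le (hρ : 0 < ρ) (h0 : y z ≠ 0) (h : ‖y z‖ ≤ ρ / 2) : pot ρ y z = (Real.log ‖y z‖ - Real.log ρ) / Real.log 2 + rc :=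
  ramp_of_le (pT_le hρ h0 h)

theorem pot_of_ge (hρ : 0 < ρ) (h : ρ ≤ ‖y z‖) : pot ρ y z = 0 := ramp_of_nonneg (pT_ge hρ h)

theorem perr_nonneg : 0 ≤ perr ρ y z := mul_nonneg (neg_nonneg.2 (deriv2_ramp_nonpos _)) (sq_nonneg _)

theorem perr_eq_zero (hρ : 0 < ρ) (h : ‖y z‖ ≤ ρ / 2 ∨ ρ ≤ ‖y z‖) : perr ρ y z = 0 := by
  unfold perr
  by_cases h0 : y z = 0
  · rw [h0, div_zero, norm_zero, zero_div, zero_pow two_ne_zero, mul_zero]
  rcases h with h | h
  · rw [deriv2_ramp_zero (Or.inl (pT_le hρ h0 h)), neg_zero, zero_mul]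
  · rw [deriv2_ramp_zero (Or.inr (pT_ge hρ h)), neg_zero, zero_mul]

theorem perr_le {M : ℝ} (hM : ∀ t, deriv Real.smoothTransition t ≤ M) : perr ρ y z ≤ M / Real.log 2 ^ 2 * ‖deriv y z / y z‖ ^ 2 := by
  unfold perr
  rw [deriv2_ramp, neg_neg, div_pow]
  have h1 := hM (1 + pT ρ y z)
  have h2 : 0 ≤ ‖deriv y z / y z‖ ^ 2 / Real.log 2 ^ 2 := by positivity
  calc deriv Real.smoothTransition (1 + pT ρ y z) * (‖deriv y z / y z‖ ^ 2 / Real.log 2 ^ 2) ≤ M * (‖deriv y z / y z‖ ^ 2 / Real.log 2 ^ 2) :=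
        mul_le_mul_of_nonneg_right h1 h2
    _ = _ := by ring

theorem contDiffAt_log_y (hy : AnalyticAt ℂ y z) (h0 : y z ≠ 0) : ContDiffAt ℝ 2 (fun w => Real.log ‖y w‖) z :=
  Pool.Agent.H30M.contDiffAt_log_norm hy h0

theorem contDiffAt_pT (hy : AnalyticAt ℂ y z) (h0 : y z ≠ 0) : ContDiffAt ℝ 2 (pT ρ y) z :=
  ((contDiffAt_log_y hy h0).sub contDiffAt_const).div_const _

theorem contDiffAt_pot (hy : AnalyticAt ℂ y z) (h0 : y z ≠ 0) : ContDiffAt ℝ 2 (pot ρ y) z :=
  contDiff_ramp.contDiffAt.comp z (contDiffAt_pT hy h0)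

theorem gr_pT (hy : AnalyticAt ℂ y z) (h0 : y z ≠ 0) : gr (pT ρ y) z = (((Real.log 2)⁻¹ : ℝ) : ℂ) * (starRingEnd ℂ) (deriv y z / y z) := by
  have h1 : pT ρ y = fun w => (Real.log 2)⁻¹ * (Real.log ‖y w‖ - Real.log ρ) := by
    funext w
    unfold pT
    ring
  have h2 : DifferentiableAt ℝ (fun w => Real.log ‖y w‖) z := (contDiffAt_log_y hy h0).differentiableAt (by norm_num)
  rw [h1, gr_const_mul _ (h2.sub_const _), gr_sub h2 (differentiableAt_const _), gr_const, sub_zero, gr_log_norm hy.differentiableAt h0]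

theorem lap_pT (hy : AnalyticAt ℂ y z) (h0 : y z ≠ 0) : Δ (pT ρ y) z = 0 := by
  have h3 : (gr (pT ρ y)) =ᶠ[𝓝 z] fun w => (((Real.log 2)⁻¹ : ℝ) : ℂ) * (starRingEnd ℂ) (deriv y w / y w) := by
    filter_upwards [hy.eventually_analyticAt, hy.continuousAt.eventually_ne h0] with w h1 h2
    exact gr_pT h1 h2
  have h4 : AnalyticAt ℂ (fun w => deriv y w / y w) z := hy.deriv.div hy h0
  rw [← lp_eq_lap (contDiffAt_pT hy h0)]
  unfold Pool.Agent.MQ.lp
  rw [dv_congr h3, dv_const_mul _ ((contDiffAt_conj_holo (n := 1) h4).differentiableAt (by norm_num)), dv_conj h4.differentiableAt, mul_zero]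

/-- the Laplacian of the potential -/
theorem lap_pot (hy : AnalyticAt ℂ y z) (h0 : y z ≠ 0) : Δ (pot ρ y) z = -perr ρ y z := by
  have h1 : Δ (fun w => ramp (pT ρ y w)) z = deriv ramp (pT ρ y z) * Δ (pT ρ y) z + deriv (deriv ramp) (pT ρ y z) * Pool.Agent.H30M.gg (pT ρ y) (pT ρ y) z :=
    Pool.Agent.H30M.lap_comp contDiff_ramp.contDiffAt (contDiffAt_pT hy h0)
  have h2 : Δ (pot ρ y) z = Δ (fun w => ramp (pT ρ y w)) z := rfl
  rw [h2, h1, lap_pT hy h0, gg_self, gr_pT hy h0, norm_mul, Complex.norm_real, RCLike.norm_conj, Real.norm_of_nonneg (inv_nonneg.2 log2_pos.le), perr]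
  ring

/-- near a zero of `y` -/
theorem ev_small (hρ : 0 < ρ) (hy : ContinuousAt y z) (h0 : y z = 0) : ∀ᶠ w in 𝓝 z, ‖y w‖ ≤ ρ / 2 := by
  have h1 : ∀ᶠ w in 𝓝 z, ‖y w‖ < ρ / 2 := hy.norm.eventually (gt_mem_nhds (by
    show ‖y z‖ < ρ / 2
    rw [h0, norm_zero]
    positivity))
  exact h1.mono fun w hw => hw.le

theorem continuousAt_perr (hρ : 0 < ρ) (hy : AnalyticAt ℂ y z) : ContinuousAt (perr ρ y) z := by
  by_cases h0 : y z = 0
  · have h1 : perr ρ y =ᶠ[𝓝 z] fun _ => 0 := by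
      filter_upwards [ev_small hρ hy.continuousAt h0] with w hw
      exact perr_eq_zero hρ (Or.inl hw)
    exact continuousAt_const.congr h1.symm
  · have h1 : ContinuousAt (deriv (deriv ramp)) (pT ρ y z) := by
      have h2 : deriv (deriv ramp) = fun t => -deriv Real.smoothTransition (1 + t) := funext deriv2_ramp
      rw [h2]
      have h3 : Continuous (deriv Real.smoothTransition) := (Real.smoothTransition.contDiff (n := 1)).continuous_deriv (by norm_num)
      exact ((h3.comp (continuous_const.add continuous_id)).neg).continuousAt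
    have h2 : ContinuousAt (fun w => deriv (deriv ramp) (pT ρ y w)) z :=
      ContinuousAt.comp (f := pT ρ y) (g := deriv (deriv ramp)) h1 (contDiffAt_pT hy h0).continuousAt
    have h3 : AnalyticAt ℂ (fun w => deriv y w / y w) z := hy.deriv.div hy h0
    exact h2.neg.mul ((h3.continuousAt.norm.div_const _).pow 2)

/-- near a zero of finite order the potential has a logarithmic singularity -/
theorem pot_logSing (hρ : 0 < ρ) (hy : AnalyticAt ℂ y z) (h0 : y z = 0) (hne : ∃ᶠ w in 𝓝 z, y w ≠ 0) :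
    ∃ c : ℝ, 0 < c ∧ LogSing (pot ρ y) c z := by
  obtain ⟨k, g, hg, hg0, he⟩ := hy.exists_eventuallyEq_pow_smul_nonzero_iff.2 (by
    intro h
    exact hne (h.mono fun w hw h1 => h1 hw))
  have hk : 1 ≤ k := by
    by_contra hk
    have hk0 : k = 0 := by omega
    have h1 := he.self_of_nhds
    rw [hk0, pow_zero, one_smul, h0] at h1
    exact hg0 h1.symm
  have hgl : ContDiffAt ℝ 2 (fun w => Real.log ‖g w‖) z := contDiffAt_log_y hg hg0
  refine ⟨k / Real.log 2, div_pos (by exact_mod_cast hk) log2_pos, fun w => (Real.log ‖g w‖ - Real.log ρ) / Real.log 2 + rc,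
    (((hgl.sub contDiffAt_const).div_const _).add contDiffAt_const), ?_⟩
  have h3 : ∀ᶠ w in 𝓝[≠] z, g w ≠ 0 := (hg.continuousAt.eventually_ne hg0).filter_mono nhdsWithin_le_nhds
  filter_upwards [he.filter_mono nhdsWithin_le_nhds, h3, self_mem_nhdsWithin, (ev_small hρ hy.continuousAt h0).filter_mono nhdsWithin_le_nhds] with w e hne hw hs
  have hz : ‖w - z‖ ≠ 0 := norm_ne_zero_iff.2 (sub_ne_zero.2 hw)
  have hyw : y w ≠ 0 := by
    rw [e]
    exact smul_ne_zero (pow_ne_zero _ (sub_ne_zero.2 hw)) hne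
  rw [pot_of_le hρ hyw hs, e, norm_smul, norm_pow, Real.log_mul (pow_ne_zero _ hz) (norm_ne_zero_iff.2 hne), Real.log_pow]
  ring

/-- the facts about a multiple of the potential -/
theorem pot_facts (hρ : 0 < ρ) (hy : AnalyticAt ℂ y z) (a : ℝ) :
    (∃ c, LogSing (fun w => a * pot ρ y w) c z) ∧ (ContDiffAt ℝ 2 (fun w => a * pot ρ y w) z → Δ (fun w => a * pot ρ y w) z + a * perr ρ y z = 0) := by
  by_cases h0 : y z = 0
  · by_cases hne : ∃ᶠ w in 𝓝 z, y w ≠ 0
    · obtain ⟨c, hc, hL⟩ := pot_logSing hρ hy h0 hne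
      obtain ⟨s, hs, he⟩ := hL
      have hL2 : LogSing (fun w => a * pot ρ y w) (a * c) z := by
        refine ⟨fun w => a * s w, contDiffAt_const.mul hs, ?_⟩
        filter_upwards [he] with w hw
        rw [hw]
        ring
      refine ⟨⟨_, hL2⟩, fun hC => ?_⟩
      have h1 := Pool.Agent.MQ3.logSing_unique hL2 (LogSing.of_contDiffAt hC)
      have h2 : a = 0 := (mul_eq_zero.1 h1).resolve_right hc.ne'
      have h3 : (fun w => a * pot ρ y w) = fun _ => (0 : ℝ) := by
        funext w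
        rw [h2, zero_mul]
      have h4 : Δ (fun _ : ℂ => (0 : ℝ)) z = 0 := by simp
      rw [h3, h4, h2, zero_mul, add_zero]
    · have h1 : ∀ᶠ w in 𝓝 z, y w = 0 := by
        rw [not_frequently] at hne
        exact hne.mono fun w hw => not_not.1 hw
      have h2 : (fun w => a * pot ρ y w) =ᶠ[𝓝 z] fun _ => a * ramp ((Real.log 0 - Real.log ρ) / Real.log 2) := by
        filter_upwards [h1] with w hw
        unfold pot pT
        rw [hw, norm_zero]
      refine ⟨⟨0, LogSing.of_contDiffAt (contDiffAt_const.congr_of_eventuallyEq h2)⟩, fun _ => ?_⟩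
      rw [Pool.Agent.H30M.lap_congr h2, perr_eq_zero hρ (Or.inl (by rw [h0, norm_zero]; positivity))]
      simp
  · have h1 : ContDiffAt ℝ 2 (pot ρ y) z := contDiffAt_pot hy h0
    refine ⟨⟨0, LogSing.of_contDiffAt (contDiffAt_const.mul h1)⟩, fun _ => ?_⟩
    rw [Pool.Agent.H30M.lap_const_mul h1 a, lap_pot hy h0]
    ring

/-- at a zero of finite order the potential is not of class `C²` -/
theorem pot_not_contDiffAt (hρ : 0 < ρ) (hy : AnalyticAt ℂ y z) (h0 : y z = 0) (hne : ∃ᶠ w in 𝓝 z, y w ≠ 0) {a : ℝ} (ha : 0 < a) :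
    ¬ ContDiffAt ℝ 2 (fun w => a * pot ρ y w) z := by
  intro hC
  obtain ⟨c, hc, s, hs, he⟩ := pot_logSing hρ hy h0 hne
  have hL2 : LogSing (fun w => a * pot ρ y w) (a * c) z := by
    refine ⟨fun w => a * s w, contDiffAt_const.mul hs, ?_⟩
    filter_upwards [he] with w hw
    rw [hw]
    ring
  have h1 := Pool.Agent.MQ3.logSing_unique hL2 (LogSing.of_contDiffAt hC)
  exact (mul_pos ha hc).ne' h1

end Pool.Agent.MQL
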