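import Pool.Agent.MQL.RegD0
import Pool.Agent.MQL.RootT
import Pool.Agent.MQL.RegDA

/-!
# MQL RegDB: regular points, the germs

`v 0` has a second component `≠ 0`.  If `{x = 0}` is not a leaf, then `|y| ^ k ≤ C (|x| + |y| |v₁|)` for one more than the order `k - 1` of `v₁` on the axis, and the
same holds for the weights which vanish at the origin.  The bound `|g| E ≤ C (|x| + |y| |v₁|)` gives `|ζ'| |g| E |x| ^ al |y| ^ be ≤ C' l` for the root densities.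
-/

set_option autoImplicit false

open Topology Filter Metric MeasureTheory Asymptotics Laplacian Set

noncomputable section

namespace Pool.Agent.MQL

open Pool.Agent.H36.BP (EN)
open Pool.Agent.H30M (tau LogSing)
open Pool.Agent.MQ Pool.Agent.MQ2

/-- the function of the bounds -/
def rg (v : ℂ × ℂ → ℂ × ℂ) (p : ℂ × ℂ) : ℝ := ‖p.1‖ + ‖p.2‖ * ‖(v p).1‖

theorem rg_nonneg (v : ℂ × ℂ → ℂ × ℂ) (p : ℂ × ℂ) : 0 ≤ rg v p := by unfold rg; positivity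

theorem tendsto_axis : Tendsto (fun t : ℂ => ((0 : ℂ), t)) (𝓝 0) (𝓝 0) := by
  have : Continuous fun t : ℂ => ((0 : ℂ), t) := by fun_prop
  exact this.tendsto 0

theorem an_axis (t : ℂ) : AnalyticAt ℂ (fun t : ℂ => ((0 : ℂ), t)) t := analyticAt_const.prod analyticAt_id

/-- the comparison with the values on `{x = 0}` -/
theorem lip_axis {f : ℂ × ℂ → ℂ} (hf : AnalyticAt ℂ f 0) : ∃ K : ℝ, 0 < K ∧ ∀ᶠ p in 𝓝 (0 : ℂ × ℂ), ‖f p - f (0, p.2)‖ ≤ K * ‖p.1‖ := by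
  have h1 : ContDiffAt ℝ 1 f 0 := hf.contDiffAt.restrict_scalars ℝ
  obtain ⟨K, t, ht, hK⟩ := h1.exists_lipschitzOnWith
  have h2 : Tendsto (fun p : ℂ × ℂ => ((0 : ℂ), p.2)) (𝓝 0) (𝓝 0) := by
    have : Continuous fun p : ℂ × ℂ => ((0 : ℂ), p.2) := by fun_prop
    exact this.tendsto 0
  refine ⟨K + 1, by positivity, ?_⟩
  filter_upwards [ht, h2.eventually ht] with p hp hp'
  have h3 := hK.dist_le_mul p hp (0, p.2) hp'
  rw [dist_eq_norm, dist_eq_norm] at h3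
  have h4 : ‖p - ((0 : ℂ), p.2)‖ = ‖p.1‖ := by
    have : p - ((0 : ℂ), p.2) = (p.1, 0) := by
      ext <;> simp
    rw [this, Prod.norm_mk, norm_zero, max_eq_left (norm_nonneg _)]
  rw [h4] at h3
  have := norm_nonneg p.1
  linarith [mul_nonneg (zero_le_one (α := ℝ)) this, h3, (by ring : ((K : ℝ) + 1) * ‖p.1‖ = K * ‖p.1‖ + ‖p.1‖)]

/-- an analytic function divisible by `t ^ n` -/
theorem le_of_order {G : ℂ → ℂ} (hG : AnalyticAt ℂ G 0) {n : ℕ} (h : (n : ℕ∞) ≤ analyticOrderAt G 0) : ∃ C : ℝ, 0 < C ∧ ∀ᶠ t in 𝓝 (0 : ℂ), ‖G t‖ ≤ C * ‖t‖ ^ n := by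
  obtain ⟨g, hg, hgG⟩ := (natCast_le_analyticOrderAt hG).1 h
  refine ⟨‖g 0‖ + 1, by positivity, ?_⟩
  filter_upwards [hgG, hg.continuousAt.norm.eventually_lt_const (lt_add_one ‖g 0‖)] with t h1 h2
  rw [h1, sub_zero, norm_smul, norm_pow, mul_comm]
  exact mul_le_mul_of_nonneg_right h2.le (by positivity)

theorem ge_of_order {f : ℂ → ℂ} (hf : AnalyticAt ℂ f 0) {n : ℕ} (h : analyticOrderAt f 0 = n) : ∃ C : ℝ, 0 < C ∧ ∀ᶠ t in 𝓝 (0 : ℂ), ‖t‖ ^ n ≤ C * ‖f t‖ := by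
  obtain ⟨g, hg, hg0, hgf⟩ := (hf.analyticOrderAt_eq_natCast).1 h
  have h0 : 0 < ‖g 0‖ := norm_pos_iff.2 hg0
  refine ⟨2 / ‖g 0‖, by positivity, ?_⟩
  filter_upwards [hgf, hg.continuousAt.norm.eventually_const_lt (show ‖g 0‖ / 2 < ‖g 0‖ by linarith)] with t h1 h2
  rw [h1, sub_zero, norm_smul, norm_pow]
  have h3 : 1 ≤ 2 / ‖g 0‖ * ‖g t‖ := by
    rw [div_mul_eq_mul_div, one_le_div h0]
    linarith
  calc ‖t‖ ^ n = ‖t‖ ^ n * 1 := (mul_one _).symm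
    _ ≤ ‖t‖ ^ n * (2 / ‖g 0‖ * ‖g t‖) := mul_le_mul_of_nonneg_left h3 (by positivity)
    _ = _ := by ring

/-- the order of an invariant weight on the axis -/
theorem order_wt {v : ℂ × ℂ → ℂ × ℂ} (hv : AnalyticAt ℂ v 0) (h2 : (v 0).2 ≠ 0) {j : ℕ} (hj : analyticOrderAt (fun t => (v (0, t)).1) 0 = j)
    {g : ℂ × ℂ → ℂ} (hg : Wt v g) (h0 : g 0 = 0) : ((j + 1 : ℕ) : ℕ∞) ≤ analyticOrderAt (fun t => g (0, t)) 0 := by
  obtain ⟨c, hc, hcof⟩ := hg.cof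
  have ax := an_axis 0
  have hv1 : AnalyticAt ℂ (fun t : ℂ => (v (0, t)).1) 0 :=
    analyticAt_fst.comp (AnalyticAt.comp (g := v) (f := fun t : ℂ => ((0 : ℂ), t)) (x := 0) hv ax)
  have hv2 : AnalyticAt ℂ (fun t : ℂ => (v (0, t)).2) 0 :=
    analyticAt_snd.comp (AnalyticAt.comp (g := v) (f := fun t : ℂ => ((0 : ℂ), t)) (x := 0) hv ax)
  have hG : AnalyticAt ℂ (fun t : ℂ => g (0, t)) 0 := AnalyticAt.comp (g := g) (f := fun t : ℂ => ((0 : ℂ), t)) (x := 0) hg.an ax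
  have hcc : AnalyticAt ℂ (fun t : ℂ => c (0, t)) 0 := AnalyticAt.comp (g := c) (f := fun t : ℂ => ((0 : ℂ), t)) (x := 0) hc ax
  have hgx0 : AnalyticAt ℂ (fun q : ℂ × ℂ => fderiv ℂ g q (1, 0)) 0 :=
    ((ContinuousLinearMap.apply ℂ ℂ ((1, 0) : ℂ × ℂ)).analyticAt _).comp hg.an.fderiv
  have hgx : AnalyticAt ℂ (fun t : ℂ => fderiv ℂ g (0, t) (1, 0)) 0 :=
    AnalyticAt.comp (g := fun q : ℂ × ℂ => fderiv ℂ g q (1, 0)) (f := fun t : ℂ => ((0 : ℂ), t)) (x := 0) hgx0 ax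
  have hG' : AnalyticAt ℂ (deriv fun t : ℂ => g (0, t)) 0 := hG.deriv
  -- the equation
  have heq : (fun t : ℂ => (v (0, t)).2 * deriv (fun t : ℂ => g (0, t)) t) =ᶠ[𝓝 0]
      fun t => c (0, t) * g (0, t) - (v (0, t)).1 * fderiv ℂ g (0, t) (1, 0) := by
    filter_upwards [tendsto_axis.eventually (hcof.and hg.an.eventually_analyticAt)] with t ht
    obtain ⟨e1, e2⟩ := ht
    have e3 : HasDerivAt (fun t : ℂ => g (0, t)) (fderiv ℂ g (0, t) (0, 1)) t :=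
      HasFDerivAt.comp_hasDerivAt (f := fun t : ℂ => ((0 : ℂ), t)) t e2.differentiableAt.hasFDerivAt ((hasDerivAt_const t (0 : ℂ)).prodMk (hasDerivAt_id t))
    have e4 : v (0, t) = (v (0, t)).1 • ((1, 0) : ℂ × ℂ) + (v (0, t)).2 • ((0, 1) : ℂ × ℂ) := by
      ext <;> simp
    rw [e4, map_add, map_smul, map_smul, smul_eq_mul, smul_eq_mul] at e1
    rw [e3.deriv]
    linear_combination e1
  -- the orders
  have o1 : analyticOrderAt (deriv fun t : ℂ => g (0, t)) 0 + 1 = analyticOrderAt (fun t : ℂ => g (0, t)) 0 := by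
    have h3 := hG.analyticOrderAt_deriv_add_one
    have h4 : (fun w => (fun t : ℂ => g (0, t)) w - (fun t : ℂ => g (0, t)) 0) = fun t : ℂ => g (0, t) := by
      funext w
      show g (0, w) - g (0, 0) = g (0, w)
      have h5 : g ((0, 0) : ℂ × ℂ) = 0 := h0
      rw [h5, sub_zero]
    rw [h4] at h3
    exact h3
  have o2 : analyticOrderAt (fun t : ℂ => (v (0, t)).2 * deriv (fun t : ℂ => g (0, t)) t) 0 = analyticOrderAt (deriv fun t : ℂ => g (0, t)) 0 := by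
    have h3 : analyticOrderAt (fun t : ℂ => (v (0, t)).2 * deriv (fun t : ℂ => g (0, t)) t) 0 =
        analyticOrderAt (fun t : ℂ => (v (0, t)).2) 0 + analyticOrderAt (deriv fun t : ℂ => g (0, t)) 0 := analyticOrderAt_mul hv2 hG'
    have h4 : analyticOrderAt (fun t : ℂ => (v (0, t)).2) 0 = 0 := hv2.analyticOrderAt_eq_zero.2 h2
    rw [h3, h4, zero_add]
  have o3 : min (analyticOrderAt (fun t : ℂ => g (0, t)) 0) (j : ℕ∞) ≤ analyticOrderAt (deriv fun t : ℂ => g (0, t)) 0 := by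
    rw [← o2, analyticOrderAt_congr heq]
    have h3 : analyticOrderAt (fun t : ℂ => c (0, t) * g (0, t)) 0 = analyticOrderAt (fun t : ℂ => c (0, t)) 0 + analyticOrderAt (fun t : ℂ => g (0, t)) 0 :=
      analyticOrderAt_mul hcc hG
    have h4 : analyticOrderAt (fun t : ℂ => (v (0, t)).1 * fderiv ℂ g (0, t) (1, 0)) 0 = (j : ℕ∞) + analyticOrderAt (fun t : ℂ => fderiv ℂ g (0, t) (1, 0)) 0 := by
      have := analyticOrderAt_mul hv1 hgx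
      rw [hj] at this
      exact this
    have h5 : min (analyticOrderAt (fun t : ℂ => c (0, t) * g (0, t)) 0) (analyticOrderAt (fun t : ℂ => (v (0, t)).1 * fderiv ℂ g (0, t) (1, 0)) 0) ≤
        analyticOrderAt (fun t => c (0, t) * g (0, t) - (v (0, t)).1 * fderiv ℂ g (0, t) (1, 0)) 0 :=
      le_analyticOrderAt_sub
    refine le_trans (min_le_min ?_ ?_) h5
    · rw [h3]; exact le_add_self
    · rw [h4]; exact le_self_add
  -- the conclusion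
  rw [← o1] at o3 ⊢
  generalize analyticOrderAt (deriv fun t : ℂ => g (0, t)) 0 = o at o3
  cases o with
  | top => exact le_top
  | coe o =>
    have h4 : j ≤ o := by
      rcases min_le_iff.1 o3 with h | h
      · have h5 : o + 1 ≤ o := by exact_mod_cast h
        omega
      · exact_mod_cast h
    exact_mod_cast Nat.add_le_add_right h4 1

/-- a weight with a zero at the origin, and the powers of `y` -/
theorem reg_axis {v : ℂ × ℂ → ℂ × ℂ} (hv : AnalyticAt ℂ v 0) (h2 : (v 0).2 ≠ 0) (hx : ¬ ∀ᶠ t in 𝓝 (0 : ℂ), (v (0, t)).1 = 0) :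
    ∃ (k : ℕ) (C : ℝ), 1 ≤ k ∧ 0 < C ∧ (∀ᶠ p in 𝓝 (0 : ℂ × ℂ), ‖p.2‖ ^ k ≤ C * rg v p) ∧
      ∀ g, Wt v g → g 0 = 0 → ∃ C' : ℝ, 0 < C' ∧ ∀ᶠ p in 𝓝 (0 : ℂ × ℂ), ‖g p‖ ≤ C' * rg v p := by
  have ax := an_axis 0
  have hvf : AnalyticAt ℂ (fun q : ℂ × ℂ => (v q).1) 0 := analyticAt_fst.comp hv
  have hv1 : AnalyticAt ℂ (fun t : ℂ => (v (0, t)).1) 0 :=
    AnalyticAt.comp (g := fun q : ℂ × ℂ => (v q).1) (f := fun t : ℂ => ((0 : ℂ), t)) (x := 0) hvf ax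
  obtain ⟨j, hj⟩ : ∃ j : ℕ, analyticOrderAt (fun t : ℂ => (v (0, t)).1) 0 = j := by
    have h3 : analyticOrderAt (fun t : ℂ => (v (0, t)).1) 0 ≠ ⊤ := by
      rw [Ne, analyticOrderAt_eq_top]
      exact hx
    obtain ⟨j, hj⟩ := ENat.ne_top_iff_exists.1 h3
    exact ⟨j, hj.symm⟩
  obtain ⟨C₁, hC₁, h3⟩ := ge_of_order hv1 hj
  obtain ⟨K, hK, h4⟩ := lip_axis hvf
  have hsnd : Tendsto (fun p : ℂ × ℂ => p.2) (𝓝 0) (𝓝 0) := continuous_snd.tendsto' _ _ rfl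
  have hone : ∀ᶠ p in 𝓝 (0 : ℂ × ℂ), ‖p.2‖ ≤ 1 := by
    filter_upwards [Metric.ball_mem_nhds (0 : ℂ × ℂ) one_pos] with q hq
    rw [mem_ball_zero_iff] at hq
    exact (norm_snd_le q).trans hq.le
  have key : ∀ᶠ p in 𝓝 (0 : ℂ × ℂ), ‖p.2‖ ^ (j + 1) ≤ (C₁ * (K + 1)) * rg v p := by
    filter_upwards [hsnd.eventually h3, h4, hone] with p e3 e4 e5
    have hx0 := norm_nonneg p.1
    have hy0 := norm_nonneg p.2
    have hw0 := norm_nonneg (v p).1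
    have e6 : ‖(v (0, p.2)).1‖ ≤ ‖(v p).1‖ + K * ‖p.1‖ := by
      have := norm_sub_norm_le (v (0, p.2)).1 (v p).1
      rw [norm_sub_rev] at this
      linarith
    have e7 : ‖p.2‖ ^ j ≤ C₁ * (‖(v p).1‖ + K * ‖p.1‖) := e3.trans (mul_le_mul_of_nonneg_left e6 hC₁.le)
    calc ‖p.2‖ ^ (j + 1) = ‖p.2‖ * ‖p.2‖ ^ j := by ring
      _ ≤ ‖p.2‖ * (C₁ * (‖(v p).1‖ + K * ‖p.1‖)) := mul_le_mul_of_nonneg_left e7 hy0
      _ = C₁ * (‖p.2‖ * ‖(v p).1‖ + K * (‖p.2‖ * ‖p.1‖)) := by ring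
      _ ≤ C₁ * ((K + 1) * rg v p) := by
        refine mul_le_mul_of_nonneg_left ?_ hC₁.le
        unfold rg
        have e8 : ‖p.2‖ * ‖p.1‖ ≤ 1 * ‖p.1‖ := mul_le_mul_of_nonneg_right e5 hx0
        have e9 : K * (‖p.2‖ * ‖p.1‖) ≤ K * (1 * ‖p.1‖) := mul_le_mul_of_nonneg_left e8 hK.le
        nlinarith [mul_nonneg hy0 hw0, mul_nonneg hK.le (mul_nonneg hy0 hw0)]
      _ = _ := by ring
  refine ⟨j + 1, C₁ * (K + 1), by omega, by positivity, key, fun g hg h0 => ?_⟩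
  have hG : AnalyticAt ℂ (fun t : ℂ => g (0, t)) 0 := AnalyticAt.comp (g := g) (f := fun t : ℂ => ((0 : ℂ), t)) (x := 0) hg.an ax
  obtain ⟨C₂, hC₂, h5⟩ := le_of_order hG (order_wt hv h2 hj hg h0)
  obtain ⟨K', hK', h6⟩ := lip_axis hg.an
  refine ⟨C₂ * (C₁ * (K + 1)) + K', by positivity, ?_⟩
  filter_upwards [hsnd.eventually h5, h6, key] with p e5 e6 e7
  have e8 : ‖g p‖ ≤ ‖g (0, p.2)‖ + K' * ‖p.1‖ := by
    have := norm_sub_norm_le (g p) (g (0, p.2))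
    linarith
  have e9 : ‖p.1‖ ≤ rg v p := by
    unfold rg
    have : 0 ≤ ‖p.2‖ * ‖(v p).1‖ := by positivity
    linarith
  calc ‖g p‖ ≤ C₂ * ‖p.2‖ ^ (j + 1) + K' * ‖p.1‖ := by linarith
    _ ≤ C₂ * ((C₁ * (K + 1)) * rg v p) + K' * rg v p :=
      add_le_add (mul_le_mul_of_nonneg_left e7 hC₂.le) (mul_le_mul_of_nonneg_left e9 hK'.le)
    _ = _ := by ring

/-! ## the two root densities -/

/-- both root densities -/
theorem dens2 {al be r s B : ℝ} (hal : -1 < al) (hbe : -1 < be) (hs : 0 < s) (hsr : s < r) (hB : 0 ≤ B) : ∃ A : ℝ, 0 ≤ A ∧ ∀ (Om : Set ℂ) (p : ℂ → ℂ × ℂ)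
    (lm : ℂ → ℝ), IsOpen Om → (∀ z ∈ Om, AnalyticAt ℂ p z) → (∀ z ∈ Om, p z ∈ ball (0 : ℂ × ℂ) r) →
    (∀ t < r, IsClosed {z | z ∈ Om ∧ p z ∈ closedBall (0 : ℂ × ℂ) t}) → Avoid al be Om p → Continuous lm → (∀ z, 0 ≤ lm z) →
    (∀ z ∈ Om, ‖deriv p z‖ ≤ B * lm z) → ∃ (l : ℂ → ℝ) (K : ℝ), Continuous l ∧ (∀ z, lm z ≤ l z) ∧
      (∀ R, 1 ≤ R → ∫ z, tau R z * l z ^ 2 ≤ A * (∫ z, tau R z * lm z ^ 2) + K) ∧ ∀ z ∈ Om, p z ∈ closedBall (0 : ℂ × ℂ) s →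
        ‖(deriv p z).1‖ * ‖(p z).1‖ ^ al ≤ l z ∧ ‖(deriv p z).2‖ * ‖(p z).2‖ ^ be ≤ l z := by
  obtain ⟨A₁, hA₁, h1⟩ := root_fst hal hs hsr hB
  obtain ⟨A₂, hA₂, h2⟩ := root_snd hbe hs hsr hB
  refine ⟨2 * A₁ + 2 * A₂, by positivity, fun Om p lm e1 e2 e3 e4 e5 e6 e7 e8 => ?_⟩
  obtain ⟨l₁, K₁, c1, c2, c3, c4⟩ := h1 Om p lm e1 e2 e3 e4 e5.fst e6 e7 e8
  obtain ⟨l₂, K₂, d1, d2, d3, d4⟩ := h2 Om p lm e1 e2 e3 e4 e5.snd e6 e7 e8
  have n1 : ∀ z, 0 ≤ l₁ z := fun z => (e7 z).trans (c2 z)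
  have n2 : ∀ z, 0 ≤ l₂ z := fun z => (e7 z).trans (d2 z)
  refine ⟨fun z => l₁ z + l₂ z, 2 * K₁ + 2 * K₂, c1.add d1, fun z => (c2 z).trans (le_add_of_nonneg_right (n2 z)), fun R hR => ?_, fun z hz hpz => ⟨?_, ?_⟩⟩
  · have hi1 : Integrable fun z => tau R z * l₁ z ^ 2 := Pool.Agent.H30M.integrable_tau_mul hR (c1.pow 2)
    have hi2 : Integrable fun z => tau R z * l₂ z ^ 2 := Pool.Agent.H30M.integrable_tau_mul hR (d1.pow 2)
    have hi : Integrable fun z => tau R z * (l₁ z + l₂ z) ^ 2 := Pool.Agent.H30M.integrable_tau_mul hR ((c1.add d1).pow 2)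
    have h3 : ∫ z, tau R z * (l₁ z + l₂ z) ^ 2 ≤ ∫ z, (2 * (tau R z * l₁ z ^ 2) + 2 * (tau R z * l₂ z ^ 2)) := by
      refine integral_mono hi ((hi1.const_mul 2).add (hi2.const_mul 2)) fun z => ?_
      have ht := Pool.Agent.H30M.tau_nonneg hR z
      have h4 : (l₁ z + l₂ z) ^ 2 ≤ 2 * l₁ z ^ 2 + 2 * l₂ z ^ 2 := by nlinarith [sq_nonneg (l₁ z - l₂ z)]
      calc tau R z * (l₁ z + l₂ z) ^ 2 ≤ tau R z * (2 * l₁ z ^ 2 + 2 * l₂ z ^ 2) := mul_le_mul_of_nonneg_left h4 ht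
        _ = 2 * (tau R z * l₁ z ^ 2) + 2 * (tau R z * l₂ z ^ 2) := by ring
    rw [integral_add (hi1.const_mul 2) (hi2.const_mul 2), integral_const_mul, integral_const_mul] at h3
    have h5 := c3 R hR
    have h6 := d3 R hR
    have h7 : (2 * A₁ + 2 * A₂) * (∫ z, tau R z * lm z ^ 2) = 2 * (A₁ * ∫ z, tau R z * lm z ^ 2) + 2 * (A₂ * ∫ z, tau R z * lm z ^ 2) := by ring
    rw [h7]
    linarith
  · exact (c4 z hz hpz).trans (le_add_of_nonneg_right (n2 z))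
  · exact (d4 z hz hpz).trans (le_add_of_nonneg_left (n1 z))

theorem pow_le_one' {t a : ℝ} (ha : -1 < a) (ht : 0 ≤ t) (ht1 : t ≤ 1) : t * t ^ a ≤ 1 := by
  rcases ht.eq_or_lt with h1 | h1
  · rw [← h1, zero_mul]
    exact zero_le_one
  · have h2 : t * t ^ a = t ^ (1 + a) := by rw [Real.rpow_add h1, Real.rpow_one]
    rw [h2]
    exact Real.rpow_le_one ht ht1 (by linarith)

/-- **The pointwise bound.** -/
theorem reg_bound {v : ℂ × ℂ → ℂ × ℂ} {r : ℝ} {Om : Set ℂ} {p : ℂ → ℂ × ℂ} (hp : Crv1 v r Om p) (hr : r ≤ 1) {al be : ℝ} (hal : -1 < al) (hbe : -1 < be)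
    {m : ℝ} (hm : 0 < m) {z : ℂ} (hz : z ∈ Om) (hv : m ≤ ‖(v (p z)).2‖) {L : ℝ} (h1 : ‖(deriv p z).1‖ * ‖(p z).1‖ ^ al ≤ L)
    (h2 : ‖(deriv p z).2‖ * ‖(p z).2‖ ^ be ≤ L) : ‖ztv v p z‖ * rg v (p z) * ‖JD al be (p z)‖ ≤ (1 + 1 / m) * L ∧
      ‖ztv v p z‖ * ‖(p z).2‖ ^ be ≤ 1 / m * L := by
  have hv0 : v (p z) ≠ 0 := by
    intro h
    rw [h, Prod.snd_zero, norm_zero] at hv
    linarith
  have hpr : ‖p z‖ ≤ 1 := by
    have := hp.mem z hz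
    rw [mem_ball_zero_iff] at this
    linarith
  have hx1 : ‖(p z).1‖ ≤ 1 := (norm_fst_le _).trans hpr
  have hy1 : ‖(p z).2‖ ≤ 1 := (norm_snd_le _).trans hpr
  have e1 : ‖(deriv p z).1‖ = ‖ztv v p z‖ * ‖(v (p z)).1‖ := by rw [hp.deriv_fst hz hv0, norm_mul]
  have e2 : ‖(deriv p z).2‖ = ‖ztv v p z‖ * ‖(v (p z)).2‖ := by rw [hp.deriv_snd hz hv0, norm_mul]
  have hzt := norm_nonneg (ztv v p z)
  have h3 : ‖ztv v p z‖ ≤ 1 / m * ‖(deriv p z).2‖ := by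
    rw [e2, one_div, inv_mul_eq_div, le_div_iff₀ hm]
    exact mul_le_mul_of_nonneg_left hv hzt
  have h4 : ‖ztv v p z‖ * ‖(p z).2‖ ^ be ≤ 1 / m * L := by
    calc ‖ztv v p z‖ * ‖(p z).2‖ ^ be ≤ 1 / m * ‖(deriv p z).2‖ * ‖(p z).2‖ ^ be := mul_le_mul_of_nonneg_right h3 (by positivity)
      _ = 1 / m * (‖(deriv p z).2‖ * ‖(p z).2‖ ^ be) := by ring
      _ ≤ 1 / m * L := mul_le_mul_of_nonneg_left h2 (by positivity)
  refine ⟨?_, h4⟩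
  have hL : 0 ≤ L := le_trans (by positivity) h1
  rw [JD_norm]
  have h5 : ‖ztv v p z‖ * rg v (p z) * (‖(p z).1‖ ^ al * ‖(p z).2‖ ^ be) =
      (‖(p z).1‖ * ‖(p z).1‖ ^ al) * (‖ztv v p z‖ * ‖(p z).2‖ ^ be) + (‖(p z).2‖ * ‖(p z).2‖ ^ be) * (‖(deriv p z).1‖ * ‖(p z).1‖ ^ al) := by
    rw [e1]
    unfold rg
    ring
  rw [h5]
  have h6 : (‖(p z).1‖ * ‖(p z).1‖ ^ al) * (‖ztv v p z‖ * ‖(p z).2‖ ^ be) ≤ 1 * (1 / m * L) :=
    mul_le_mul (pow_le_one' hal (norm_nonneg _) hx1) h4 (by positivity) zero_le_one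
  have h7 : (‖(p z).2‖ * ‖(p z).2‖ ^ be) * (‖(deriv p z).1‖ * ‖(p z).1‖ ^ al) ≤ 1 * L :=
    mul_le_mul (pow_le_one' hbe (norm_nonneg _) hy1) h1 (by positivity) zero_le_one
  linarith

end Pool.Agent.MQL
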