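import Pool.Agent.MQL.Defs
import Pool.Agent.MQ2.Step0

/-!
# MQL SD0: the definitions for the blow-up step (logarithmic version)

`Rt`: the root densities are bounded by `l₁`.  `DirD`: the package of one chart (`O Om p`, with the core `K Om p`) for all curves `p` which avoid the axes with a
negative exponent.
-/

set_option autoImplicit false

open Topology Filter Metric MeasureTheory Asymptotics Laplacian

noncomputable section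

namespace Pool.Agent.MQL

open Pool.Agent.H36.BP (EN)
open Pool.Agent.H30M (tau LogSing)
open Pool.Agent.MQ Pool.Agent.MQ2

/-- the root densities are bounded by `l₁` -/
def Rt (al be : ℝ) (Om : Set ℂ) (p : ℂ → ℂ × ℂ) (s : ℝ) (l₁ : ℂ → ℝ) : Prop :=
  ∀ z ∈ Om, p z ∈ closedBall (0 : ℂ × ℂ) s →
    (al < 0 → ‖(deriv p z).1‖ * ‖(p z).1‖ ^ al ≤ l₁ z) ∧ (be < 0 → ‖(deriv p z).2‖ * ‖(p z).2‖ ^ be ≤ l₁ z)

/-- **The package of a chart.** -/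
def DirD (al be : ℝ) (v : ℂ × ℂ → ℂ × ℂ) (g : ℂ × ℂ → ℂ) (N r : ℝ) (Con : ℕ → (ℂ × ℂ → ℂ) → Prop) (re B A C₀ : ℝ)
    (O K : Set ℂ → (ℂ → ℂ × ℂ) → Set ℂ) : Prop :=
  ∀ (d n : ℕ) (q : ℂ × ℂ → ℂ) (ψ : ℂ × ℂ → ℝ), 1 ≤ d → 1 ≤ n → AnalyticAt ℂ q 0 → ContDiffAt ℝ 1 ψ 0 → Con n q →
    ∀ (M : ℕ) (F : ℂ → EN M) (Q : ℂ → ℂ) (lm : ℂ → ℝ) (Om : Set ℂ) (p : ℂ → ℂ × ℂ), Dat v g r B d q ψ F Q lm Om p → Avoid al be Om p →
      ∀ ell : ℂ → ℝ, EllP Om p re ell → ∀ l₁ : ℂ → ℝ, Continuous l₁ → (∀ z, lm z ≤ l₁ z) → EnB Om p re l₁ → Rt al be Om p re l₁ →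
        ∃ (C : ℝ) (l : ℂ → ℝ) (η D X : ℂ → ℂ) (Φ err u : ℂ → ℝ), 0 ≤ C ∧ Continuous l ∧ (∀ z, l₁ z ≤ l z) ∧
          (∀ R, 1 ≤ R → ∫ z, tau R z * l z ^ 2 ≤ A * (∫ z, tau R z * l₁ z ^ 2) + C) ∧
          Cht (DDv v g p) ell (LL v g (JD al be) p) (VV v g (JD al be) Om p) N l C (O Om p) (K Om p) η D X Φ err u ∧
          ∀ R, 1 ≤ R → ∫ z in O Om p, tau R z * err z ≤ C₀ * d / n * (∫ z, tau R z * l₁ z ^ 2) + C * (∫ z, ‖gr (tau R) z‖ * l z) + C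

end Pool.Agent.MQL
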