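import Pool.Agent.MQL.SD0
import Pool.Agent.MQ2.StepD

/-!
# MQL SDC: the Jacobian factor and the axes in the chart at the direction `t`
-/

set_option autoImplicit false

open Topology Filter Metric MeasureTheory Asymptotics Laplacian

noncomputable section

namespace Pool.Agent.MQL

open Pool.Agent.H36.BP (EN)
open Pool.Agent.H30M (tau LogSing)
open Pool.Agent.MQ Pool.Agent.MQ2

private theorem SDC_norm (al be : ℝ) (p : ℂ × ℂ) : ‖JD al be p‖ = ‖p.1‖ ^ al * ‖p.2‖ ^ be := by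
  unfold JD
  rw [Complex.norm_real, Real.norm_eq_abs, abs_of_nonneg (by positivity)]

private theorem SDC_rpow {a b y be : ℝ} (ha : 0 < a) (h1 : a ≤ y) (h2 : y ≤ b) : y ^ be ≤ a ^ be + b ^ be := by
  have hy : 0 < y := ha.trans_le h1
  have hb : 0 < b := hy.trans_le h2
  rcases le_total 0 be with h | h
  · have := Real.rpow_le_rpow hy.le h2 h
    have := Real.rpow_nonneg ha.le be
    linarith
  · have := Real.rpow_le_rpow_of_nonpos ha h1 h
    have := Real.rpow_nonneg hb.le be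
    linarith

/-- the product of the Jacobian factors, `y = x s` -/
theorem jd_mul (al be : ℝ) {x : ℂ} (hx : x ≠ 0) (s : ℂ) : ‖x‖ * ‖JD al be (x, x * s)‖ = ‖x‖ ^ (1 + al + be) * ‖s‖ ^ be := by
  have h0 : 0 < ‖x‖ := norm_pos_iff.2 hx
  rw [SDC_norm]
  simp only
  rw [norm_mul, Real.mul_rpow h0.le (norm_nonneg _), Real.rpow_add h0, Real.rpow_add h0, Real.rpow_one]
  ring

/-- the Jacobian factor of the chart at `t` -/
theorem jd_child (al be : ℝ) (t : ℂ) : ∃ K : ℝ, 1 ≤ K ∧ ∀ᶠ ρ in 𝓝[>] (0 : ℝ), ∀ x s : ℂ, x ≠ 0 → ‖s - t‖ < ρ →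
    ‖x‖ * ‖JD al be (x, x * s)‖ ≤ K * ‖JD (1 + al + be) (if t = 0 then be else 0) (x, s - t)‖ := by
  by_cases ht : t = 0
  · refine ⟨1, le_rfl, Eventually.of_forall fun ρ x s hx _ => ?_⟩
    rw [jd_mul al be hx, if_pos ht, ht, sub_zero, one_mul, SDC_norm]
  · have ht0 : 0 < ‖t‖ := norm_pos_iff.2 ht
    refine ⟨max 1 ((‖t‖ / 2) ^ be + (2 * ‖t‖) ^ be), le_max_left _ _, ?_⟩
    filter_upwards [mem_nhdsWithin_of_mem_nhds (Iio_mem_nhds (half_pos ht0))] with ρ hρ x s hx hs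
    have hρ' : ρ < ‖t‖ / 2 := hρ
    rw [jd_mul al be hx, if_neg ht, SDC_norm, Real.rpow_zero, mul_one, mul_comm]
    refine mul_le_mul_of_nonneg_right ?_ (Real.rpow_nonneg (norm_nonneg _) _)
    refine (SDC_rpow (half_pos ht0) ?_ ?_).trans (le_max_right _ _)
    · have h1 : ‖t‖ ≤ ‖s‖ + ‖s - t‖ := by
        have h2 : t = s - (s - t) := by ring
        calc ‖t‖ = ‖s - (s - t)‖ := by rw [← h2]
          _ ≤ ‖s‖ + ‖s - t‖ := norm_sub_le _ _
      linarith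
    · have h1 : ‖s‖ ≤ ‖s - t‖ + ‖t‖ := by
        have h2 := norm_add_le (s - t) t
        rwa [sub_add_cancel] at h2
      linarith

/-- the curve of the chart avoids the axes with a negative exponent -/
theorem avoid_child {al be : ℝ} (hal : -1 < al) (hbe : -1 < be) {t : ℂ} {ρ : ℝ} {Om : Set ℂ} {p : ℂ → ℂ × ℂ} (hp : ∀ z ∈ Om, AnalyticAt ℂ p z)
    (h : Avoid al be Om p) : Avoid (1 + al + be) (if t = 0 then be else 0) (Omt Om p t ρ) (pt t p) where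
  fst := fun hk z hz => h.fst (by linarith) z hz.1
  snd := by
    intro hb z hz
    by_cases ht : t = 0
    · rw [if_pos ht] at hb
      have h1 := h.snd hb z hz.1
      have h2 : (p z).2 = (p z).1 * MQ2.slope p z := (hz.2.1.eq (hp z hz.1)).self_of_nhds
      intro h3
      apply h1
      have h4 : MQ2.slope p z - t = 0 := h3
      rw [ht, sub_zero] at h4
      rw [h2, h4, mul_zero]
    · rw [if_neg ht] at hb
      exact absurd hb (lt_irrefl _)

/-- the relations for the Jacobian factor -/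
theorem rel_jd {al be : ℝ} {e ι m : ℕ} {t : ℂ} {v w : ℂ × ℂ → ℂ × ℂ} {g g' : ℂ × ℂ → ℂ} {p : ℂ → ℂ × ℂ} {z : ℂ} {Om : Set ℂ}
    (hrel : z ∈ VV v g (fun _ => 1) Om p → (p z).1 ≠ 0 ∧ ztv w (pt t p) z ≠ 0 ∧ gt ι g' (pt t p z) ≠ 0 ∧ Jt t (fun _ => 1) (pt t p z) ≠ 0 ∧
      LL v g (fun _ => 1) p z + ((e : ℝ) + 1 + ι - m) * Real.log ‖(p z).1‖ = LL w (gt ι g') (Jt t fun _ => 1) (pt t p) z)
    (hV : z ∈ VV v g (JD al be) Om p) : (p z).1 ≠ 0 ∧ ztv w (pt t p) z ≠ 0 ∧ gt ι g' (pt t p z) ≠ 0 ∧ JD al be (p z) ≠ 0 ∧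
      LL v g (JD al be) p z + ((e : ℝ) + 1 + ι - m) * Real.log ‖(p z).1‖ =
        Real.log ‖ztv w (pt t p) z‖ + Real.log ‖gt ι g' (pt t p z)‖ + Real.log (‖(p z).1‖ * ‖JD al be (p z)‖) := by
  obtain ⟨h1, h2, h3, h4⟩ := hV
  obtain ⟨a1, a2, a3, a4, a5⟩ := hrel ⟨h1, h2, h3, one_ne_zero⟩
  refine ⟨a1, a2, a3, h4, ?_⟩
  unfold LL Jt at a5
  have hxp : (pt t p z).1 = (p z).1 := rfl
  rw [norm_one, Real.log_one, mul_one, hxp] at a5
  unfold LL
  rw [Real.log_mul (norm_ne_zero_iff.2 a1) (norm_ne_zero_iff.2 h4)]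
  linarith

end Pool.Agent.MQL
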