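import Pool.Agent.MQL.SD0

/-!
# MQL SDStub: the pieces of `goodD_step` (statements; never import this file in a hand-in)
-/

set_option autoImplicit false

open Topology Filter Metric MeasureTheory Asymptotics Laplacian

noncomputable section

namespace Pool.Agent.MQL

open Pool.Agent.H36.BP (EN)
open Pool.Agent.H30M (tau LogSing)
open Pool.Agent.MQ Pool.Agent.MQ2

/-! ## module SDA (helper82): the bound near a point of an axis -/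

/-- near a point of the axis `{x = 0}`: nonnegative exponent, or transversal, or in the weight -/
theorem ax_bound {al : ℝ} (hal : -1 < al) {v : ℂ × ℂ → ℂ × ℂ} {g : ℂ × ℂ → ℂ} {q₀ : ℂ × ℂ} (h0 : q₀.1 = 0) (hv : AnalyticAt ℂ v q₀) (hv0 : v q₀ ≠ 0)
    (hg : AnalyticAt ℂ g q₀) (h : 0 ≤ al ∨ (v q₀).1 ≠ 0 ∨ ∃ g₀ : ℂ × ℂ → ℂ, AnalyticAt ℂ g₀ q₀ ∧ ∀ᶠ q in 𝓝 q₀, g q = q.1 * g₀ q) :
    ∃ C : ℝ, 0 ≤ C ∧ ∀ᶠ q in 𝓝 q₀, (al < 0 → q.1 ≠ 0) → ‖g q‖ * ‖q.1‖ ^ al ≤ C * (‖v q‖ + if al < 0 then ‖(v q).1‖ * ‖q.1‖ ^ al else 0) := by sorry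

/-! ## module SDB (helper93): the base chart (model MQ2/StepA, with `ax_bound` at the points of the axes, compactness of `closedBall 0 s' \ ball 0 ρb`).
The radius `r`: `v`, `g` analytic, `v ≠ 0` off `0`; for `al < 0`: `{x = 0}` invariant and `g = x g₀` on the ball (`AxW`), or `(v (0, t)).1 ≠ 0` for `0 < |t| ≤ r`. -/

theorem cht_baseD {al be : ℝ} (hal : -1 < al) (hbe : -1 < be) {v : ℂ × ℂ → ℂ × ℂ} {g : ℂ × ℂ → ℂ} (hv : Iso v) (hg : Wt v g) (hA : AxW al be v g) :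
    ∀ᶠ r in 𝓝[>] (0 : ℝ), ∀ (ρb s' : ℝ), 0 < ρb → s' < r → ∀ H : ℂ × ℂ → ℝ, ContDiffOn ℝ 2 H {p | p ≠ 0} → ∀ (N B : ℝ), 0 ≤ B → ∃ C : ℝ, 0 ≤ C ∧
      ∀ (Om : Set ℂ) (p : ℂ → ℂ × ℂ) (l₁ : ℂ → ℝ), Crv1 v r Om p → (∀ z ∈ Om, ∃ᶠ w in 𝓝 z, g (p w) ≠ 0) → Avoid al be Om p → (∀ z, 0 ≤ l₁ z) →
        (∀ z ∈ Om, ‖deriv p z‖ ≤ B * l₁ z) → Rt al be Om p s' l₁ →
        Cht (DDv v g p) (fun z => H (p z)) (LL v g (JD al be) p) (VV v g (JD al be) Om p) N l₁ C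
          {z | z ∈ Om ∧ p z ∈ ball (0 : ℂ × ℂ) s' ∧ p z ∉ closedBall (0 : ℂ × ℂ) ρb} ∅
          (fun z => (starRingEnd ℂ) (DDv v g p z)) (DDv v g p) (fun _ => 1) (fun _ => 0) (fun _ => 0) fun z => H (p z) := by sorry

/-! ## module SDE (helper40): the density, the tangent directions -/

/-- `energy` of MQ2/Energy, then `root_energy` for both axes (exchanged coordinates for `{y = 0}`) -/
theorem exists_l1 {al be r s B : ℝ} (hal : -1 < al) (hbe : -1 < be) (hs : 0 < s) (hsr : s < r) (hB : 0 ≤ B) : ∃ A : ℝ, 0 ≤ A ∧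
    ∀ (Om : Set ℂ) (p : ℂ → ℂ × ℂ) (lm : ℂ → ℝ), IsOpen Om → (∀ z ∈ Om, AnalyticAt ℂ p z) → (∀ z ∈ Om, p z ∈ ball (0 : ℂ × ℂ) r) →
    (∀ t < r, IsClosed {z | z ∈ Om ∧ p z ∈ closedBall (0 : ℂ × ℂ) t}) → (∀ z ∈ Om, ∃ᶠ w in 𝓝 z, p w ≠ 0) → Avoid al be Om p → Continuous lm →
    (∀ z, 0 ≤ lm z) → (∀ z ∈ Om, ‖deriv p z‖ ≤ B * lm z) →
    ∃ (l₁ : ℂ → ℝ) (K : ℝ), Continuous l₁ ∧ (∀ z, lm z ≤ l₁ z) ∧ (∀ R, 1 ≤ R → ∫ z, tau R z * l₁ z ^ 2 ≤ A * (∫ z, tau R z * lm z ^ 2) + K) ∧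
      EnB Om p s l₁ ∧ Rt al be Om p s l₁ := by sorry

/-- as `sing_finite` -/
theorem tan_finite {e : ℕ} {v : ℂ × ℂ → ℂ × ℂ} {w : ℂ → ℂ × ℂ → ℂ × ℂ} {wi : ℂ × ℂ → ℂ × ℂ} (hw : ∀ t, Child e 0 t v (w t))
    (hwi : Child e 0 0 (swv v) wi) : {t : ℂ | (w t 0).1 = 0}.Finite := by sorry

/-- the weights of the children contain the axes -/
theorem axW_child {al be : ℝ} {e ι m : ℕ} {t : ℂ} {v w : ℂ × ℂ → ℂ × ℂ} {g g' : ℂ × ℂ → ℂ} (hw : Child e ι t v w) (hA : AxW al be v g)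
    (hg' : AnalyticAt ℂ g' 0) (hm : ∀ᶠ p in 𝓝 (0 : ℂ × ℂ), g (MQ2.be t p) = p.1 ^ m * g' p) :
    AxW (1 + al + be) (if t = 0 then be else 0) w (gt ι g') := by sorry

end Pool.Agent.MQL
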