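import Pool.Agent.MQL.SDefs
import Pool.Agent.MQ3.AsmI
import Pool.Agent.MQ.GeoDefs
import Pool.Agent.AD.T.NCDefs

/-!
# MQL SStub: the surface half of the logarithmic theorem (statements; never import this file in a hand-in)

Every section is one module `Pool/Agent/MQL/<Module>.lean`, namespace `Pool.Agent.MQL`, with the same statements.
`exists_form_log` (module StartL, helper69) gives `Wf` with `LW P H₀ mK 1 Wf`.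
-/

set_option autoImplicit false

open Topology Filter Metric MvPolynomial MeasureTheory Laplacian

noncomputable section

namespace Pool.Agent.MQL.SStub

open Pool.Agent.H36.BP (EN fs)
open Pool.Agent.H14.PP (Tan)
open Pool.Agent.H17BP (Surface IsForm)
open Pool.Agent.H36.BPL (PoleLE VanOff)
open Pool.Agent.H17EF (projVar coneE)
open Pool.Agent.H30M (tau LogSing)
open Pool.Agent.H62.FC (Homog)
open Pool.Agent.H17LG.Variety (FunField OnBoundary IsLogGeneralType)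
open Pool.Agent.MQ (lam En ztv dvg DDv gr dv Pack)
open Pool.Agent.MQ2 (Iso Wt Sep FZero HasOrd LocX Dat)
open Pool.Agent.MQ3 Pool.Agent.MQL

variable {M : ℕ} {P : Ideal (MvPolynomial (Fin (M + 1)) ℂ)} {RD H₀ Ra : MvPolynomial (Fin (M + 1)) ℂ} {m : ℕ} {X : NCModel P RD} {θ : WDiff (coneE P) m}
  {l : LF M} {S : Web X θ l} {Wf : EN M → EN M → EN M → ℂ} {mK jH : ℕ}

/-! ## module WtL (helper84): port of MQ3/WtN3; `F z ∈ okE P H₀` -/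

section

variable {F : ℂ → EN M}

theorem wt_an (hX : Surface (coneE P)) (hW : LW P H₀ mK jH Wf) (hF : Differentiable ℂ F) (ha : ∀ z, eval (F z).ofLp H₀ ≠ 0) (Y : NCLift X F) (i : X.ι) :
    ∀ z ∈ Y.U i, AnalyticAt ℂ (wt Wf Y i) z := by sorry

theorem wt_chg (hX : Surface (coneE P)) (hW : LW P H₀ mK jH Wf) (hF : Differentiable ℂ F) (ha : ∀ z, eval (F z).ofLp H₀ ≠ 0) (Y : NCLift X F) {i j : X.ι} {z : ℂ}
    (hi : z ∈ Y.U i) (hj : z ∈ Y.U j) {Φ : ℂ × ℂ → ℂ × ℂ} (hΦ : Chg X i j Φ (Y.p i z)) (h0 : Φ (Y.p i z) = Y.p j z) :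
    ∀ᶠ w in 𝓝 z, Y.p j w = Φ (Y.p i w) ∧ wt Wf Y i w = jc Φ (Y.p i w) ^ mK * wt Wf Y j w := by sorry

theorem wne (hX : Surface (coneE P)) (hW : LW P H₀ mK jH Wf) (hF : WCrv θ RD F) (ha : ∀ z, eval (F z).ofLp H₀ ≠ 0) (Y : NCLift X F)
    (h : ∃ z w, Pool.Agent.H17BP.Tan (coneE P) (F z) w ∧ Wf (F z) (deriv F z) w ≠ 0) : WNe Wf Y := by sorry

end

/-! ## module PolL (helper84, helper16): the poles of the weight -/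

/-- `PoleLE` for `mK - 1` copies of the equation of `D` in the two lines; if `D` contains no line through `q` then it does not contain `q` (`MQ2.hartogs`) -/
theorem pole_loc (hW : LW P H₀ mK jH Wf) {φ : ℂ × ℂ → EN M} {q : ℂ × ℂ} (hφ : AnalyticAt ℂ φ q) (hX : ∀ᶠ x in 𝓝 q, φ x ∈ coneE P)
    (hax : ∀ᶠ x in 𝓝 q, eval (φ x).ofLp H₀ = 0 → (x.1 - q.1) * (x.2 - q.2) = 0) :
    ∃ C : ℝ, ∀ᶠ x in 𝓝 q, eval (φ x).ofLp H₀ ≠ 0 → Wf (φ x) (fderiv ℂ φ x (1, 0)) (fderiv ℂ φ x (0, 1)) ≠ 0 →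
      1 / mK * Real.log ‖Wf (φ x) (fderiv ℂ φ x (1, 0)) (fderiv ℂ φ x (0, 1))‖ ≤ C + Real.log ‖JD (exX H₀ mK φ q) (exY H₀ mK φ q) (x - q)‖ := by sorry

theorem wt_leB (hX : Surface (coneE P)) (hD : DivB P RD H₀) (hW : LW P H₀ mK jH Wf) (i : X.ι) {p : ℂ × ℂ} (hp : p ∈ X.B i) :
    ∃ N ∈ 𝓝 p, ∃ C : ℝ, ∀ F : ℂ → EN M, Differentiable ℂ F → (∀ z, eval (F z).ofLp H₀ ≠ 0) → ∀ Y : NCLift X F, ∀ z ∈ Y.U i, Y.p i z ∈ N →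
      wt Wf Y i z ≠ 0 → 1 / mK * Real.log ‖wt Wf Y i z‖ + jH / mK * Real.log ‖F z‖ ≤
        C + Real.log ‖JD (exX H₀ mK (X.ρ i) p) (exY H₀ mK (X.ρ i) p) (Y.p i z - p)‖ := by sorry

theorem wt_leC (hX : Surface (coneE P)) (hD : DivB P RD H₀) (hW : LW P H₀ mK jH Wf) (k : S.ι) {q : ℂ × ℂ} (hq : q ∈ S.D k) :
    ∃ N ∈ 𝓝 q, ∃ C : ℝ, ∀ F : ℂ → EN M, LCrv θ RD H₀ Ra F → ∀ Y : NCLift X F, ∀ z ∈ S.Om Y k, S.lf Y k z ∈ N →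
      wt Wf Y k.1 z ≠ 0 → jc (S.κ k) (S.lf Y k z) ≠ 0 →
        Real.log ‖jc (S.κ k) (S.lf Y k z)‖ + 1 / mK * Real.log ‖wt Wf Y k.1 z‖ + jH / mK * Real.log ‖F z‖ ≤
          C + Real.log ‖JD (exX H₀ mK (S.σ k) q) (exY H₀ mK (S.σ k) q) (S.lf Y k z - q)‖ := by sorry

/-! ## module AxL (helper16): the axes in `D` -/

theorem avoidL (hX : Surface (coneE P)) (hD : DivB P RD H₀) (k : S.ι) {q : ℂ × ℂ} (hq : q ∈ S.D k) : ∀ᶠ r in 𝓝[>] (0 : ℝ), ∀ F : ℂ → EN M, LCrv θ RD H₀ Ra F →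
    ∀ Y : NCLift X F, Avoid (exX H₀ mK (S.σ k) q) (exY H₀ mK (S.σ k) q) {z | z ∈ S.Om Y k ∧ S.lf Y k z ∈ ball q r} fun z => S.lf Y k z - q := by sorry

theorem axW_of (hX : Surface (coneE P)) (hD : DivB P RD H₀) {k : S.ι} {q : ℂ × ℂ} (hq : q ∈ S.D k) {g : ℂ × ℂ → ℂ} (hg : AnalyticAt ℂ g q)
    (hinv : ∀ᶠ x in 𝓝[≠] q, InvAt S Ra k x g) :
    AxW (exX H₀ mK (S.σ k) q) (exY H₀ mK (S.σ k) q) (fun x => S.v k (q + x)) fun x => g (q + x) := by sorry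

/-! ## module RegC (helper89): the package without formal curves, at the points of `Reg0` -/

theorem goodC_reg0 {al be : ℝ} (hal : -1 < al) (hbe : -1 < be) (hn : 0 ≤ al ∨ 0 ≤ be) {v : ℂ × ℂ → ℂ × ℂ} (hv : AnalyticAt ℂ v 0) (h0 : v 0 ≠ 0)
    (h1 : al < 0 → (v 0).1 ≠ 0 ∨ ∀ᶠ t in 𝓝 (0 : ℂ), (v (0, t)).1 = 0) (h2 : be < 0 → (v 0).2 ≠ 0 ∨ ∀ᶠ t in 𝓝 (0 : ℂ), (v (t, 0)).2 = 0)
    (c : Fin 0 → ℕ → ℂ → ℂ × ℂ) : GoodC c al be v := by sorry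

/-! ## module FamL (helper65): the packages of all chart points; from `goodD_of_iso`, `goodD_reg`, `goodC_reg0` -/

theorem exists_fam (hX : Surface (coneE P)) (hD : DivB P RD H₀) (S : Web X θ l) (hm : 1 ≤ mK) :
    ∃ (n : S.ι → ℂ × ℂ → ℕ) (fam : ∀ (k : S.ι) (q : ℂ × ℂ), Fin (n k q) → ℕ → ℂ → ℂ × ℂ),
      (∀ k, ∀ q ∈ S.D k, ∀ i, Sep (fun x => S.v k (q + x)) (fam k q i)) ∧ (∀ k, ∀ q ∈ S.D k, Reg0 S k q → n k q = 0) ∧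
      ∀ k, ∀ q ∈ S.D k, GoodC (fam k q) (exX H₀ mK (S.σ k) q) (exY H₀ mK (S.σ k) q) fun x => S.v k (q + x) := by sorry

/-! ## module AlgRL (helper5): as MQ3/AlgR3; the points of `cp k` outside `Reg0` are finitely many -/

theorem reg0_finite (hX : Surface (coneE P)) (S : Web X θ l) (k : S.ι) : {q | q ∈ S.cp k ∧ ¬ Reg0 S k q}.Finite := by sorry

theorem exists_RaL [P.IsPrime] {z : Fin 2 → FunField P} (hz : IsTranscendenceBasis ℂ z) (hX : Surface (coneE P)) (S : Web X θ l) (n : S.ι → ℂ × ℂ → ℕ)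
    (fam : ∀ (k : S.ι) (q : ℂ × ℂ), Fin (n k q) → ℕ → ℂ → ℂ × ℂ) (hfam : ∀ k, ∀ q ∈ S.cp k, ∀ i, Sep (fun x => S.v k (q + x)) (fam k q i))
    (h0 : ∀ k, ∀ q ∈ S.cp k, Reg0 S k q → n k q = 0) :
    ∃ (Ra : MvPolynomial (Fin (M + 1)) ℂ) (d : ℕ), Ra.IsHomogeneous d ∧ Ra ∉ P ∧ ∀ k : S.ι, ∀ q ∈ S.cp k, ∀ i,
      FZero (fam k q i) (fun x => eval (S.σ k (q + x)).ofLp Ra) ∨
        ∀ (R' : MvPolynomial (Fin (M + 1)) ℂ) (d' : ℕ), R'.IsHomogeneous d' → R' ∉ P →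
          ¬ FZero (fam k q i) fun x => eval (S.σ k (q + x)).ofLp R' := by sorry

/-! ## module ThL: port of ThN (when it is final) -/

theorem exists_theta {F : ℂ → EN M} (hX : Surface (coneE P)) (hW : LW P H₀ mK jH Wf) (hF : LCrv θ RD H₀ Ra F) (Y : NCLift X F) (hne : WNe Wf Y) :
    ∃ Θ : ℂ → ℂ, IsTh S Wf mK Y Θ := by sorry

/-! ## module EtaLL, EtaNL: ports of EtaL / EtaLoc, EtaN -/

theorem gr_eP {F : ℂ → EN M} (hX : Surface (coneE P)) (hW : LW P H₀ mK jH Wf) (hF : LCrv θ RD H₀ Ra F) (Y : NCLift X F) (hne : WNe Wf Y) {Θ : ℂ → ℂ}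
    (hΘ : IsTh S Wf mK Y Θ) {k : S.ι} {z : ℂ} (hz : z ∈ S.Om Y k) {g : ℂ × ℂ → ℂ} (hg : AnalyticAt ℂ g (S.lf Y k z))
    (hgn : ∃ᶠ w in 𝓝 z, g (S.lf Y k w) ≠ 0) :
    ∀ᶠ w in 𝓝[≠] z, ContDiffAt ℝ 2 (eP S g Wf mK jH Y k) w ∧ Δ (eP S g Wf mK jH Y k) w = 2 * jH / mK * lam F w ^ 2 ∧
      gr (eP S g Wf mK jH Y k) w + (starRingEnd ℂ) (DDv (S.v k) g (S.lf Y k) w) =
        (starRingEnd ℂ) (Θ w) + gr (fun w => jH / mK * Real.log ‖F w‖) w := by sorry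

theorem eta_loc (hX : Surface (coneE P)) (hW : LW P H₀ mK jH Wf) {k : S.ι} {q : ℂ × ℂ} (hq : q ∈ S.D k) (hv : S.v k q ≠ 0) {g : ℂ × ℂ → ℂ}
    (hg : InvAt S Ra k q g) {H : ℂ × ℂ → ℂ × ℂ → EN 2} (hH : ∀ p w (a : ℂ), H p (a • w) = a • H p w) {L : ℂ × ℂ → EN 2} (hL : AnalyticAt ℂ L q)
    (hL0 : L q ≠ 0) (hHL : ∀ᶠ x in 𝓝 q, H (S.κ k x) (fderiv ℂ (S.κ k) x (S.v k x)) = (jc (S.κ k) x * g x) • L x) :
    ∃ N ∈ 𝓝 q, ∃ C : ℝ, ∀ F : ℂ → EN M, LCrv θ RD H₀ Ra F → ∀ Y : NCLift X F, WNe Wf Y → ∀ Θ : ℂ → ℂ, IsTh S Wf mK Y Θ →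
      ∀ z ∈ S.Om Y k, S.lf Y k z ∈ N → ∃ (η : ℂ → ℂ) (ψ : ℂ → ℝ), ContDiffAt ℝ 1 η z ∧ ‖η z‖ ≤ C * ‖deriv (S.lf Y k) z‖ ∧ ContDiffAt ℝ 2 ψ z ∧ |ψ z| ≤ C ∧
        ∀ᶠ w in 𝓝[≠] z, ContDiffAt ℝ 2 (eN H Wf mK jH Y k.1) w ∧ η w = (starRingEnd ℂ) (Θ w) - gr (eH H Wf mK Y k.1) w ∧
          Δ (eN H Wf mK jH Y k.1) w + dv η w = 2 * jH / mK * lam F w ^ 2 ∧ eN H Wf mK jH Y k.1 w - eP S g Wf mK jH Y k w = ψ w := by sorry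

theorem exists_etaN (hX : Surface (coneE P)) (hW : LW P H₀ mK jH Wf) (C : Cov S Ra) (k : Fin C.nN) :
    ∃ B : ℝ, ∀ F : ℂ → EN M, LCrv θ RD H₀ Ra F → ∀ Y : NCLift X F, WNe Wf Y → ∀ Θ : ℂ → ℂ, IsTh S Wf mK Y Θ →
      ∀ (A : ℝ) (lm : ℂ → ℝ), Dens C Y A lm → ∃ η : ℂ → ℂ, ContDiffOn ℝ 1 η (C.UN Y k) ∧ (∀ z ∈ C.UN Y k, ‖η z‖ ≤ B * lm z) ∧
        ∀ z ∈ C.UN Y k, ∀ᶠ w in 𝓝[≠] z, η w + gr (eN (C.H k) Wf mK jH Y (C.b k)) w = (starRingEnd ℂ) (Θ w) + gr (fun w => jH / mK * Real.log ‖F w‖) w ∧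
          ContDiffAt ℝ 2 (eN (C.H k) Wf mK jH Y (C.b k)) w ∧ Δ (eN (C.H k) Wf mK jH Y (C.b k)) w + dv η w = 2 * jH / mK * lam F w ^ 2 := by sorry

/-! ## module BdNL: port of BdN -/

theorem bd_NN (hX : Surface (coneE P)) (hW : LW P H₀ mK jH Wf) (C : Cov S Ra) (k k' : Fin C.nN) :
    ∃ B : ℝ, ∀ F : ℂ → EN M, LCrv θ RD H₀ Ra F → ∀ Y : NCLift X F, WNe Wf Y → ∀ z ∈ C.UN Y k, z ∈ C.UN Y k' →
      ContDiffAt ℝ 2 (eN (C.H k) Wf mK jH Y (C.b k)) z → ContDiffAt ℝ 2 (eN (C.H k') Wf mK jH Y (C.b k')) z →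
        |eN (C.H k) Wf mK jH Y (C.b k) z - eN (C.H k') Wf mK jH Y (C.b k') z| ≤ B := by sorry

theorem bd_PN (hX : Surface (coneE P)) (hW : LW P H₀ mK jH Wf) (C : Cov S Ra) {g : Fin C.nP → ℂ × ℂ → ℂ}
    (hg : PG C g) (j : Fin C.nP) (k : Fin C.nN) {r' : ℝ} (hr' : r' < C.r j) :
    ∃ B : ℝ, ∀ F : ℂ → EN M, LCrv θ RD H₀ Ra F → ∀ Y : NCLift X F, WNe Wf Y → ∀ z ∈ C.UP Y j, z ∈ C.UN Y k →
      S.lf Y (C.ck j) z ∈ closedBall (C.Q j) r' →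
      ContDiffAt ℝ 2 (eP S (g j) Wf mK jH Y (C.ck j)) z → ContDiffAt ℝ 2 (eN (C.H k) Wf mK jH Y (C.b k)) z →
        |eP S (g j) Wf mK jH Y (C.ck j) z - eN (C.H k) Wf mK jH Y (C.b k) z| ≤ B := by sorry

/-! ## module LogNL: port of LogN -/

theorem logSing_N (hX : Surface (coneE P)) (hW : LW P H₀ mK jH Wf) (C : Cov S Ra) (k : Fin C.nN) {F : ℂ → EN M}
    (hF : LCrv θ RD H₀ Ra F) (Y : NCLift X F) (hne : WNe Wf Y) :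
    ∀ z ∈ Y.U (C.b k), Y.p (C.b k) z ∈ ball (C.y k) (C.t k) → ∃ c, 0 ≤ c ∧ LogSing (eN (C.H k) Wf mK jH Y (C.b k)) c z := by sorry

theorem logSing_P (hX : Surface (coneE P)) (hW : LW P H₀ mK jH Wf) (C : Cov S Ra) {g : Fin C.nP → ℂ × ℂ → ℂ}
    (hg : PG C g) (j : Fin C.nP) {F : ℂ → EN M} (hF : LCrv θ RD H₀ Ra F) (Y : NCLift X F) (hne : WNe Wf Y) :
    ∀ z ∈ C.UP Y j, ∃ c, LogSing (eP S (g j) Wf mK jH Y (C.ck j)) c z := by sorry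

/-! ## module DensNL (helper34, helper25): the density with the root energies of the boxes, from `exists_densN`, `root_energy`, `wt_leB`, `hN_le` (MQ3/UpN).

Near a point `p` of `closedBall (y k) (t k)`: `eN ≤ C + log (‖H (p, p')‖ |x| ^ α₁ |y| ^ α₂)`, `H = hA` if `p` is on an axis, and `|y x'| |x| ^ α₁ |y| ^ α₂ ≤
|x'| |x| ^ α₁` .. are root densities (`root_energy` for `Om := {z ∈ U, Y.p z ∈ ball p r}`, the curve `Y.p z - p`, and its image under the swap);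
`lm` := the density of `exists_densN` + finitely many root densities. -/

theorem exists_densL (hX : Surface (coneE P)) (hD : DivB P RD H₀) (hW : LW P H₀ mK jH Wf) (C : Cov S Ra) (A₀ : ℝ) (CK : X.ι → Set (ℂ × ℂ) → ℝ) :
    ∃ A B : ℝ, 0 ≤ A ∧ ∀ F : ℂ → EN M, LCrv θ RD H₀ Ra F → ∀ (Y : NCLift X F) (lm₀ : ℂ → ℝ), WNe Wf Y → NCDens Y A₀ CK lm₀ →
      ∃ lm : ℂ → ℝ, DensL C Y Wf mK jH A B lm := by sorry

/-! ## module AsmPL, AsmNL (helper78, helper51): the pack; as MQ3/AsmP, AsmNA, AsmN.  The patch of the special point `j` is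
`{z | z ∈ C.UP Y j ∧ C.pj Y j z ∈ ball 0 (s' j)}`, `r' j < s' j < r j` with the `r'` of `exists_cut` -/

theorem pack_webL (hX : Surface (coneE P)) (hW : LW P H₀ mK jH Wf) (C : Cov S Ra) : ∃ s' : Fin C.nP → ℝ, (∀ j, C.s j < s' j ∧ s' j < C.r j) ∧
    ∀ g : Fin C.nP → ℂ × ℂ → ℂ, PG C g → ∀ F : ℂ → EN M, LCrv θ RD H₀ Ra F → ∀ Y : NCLift X F, WNe Wf Y →
      ∀ A B : ℝ, 0 ≤ A → ∀ lm : ℂ → ℝ, DensL C Y Wf mK jH A B lm → ∀ A' δ : ℝ, 0 ≤ δ → ∀ (al be : Fin C.nP → ℝ) (C₁ : ℝ),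
        (∀ j, ∀ z ∈ C.UP Y j, wt Wf Y (C.ck j).1 z ≠ 0 → C.Jj j (C.pj Y j z) ≠ 0 → JD (al j) (be j) (C.pj Y j z) ≠ 0 ∧
          Real.log ‖C.Jj j (C.pj Y j z)‖ + 1 / mK * Real.log ‖wt Wf Y (C.ck j).1 z‖ + jH / mK * Real.log ‖F z‖ ≤
            C₁ + Real.log ‖JD (al j) (be j) (C.pj Y j z)‖) →
        (∀ j, LocX (C.vj j) (fun x => g j (C.Q j + x)) (JD (al j) (be j)) {z | z ∈ C.UP Y j ∧ C.pj Y j z ∈ ball (0 : ℂ × ℂ) (s' j)} (C.pj Y j) lm (C.s j) A' δ) →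
        ∃ L : ℂ → ℝ, Continuous L ∧ (∀ z, lam F z ≤ L z) ∧ (∃ B : ℝ, ∀ R, 1 ≤ R → ∫ z, tau R z * L z ^ 2 ≤ B * (En F R + 1)) ∧
          Pack F L (2 * jH / mK) (C.nP * (δ * A)) := by sorry

/-! ## module FinL (helper18): the theorem -/

theorem exists_R_log [P.IsPrime] (hP : Homog P) (hdim : ∃ z : Fin 2 → FunField P, IsTranscendenceBasis ℂ z) (hsmooth : Pool.Agent.AD.NC.IsSmooth P 2)
    {e : ℕ} (hH₀ : H₀.IsHomogeneous e) (hH₀P : H₀ ∉ P) (hgt : IsLogGeneralType (K := FunField P) (k := 2) (OnBoundary P fun _ : Fin 1 => H₀))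
    (hm : 1 ≤ m) (θ : WDiff (coneE P) m) (hθ : coneE P ⊆ closure {x | x ∈ coneE P ∧ ∃ v, Tan (coneE P) x v ∧ θ.toFun x v ≠ 0}) :
    ∃ (R : MvPolynomial (Fin (M + 1)) ℂ) (d : ℕ), R.IsHomogeneous d ∧ R ∉ P ∧ ∀ F : ℂ → EN M, Differentiable ℂ F → (∀ z, F z ∈ coneE P) →
      (∀ z, eval (F z).ofLp H₀ ≠ 0) → (∃ A : ℝ, ∀ r : ℝ, 0 < r → Real.circleAverage (fun z => Real.log ‖F z‖) 0 r ≤ A * (1 + r ^ 2)) →
      (∃ z w, ∀ c : ℂ, F z ≠ c • F w) → (∀ z, θ.toFun (F z) (deriv F z) = 0) → ∀ z, eval (F z).ofLp R = 0 := by sorry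

end Pool.Agent.MQL.SStub
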