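import Pool.Agent.MQL.Defs
import Pool.Agent.MQ2.TSN

/-!
# MQL SnD0: units in the weight, from `LocalN1` to `LocX` with a bigger density
-/

set_option autoImplicit false

open Topology Filter Metric MeasureTheory Asymptotics Laplacian

noncomputable section

namespace Pool.Agent.MQL

open Pool.Agent.H36.BP (EN)
open Pool.Agent.H30M (tau LogSing)
open Pool.Agent.MQ Pool.Agent.MQ2

variable {v : ℂ × ℂ → ℂ × ℂ} {g g' u J : ℂ × ℂ → ℂ} {r : ℝ} {Om : Set ℂ} {p : ℂ → ℂ × ℂ}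

/-- the field for the weight `g' u`, `u` a unit -/
theorem DDv_unit (hc : Crv1 v r Om p) {z : ℂ} (hz : z ∈ Om) (hu : AnalyticAt ℂ u (p z)) (hu0 : u (p z) ≠ 0) (hg' : AnalyticAt ℂ g' (p z)) (hne : g' (p z) ≠ 0)
    (hg : ∀ᶠ q in 𝓝 (p z), g q = g' q * u q) : DDv v g p z = DDv v g' p z - deriv (fun w => u (p w)) z / u (p z) := by
  have hpz := hc.an z hz
  have hU : DifferentiableAt ℂ (fun w => u (p w)) z := (hu.fun_comp hpz).differentiableAt
  have hG : DifferentiableAt ℂ (fun w => g' (p w)) z := (hg'.fun_comp hpz).differentiableAt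
  have e : (fun w => g (p w)) =ᶠ[𝓝 z] fun w => g' (p w) * u (p w) := by
    filter_upwards [hpz.continuousAt.eventually hg] with w hw
    exact hw
  unfold DDv
  rw [e.deriv_eq, deriv_fun_mul hG hU, hg.self_of_nhds]
  field_simp
  ring

/-- a unit in the weight -/
theorem localN1_unit (hc : Crv1 v r Om p) (hu : AnalyticOnNhd ℂ u (closedBall 0 r)) (hu0 : ∀ q ∈ closedBall (0 : ℂ × ℂ) r, u q ≠ 0)
    (hg : ∀ q ∈ ball (0 : ℂ × ℂ) r, g q = g' q * u q) (hg' : ∀ z ∈ Om, AnalyticAt ℂ g' (p z)) (hne : ∀ z ∈ Om, p z ≠ 0 → g' (p z) ≠ 0)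
    {I Λ : ℝ → ℝ} (hΛ : ∀ R, 1 ≤ R → 0 ≤ Λ R) {s δ : ℝ} (hs : 0 < s) (h : LocalN1 v g' Om p I Λ s δ) : LocalN1 v g Om p I Λ s δ := by
  obtain ⟨C, η, err, hC, hη, herr, hout, hin, he0, hdv, hint⟩ := h
  have hmem : ∀ z ∈ Om, p z ∈ closedBall (0 : ℂ × ℂ) r := fun z hz => ball_subset_closedBall (hc.mem z hz)
  obtain ⟨K, hK⟩ := (isCompact_closedBall (0 : ℂ × ℂ) r).bddAbove_image (f := fun q => ‖fderiv ℂ u q‖ / ‖u q‖)
    (ContinuousOn.div (fun q hq => (hu q hq).fderiv.continuousAt.norm.continuousWithinAt) (fun q hq => (hu q hq).continuousAt.norm.continuousWithinAt)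
      fun q hq => norm_ne_zero_iff.2 (hu0 q hq))
  have hUan : ∀ z ∈ Om, AnalyticAt ℂ (fun w => u (p w)) z := fun z hz => (hu _ (hmem z hz)).fun_comp (hc.an z hz)
  set L : ℂ → ℂ := fun z => deriv (fun w => u (p w)) z / u (p z) with hL
  have hLan : ∀ z ∈ Om, AnalyticAt ℂ L z := fun z hz => (hUan z hz).deriv.div (hUan z hz) (hu0 _ (hmem z hz))
  have hLb : ∀ z ∈ Om, ‖L z‖ ≤ max K 0 * ‖deriv p z‖ := by
    intro z hz
    have h1 : deriv (fun w => u (p w)) z = fderiv ℂ u (p z) (deriv p z) :=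
      ((hu _ (hmem z hz)).differentiableAt.hasFDerivAt.comp_hasDerivAt z (hc.an z hz).differentiableAt.hasDerivAt).deriv
    have h2 : ‖fderiv ℂ u (p z)‖ / ‖u (p z)‖ ≤ max K 0 := (hK ⟨p z, hmem z hz, rfl⟩).trans (le_max_left _ _)
    have h3 : 0 < ‖u (p z)‖ := norm_pos_iff.2 (hu0 _ (hmem z hz))
    calc ‖L z‖ = ‖fderiv ℂ u (p z) (deriv p z)‖ / ‖u (p z)‖ := by rw [hL, norm_div, h1]
      _ ≤ ‖fderiv ℂ u (p z)‖ * ‖deriv p z‖ / ‖u (p z)‖ := by gcongr; exact ContinuousLinearMap.le_opNorm _ _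
      _ = ‖fderiv ℂ u (p z)‖ / ‖u (p z)‖ * ‖deriv p z‖ := by ring
      _ ≤ _ := mul_le_mul_of_nonneg_right h2 (norm_nonneg _)
  have hK0 : 0 ≤ max K 0 := le_max_right _ _
  refine ⟨C + max K 0, fun z => η z - (starRingEnd ℂ) (L z), err, add_nonneg hC hK0, ?_, herr, fun z hz hs' => ⟨?_, (hout z hz hs').2⟩, fun z hz hs' => ?_, he0,
    fun z hz => ?_, fun R hR => ?_⟩
  · exact hη.sub fun z hz => (contDiffAt_conj_holo (hLan z hz)).contDiffWithinAt
  · have h0 : p z ≠ 0 := fun h0 => hs' (by rw [h0]; exact mem_ball_self hs)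
    have h1 : ∀ᶠ q in 𝓝 (p z), g q = g' q * u q := by
      filter_upwards [isOpen_ball.mem_nhds (hc.mem z hz)] with q hq
      exact hg q hq
    show η z - (starRingEnd ℂ) (L z) = (starRingEnd ℂ) (DDv v g p z)
    rw [DDv_unit hc hz (hu _ (hmem z hz)) (hu0 _ (hmem z hz)) (hg' z hz) (hne z hz h0) h1, (hout z hz hs').1, map_sub]
  · refine (norm_sub_le _ _).trans ?_
    rw [RCLike.norm_conj, add_mul]
    exact add_le_add (hin z hz hs') (hLb z hz)
  · have h1 : DifferentiableAt ℝ η z := ((hη z hz).contDiffAt (hc.isOpen.mem_nhds hz)).differentiableAt (by norm_num)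
    have h2 : DifferentiableAt ℝ (fun w => (starRingEnd ℂ) (L w)) z := (contDiffAt_conj_holo (n := 1) (hLan z hz)).differentiableAt (by norm_num)
    have h3 : dv (fun z => η z - (starRingEnd ℂ) (L z)) z = dv η z := by
      have h4 := dv_sub h1 h2
      rw [dv_conj (hLan z hz).differentiableAt, sub_zero] at h4
      exact h4
    rw [h3]
    exact hdv z hz
  · have h1 := hint R hR
    have h2 := mul_nonneg hK0 (hΛ R hR)
    nlinarith

/-- **From `LocalN1` to `LocX`**, with `Φ = 0` and a bigger density. -/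
theorem locX_of_localN1_den {lm l : ℂ → ℝ} {s δ B C₁ A K : ℝ} (hC₁ : 0 ≤ C₁) (hlc : Continuous l) (hl0 : ∀ z, 0 ≤ lm z) (hle : ∀ z, lm z ≤ l z)
    (hE : ∀ R, 1 ≤ R → ∫ z, tau R z * l z ^ 2 ≤ A * (∫ z, tau R z * lm z ^ 2) + K) (hp : ∀ z ∈ Om, ‖deriv p z‖ ≤ B * lm z)
    (h : LocalN1 v g Om p (fun R => ∫ z, tau R z * lm z ^ 2) (fun R => ∫ z, ‖gr (tau R) z‖ * l z) s δ)
    (hpt : ∀ z ∈ Om, ztv v p z ≠ 0 → g (p z) ≠ 0 → J (p z) ≠ 0 → ‖ztv v p z‖ * ‖g (p z)‖ * ‖J (p z)‖ ≤ C₁ * l z) : LocX v g J Om p lm s A δ := by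
  obtain ⟨C, η, err, hC, hη, herr, hout, hin, he0, hdv, hint⟩ := h
  have hl0' : ∀ z, 0 ≤ l z := fun z => (hl0 z).trans (hle z)
  have hL : ∀ R : ℝ, 0 ≤ ∫ z, ‖gr (tau R) z‖ * l z := fun R => integral_nonneg fun z => mul_nonneg (norm_nonneg _) (hl0' z)
  set C' : ℝ := max (C * B) (max C (max (Real.log (1 + C₁)) K)) with hC'
  have c1 : C * B ≤ C' := le_max_left _ _
  have c2 : C ≤ C' := (le_max_left _ _).trans (le_max_right _ _)
  have c3 : Real.log (1 + C₁) ≤ C' := (le_max_left _ _).trans ((le_max_right _ _).trans (le_max_right _ _))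
  have c4 : K ≤ C' := (le_max_right _ _).trans ((le_max_right _ _).trans (le_max_right _ _))
  refine ⟨C', l, η, fun _ => 0, err, hC.trans c2, hlc, hle, fun R hR => (hE R hR).trans (add_le_add le_rfl c4), hη, herr,
    fun z _ => ⟨0, ?_⟩, fun z hz hs => ⟨(hout z hz hs).1, (hout z hz hs).2, rfl⟩, fun z hz hs => ?_, fun z hz _ => ?_, fun z hz _ h1 h2 h3 => ?_, fun R hR => ?_⟩
  · refine ⟨fun _ => 0, contDiff_const.contDiffAt, Eventually.of_forall fun w => by simp⟩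
  · refine (hin z hz hs).trans ?_
    calc C * ‖deriv p z‖ ≤ C * (B * lm z) := mul_le_mul_of_nonneg_left (hp z hz) hC
      _ = C * B * lm z := by ring
      _ ≤ C' * l z := mul_le_mul c1 (hle z) (hl0 z) (hC.trans c2)
  · have h0 : Δ (fun _ : ℂ => (0 : ℝ)) z = 0 := by
      rw [InnerProductSpace.laplacian_const]
      rfl
    rw [h0, add_zero]
    exact hdv z hz
  · have h4 := hpt z hz h1 h2 h3
    have h5 : Real.log ‖ztv v p z‖ + Real.log ‖g (p z)‖ + Real.log ‖J (p z)‖ = Real.log (‖ztv v p z‖ * ‖g (p z)‖ * ‖J (p z)‖) := by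
      rw [Real.log_mul (mul_ne_zero (norm_ne_zero_iff.2 h1) (norm_ne_zero_iff.2 h2)) (norm_ne_zero_iff.2 h3), Real.log_mul (norm_ne_zero_iff.2 h1) (norm_ne_zero_iff.2 h2)]
    rw [h5, add_zero]
    have h6 : 0 < ‖ztv v p z‖ * ‖g (p z)‖ * ‖J (p z)‖ :=
      mul_pos (mul_pos (norm_pos_iff.2 h1) (norm_pos_iff.2 h2)) (norm_pos_iff.2 h3)
    have h7 : C₁ * l z ≤ (1 + C₁) * (1 + l z) := by nlinarith [hl0' z]
    calc Real.log (‖ztv v p z‖ * ‖g (p z)‖ * ‖J (p z)‖) ≤ Real.log ((1 + C₁) * (1 + l z)) := Real.log_le_log h6 (h4.trans h7)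
      _ = Real.log (1 + C₁) + Real.log (1 + l z) := Real.log_mul (by linarith) (by linarith [hl0' z])
      _ ≤ _ := by gcongr
  · refine (hint R hR).trans ?_
    have h2 := mul_le_mul_of_nonneg_right c2 (hL R)
    simp only at h2 ⊢
    linarith

end Pool.Agent.MQL
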