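import Pool.Agent.MQL.Defs

/-!
# MQL Stub: the logarithmic package (statements; never import this file in a hand-in)

Every section is one module `Pool/Agent/MQL/<Module>.lean`, namespace `Pool.Agent.MQL`, with the same statements.
-/

set_option autoImplicit false

open Topology Filter Metric MeasureTheory Asymptotics Laplacian

noncomputable section

namespace Pool.Agent.MQL

open Pool.Agent.H36.BP (EN)
open Pool.Agent.H30M (tau LogSing)
open Pool.Agent.MQ Pool.Agent.MQ2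

/-! ## module RootE (helper69): the root energy -/

theorem root_energy {al r s B : ℝ} (hal : -1 < al) (hs : 0 < s) (hsr : s < r) (hB : 0 ≤ B) : ∃ A : ℝ, 0 ≤ A ∧ ∀ (Om : Set ℂ) (p : ℂ → ℂ × ℂ) (lm : ℂ → ℝ),
    IsOpen Om → (∀ z ∈ Om, AnalyticAt ℂ p z) → (∀ z ∈ Om, p z ∈ ball (0 : ℂ × ℂ) r) → (∀ t < r, IsClosed {z | z ∈ Om ∧ p z ∈ closedBall (0 : ℂ × ℂ) t}) →
    (∀ z ∈ Om, (p z).1 ≠ 0) → Continuous lm → (∀ z, 0 ≤ lm z) → (∀ z ∈ Om, ‖deriv p z‖ ≤ B * lm z) →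
    ∃ (l₁ : ℂ → ℝ) (K : ℝ), Continuous l₁ ∧ (∀ z, lm z ≤ l₁ z) ∧ (∀ R, 1 ≤ R → ∫ z, tau R z * l₁ z ^ 2 ≤ A * (∫ z, tau R z * lm z ^ 2) + K) ∧
      ∀ z ∈ Om, p z ∈ closedBall (0 : ℂ × ℂ) s → ‖(deriv p z).1‖ * ‖(p z).1‖ ^ al ≤ l₁ z := by sorry

/-! ## module RegD (helper69): regular points; `Φ = χ₁ (X) χ (Y) ψ`, `ψ = 1/2 log (|x y|² + |x_Y y|² + |x y_Y|²)`, the error is small by the contact of `Q` with
the leaf -/

theorem goodD_reg {al be : ℝ} (hal : -1 < al) (hbe : -1 < be) {v : ℂ × ℂ → ℂ × ℂ} (hv : AnalyticAt ℂ v 0) (h0 : v 0 ≠ 0) : GoodD GT al be v := by sorry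

/-! ## module RegD0: the regular points which need no separatrix: every axis of `D` is transversal or invariant, and at most one is transversal (`Φ = 0`) -/

theorem goodD_reg0 {al be : ℝ} (hal : -1 < al) (hbe : -1 < be) {v : ℂ × ℂ → ℂ × ℂ} (hv : AnalyticAt ℂ v 0) (h0 : v 0 ≠ 0)
    (hx : al < 0 → (v 0).1 ≠ 0 ∨ ∀ᶠ t in 𝓝 (0 : ℂ), (v (0, t)).1 = 0) (hy : be < 0 → (v 0).2 ≠ 0 ∨ ∀ᶠ t in 𝓝 (0 : ℂ), (v (t, 0)).2 = 0)
    (hxy : al < 0 → be < 0 → (∀ᶠ t in 𝓝 (0 : ℂ), (v (0, t)).1 = 0) ∨ ∀ᶠ t in 𝓝 (0 : ℂ), (v (t, 0)).2 = 0) : GoodD0 GT al be v := by sorry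

/-! ## module BasicD -/

theorem GoodD.mono {P P' : (ℂ × ℂ → ℂ) → Prop} {al be : ℝ} {v : ℂ × ℂ → ℂ × ℂ} (h : ∀ g, P g → Wt v g → AxW al be v g → P' g) (hv : GoodD P' al be v) :
    GoodD P al be v := by sorry

theorem GoodD.congr {P : (ℂ × ℂ → ℂ) → Prop} {al be : ℝ} {v v' : ℂ × ℂ → ℂ × ℂ} (h : v =ᶠ[𝓝 0] v') (hv : GoodD P al be v) : GoodD P al be v' := by sorry

theorem GoodD.swap {P : (ℂ × ℂ → ℂ) → Prop} {al be : ℝ} {v : ℂ × ℂ → ℂ × ℂ} (hv : GoodD (SG P) be al (swv v)) : GoodD P al be v := by sorry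

/-- the black box of the second stage: `J ≤ 1` for nonnegative exponents -/
theorem goodD_of_good {al be : ℝ} (hal : 0 ≤ al) (hbe : 0 ≤ be) {v : ℂ × ℂ → ℂ × ℂ} (h : Good PT v) : GoodD GT al be v := by sorry

/-- a positive exponent can be replaced by `0` -/
theorem GoodD.exp_zero {P : (ℂ × ℂ → ℂ) → Prop} {al be : ℝ} (hbe : 0 ≤ be) {v : ℂ × ℂ → ℂ × ℂ} (h : GoodD P al 0 v) : GoodD P al be v := by sorry

/-! ## module StepD (helper82, helper93): the blow-up step.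

The special directions are the `t` with `w t 0 = 0`, `t = 0` if `be < 0`, `∞` if `al < 0`, and if `al + be < -1`, `ι = 0` the points where `w t` is tangent to the
exceptional line.  Elsewhere (and in the base chart) the bound is given by the root densities: `|ζ'| ≤ C |x'|` at a transversal axis, `|g| |x| ^ al ≤ C` at an
invariant one.  (`1 + al + be < 0` implies `al < 0` and `be < 0`, so the curves avoid both axes.) -/

theorem goodD_step {P : (ℂ × ℂ → ℂ) → Prop} {al be' : ℝ} (hal : -1 < al) (hbe : -1 < be') {v : ℂ × ℂ → ℂ × ℂ} (hv : Iso v) {e ι : ℕ}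
    {w : ℂ → ℂ × ℂ → ℂ × ℂ} {wi : ℂ × ℂ → ℂ × ℂ} (hw : ∀ t, Child e ι t v (w t)) (hwi : Child e ι 0 (swv v) wi)
    (h0 : GoodD (TG ι 0 P) (1 + al + be') be' (w 0)) (hg : ∀ t, t ≠ 0 → GoodD (TG ι t P) (1 + al + be') 0 (w t))
    (hgi : GoodD (TG ι 0 (SG P)) (1 + al + be') al wi) : GoodD P al be' v := by sorry

/-! ## module CorD (helper64): the two corners.  `g = x y * unit`: `|ζ'| |x y| |x| ^ al |y| ^ be ≤ C |x'| |x| ^ al`, the field is the one of `good_C` -/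

theorem goodD_corner {al be : ℝ} (hal : -1 < al) (hbe : -1 < be) {a b : ℂ × ℂ → ℂ} (ha : AnalyticAt ℂ a 0) (hb : AnalyticAt ℂ b 0) (ha0 : a 0 ≠ 0) (hb0 : b 0 ≠ 0)
    (hq : ∀ k l : ℕ, 1 ≤ k → 1 ≤ l → k * a 0 ≠ l * b 0) : GoodD GC al be fun p => (p.1 * a p, p.2 * b p) := by sorry

/-! ## module SnD (helper76): the saddle-node with both axes in the weight: `|ζ'| |x y| |x| ^ al |y| ^ be ≤ C |y'| |y| ^ be`, the field is the one of `good_sn` -/

theorem goodD_sn2 {al be : ℝ} (hal : -1 < al) (hbe : -1 < be) {k : ℕ} (hk : 1 ≤ k) {a b : ℂ × ℂ → ℂ} (ha : AnalyticAt ℂ a 0) (hb : AnalyticAt ℂ b 0)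
    (ha0 : a 0 ≠ 0) (hb0 : b 0 ≠ 0) : GoodD GC al be fun p => (p.1 ^ (k + 1) * a p, p.2 * b p) := by sorry

/-! ## module PtN: the points of an invariant exceptional line `{x = 0}`, nodes.

`al, be ≥ 0`: `good_of_iso`.  `be = 0`, `al < 0`: one step, the children at the finite points have the exponents `(1 + al, 0)`: black box; at `∞`: `goodD_corner`.
`be < 0`, `{y = 0}` invariant: `goodD_corner`.  `be < 0`, `{y = 0}` not invariant: one step; the order of `b (x, 0)` drops by one at `t = 0` (induction),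
at `t = 0` the child is a node of the same kind or regular (`goodD_reg`); other singular direction: exponents `(1 + al + be, 0)`; `∞`: corner. -/

theorem goodD_N {al be : ℝ} (hal : -1 < al) (hbe : -1 < be) {a b : ℂ × ℂ → ℂ} (ha : AnalyticAt ℂ a 0) (hb : AnalyticAt ℂ b 0) (ha0 : a 0 ≠ 0) (hb0 : b 0 = 0)
    (hb1 : fderiv ℂ b 0 (0, 1) ≠ 0) (hq : ∀ k l : ℕ, 1 ≤ k → 1 ≤ l → k * a 0 ≠ l * fderiv ℂ b 0 (0, 1)) : GoodD DivX al be fun p => (p.1 * a p, b p) := by sorry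

/-! ## module PtS: the points of an invariant exceptional line `{x = 0}`, saddle-nodes with the strong separatrix `{x = 0}`.

As `goodD_N`; the corner at `∞` is a node with the eigenvalues `-b_y`, `b_y`.  `be < 0`, `{y = 0}` invariant, `a (x, 0) = x ^ k * unit`: `k` steps at `t = 0`, then
`goodD_sn2`. -/

theorem goodD_S {al be : ℝ} (hal : -1 < al) (hbe : -1 < be) {a b : ℂ × ℂ → ℂ} (ha : AnalyticAt ℂ a 0) (hb : AnalyticAt ℂ b 0) (ha0 : a 0 = 0) (hb0 : b 0 = 0)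
    (hb1 : fderiv ℂ b 0 (0, 1) ≠ 0) (hiso : ∀ᶠ p in 𝓝 (0 : ℂ × ℂ), p ≠ 0 → (p.1 * a p, b p) ≠ (0 : ℂ × ℂ)) : GoodD DivX al be fun p => (p.1 * a p, b p) := by sorry

/-! ## module ElemD (helper35): as `good_elem` (MQ2/TE) -/

theorem goodD_elem {al be : ℝ} (hal : -1 < al) (hbe : -1 < be) {v : ℂ × ℂ → ℂ × ℂ} (hv : Iso v) (he : Elem v) : GoodD GT al be v := by sorry

/-! ## module TreeD (helper87): induction over the tree, for all exponents -/

theorem goodD_of_iso {al be : ℝ} (hal : -1 < al) (hbe : -1 < be) {v : ℂ × ℂ → ℂ × ℂ} (hv : Iso v) : GoodD GT al be v := by sorry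

end Pool.Agent.MQL
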